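import Pool.Agent.Lib.MP_551055_al.LS.PStmts

/-!
# Module PExt: the horseshoe lemma for modules with finite resolutions
-/

set_option autoImplicit false

namespace Pool.Agent.Lib.MP_551055_al.LS

open Pool.Agent.Lib.MP_551055_al

universe u

namespace PExt

variable {R : Type u} [Ring R]

/-- Extension by zero. -/
def inlL (α β : Type) : (α → R) →ₗ[R] (α ⊕ β → R) where
  toFun x := Sum.elim x 0
  map_add' x y := by
    funext j
    rcases j with j | j
    · rfl
    · exact (add_zero (0 : R)).symm
  map_smul' s x := by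
    funext j
    rcases j with j | j
    · rfl
    · exact (mul_zero s).symm

theorem inlL_inl (α β : Type) (x : α → R) : inlL α β x ∘ Sum.inl = x := rfl

theorem inlL_inr (α β : Type) (x : α → R) : inlL α β x ∘ Sum.inr = 0 := rfl

/-- The map `(x, y) ↦ f x + g y`. -/
noncomputable def sumMap {α β : Type} {B : Type u} [AddCommGroup B] [Module R B]
    (f : (α → R) →ₗ[R] B) (g : (β → R) →ₗ[R] B) : (α ⊕ β → R) →ₗ[R] B :=
  f ∘ₗ LinearMap.funLeft R R (Sum.inl : α → α ⊕ β) +
    g ∘ₗ LinearMap.funLeft R R (Sum.inr : β → α ⊕ β)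

theorem sumMap_apply {α β : Type} {B : Type u} [AddCommGroup B] [Module R B]
    (f : (α → R) →ₗ[R] B) (g : (β → R) →ₗ[R] B) (z : α ⊕ β → R) :
    sumMap f g z = f (z ∘ Sum.inl) + g (z ∘ Sum.inr) := rfl

end PExt

open PExt in
/-- Module PExt. -/
theorem stPExt : StPExt.{u} := by
  intro R _ d
  induction d with
  | zero =>
    intro A B C _ _ _ _ _ _ i q hi hq hr hA hC
    obtain ⟨hA1, hA2⟩ := hA
    obtain ⟨hC1, hC2⟩ := hC
    obtain ⟨s, hs⟩ := Module.projective_lifting_property q LinearMap.id hq
    have hs' : ∀ c, q (s c) = c := fun c => DFunLike.congr_fun hs c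
    have hqi : ∀ a, q (i a) = 0 := fun a => by
      rw [← LinearMap.mem_ker, ← hr]
      exact ⟨a, rfl⟩
    let h : (A × C) →ₗ[R] B := LinearMap.coprod i s
    have hbij : Function.Bijective h := by
      constructor
      · rw [← LinearMap.ker_eq_bot, eq_bot_iff]
        rintro ⟨a, c⟩ hac
        have h1 : i a + s c = 0 := by
          rw [LinearMap.mem_ker] at hac
          exact hac
        have h2 : c = 0 := by
          have h3 := congrArg q h1
          rwa [map_add, hqi, hs', zero_add, map_zero] at h3
        have h4 : a = 0 := by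
          rw [h2, map_zero, add_zero] at h1
          exact hi (by rw [h1, map_zero])
        rw [Submodule.mem_bot, h2, h4]
        rfl
      · intro b
        have h1 : b - s (q b) ∈ LinearMap.range i := by
          rw [hr, LinearMap.mem_ker, map_sub, hs', sub_self]
        obtain ⟨a, ha⟩ := h1
        refine ⟨(a, q b), ?_⟩
        change i a + s (q b) = b
        rw [ha, sub_add_cancel]
    let e : (A × C) ≃ₗ[R] B := LinearEquiv.ofBijective h hbij
    exact ⟨Module.Finite.equiv e, Module.Projective.of_equiv e⟩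
  | succ d ih =>
    intro A B C _ _ _ _ _ _ i q hi hq hr hA hC
    obtain ⟨a, fA, hfA, hkA⟩ := hA
    obtain ⟨c, fC, hfC, hkC⟩ := hC
    obtain ⟨g, hg⟩ := Module.projective_lifting_property q fC hq
    have hg' : ∀ y, q (g y) = fC y := fun y => DFunLike.congr_fun hg y
    have hqi : ∀ a, q (i a) = 0 := fun a => by
      rw [← LinearMap.mem_ker, ← hr]
      exact ⟨a, rfl⟩
    let h : (Fin a ⊕ Fin c → R) →ₗ[R] B := sumMap (i ∘ₗ fA) g
    have hh : ∀ z, h z = i (fA (z ∘ Sum.inl)) + g (z ∘ Sum.inr) := fun z => rfl
    have hsurj : Function.Surjective h := by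
      intro b
      obtain ⟨y, hy⟩ := hfC (q b)
      have h1 : b - g y ∈ LinearMap.range i := by
        rw [hr, LinearMap.mem_ker, map_sub, hg', hy, sub_self]
      obtain ⟨a', ha'⟩ := h1
      obtain ⟨x, rfl⟩ := hfA a'
      refine ⟨Sum.elim x y, ?_⟩
      rw [hh, Sum.elim_comp_inl, Sum.elim_comp_inr, ha', sub_add_cancel]
    let i' : LinearMap.ker fA →ₗ[R] LinearMap.ker h :=
      LinearMap.codRestrict (LinearMap.ker h) (inlL (Fin a) (Fin c) ∘ₗ (LinearMap.ker fA).subtype)
        fun x => by
          rw [LinearMap.mem_ker, hh]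
          change i (fA (x : Fin a → R)) + g 0 = 0
          rw [LinearMap.mem_ker.1 x.2, map_zero, map_zero, add_zero]
    let q' : LinearMap.ker h →ₗ[R] LinearMap.ker fC :=
      LinearMap.codRestrict (LinearMap.ker fC)
        (LinearMap.funLeft R R (Sum.inr : Fin c → Fin a ⊕ Fin c) ∘ₗ (LinearMap.ker h).subtype)
        fun z => by
          rw [LinearMap.mem_ker]
          change fC ((z : Fin a ⊕ Fin c → R) ∘ Sum.inr) = 0
          have h1 := LinearMap.mem_ker.1 z.2
          rw [hh] at h1
          have h2 := congrArg q h1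
          rwa [map_add, hqi, zero_add, hg', map_zero] at h2
    have hi' : Function.Injective i' := by
      intro x y hxy
      apply Subtype.ext
      have h1 : inlL (Fin a) (Fin c) (x : Fin a → R) = inlL (Fin a) (Fin c) (y : Fin a → R) :=
        congrArg Subtype.val hxy
      exact congrArg (fun z => z ∘ Sum.inl) h1
    have hq' : Function.Surjective q' := by
      intro y
      have h1 : g (y : Fin c → R) ∈ LinearMap.range i := by
        rw [hr, LinearMap.mem_ker, hg']
        exact LinearMap.mem_ker.1 y.2
      obtain ⟨a', ha'⟩ := h1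
      obtain ⟨x, rfl⟩ := hfA a'
      have h2 : (Sum.elim (-x) (y : Fin c → R) : Fin a ⊕ Fin c → R) ∈ LinearMap.ker h := by
        rw [LinearMap.mem_ker, hh, Sum.elim_comp_inl, Sum.elim_comp_inr, map_neg, map_neg, ha',
          neg_add_cancel]
      exact ⟨⟨_, h2⟩, Subtype.ext rfl⟩
    have hr' : LinearMap.range i' = LinearMap.ker q' := by
      ext z
      constructor
      · rintro ⟨x, rfl⟩
        rw [LinearMap.mem_ker]
        exact Subtype.ext rfl
      · intro hz
        have h1 : (z : Fin a ⊕ Fin c → R) ∘ Sum.inr = 0 :=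
          congrArg Subtype.val (LinearMap.mem_ker.1 hz)
        have h2 := LinearMap.mem_ker.1 z.2
        rw [hh, h1, map_zero, add_zero] at h2
        have h3 : (z : Fin a ⊕ Fin c → R) ∘ Sum.inl ∈ LinearMap.ker fA := by
          rw [LinearMap.mem_ker]
          exact hi (by rw [h2, map_zero])
        refine ⟨⟨_, h3⟩, Subtype.ext ?_⟩
        funext j
        rcases j with j | j
        · rfl
        · exact (congrFun h1 j).symm
    exact FFR.of_surj h hsurj (ih (LinearMap.ker fA) (LinearMap.ker h) (LinearMap.ker fC) i' q'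
      hi' hq' hr' hkA hkC)

end Pool.Agent.Lib.MP_551055_al.LS
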