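import Pool.Agent.Lib.MP_551055_al.LS.RegSub

/-!
# Kernels of maps to free modules over a regular coherent ring
-/

set_option autoImplicit false

namespace Pool.Agent.Lib.MP_551055_al.LS

open Pool.Agent.Lib.MP_551055_al

universe u

section Rings

variable {R : Type u} [Ring R]

/-- Modules with a finite resolution are finitely presented. -/
theorem FFR.fp {d : ℕ} {M : Type u} [AddCommGroup M] [Module R M] (h : FFR R d M) :
    Module.FinitePresentation R M := by
  cases d with
  | zero =>
    obtain ⟨h1, h2⟩ := h
    exact Module.finitePresentation_of_projective R M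
  | succ d =>
    obtain ⟨n, f, hf, hk⟩ := h
    exact Module.finitePresentation_of_surjective f hf (Module.Finite.iff_fg.mp hk.finite)

/-- A finitely generated module which embeds into a finite free module. -/
theorem exists_ffr_of_injective (h : RegCoh R) {K : Type u} [AddCommGroup K] [Module R K]
    [Module.Finite R K] {n : ℕ} (j : K →ₗ[R] (Fin n → R)) (hj : Function.Injective j) :
    ∃ d, FFR R d K := by
  obtain ⟨m, f, hf⟩ := Module.Finite.exists_fin' R K
  obtain ⟨d, hd⟩ := RegSubAux.exists_ffr_range h (j ∘ₗ f)
  have hr : LinearMap.range (j ∘ₗ f) = LinearMap.range j := by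
    rw [LinearMap.range_comp, LinearMap.range_eq_top.mpr hf, Submodule.map_top]
  exact ⟨d, hd.congr ((LinearEquiv.ofEq _ _ hr).trans (LinearEquiv.ofInjective j hj).symm)⟩

/-- (C1) A finitely generated submodule of a free module has a finite resolution. -/
theorem exists_ffr_of_free (h : RegCoh R) {E : Type u} [AddCommGroup E] [Module R E]
    [Module.Free R E] (L : Submodule R E) (hL : L.FG) : ∃ d, FFR R d L := by
  classical
  have hfin : Module.Finite R L := Module.Finite.iff_fg.mpr hL
  obtain ⟨s, hs⟩ := hL
  let b := Module.Free.chooseBasis R E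
  let t : Finset (Module.Free.ChooseBasisIndex R E) := s.biUnion fun x => (b.repr x).support
  have ht : ∀ x ∈ L, (b.repr x).support ⊆ t := by
    have hle : L ≤ (Finsupp.supported R R (t : Set _)).comap b.repr.toLinearMap := by
      rw [← hs, Submodule.span_le]
      intro x hx
      rw [SetLike.mem_coe, Submodule.mem_comap, Finsupp.mem_supported]
      exact Finset.coe_subset.mpr (Finset.subset_biUnion_of_mem (fun x => (b.repr x).support) hx)
    intro x hx
    have h1 := hle hx
    rw [Submodule.mem_comap, Finsupp.mem_supported] at h1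
    exact Finset.coe_subset.mp h1
  let e : Fin t.card ≃ t := (Fintype.equivFinOfCardEq (by simp)).symm
  let j : L →ₗ[R] (Fin t.card → R) :=
    LinearMap.pi fun i => (Finsupp.lapply (e i : Module.Free.ChooseBasisIndex R E)) ∘ₗ
      b.repr.toLinearMap ∘ₗ L.subtype
  have hj : ∀ x i, j x i = b.repr (x : E) (e i) := fun x i => rfl
  refine exists_ffr_of_injective h j ?_
  rw [← LinearMap.ker_eq_bot, LinearMap.ker_eq_bot']
  intro x hx
  apply Subtype.ext
  apply b.repr.injective
  rw [ZeroMemClass.coe_zero, map_zero]
  ext k
  rw [Finsupp.zero_apply]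
  by_contra hk
  have hkt : k ∈ t := ht x.1 x.2 (Finsupp.mem_support_iff.mpr hk)
  have h1 := congrFun hx (e.symm ⟨k, hkt⟩)
  rw [hj, Equiv.apply_symm_apply] at h1
  exact hk h1

/-- A finitely generated submodule of a finitely generated projective module has a finite
resolution. -/
theorem exists_ffr_of_projective (h : RegCoh R) {P : Type u} [AddCommGroup P] [Module R P]
    [Module.Finite R P] [Module.Projective R P] (L : Submodule R P) (hL : L.FG) :
    ∃ d, FFR R d L := by
  have hfin : Module.Finite R L := Module.Finite.iff_fg.mpr hL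
  obtain ⟨n, f, hf⟩ := Module.Finite.exists_fin' R P
  obtain ⟨s, hs⟩ := Module.projective_lifting_property f LinearMap.id hf
  have hs' : ∀ y, f (s y) = y := fun y => DFunLike.congr_fun hs y
  have hsi : Function.Injective s := Function.LeftInverse.injective hs'
  exact exists_ffr_of_injective h (s ∘ₗ L.subtype)
    (hsi.comp (Submodule.injective_subtype L))

/-- The kernel of a map from a finitely generated module to a free module. -/
theorem fg_ker_of_free (h : RegCoh R) {P E : Type u} [AddCommGroup P] [Module R P]
    [Module.Finite R P] [AddCommGroup E] [Module R E] [Module.Free R E] (g : P →ₗ[R] E) :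
    (LinearMap.ker g).FG := by
  obtain ⟨d, hd⟩ := exists_ffr_of_free h (LinearMap.range g)
    (Module.Finite.iff_fg.mp inferInstance)
  have := hd.fp
  have h1 := Module.FinitePresentation.fg_ker g.rangeRestrict g.surjective_rangeRestrict
  rwa [LinearMap.ker_rangeRestrict] at h1

end Rings

theorem stCoh : StCoh.{u} := by
  intro R _ h P E E' _ _ _ _ _ _ g g' hPf hPp hE hE' hle
  have h1 : (LinearMap.ker g).FG := fg_ker_of_free h g
  have h2 : (LinearMap.ker g').FG := fg_ker_of_free h g'
  obtain ⟨d, hd⟩ := exists_ffr_of_projective h (LinearMap.ker g') h2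
  have hfp := hd.fp
  refine h _ (Module.finitePresentation_of_surjective
    ((LinearMap.ker g).submoduleOf (LinearMap.ker g')).mkQ (Submodule.mkQ_surjective _) ?_)
  rw [Submodule.ker_mkQ]
  have h3 : Module.Finite R (LinearMap.ker g) := Module.Finite.iff_fg.mpr h1
  have h4 : Module.Finite R ((LinearMap.ker g).submoduleOf (LinearMap.ker g')) :=
    Module.Finite.equiv (Submodule.submoduleOfEquivOfLe hle).symm
  exact Module.Finite.iff_fg.mp h4

end Pool.Agent.Lib.MP_551055_al.LS
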