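import Pool.Agent.Lib.MP_551055_al.LS.FFR

/-!
# Long segments: the final assembly
-/

set_option autoImplicit false

namespace Pool.Agent.Lib.MP_551055_al.LS

open Pool.Agent.Lib.MP_551055_al
open Pool.Agent.Lib.MP_551055_al.Red (Img)

universe u v

/-! ## The theorem for `K₁` -/

theorem stMainK1 (hTreeB : StTreeB.{u, v}) (hTreeC : StTreeC.{u, v}) (hNil : StNil.{u, v})
    (hStep : StStep.{u, v}) (hKI : StKI.{u, v}) (hTheta : StTheta.{u, v})
    (hAdapt : StAdapt.{u, v}) (hInit : StInit.{u, v}) : StMainK1.{u, v} := by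
  intro Γ _ V _ T hT hP l hl hR K hV n α hα
  -- nilpotent maps along segments of length `l`
  have hG : NilGood K T l := by
    intro ι _ p ν hp hnil htr
    exact hNil Γ K (V × V) (sh T l) (hTreeB Γ V T hT l hl).1 ι p ν hnil htr
      fun i => hR (p i).1 (p i).2 (hp i)
  have hdown : ∀ k : ℕ, NilGood K T (k + 1) → NilGood K T 1 := by
    intro k
    induction k with
    | zero => exact fun h => h
    | succ k ih => exact fun h => ih (hStep Γ V T hT K (k + 1) (Nat.le_add_left 1 k) h)
  have hG1 : NilGood K T 1 := by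
    obtain ⟨k, rfl⟩ : ∃ k, l = k + 1 := ⟨l - 1, by omega⟩
    exact hdown k hG
  obtain ⟨_, O, hO, hO'⟩ := hTreeC Γ V T hT
  obtain ⟨s, hs, hsα⟩ := hInit Γ V T hT O hO' K n α hα
  obtain ⟨s', hs', hss'⟩ := hAdapt Γ V T hT hP O hO hO' K hV s hs
  obtain ⟨ψ, ω, hψ, hΦ, hω, htr⟩ := hTheta Γ V T hT s' hs'
  apply hsα
  apply hss'
  rw [hΦ]
  have h1 : K.G ((1 : Module.End (ZG Γ) (F Γ (s'.K ⊕ s'.I))) + ω) :=
    hKI Γ V T hT K hG1 s'.K s'.I s'.f s'.v ω s'.adj hω htr
  have h2 : K.G ψ.toLinearMap := hV _ _ _ _ ψ.toLinearMap hψ ψ.bijective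
  exact K.comp _ _ h1 h2

/-! ## Change of rings along isomorphisms -/

section Semi

/-- The coordinatewise semilinear equivalence. -/
def piSemi {R R' : Type u} [Ring R] [Ring R'] {σ : R →+* R'} {σ' : R' →+* R}
    [h1 : RingHomInvPair σ σ'] [h2 : RingHomInvPair σ' σ] (n : ℕ) :
    (Fin n → R) ≃ₛₗ[σ] (Fin n → R') where
  toFun y := fun i => σ (y i)
  map_add' y z := by
    funext i
    exact map_add σ _ _
  map_smul' s y := by
    funext i
    exact map_mul σ _ _
  invFun y := fun i => σ' (y i)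
  left_inv y := by
    funext i
    exact RingHomInvPair.comp_apply_eq
  right_inv y := by
    funext i
    exact RingHomInvPair.comp_apply_eq₂

variable {R R' : Type u} [Ring R] [Ring R'] {σ : R →+* R'} {σ' : R' →+* R}
  [RingHomInvPair σ σ'] [RingHomInvPair σ' σ]

/-- A semilinear equivalence maps the kernel of `f` onto the kernel of the transported map. -/
def kerSemi {A M : Type u} {A' M' : Type u} [AddCommGroup A] [AddCommGroup M] [AddCommGroup A']
    [AddCommGroup M'] [Module R A] [Module R M] [Module R' A'] [Module R' M']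
    (E : A ≃ₛₗ[σ] A') (f : A →ₗ[R] M) (f' : A' →ₗ[R'] M')
    (h : ∀ y, f y = 0 ↔ f' (E y) = 0) : LinearMap.ker f ≃ₛₗ[σ] LinearMap.ker f' where
  toFun y := ⟨E y, LinearMap.mem_ker.2 ((h y).1 (LinearMap.mem_ker.1 y.2))⟩
  map_add' y z := Subtype.ext (map_add E _ _)
  map_smul' s y := Subtype.ext (E.map_smulₛₗ s _)
  invFun y := ⟨E.symm y, LinearMap.mem_ker.2 ((h _).2 (by
    rw [LinearEquiv.apply_symm_apply]
    exact LinearMap.mem_ker.1 y.2))⟩
  left_inv y := Subtype.ext (E.symm_apply_apply _)
  right_inv y := Subtype.ext (E.apply_symm_apply _)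

/-- The transported map. -/
def trSemi {A M : Type u} {A' M' : Type u} [AddCommGroup A] [AddCommGroup M] [AddCommGroup A']
    [AddCommGroup M'] [Module R A] [Module R M] [Module R' A'] [Module R' M']
    (E : A ≃ₛₗ[σ] A') (E' : M ≃ₛₗ[σ] M') (f : A →ₗ[R] M) : A' →ₗ[R'] M' where
  toFun y := E' (f (E.symm y))
  map_add' y z := by rw [map_add, map_add, map_add]
  map_smul' s y := by
    rw [E.symm.map_smulₛₗ, map_smul, E'.map_smulₛₗ, RingHomInvPair.comp_apply_eq₂]
    rfl

theorem FFR.semi (d : ℕ) : ∀ {M M' : Type u} [AddCommGroup M] [AddCommGroup M'] [Module R M]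
    [Module R' M'] (_ : M ≃ₛₗ[σ] M'), FFR R d M → FFR R' d M' := by
  induction d with
  | zero =>
    intro M M' _ _ _ _ E h
    obtain ⟨h1, h2⟩ := h
    have := h1
    have := h2
    exact ⟨Module.Finite.of_surjective (σ := σ) E.toLinearMap E.surjective,
      Module.Projective.of_equiv E⟩
  | succ d ih =>
    intro M M' _ _ _ _ E h
    obtain ⟨n, f, hf, hk⟩ := h
    let En : (Fin n → R) ≃ₛₗ[σ] (Fin n → R') := piSemi n
    refine ⟨n, trSemi En E f, ?_, ?_⟩
    · intro y
      obtain ⟨x, hx⟩ := hf (E.symm y)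
      refine ⟨En x, ?_⟩
      change E (f (En.symm (En x))) = y
      rw [LinearEquiv.symm_apply_apply, hx, LinearEquiv.apply_symm_apply]
    · refine ih (kerSemi En f (trSemi En E f) fun y => ?_) hk
      change f y = 0 ↔ E (f (En.symm (En y))) = 0
      rw [LinearEquiv.symm_apply_apply]
      exact (map_eq_zero_iff E E.injective).symm

theorem fp_semi {M M' : Type u} [AddCommGroup M] [AddCommGroup M'] [Module R M]
    [Module R' M'] (E : M ≃ₛₗ[σ] M') (h : Module.FinitePresentation R M) :
    Module.FinitePresentation R' M' := by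
  obtain ⟨n, K, e, hK⟩ := Module.FinitePresentation.exists_fin R M
  let f : (Fin n → R) →ₗ[R] M := e.symm.toLinearMap ∘ₗ K.mkQ
  have hf : Function.Surjective f := e.symm.surjective.comp K.mkQ_surjective
  have hk : LinearMap.ker f = K := by
    rw [LinearMap.ker_comp, LinearEquiv.ker, ← LinearMap.ker, Submodule.ker_mkQ]
  let En : (Fin n → R) ≃ₛₗ[σ] (Fin n → R') := piSemi n
  refine Module.finitePresentation_of_free_of_surjective (trSemi En E f) ?_ ?_
  · intro y
    obtain ⟨x, hx⟩ := hf (E.symm y)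
    refine ⟨En x, ?_⟩
    change E (f (En.symm (En x))) = y
    rw [LinearEquiv.symm_apply_apply, hx, LinearEquiv.apply_symm_apply]
  · have h1 : Module.Finite R (LinearMap.ker f) := by
      rw [hk]
      exact Module.Finite.iff_fg.2 hK
    have h2 : LinearMap.ker f ≃ₛₗ[σ] LinearMap.ker (trSemi En E f) :=
      kerSemi En f (trSemi En E f) fun y => by
        change f y = 0 ↔ E (f (En.symm (En y))) = 0
        rw [LinearEquiv.symm_apply_apply]
        exact (map_eq_zero_iff E E.injective).symm
    exact Module.Finite.iff_fg.1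
      (Module.Finite.of_surjective (σ := σ) h2.toLinearMap h2.surjective)

end Semi

theorem RegCoh.congr {R R' : Type u} [Ring R] [Ring R'] (e : R ≃+* R') (h : RegCoh R) :
    RegCoh R' := by
  intro M _ inst hM
  let _ : Module R M := Module.compHom M (e : R →+* R')
  have : RingHomInvPair (e : R →+* R') (e.symm : R' →+* R) := RingHomInvPair.of_ringEquiv e
  have : RingHomInvPair (e.symm : R' →+* R) (e : R →+* R') := RingHomInvPair.symm _ _
  let E : M ≃ₛₗ[(e : R →+* R')] M :=
    { toFun := fun y => y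
      map_add' := fun _ _ => rfl
      map_smul' := fun _ _ => rfl
      invFun := fun y => y
      left_inv := fun _ => rfl
      right_inv := fun _ => rfl }
  obtain ⟨d, hd⟩ := h M (fp_semi E.symm hM)
  exact ⟨d, FFR.semi d E hd⟩

theorem projStFree_congr {H H' : Type u} [Group H] [Group H'] (e : H ≃* H')
    (h : VN.ProjStFree H) : VN.ProjStFree H' := by
  apply Red.stIdem
  intro n M hM
  let φ : MonoidAlgebra ℤ H ≃+* MonoidAlgebra ℤ H' := MonoidAlgebra.mapDomainRingEquiv ℤ e
  let M₀ : Matrix (Fin n) (Fin n) (MonoidAlgebra ℤ H) := M.map φ.symm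
  have hM₀ : M₀ * M₀ = M₀ := by
    change M.map φ.symm * M.map φ.symm = M.map φ.symm
    rw [← Matrix.map_mul, hM]
  have hback : M₀.map (φ : MonoidAlgebra ℤ H →+* MonoidAlgebra ℤ H') = M := by
    ext1 i j
    exact φ.apply_symm_apply _
  have hproj : Module.Projective (MonoidAlgebra ℤ H) (Img M₀) := by
    have hid : ∀ y ∈ Img M₀, Matrix.toLinearMapRight' M₀ y = y := by
      rintro _ ⟨y, rfl⟩
      rw [← Matrix.toLinearMapRight'_mul_apply, hM₀]
    refine Module.Projective.of_split (Img M₀).subtype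
      (LinearMap.rangeRestrict (Matrix.toLinearMapRight' M₀)) ?_
    ext1 y
    exact Subtype.ext (hid y y.2)
  have h1 : StFree (MonoidAlgebra ℤ H) (Img M₀) :=
    h (Img M₀) (Module.Finite.range _) hproj
  have h2 := stFree_map (φ : MonoidAlgebra ℤ H →+* MonoidAlgebra ℤ H') M₀ hM₀ h1
  rw [hback] at h2
  exact h2

/-! ## The final theorem -/

section Final

variable {G : Type u} [Group G] {X : Type v} [MulAction G X]

/-- `G × ℤ` acts through `G`. -/
abbrev actZ (G : Type u) [Group G] (X : Type v) [MulAction G X] :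
    MulAction (G × Multiplicative ℤ) X :=
  MulAction.compHom X (MonoidHom.fst G (Multiplicative ℤ))

end Final

theorem stFinal (hMain : StMainK1.{u, v}) (hClass : StBassClass.{u}) (hMono : StBassMono.{u})
    (hVert : StBassVert.{u}) (hIdem : StBassIdem.{u}) (hGraded : StGraded.{u, v}) :
    StFinal.{u, v} := by
  intro G _ V _ T hT hPv hPe l hl hR
  let _ : MulAction (G × Multiplicative ℤ) V := actZ G V
  have hsmul : ∀ (γ : G × Multiplicative ℤ) (x : V), γ • x = γ.1 • x := fun _ _ => rfl
  have hT' : TreeAct (G × Multiplicative ℤ) V T :=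
    { tree := hT.tree
      adj := fun γ a b hab => hT.adj γ.1 a b hab
      inv := fun γ a b hab h => hT.inv γ.1 a b hab h }
  obtain ⟨K, hK⟩ := hClass G
  -- vertices
  have hV : VGood K V := by
    refine hGraded (G × Multiplicative ℤ) V K ?_ ?_
    · intro ι _ g Φ hΦ
      exact (hK ι ι Φ).2 (hMono G ι g Φ hΦ)
    · intro x
      have key : ∀ S : Subgroup (G × Multiplicative ℤ),
          S = (MulAction.stabilizer G x).prod (⊤ : Subgroup (Multiplicative ℤ)) →
          ∀ (ι κ : Type) [Fintype ι] [Fintype κ] [DecidableEq ι] [DecidableEq κ]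
            (A : Matrix ι κ (MonoidAlgebra ℤ S)) (B : Matrix κ ι (MonoidAlgebra ℤ S)),
            A * B = 1 → B * A = 1 →
            K.G (Matrix.toLinearMapRight' (A.map (inc ℤ S.subtype))) := by
        rintro S rfl ι κ _ _ _ _ A B hAB hBA
        exact (hK ι κ _).2 (hVert G (MulAction.stabilizer G x) (hPv x) ι κ A B hAB hBA)
      refine key (MulAction.stabilizer (G × Multiplicative ℤ) x) ?_
      ext γ
      rw [MulAction.mem_stabilizer_iff, Subgroup.mem_prod, MulAction.mem_stabilizer_iff, hsmul]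
      exact ⟨fun h => ⟨h, Subgroup.mem_top _⟩, fun h => h.1⟩
  -- stabilisers of pairs
  have hst : ∀ a : V × V, Nonempty ((MulAction.stabilizer G a × Multiplicative ℤ) ≃*
      MulAction.stabilizer (G × Multiplicative ℤ) a) := by
    intro a
    exact ⟨{ toFun := fun γ => ⟨(γ.1.1, γ.2), γ.1.2⟩
             invFun := fun γ => (⟨γ.1.1, γ.2⟩, γ.1.2)
             left_inv := fun _ => rfl
             right_inv := fun _ => rfl
             map_mul' := fun _ _ => rfl }⟩
  have hPe' : ∀ a b, T.Adj a b →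
      VN.ProjStFree (MulAction.stabilizer (G × Multiplicative ℤ) (a, b)) := by
    intro a b hab
    obtain ⟨e⟩ := hst (a, b)
    exact projStFree_congr e (hPe a b hab)
  have hR' : ∀ a b, T.dist a b = l →
      RegCoh (MonoidAlgebra ℤ (MulAction.stabilizer (G × Multiplicative ℤ) (a, b))) := by
    intro a b hab
    obtain ⟨e⟩ := hst (a, b)
    exact RegCoh.congr (MonoidAlgebra.mapDomainRingEquiv ℤ e) (hR a b hab)
  apply Red.stIdem
  intro n p hp
  obtain ⟨α, hα, h⟩ := hIdem G n p hp
  apply h
  rw [← hK]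
  exact hMain (G × Multiplicative ℤ) V T hT' hPe' l hl hR' K hV n α hα

end Pool.Agent.Lib.MP_551055_al.LS
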