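import Pool.Agent.Lib.MP_551055_al.LS.Stmts2

/-!
# Long segments: reduction to subgroups generated by a stabiliser and one element
-/

set_option autoImplicit false

namespace Pool.Agent.Lib.MP_551055_al.LS

open Pool.Agent.Lib.MP_551055_al

universe u v w

/-- `K` contains all isomorphisms defined over `ℤ[E]`. -/
def SGood {Γ : Type u} [Group Γ] (K : K1C (ZG Γ)) (E : Subgroup Γ) : Prop :=
  ∀ (ι κ : Type) [Fintype ι] [Fintype κ] [DecidableEq ι] [DecidableEq κ]
    (A : Matrix ι κ (MonoidAlgebra ℤ E)) (B : Matrix κ ι (MonoidAlgebra ℤ E)),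
    A * B = 1 → B * A = 1 → K.G (Matrix.toLinearMapRight' (A.map (inc ℤ E.subtype)))

/-- `K` contains the multiplications of the coordinates by group elements from the right. -/
def MGood {Γ : Type u} [Group Γ] (K : K1C (ZG Γ)) : Prop :=
  ∀ (ι : Type) [Finite ι] (g : ι → Γ) (Φ : F Γ ι →ₗ[ZG Γ] F Γ ι),
    (∀ y i, Φ y i = y i * MonoidAlgebra.single (g i) 1) → K.G Φ

/-- The matrix `B` has degree `j`: it moves the position `x` to positions `z` with `itr r j x z`. -/
def Dg {Γ : Type u} [Group Γ] {X : Type v} [MulAction Γ X] (r : X → X → Prop) (j : ℕ) {ι : Type}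
    (p : ι → X) (B : Matrix ι ι (ZG Γ)) : Prop :=
  ∀ (i l : ι) (γ : Γ), (B i l).coeff γ ≠ 0 → itr r j (p i) (γ • p l)

/-- The matrix `B` is supported on the orbit of the pair `(x, z)`. -/
def OrbS {Γ : Type u} [Group Γ] {X : Type v} [MulAction Γ X] {ι : Type}
    (p : ι → X) (B : Matrix ι ι (ZG Γ)) (x z : X) : Prop :=
  ∀ (i l : ι) (γ : Γ), (B i l).coeff γ ≠ 0 → ∃ h : Γ, p i = h • x ∧ γ • p l = h • z

/-- Module Elim. The elimination: it suffices to treat matrices supported on one orbit of pairs. -/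
def StElim : Prop :=
  ∀ (Γ : Type u) [Group Γ] (K : K1C (ZG Γ)) (X : Type v) [MulAction Γ X] (r : X → X → Prop),
    UR (Γ := Γ) r → ∀ (ι : Type) [Fintype ι] [DecidableEq ι] (p : ι → X)
      (A : Matrix ι ι (ZG Γ)) (k : ℕ), A ^ k = 0 → Dg r 1 p A →
      (∀ (j : ℕ) (B : Matrix ι ι (ZG Γ)), 1 ≤ j → B ^ k = 0 → Dg r j p B →
        ∀ x z : X, OrbS p B x z → K.G (Matrix.toLinearMapRight' (1 + B))) →
      K.G (Matrix.toLinearMapRight' (1 + A))

/-- The position `a` is good: the group ring of its stabiliser is regular coherent, or `K` contains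
all isomorphisms over the subgroups generated by the stabiliser and an element which moves `a`
along `r`. -/
def PosGood {Γ : Type u} [Group Γ] (K : K1C (ZG Γ)) {X : Type v} [MulAction Γ X]
    (r : X → X → Prop) (a : X) : Prop :=
  RegCoh (MonoidAlgebra ℤ (MulAction.stabilizer Γ a)) ∨
    ∀ (γ : Γ) (j : ℕ), 1 ≤ j → itr r j a (γ • a) →
      SGood K (MulAction.stabilizer Γ a ⊔ Subgroup.zpowers γ)

/-- Module Orb. Matrices supported on one orbit of pairs. -/
def StOrb : Prop :=
  ∀ (Γ : Type u) [Group Γ] (K : K1C (ZG Γ)), MGood K → ∀ (X : Type v) [MulAction Γ X]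
    (r : X → X → Prop), UR (Γ := Γ) r → ∀ (ι : Type) [Fintype ι] [DecidableEq ι] (p : ι → X)
      (j : ℕ) (B : Matrix ι ι (ZG Γ)) (k : ℕ), 1 ≤ j → B ^ k = 0 → Dg r j p B →
      ∀ x z : X, OrbS p B x z → (∀ i, PosGood K r (p i)) →
      K.G (Matrix.toLinearMapRight' (1 + B))

/-- Module NilE. -/
def StNilE : Prop :=
  ∀ (Γ : Type u) [Group Γ] (K : K1C (ZG Γ)), MGood K → ∀ (X : Type v) [MulAction Γ X]
    (r : X → X → Prop), UR (Γ := Γ) r → ∀ (ι : Type) [Finite ι] (p : ι → X)
      (ν : Module.End (ZG Γ) (F Γ ι)), IsNilpotent ν → Tr r p p ν → (∀ i, PosGood K r (p i)) →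
      K.G ((1 : Module.End (ZG Γ) (F Γ ι)) + ν)

/-- `γ` translates the segment from `u` to `v` along itself in the direction of `v`. -/
def Trl {Γ : Type u} [Group Γ] {V : Type v} [MulAction Γ V] (T : SimpleGraph V) (γ : Γ)
    (u v : V) : Prop :=
  γ • v ≠ v ∧ T.dist u (γ • v) = T.dist u v + T.dist v (γ • v) ∧
    T.dist u (γ • v) = T.dist u (γ • u) + T.dist (γ • u) (γ • v)

/-- The set `S` of segments is closed under prolongation at the end and every infinite reduced ray
has an initial segment in `S`. -/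
structure Bar {V : Type v} (T : SimpleGraph V) (S : V → V → Prop) : Prop where
  pro : ∀ u v w, S u v → T.Adj v w → T.dist u w = T.dist u v + 1 → S u w
  ray : ∀ x : ℕ → V, (∀ n, T.Adj (x n) (x (n + 1))) → (∀ n, x n ≠ x (n + 2)) →
    ∃ n, 1 ≤ n ∧ S (x 0) (x n)

/-- Module RayE. -/
def StRayE : Prop :=
  ∀ (Γ : Type u) [Group Γ] (V : Type v) [MulAction Γ V] (T : SimpleGraph V), TreeAct Γ V T →
    ∀ (K : K1C (ZG Γ)), MGood K → ∀ (S : V → V → Prop), Bar T S →
      (∀ u v, S u v → u ≠ v → RegCoh (MonoidAlgebra ℤ (MulAction.stabilizer Γ (v, u))) ∨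
        ∀ γ : Γ, Trl T γ u v → SGood K (MulAction.stabilizer Γ (v, u) ⊔ Subgroup.zpowers γ)) →
      NilGood K T 1

/-- The final theorem. -/
def StFinalE : Prop :=
  ∀ (G : Type u) [Group G] (V : Type v) [MulAction G V] (T : SimpleGraph V), TreeAct G V T →
    (∀ v : V, VN.ProjStFree (MulAction.stabilizer G v)) →
    (∀ u v, T.Adj u v → VN.ProjStFree (MulAction.stabilizer G (u, v) × Multiplicative ℤ)) →
    ∀ (S : V → V → Prop), Bar T S →
      (∀ u v, S u v → u ≠ v →
        RegCoh (MonoidAlgebra ℤ (MulAction.stabilizer G (v, u) × Multiplicative ℤ)) ∨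
        ∀ g : G, Trl T g u v →
          VN.ProjStFree (↥(MulAction.stabilizer G (v, u) ⊔ Subgroup.zpowers g))) →
      VN.ProjStFree G

end Pool.Agent.Lib.MP_551055_al.LS
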