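import Pool.Agent.Lib.MP_551055_al.LS.Clo
import Pool.Agent.Lib.MP_551055_al.LS.Stmts3

/-!
# The closure theorem with subgroups generated by a stabiliser and one element; local approximations
-/

set_option autoImplicit false

namespace Pool.Agent.Lib.MP_551055_al.LS

open Pool.Agent.Lib.MP_551055_al
open Pool.Agent.Lib.MP_551055_al.Red (Img)

theorem stab_swap {G V : Type} [Group G] [MulAction G V] (u v : V) :
    MulAction.stabilizer G (u, v) = MulAction.stabilizer G (v, u) := by
  ext γ
  rw [MulAction.mem_stabilizer_iff, MulAction.mem_stabilizer_iff]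
  constructor
  · intro h
    exact Prod.ext (congrArg Prod.snd h) (congrArg Prod.fst h)
  · intro h
    exact Prod.ext (congrArg Prod.snd h) (congrArg Prod.fst h)

/-- The closure theorem. -/
theorem closure_trees2 (hF : StFinalE.{0, 0}) (hP : StPFin) (n : ℕ) (G : Type) [Group G] (V : Type)
    [MulAction G V] (T : SimpleGraph V) (hT : TreeAct G V T)
    (hv : ∀ v : V, VN.ProjStFree (MulAction.stabilizer G v × ZN n))
    (he : ∀ u v, T.Adj u v → VN.ProjStFree (MulAction.stabilizer G (u, v) × ZN (n + 1)))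
    (S : V → V → Prop) (hbar : Bar T S)
    (hx : ∀ u v, S u v → u ≠ v → Small (MulAction.stabilizer G (u, v)) ∨
      ∀ g : G, Trl T g u v →
        VN.ProjStFree (↥(MulAction.stabilizer G (u, v) ⊔ Subgroup.zpowers g) × ZN n)) :
    VN.ProjStFree (G × ZN n) := by
  let _ : MulAction (G × ZN n) V := MulAction.compHom V (MonoidHom.fst G (ZN n))
  have hsmul : ∀ (γ : G × ZN n) (x : V), γ • x = γ.1 • x := fun _ _ => rfl
  have hT' : TreeAct (G × ZN n) V T :=
    { tree := hT.tree
      adj := fun γ a b hab => hT.adj γ.1 a b hab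
      inv := fun γ a b hab h => hT.inv γ.1 a b hab h }
  -- stabilisers
  have hst1 : ∀ a : V, Nonempty (MulAction.stabilizer G a × ZN n ≃*
      MulAction.stabilizer (G × ZN n) a) := by
    intro a
    exact ⟨{ toFun := fun γ => ⟨(γ.1.1, γ.2), γ.1.2⟩
             invFun := fun γ => (⟨γ.1.1, γ.2⟩, γ.1.2)
             left_inv := fun _ => rfl
             right_inv := fun _ => rfl
             map_mul' := fun _ _ => rfl }⟩
  have hst2 : ∀ a : V × V, Nonempty (MulAction.stabilizer G a × ZN n ≃*
      MulAction.stabilizer (G × ZN n) a) := by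
    intro a
    exact ⟨{ toFun := fun γ => ⟨(γ.1.1, γ.2), γ.1.2⟩
             invFun := fun γ => (⟨γ.1.1, γ.2⟩, γ.1.2)
             left_inv := fun _ => rfl
             right_inv := fun _ => rfl
             map_mul' := fun _ _ => rfl }⟩
  have hst3 : ∀ a : V × V, Nonempty (MulAction.stabilizer G a × ZN (n + 1) ≃*
      MulAction.stabilizer (G × ZN n) a × Multiplicative ℤ) := by
    intro a
    obtain ⟨e⟩ := hst2 a
    exact ⟨(znSucc (MulAction.stabilizer G a) n).symm.trans
      (MulEquiv.prodCongr e (MulEquiv.refl (Multiplicative ℤ)))⟩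
  have hsup : ∀ (a : V × V) (γ : G × ZN n), Nonempty
      (↥(MulAction.stabilizer G a ⊔ Subgroup.zpowers γ.1) × ZN n ≃*
        ↥(MulAction.stabilizer (G × ZN n) a ⊔ Subgroup.zpowers γ)) := by
    intro a γ
    have h0 : MulAction.stabilizer (G × ZN n) a ⊔ Subgroup.zpowers γ =
        (MulAction.stabilizer G a ⊔ Subgroup.zpowers γ.1).prod (⊤ : Subgroup (ZN n)) := by
      apply le_antisymm
      · refine sup_le (fun δ hδ => ?_) ?_
        · refine Subgroup.mem_prod.2 ⟨?_, Subgroup.mem_top _⟩
          exact (le_sup_left : _ ≤ MulAction.stabilizer G a ⊔ Subgroup.zpowers γ.1) hδ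
        · rw [Subgroup.zpowers_le]
          refine Subgroup.mem_prod.2 ⟨?_, Subgroup.mem_top _⟩
          exact (le_sup_right : _ ≤ MulAction.stabilizer G a ⊔ Subgroup.zpowers γ.1)
            (Subgroup.mem_zpowers _)
      · have hone : ∀ t : ZN n, ((1 : G), t) ∈ MulAction.stabilizer (G × ZN n) a := by
          intro t
          rw [MulAction.mem_stabilizer_iff]
          exact Prod.ext (one_smul G a.1) (one_smul G a.2)
        have hfst : ∀ g ∈ MulAction.stabilizer G a ⊔ Subgroup.zpowers γ.1,
            (g, (1 : ZN n)) ∈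
              MulAction.stabilizer (G × ZN n) a ⊔ Subgroup.zpowers γ := by
          intro g hg
          have h1 : MulAction.stabilizer G a ⊔ Subgroup.zpowers γ.1 ≤
              (MulAction.stabilizer (G × ZN n) a ⊔ Subgroup.zpowers γ).comap
                (MonoidHom.inl G (ZN n)) := by
            refine sup_le (fun δ hδ => ?_) ?_
            · exact (le_sup_left : _ ≤ MulAction.stabilizer (G × ZN n) a ⊔
                Subgroup.zpowers γ) hδ
            · rw [Subgroup.zpowers_le]
              change (γ.1, (1 : ZN n)) ∈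
                MulAction.stabilizer (G × ZN n) a ⊔ Subgroup.zpowers γ
              have h2 : (γ.1, (1 : ZN n)) = γ * (1, γ.2⁻¹) := by
                rw [Prod.ext_iff]
                exact ⟨(mul_one _).symm, (mul_inv_cancel _).symm⟩
              rw [h2]
              exact Subgroup.mul_mem _
                ((le_sup_right : _ ≤ MulAction.stabilizer (G × ZN n) a ⊔
                  Subgroup.zpowers γ) (Subgroup.mem_zpowers _))
                ((le_sup_left : _ ≤ MulAction.stabilizer (G × ZN n) a ⊔
                  Subgroup.zpowers γ) (hone _))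
          exact h1 hg
        rintro ⟨g, t⟩ hgt
        have h3 := hfst g (Subgroup.mem_prod.1 hgt).1
        have h4 : ((g, t) : G × ZN n) = (g, 1) * (1, t) := by
          rw [Prod.mk_mul_mk, mul_one, one_mul]
        rw [h4]
        exact Subgroup.mul_mem _ h3
          ((le_sup_left : _ ≤ MulAction.stabilizer (G × ZN n) a ⊔
            Subgroup.zpowers γ) (hone t))
    rw [h0]
    exact ⟨(MulEquiv.prodCongr (MulEquiv.refl _) Subgroup.topEquiv.symm).trans
      (Subgroup.prodEquiv _ _).symm⟩
  refine hF (G × ZN n) V T hT' (fun v => ?_) (fun u v huv => ?_) S hbar fun u v huv hne => ?_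
  · obtain ⟨e⟩ := hst1 v
    exact projStFree_congr e (hv v)
  · obtain ⟨e⟩ := hst3 (u, v)
    exact projStFree_congr e (he u v huv)
  · rcases hx u v huv hne with h | h
    · left
      have h1 := h.regCoh hP (n + 1)
      rw [stab_swap] at h1
      obtain ⟨e⟩ := hst3 (v, u)
      exact RegCoh.congr (MonoidAlgebra.mapDomainRingEquiv ℤ e) h1
    · right
      intro γ hγ
      have h1 := h γ.1 hγ
      rw [stab_swap] at h1
      obtain ⟨e⟩ := hsup (v, u) γ
      exact projStFree_congr e h1

/-- `mapDomain` as an additive map. -/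
noncomputable def mdA {G H : Type} (σ : G → H) : MonoidAlgebra ℤ G →+ MonoidAlgebra ℤ H where
  toFun := MonoidAlgebra.mapDomain σ
  map_zero' := MonoidAlgebra.mapDomain_zero σ
  map_add' := MonoidAlgebra.mapDomain_add σ

theorem mapDomain_mul_of {G H : Type} [Group G] [Group H] (σ : G → H) (x y : MonoidAlgebra ℤ G)
    (h : ∀ a ∈ x.coeff.support, ∀ b ∈ y.coeff.support, σ a * σ b = σ (a * b)) :
    mdA σ (x * y) = mdA σ x * mdA σ y := by
  have hsum : ∀ z : MonoidAlgebra ℤ G,
      z = ∑ a ∈ z.coeff.support, MonoidAlgebra.single a (z.coeff a) := fun z =>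
    (MonoidAlgebra.sum_coeff_single z).symm
  have hs : ∀ (a : G) (c : ℤ), mdA σ (MonoidAlgebra.single a c) = MonoidAlgebra.single (σ a) c :=
    fun a c => MonoidAlgebra.mapDomain_single
  have h1 : x * y = ∑ a ∈ x.coeff.support, ∑ b ∈ y.coeff.support,
      MonoidAlgebra.single (a * b) (x.coeff a * y.coeff b) := by
    conv_lhs => rw [hsum x, hsum y, Finset.sum_mul_sum]
    refine Finset.sum_congr rfl fun a _ => Finset.sum_congr rfl fun b _ => ?_
    rw [MonoidAlgebra.single_mul_single]
  have h2 : mdA σ x = ∑ a ∈ x.coeff.support, MonoidAlgebra.single (σ a) (x.coeff a) := by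
    conv_lhs => rw [hsum x, map_sum]
    exact Finset.sum_congr rfl fun a _ => hs _ _
  have h3 : mdA σ y = ∑ a ∈ y.coeff.support, MonoidAlgebra.single (σ a) (y.coeff a) := by
    conv_lhs => rw [hsum y, map_sum]
    exact Finset.sum_congr rfl fun a _ => hs _ _
  rw [h1, h2, h3, map_sum, Finset.sum_mul_sum]
  refine Finset.sum_congr rfl fun a ha => ?_
  rw [map_sum]
  refine Finset.sum_congr rfl fun b hb => ?_
  rw [hs, MonoidAlgebra.single_mul_single, h a ha b hb]

/-- Local approximations. -/
theorem closure_local (n : ℕ) (G : Type) [Group G]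
    (h : ∀ s : Finset G, ∃ (H : Type) (_ : Group H) (f : H →* G) (σ : G → H),
      (∀ g ∈ s, f (σ g) = g) ∧ (∀ a ∈ s, ∀ b ∈ s, a * b ∈ s → σ a * σ b = σ (a * b)) ∧
      VN.ProjStFree (H × ZN n)) :
    VN.ProjStFree (G × ZN n) := by
  classical
  apply Red.stIdem
  intro m M hM
  let s0 : Finset G := Finset.univ.biUnion fun i => Finset.univ.biUnion fun j =>
    (M i j).coeff.support.image Prod.fst
  let s : Finset G := s0 ∪ (s0 ×ˢ s0).image fun x => x.1 * x.2
  have hs0 : ∀ i j, ∀ g ∈ (M i j).coeff.support, g.1 ∈ s0 := by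
    intro i j g hg
    exact Finset.mem_biUnion.2 ⟨i, Finset.mem_univ i, Finset.mem_biUnion.2
          ⟨j, Finset.mem_univ j, Finset.mem_image.2 ⟨g, hg, rfl⟩⟩⟩
  obtain ⟨H, _, f, σ, hf, hσ, hH⟩ := h s
  let φ : H × ZN n →* G × ZN n := MonoidHom.prodMap f (MonoidHom.id _)
  let σ' : G × ZN n → H × ZN n := fun g => (σ g.1, g.2)
  let M₀ : Matrix (Fin m) (Fin m) (MonoidAlgebra ℤ (H × ZN n)) := fun i j => mdA σ' (M i j)
  have hmap : M₀.map (inc ℤ φ) = M := by
    ext1 i j
    change inc ℤ φ (mdA σ' (M i j)) = M i j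
    have h1 : ∀ z : MonoidAlgebra ℤ (G × ZN n), (∀ g ∈ z.coeff.support, g.1 ∈ s) →
        inc ℤ φ (mdA σ' z) = z := by
      intro z hz
      have hsum : z = ∑ a ∈ z.coeff.support, MonoidAlgebra.single a (z.coeff a) :=
        (MonoidAlgebra.sum_coeff_single z).symm
      conv_lhs => rw [hsum, map_sum, map_sum]
      conv_rhs => rw [hsum]
      refine Finset.sum_congr rfl fun a ha => ?_
      have h2 : mdA σ' (MonoidAlgebra.single a (z.coeff a)) =
        MonoidAlgebra.single (σ' a) (z.coeff a) := MonoidAlgebra.mapDomain_single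
      rw [h2, inc_single]
      have h3 : φ (σ' a) = a := Prod.ext (hf _ (hz a ha)) rfl
      rw [h3]
    exact h1 _ fun g hg => Finset.mem_union_left _ (hs0 i j g hg)
  have hid : M₀ * M₀ = M₀ := by
    ext1 i j
    have h1 : M i j = ∑ k, M i k * M k j := by
      conv_lhs => rw [← hM, Matrix.mul_apply]
    change (M₀ * M₀) i j = mdA σ' (M i j)
    rw [h1, map_sum, Matrix.mul_apply]
    refine Finset.sum_congr rfl fun k _ => ?_
    rw [mapDomain_mul_of]
    intro a ha b hb
    have ha' := hs0 i k a ha
    have hb' := hs0 k j b hb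
    refine Prod.ext (hσ _ (Finset.mem_union_left _ ha') _ (Finset.mem_union_left _ hb') ?_) rfl
    exact Finset.mem_union_right _ (Finset.mem_image.2 ⟨(a.1, b.1),
      Finset.mem_product.2 ⟨ha', hb'⟩, rfl⟩)
  have hproj : Module.Projective (MonoidAlgebra ℤ (H × ZN n)) (Img M₀) := by
    have hid' : ∀ y ∈ Img M₀, Matrix.toLinearMapRight' M₀ y = y := by
      rintro _ ⟨y, rfl⟩
      rw [← Matrix.toLinearMapRight'_mul_apply, hid]
    refine Module.Projective.of_split (Img M₀).subtype
      (LinearMap.rangeRestrict (Matrix.toLinearMapRight' M₀)) ?_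
    ext1 y
    exact Subtype.ext (hid' y y.2)
  have h1 : StFree (MonoidAlgebra ℤ (H × ZN n)) (Img M₀) :=
    hH (Img M₀) (Module.Finite.range _) hproj
  have h2 := stFree_map (inc ℤ φ) M₀ hid h1
  rw [hmap] at h2
  exact h2

end Pool.Agent.Lib.MP_551055_al.LS
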