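import Pool.Agent.Lib.MP_551055_al.LS.Stmts

/-!
# Free modules over the group rings of subgroups
-/

set_option autoImplicit false

namespace Pool.Agent.Lib.MP_551055_al.LS

open Pool.Agent.Lib.MP_551055_al
open Pool.Agent.Lib.MP_551055_al.Red (Vec)
open MonoidAlgebra

universe u v

section VecFree

variable {Γ : Type u} [Group Γ] (H : Subgroup Γ) {κ : Type}

/-- The representative of the right coset `H g`. -/
noncomputable def rep (g : Γ) : Γ := (Quotient.mk (QuotientGroup.rightRel H) g).out

theorem mul_rep_inv_mem (g : Γ) : g * (rep H g)⁻¹ ∈ H := by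
  have h1 : (QuotientGroup.rightRel H) (rep H g) g := Quotient.mk_out g
  rwa [QuotientGroup.rightRel_apply] at h1

theorem quot_eq_of_mem {q : Quotient (QuotientGroup.rightRel H)} {g : Γ}
    (h : g * q.out⁻¹ ∈ H) : q = Quotient.mk (QuotientGroup.rightRel H) g := by
  have h1 : Quotient.mk (QuotientGroup.rightRel H) q.out =
      Quotient.mk (QuotientGroup.rightRel H) g := by
    apply Quotient.sound
    change (QuotientGroup.rightRel H) _ g
    rwa [QuotientGroup.rightRel_apply]
  rwa [Quotient.out_eq] at h1

open Classical in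
/-- The basis of `ℤ[Γ]^κ` over `ℤ[H]`. -/
noncomputable def vb (κ : Type) (jq : κ × Quotient (QuotientGroup.rightRel H)) : Vec H κ :=
  (Pi.single jq.1 (single jq.2.out 1) : κ → MonoidAlgebra ℤ Γ)

theorem coeff_smul_vb (a : MonoidAlgebra ℤ H) (jq : κ × Quotient (QuotientGroup.rightRel H))
    (j : κ) (h : Γ) [Decidable (j = jq.1)] :
    ((a • vb H κ jq : Vec H κ) j).coeff h =
      if j = jq.1 then (inc ℤ H.subtype a).coeff (h * jq.2.out⁻¹) else 0 := by
  classical
  rw [Red.vec_smul_apply]
  split_ifs with hj
  · subst hj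
    have h1 : vb H κ jq jq.1 = single jq.2.out 1 := by
      change (Pi.single jq.1 (single jq.2.out 1) : κ → MonoidAlgebra ℤ Γ) jq.1 = _
      rw [Pi.single_eq_same]
    rw [h1, coeff_mul_single_apply, mul_one]
  · have h1 : vb H κ jq j = 0 := by
      change (Pi.single jq.1 (single jq.2.out 1) : κ → MonoidAlgebra ℤ Γ) j = _
      rw [Pi.single_eq_of_ne hj]
    rw [h1, mul_zero]
    rfl

/-- The map from the free module. -/
noncomputable def vbm (κ : Type) :
    (κ × Quotient (QuotientGroup.rightRel H) →₀ MonoidAlgebra ℤ H) →ₗ[MonoidAlgebra ℤ H]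
      Vec H κ :=
  Finsupp.linearCombination (MonoidAlgebra ℤ H) (vb H κ)

theorem vbm_coeff (f : κ × Quotient (QuotientGroup.rightRel H) →₀ MonoidAlgebra ℤ H)
    (j : κ) (q : Quotient (QuotientGroup.rightRel H)) (h : H) :
    ((vbm H κ f) j).coeff ((h : Γ) * q.out) = (f (j, q)).coeff h := by
  classical
  rw [vbm, Finsupp.linearCombination_apply, Finsupp.sum]
  have hinj : Function.Injective H.subtype := Subtype.val_injective
  -- the value at `jq`
  have key : ∀ jq : κ × Quotient (QuotientGroup.rightRel H),
      ((f jq • vb H κ jq : Vec H κ) j).coeff ((h : Γ) * q.out) =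
        if jq = (j, q) then (f (j, q)).coeff h else 0 := by
    intro jq
    rw [coeff_smul_vb]
    by_cases h1 : jq = (j, q)
    · subst h1
      rw [if_pos rfl, if_pos rfl, mul_inv_cancel_right]
      exact inc_coeff_apply H.subtype hinj _ h
    · rw [if_neg h1]
      split_ifs with h2
      · apply inc_coeff_of_notMem
        rintro ⟨t, ht⟩
        apply h1
        have h3 : q.out * jq.2.out⁻¹ ∈ H := by
          have h4 : (h : Γ)⁻¹ * (t : Γ) ∈ H := H.mul_mem (H.inv_mem h.2) t.2
          rw [show (t : Γ) = (h : Γ) * q.out * jq.2.out⁻¹ from ht] at h4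
          simpa [mul_assoc] using h4
        have h5 := quot_eq_of_mem H h3
        rw [Quotient.out_eq] at h5
        exact Prod.ext h2.symm h5
      · rfl
  have hsum : ∀ s : Finset (κ × Quotient (QuotientGroup.rightRel H)),
      ((∑ a ∈ s, f a • vb H κ a : Vec H κ) j).coeff ((h : Γ) * q.out) =
        ∑ a ∈ s, if a = (j, q) then (f (j, q)).coeff h else 0 := by
    intro s
    induction s using Finset.induction_on with
    | empty => rfl
    | insert a s ha ih =>
      rw [Finset.sum_insert ha, Finset.sum_insert ha, ← ih, ← key a]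
      rfl
  rw [hsum, Finset.sum_ite_eq' f.support (j, q)]
  split_ifs with h1
  · rfl
  · rw [Finsupp.notMem_support_iff.1 h1]
    rfl

theorem vbm_bijective [Finite κ] : Function.Bijective (vbm H κ) := by
  classical
  constructor
  · rw [injective_iff_map_eq_zero]
    intro f hf
    ext jq : 1
    ext h
    have h1 := vbm_coeff H f jq.1 jq.2 h
    rw [hf] at h1
    rw [Finsupp.coe_zero, Pi.zero_apply]
    exact h1.symm
  · rw [← LinearMap.range_eq_top, eq_top_iff]
    rintro y -
    induction y using F_induction with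
    | h0 => exact Submodule.zero_mem _
    | ha a b h1 h2 => exact Submodule.add_mem _ h1 h2
    | hs i g c =>
      let q : Quotient (QuotientGroup.rightRel H) := Quotient.mk _ g
      have hq : g * q.out⁻¹ ∈ H := mul_rep_inv_mem H g
      have h1 : (Pi.single i (single g c) : κ → MonoidAlgebra ℤ Γ) =
          (single (⟨g * q.out⁻¹, hq⟩ : H) c • vb H κ (i, q) : Vec H κ) := by
        funext j
        rw [Red.vec_smul_apply, inc_single]
        change (Pi.single i (single g c) : κ → MonoidAlgebra ℤ Γ) j =
          single (g * q.out⁻¹) c * (Pi.single i (single q.out 1) : κ → MonoidAlgebra ℤ Γ) j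
        by_cases hj : j = i
        · subst hj
          rw [Pi.single_eq_same, Pi.single_eq_same, single_mul_single, inv_mul_cancel_right,
            mul_one]
        · rw [Pi.single_eq_of_ne hj, Pi.single_eq_of_ne hj, mul_zero]
      rw [h1]
      refine ⟨Finsupp.single (i, q) (single (⟨g * q.out⁻¹, hq⟩ : H) c), ?_⟩
      rw [vbm, Finsupp.linearCombination_single]

end VecFree

theorem stVecFree : StVecFree.{u} := by
  intro Γ _ H κ _
  exact Module.Free.of_equiv (LinearEquiv.ofBijective (vbm H κ) (vbm_bijective H))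

section HomFree

variable {Γ : Type u} [Group Γ] {X : Type v} [MulAction Γ X] {ι : Type}

/-- The indices for which the position `x` occurs. -/
abbrev idx (Γ : Type u) [Group Γ] {X : Type v} [MulAction Γ X] {ι : Type} (p : ι → X) (x : X) :
    Type :=
  {i : ι // ∃ γ : Γ, γ • p i = x}

/-- A group element which moves `p i` to `x`. -/
noncomputable def mv (p : ι → X) (x : X) (i : idx Γ p x) : Γ := i.2.choose

theorem mv_spec (p : ι → X) (x : X) (i : idx Γ p x) : mv p x i • p i.1 = x := i.2.choose_spec

theorem mv_inv_smul (p : ι → X) (x : X) (i : idx Γ p x) : (mv p x i)⁻¹ • x = p i.1 := by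
  rw [inv_smul_eq_iff]
  exact (mv_spec p x i).symm

/-- The coordinates of a vector at the position `x`. -/
noncomputable def homMap (p : ι → X) (x : X) :
    homIn (⊤ : Submodule (ZG Γ) (F Γ ι)) p x →ₗ[MonoidAlgebra ℤ (MulAction.stabilizer Γ x)]
      (idx Γ p x → MonoidAlgebra ℤ (MulAction.stabilizer Γ x)) where
  toFun y i := prj ℤ (MulAction.stabilizer Γ x).subtype Subtype.val_injective
    ((y.1 : F Γ ι) i.1 * single (mv p x i)⁻¹ 1)
  map_add' y z := by
    funext i
    change prj ℤ (MulAction.stabilizer Γ x).subtype _ (((y.1 : F Γ ι) i.1 + (z.1 : F Γ ι) i.1) *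
      single (mv p x i)⁻¹ 1) = _
    rw [add_mul, map_add]
    rfl
  map_smul' a y := by
    funext i
    change prj ℤ (MulAction.stabilizer Γ x).subtype _
      ((inc ℤ (MulAction.stabilizer Γ x).subtype a * (y.1 : F Γ ι) i.1) *
        single (mv p x i)⁻¹ 1) = a * _
    rw [mul_assoc, prj_inc_mul]

theorem homMap_coeff (p : ι → X) (x : X) (y : homIn (⊤ : Submodule (ZG Γ) (F Γ ι)) p x)
    (i : idx Γ p x) (h : MulAction.stabilizer Γ x) :
    (homMap p x y i).coeff h = ((y.1 : F Γ ι) i.1).coeff ((h : Γ) * mv p x i) := by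
  change (prj ℤ (MulAction.stabilizer Γ x).subtype Subtype.val_injective ((y.1 : F Γ ι) i.1 *
      single (mv p x i)⁻¹ 1)).coeff h = _
  rw [prj_coeff, coeff_mul_single_apply, inv_inv, mul_one]
  rfl

theorem homMap_bijective (p : ι → X) (x : X) : Function.Bijective (homMap (Γ := Γ) p x) := by
  classical
  have hinj : Function.Injective (MulAction.stabilizer Γ x).subtype := Subtype.val_injective
  constructor
  · rw [injective_iff_map_eq_zero]
    intro y hy
    have h0 : (y.1 : F Γ ι) = 0 := by
      refine F_ext fun i g => ?_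
      by_contra hne
      have hg : g • p i = x := in_iff.1 y.2.1 i g hne
      have hst : g * (mv p x ⟨i, g, hg⟩)⁻¹ ∈ MulAction.stabilizer Γ x := by
        rw [MulAction.mem_stabilizer_iff, mul_smul, mv_inv_smul]
        exact hg
      have h1 := homMap_coeff p x y ⟨i, g, hg⟩ ⟨_, hst⟩
      rw [hy] at h1
      simp only [inv_mul_cancel_right] at h1
      exact hne h1.symm
    exact Subtype.ext h0
  · intro f
    let y : F Γ ι := fun i => if hi : ∃ γ : Γ, γ • p i = x then
      inc ℤ (MulAction.stabilizer Γ x).subtype (f ⟨i, hi⟩) * single (mv p x ⟨i, hi⟩) 1 else 0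
    have hy1 : ∀ (i : idx Γ p x), y i.1 =
        inc ℤ (MulAction.stabilizer Γ x).subtype (f i) * single (mv p x i) 1 := by
      intro i
      change (if hi : ∃ γ : Γ, γ • p i.1 = x then _ else _) = _
      rw [dif_pos i.2]
    have hy : In p {x} y := by
      refine in_iff.2 fun i g hne => ?_
      by_cases hi : ∃ γ : Γ, γ • p i = x
      · have h1 := hy1 ⟨i, hi⟩
        change y i = _ at h1
        rw [h1, coeff_mul_single_apply, mul_one] at hne
        have h2 : g * (mv p x ⟨i, hi⟩)⁻¹ ∈ MulAction.stabilizer Γ x := by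
          by_contra hn
          apply hne
          apply inc_coeff_of_notMem
          rintro ⟨t, ht⟩
          exact hn (ht ▸ t.2)
        rw [MulAction.mem_stabilizer_iff, mul_smul, mv_inv_smul] at h2
        exact Set.mem_singleton_iff.2 h2
      · exfalso
        apply hne
        change ((if hi : ∃ γ : Γ, γ • p i = x then _ else _ : MonoidAlgebra ℤ Γ)).coeff g = 0
        rw [dif_neg hi]
        rfl
    refine ⟨⟨y, hy, trivial⟩, ?_⟩
    funext i
    ext h
    rw [homMap_coeff]
    change (y i.1).coeff _ = _
    rw [hy1, coeff_mul_single_apply, mul_one, mul_inv_cancel_right]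
    exact inc_coeff_apply (MulAction.stabilizer Γ x).subtype hinj _ h

end HomFree

theorem stHomFree : StHomFree.{u, v} := by
  intro Γ _ X _ ι _ p x
  have : Finite (idx Γ p x) := Subtype.finite
  have := Fintype.ofFinite (idx Γ p x)
  exact ⟨Fintype.card (idx Γ p x), ⟨(LinearEquiv.ofBijective (homMap p x)
    (homMap_bijective p x)).trans
      (LinearEquiv.funCongrLeft _ _ (Fintype.equivFin (idx Γ p x)).symm)⟩⟩

end Pool.Agent.Lib.MP_551055_al.LS
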