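import Pool.Agent.Lib.MP_551055_al.LS.PStmts2
import Pool.Agent.Lib.MP_551055_al.LS.PFin
import Pool.Agent.Lib.MP_551055_al.VNFree

/-!
# Projective modules over the group rings of poly-`ℤ` groups are stably free
-/

set_option autoImplicit false

namespace Pool.Agent.Lib.MP_551055_al.LS

open Pool.Agent.Lib.MP_551055_al

universe u

/-- The trivial group. -/
theorem projStFree_triv (G : Type) [Group G] [Subsingleton G] : VN.ProjStFree G := by
  have hi : Inhabited G := ⟨1⟩
  have hu : Unique G := Unique.mk' G
  have e : FreeGroup PEmpty.{1} ≃* G := MulEquiv.ofUnique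
  have : IsFreeGroup G := IsFreeGroup.ofMulEquiv e
  exact VN.projStFree_of_free G

/-- A group and its product with the trivial group. -/
def prodZeroEquiv (G : Type) [Group G] : G ≃* G × ZN 0 where
  toFun := fun g => (g, 1)
  invFun := fun x => x.1
  left_inv := fun _ => rfl
  right_inv := fun _ => Prod.ext rfl (Subsingleton.elim (α := Fin 0 → ℤ) _ _)
  map_mul' := fun _ _ => Prod.ext rfl (Subsingleton.elim (α := Fin 0 → ℤ) _ _)

/-- Poly-`ℤ` groups. -/
theorem projStFree_polyZ (h : StPK0.{0}) (hF : StPFin) : ∀ (G : Type) [Group G], PolyZ G →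
    VN.ProjStFree G := by
  intro G _ hG
  induction hG with
  | triv G hs => exact projStFree_triv G
  | ext G f hf hk ih =>
    refine h G f hf ?_ (projStFree_congr (MulEquiv.subgroupCongr (ker_eq_St f)) ih)
    exact regNoeth_mulEquiv
      ((prodZeroEquiv f.ker).symm.trans (MulEquiv.subgroupCongr (ker_eq_St f)))
      (hF f.ker hk 0)

/-- Poly-`ℤ` groups times free abelian groups of finite rank. -/
theorem stPPoly (h : StPK0.{0}) (hF : StPFin) : StPPoly := by
  intro G _ hG n
  induction n with
  | zero => exact projStFree_congr (prodZeroEquiv G) (projStFree_polyZ h hF G hG)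
  | succ n ih =>
    refine h (G × ZN (n + 1)) (lastHom G n) (lastHom_surjective G n) ?_ ?_
    · exact regNoeth_mulEquiv
        ((kerEquiv G n).trans (MulEquiv.subgroupCongr (ker_eq_St (lastHom G n)))) (hF G hG n)
    · exact projStFree_congr
        ((kerEquiv G n).trans (MulEquiv.subgroupCongr (ker_eq_St (lastHom G n)))) ih

end Pool.Agent.Lib.MP_551055_al.LS
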