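import Pool.Agent.Lib.MP_551055_al.LS.Final
import Pool.Agent.Lib.MP_551055_al.LS.Stmts3

/-!
# Module FinalE: the final assembly, version with subgroups generated by a stabiliser and one element
-/

set_option autoImplicit false

namespace Pool.Agent.Lib.MP_551055_al.LS

open Pool.Agent.Lib.MP_551055_al
open Pool.Agent.Lib.MP_551055_al.Red (Img)

universe u v

theorem mainK1N (hTreeC : StTreeC.{u, v}) (hKI : StKI.{u, v})
    (hTheta : StTheta.{u, v}) (hAdapt : StAdapt.{u, v}) (hInit : StInit.{u, v})
    (Γ : Type u) [Group Γ] (V : Type v) [MulAction Γ V] (T : SimpleGraph V) (hT : TreeAct Γ V T)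
    (hP : ∀ u v, T.Adj u v → VN.ProjStFree (MulAction.stabilizer Γ (u, v)))
    (K : K1C (ZG Γ)) (hV : VGood K V) (hN : NilGood K T 1)
    (n : ℕ) (α : F Γ (Fin n) →ₗ[ZG Γ] F Γ (Fin n)) (hα : Function.Bijective α) : K.G α := by
  obtain ⟨_, O, hO, hO'⟩ := hTreeC Γ V T hT
  obtain ⟨s, hs, hsα⟩ := hInit Γ V T hT O hO' K n α hα
  obtain ⟨s', hs', hss'⟩ := hAdapt Γ V T hT hP O hO hO' K hV s hs
  obtain ⟨ψ, ω, hψ, hΦ, hω, htr⟩ := hTheta Γ V T hT s' hs'
  apply hsα
  apply hss'
  rw [hΦ]
  have h1 : K.G ((1 : Module.End (ZG Γ) (F Γ (s'.K ⊕ s'.I))) + ω) :=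
    hKI Γ V T hT K hN s'.K s'.I s'.f s'.v ω s'.adj hω htr
  have h2 : K.G ψ.toLinearMap := hV _ _ _ _ ψ.toLinearMap hψ ψ.bijective
  exact K.comp _ _ h1 h2

theorem stFinalE (hTreeC : StTreeC.{u, v}) (hKI : StKI.{u, v})
    (hTheta : StTheta.{u, v}) (hAdapt : StAdapt.{u, v}) (hInit : StInit.{u, v})
    (hRay : StRayE.{u, v}) (hClass : StBassClass.{u}) (hMono : StBassMono.{u})
    (hVert : StBassVert.{u}) (hIdem : StBassIdem.{u}) (hGraded : StGraded.{u, v}) :
    StFinalE.{u, v} := by
  intro G _ V _ T hT hPv hPe S hbar hS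
  let _ : MulAction (G × Multiplicative ℤ) V := actZ G V
  have hsmul : ∀ (γ : G × Multiplicative ℤ) (x : V), γ • x = γ.1 • x := fun _ _ => rfl
  have hT' : TreeAct (G × Multiplicative ℤ) V T :=
    { tree := hT.tree
      adj := fun γ a b hab => hT.adj γ.1 a b hab
      inv := fun γ a b hab h => hT.inv γ.1 a b hab h }
  obtain ⟨K, hK⟩ := hClass G
  have hM : MGood K := fun ι _ g Φ hΦ => (hK ι ι Φ).2 (hMono G ι g Φ hΦ)
  have key : ∀ (H : Subgroup G) (E : Subgroup (G × Multiplicative ℤ)), VN.ProjStFree H →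
      E = H.prod (⊤ : Subgroup (Multiplicative ℤ)) → SGood K E := by
    rintro H E hH rfl ι κ _ _ _ _ A B hAB hBA
    exact (hK ι κ _).2 (hVert G H hH ι κ A B hAB hBA)
  -- vertices
  have hV : VGood K V := by
    refine hGraded (G × Multiplicative ℤ) V K hM ?_
    intro x
    refine key (MulAction.stabilizer G x) (MulAction.stabilizer (G × Multiplicative ℤ) x) (hPv x) ?_
    ext γ
    rw [MulAction.mem_stabilizer_iff, Subgroup.mem_prod, MulAction.mem_stabilizer_iff, hsmul]
    exact ⟨fun h => ⟨h, Subgroup.mem_top _⟩, fun h => h.1⟩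
  -- stabilisers of pairs
  have hst : ∀ a : V × V, Nonempty ((MulAction.stabilizer G a × Multiplicative ℤ) ≃*
      MulAction.stabilizer (G × Multiplicative ℤ) a) := by
    intro a
    exact ⟨{ toFun := fun γ => ⟨(γ.1.1, γ.2), γ.1.2⟩
             invFun := fun γ => (⟨γ.1.1, γ.2⟩, γ.1.2)
             left_inv := fun _ => rfl
             right_inv := fun _ => rfl
             map_mul' := fun _ _ => rfl }⟩
  have hPe' : ∀ a b, T.Adj a b →
      VN.ProjStFree (MulAction.stabilizer (G × Multiplicative ℤ) (a, b)) := by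
    intro a b hab
    obtain ⟨e⟩ := hst (a, b)
    exact projStFree_congr e (hPe a b hab)
  have hN : NilGood K T 1 := by
    refine hRay (G × Multiplicative ℤ) V T hT' K hM S hbar fun u v huv hne => ?_
    rcases hS u v huv hne with h | h
    · obtain ⟨e⟩ := hst (v, u)
      exact Or.inl (RegCoh.congr (MonoidAlgebra.mapDomainRingEquiv ℤ e) h)
    · refine Or.inr fun γ hγ => key _ _ (h γ.1 hγ) ?_
      apply le_antisymm
      · refine sup_le (fun δ hδ => ?_) ?_
        · refine Subgroup.mem_prod.2 ⟨?_, Subgroup.mem_top _⟩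
          exact (le_sup_left : _ ≤ MulAction.stabilizer G (v, u) ⊔ Subgroup.zpowers γ.1) hδ
        · rw [Subgroup.zpowers_le]
          refine Subgroup.mem_prod.2 ⟨?_, Subgroup.mem_top _⟩
          exact (le_sup_right : _ ≤ MulAction.stabilizer G (v, u) ⊔ Subgroup.zpowers γ.1)
            (Subgroup.mem_zpowers _)
      · -- every element of the product
        have hone : ∀ t : Multiplicative ℤ, ((1 : G), t) ∈
            MulAction.stabilizer (G × Multiplicative ℤ) (v, u) := by
          intro t
          rw [MulAction.mem_stabilizer_iff]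
          exact Prod.ext (one_smul G v) (one_smul G u)
        have hfst : ∀ g ∈ MulAction.stabilizer G (v, u) ⊔ Subgroup.zpowers γ.1,
            (g, (1 : Multiplicative ℤ)) ∈
              MulAction.stabilizer (G × Multiplicative ℤ) (v, u) ⊔ Subgroup.zpowers γ := by
          intro g hg
          have h1 : MulAction.stabilizer G (v, u) ⊔ Subgroup.zpowers γ.1 ≤
              (MulAction.stabilizer (G × Multiplicative ℤ) (v, u) ⊔ Subgroup.zpowers γ).comap
                (MonoidHom.inl G (Multiplicative ℤ)) := by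
            refine sup_le (fun δ hδ => ?_) ?_
            · exact (le_sup_left : _ ≤ MulAction.stabilizer (G × Multiplicative ℤ) (v, u) ⊔
                Subgroup.zpowers γ) hδ
            · rw [Subgroup.zpowers_le]
              change (γ.1, (1 : Multiplicative ℤ)) ∈
                MulAction.stabilizer (G × Multiplicative ℤ) (v, u) ⊔ Subgroup.zpowers γ
              have h2 : (γ.1, (1 : Multiplicative ℤ)) = γ * (1, γ.2⁻¹) := by
                rw [Prod.ext_iff]
                exact ⟨(mul_one _).symm, (mul_inv_cancel _).symm⟩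
              rw [h2]
              exact Subgroup.mul_mem _
                ((le_sup_right : _ ≤ MulAction.stabilizer (G × Multiplicative ℤ) (v, u) ⊔
                  Subgroup.zpowers γ) (Subgroup.mem_zpowers _))
                ((le_sup_left : _ ≤ MulAction.stabilizer (G × Multiplicative ℤ) (v, u) ⊔
                  Subgroup.zpowers γ) (hone _))
          exact h1 hg
        rintro ⟨g, t⟩ hgt
        have h3 := hfst g (Subgroup.mem_prod.1 hgt).1
        have h4 : ((g, t) : G × Multiplicative ℤ) = (g, 1) * (1, t) := by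
          rw [Prod.mk_mul_mk, mul_one, one_mul]
        rw [h4]
        exact Subgroup.mul_mem _ h3
          ((le_sup_left : _ ≤ MulAction.stabilizer (G × Multiplicative ℤ) (v, u) ⊔
            Subgroup.zpowers γ) (hone t))
  apply Red.stIdem
  intro n p hp
  obtain ⟨α, hα, h⟩ := hIdem G n p hp
  apply h
  rw [← hK]
  exact mainK1N hTreeC hKI hTheta hAdapt hInit (G × Multiplicative ℤ) V T hT' hPe' K hV hN n α hα

end Pool.Agent.Lib.MP_551055_al.LS
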