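import Pool.Agent.Lib.MP_551055_al.LS.Stmts3

/-!
# Module NilE
-/

set_option autoImplicit false

namespace Pool.Agent.Lib.MP_551055_al.LS

open Pool.Agent.Lib.MP_551055_al

universe u v

theorem toLin_pow {S : Type u} [Ring S] {ι : Type} [Fintype ι] [DecidableEq ι]
    (A : Matrix ι ι S) (k : ℕ) :
    Matrix.toLinearMapRight' (A ^ k) = ((Matrix.toLinearMapRight' A : Module.End S (ι → S)) ^ k) := by
  induction k with
  | zero =>
    rw [pow_zero, pow_zero, Matrix.toLinearMapRight'_one]
    rfl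
  | succ k ih =>
    rw [pow_succ, Matrix.toLinearMapRight'_mul, ih, pow_succ']
    rfl

theorem stNilE (hE : StElim.{u, v}) (hO : StOrb.{u, v}) : StNilE.{u, v} := by
  classical
  intro Γ _ K hM X _ r hr ι _ p ν hν htr hg
  have := Fintype.ofFinite ι
  obtain ⟨k, hk⟩ := hν
  let A : Matrix ι ι (ZG Γ) := LinearMap.toMatrixRight' ν
  have hA : Matrix.toLinearMapRight' A = ν := LinearEquiv.symm_apply_apply _ _
  have hpow : A ^ k = 0 := by
    apply Matrix.toLinearMapRight'.injective
    rw [map_zero, toLin_pow, hA, hk]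
  have hD : Dg r 1 p A := by
    intro i l γ hne
    have h1 : In p {b | ∃ a ∈ ({p i} : Set X), r a b} (ν (Pi.single i 1)) :=
      htr {p i} _ (in_basis_one p i)
    have h3 : ν (Pi.single i 1) l = A i l := by
      rw [← hA, Matrix.toLinearMapRight'_apply, Matrix.single_one_vecMul]
      rfl
    obtain ⟨a, ha, hab⟩ := in_iff.1 h1 l γ (by rw [h3]; exact hne)
    rw [Set.mem_singleton_iff.1 ha] at hab
    exact ⟨_, hab, rfl⟩
  have h := hE Γ K X r hr ι p A k hpow hD fun j B hj hB hDB x z hxz =>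
    hO Γ K hM X r hr ι p j B k hj hB hDB x z hxz hg
  rw [map_add, Matrix.toLinearMapRight'_one, hA] at h
  exact h

end Pool.Agent.Lib.MP_551055_al.LS
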