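import Pool.Agent.Lib.MP_551055_al.LS.Ray
import Pool.Agent.Lib.MP_551055_al.LS.Stmts3

/-!
# Module RayE: nilpotent maps along edges are good if the long segments are good
-/

set_option autoImplicit false

namespace Pool.Agent.Lib.MP_551055_al.LS

open Pool.Agent.Lib.MP_551055_al

universe u v

theorem itr_dist_snd {V : Type v} {T : SimpleGraph V} (hT : T.IsTree) {l : ℕ} (hl : 1 ≤ l)
    (c : V × V) (i : ℕ) (b : V × V) (hb : T.dist b.1 b.2 = l) (h : itr (sh T l) i b c) :
    T.dist c.1 c.2 = l ∧ T.dist c.2 b.2 = i := by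
  have key : ∀ (i : ℕ) (b : V × V), T.dist b.1 b.2 = l → itr (sh T l) i b c →
      T.dist c.1 c.2 = l ∧ T.dist c.2 b.2 ≤ i := by
    intro i
    induction i with
    | zero =>
      intro b hb h
      have h1 : b = c := h
      subst h1
      exact ⟨hb, by rw [T.dist_self]⟩
    | succ i ih =>
      intro b hb h
      obtain ⟨d, hbd, hdc⟩ := h
      obtain ⟨h1, h2, h3, h4, h5⟩ := hbd
      obtain ⟨h6, h7⟩ := ih d h3 hdc
      refine ⟨h6, ?_⟩
      have h8 := hT.connected.dist_triangle (u := c.2) (v := d.2) (w := b.2)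
      have h9 : T.dist d.2 b.2 = 1 := T.dist_eq_one_iff_adj.2 h2
      omega
  obtain ⟨h1, h2⟩ := key i b hb h
  refine ⟨h1, ?_⟩
  obtain ⟨h3, h4⟩ := itr_dist hT hl c i b hb h
  have h5 := hT.connected.dist_triangle (u := c.1) (v := c.2) (w := b.2)
  omega

/-- Module RayE. -/
theorem stRayE (hN : StNilE.{u, v}) (hS : StStepP.{u, v}) (hB : StTreeB.{u, v}) :
    StRayE.{u, v} := by
  intro Γ _ V _ T hT K hM S hbar hgood ι _ p ν hp hnil htr
  -- the step
  have hstep : ∀ (m : ℕ) (s : Lev Γ T m), ∃ (s' : Lev Γ T (m + 1)) (π : s'.ι → s.ι),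
      (∀ k, (s'.p k).2 = (s.p (π k)).2 ∧ T.Adj (s'.p k).1 (s.p (π k)).1) ∧
      (K.G ((1 : Module.End (ZG Γ) (F Γ s'.ι)) + s'.ν) →
        K.G ((1 : Module.End (ZG Γ) (F Γ s.ι)) + s.ν)) := by
    intro m s
    obtain ⟨κ, hκ, q, π, μ, h1, h2, h3, h4, h5⟩ :=
      hS Γ V T hT K (m + 1) (Nat.le_add_left 1 m) s.ι s.p s.ν s.dist s.nil s.tr
    exact ⟨⟨κ, hκ, q, μ, h1, h3, h4⟩, π, h2, h5⟩
  choose nx π hπ hG using hstep
  have hι : Finite ι := inferInstance
  generalize hs0 : (⟨ι, hι, p, ν, hp, hnil, htr⟩ : Lev Γ T 0) = s0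
  have hgoal : K.G ((1 : Module.End (ZG Γ) (F Γ s0.ι)) + s0.ν) →
      K.G ((1 : Module.End (ZG Γ) (F Γ ι)) + ν) := by
    rw [← hs0]
    exact fun h => h
  apply hgoal
  clear hgoal hs0
  have hdown : ∀ m, K.G ((1 : Module.End (ZG Γ) (F Γ (levSeq s0 nx m).ι)) + (levSeq s0 nx m).ν) →
      K.G ((1 : Module.End (ZG Γ) (F Γ s0.ι)) + s0.ν) := by
    intro m
    induction m with
    | zero => exact fun h => h
    | succ m ih => exact fun h => ih (hG m (levSeq s0 nx m) h)
  by_cases hall : ∃ m, ∀ k : (levSeq s0 nx m).ι,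
      S ((levSeq s0 nx m).p k).2 ((levSeq s0 nx m).p k).1
  · obtain ⟨m, hm⟩ := hall
    refine hdown m (hN Γ K hM (V × V) (sh T (m + 1)) (hB Γ V T hT (m + 1) (Nat.le_add_left 1 m)).1
      (levSeq s0 nx m).ι (levSeq s0 nx m).p (levSeq s0 nx m).ν (levSeq s0 nx m).nil
      (levSeq s0 nx m).tr fun k => ?_)
    have hd := (levSeq s0 nx m).dist k
    have hmk := hm k
    generalize (levSeq s0 nx m).p k = a at hd hmk
    obtain ⟨v, u⟩ := a
    have hd' : T.dist v u = m + 1 := hd
    have hne : u ≠ v := fun h => by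
      rw [h, T.dist_self] at hd'
      omega
    rcases hgood u v hmk hne with h | h
    · exact Or.inl h
    · refine Or.inr fun γ j hj hjγ => h γ ?_
      obtain ⟨h1, h2⟩ := itr_dist hT.tree (Nat.le_add_left 1 m) _ j (v, u) hd' hjγ
      obtain ⟨h3, h4⟩ := itr_dist_snd hT.tree (Nat.le_add_left 1 m) _ j (v, u) hd' hjγ
      have h1' : T.dist (γ • v) v = j := h1
      have h2' : T.dist (γ • v) u = j + (m + 1) := h2
      have h3' : T.dist (γ • v) (γ • u) = m + 1 := h3
      have h4' : T.dist (γ • u) u = j := h4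
      rw [T.dist_comm] at h1' h2' h3' h4' hd'
      refine ⟨fun he => ?_, ?_, ?_⟩
      · rw [he, T.dist_self] at h1'
        omega
      · rw [h1', h2', hd', Nat.add_comm]
      · rw [h2', h3', h4']
  exfalso
  push Not at hall
  -- the bad indices
  let B : ℕ → Type := fun m => {k : (levSeq s0 nx m).ι //
    ¬ S ((levSeq s0 nx m).p k).2 ((levSeq s0 nx m).p k).1}
  let f : ∀ m, B (m + 1) → B m := fun m k =>
    ⟨π m (levSeq s0 nx m) k.1, fun h => k.2 (by
      have h1 := (hπ m (levSeq s0 nx m) k.1).1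
      have h2 := (hπ m (levSeq s0 nx m) k.1).2
      have h3 := (levSeq s0 nx m).dist (π m (levSeq s0 nx m) k.1)
      have h4 := (levSeq s0 nx (m + 1)).dist k.1
      rw [show ((levSeq s0 nx (m + 1)).p k.1).2 = ((levSeq s0 nx m).p (π m (levSeq s0 nx m) k.1)).2
        from h1]
      refine hbar.pro _ _ _ h h2.symm ?_
      rw [show ((levSeq s0 nx (m + 1)).p k.1).2 = ((levSeq s0 nx m).p (π m (levSeq s0 nx m) k.1)).2
        from h1, T.dist_comm] at h4
      rw [T.dist_comm] at h3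
      rw [h3]
      exact h4)⟩
  have hBfin : ∀ m, Finite (B m) := fun m =>
    inferInstanceAs (Finite {k : (levSeq s0 nx m).ι //
      ¬ S ((levSeq s0 nx m).p k).2 ((levSeq s0 nx m).p k).1})
  have hBne : ∀ m, Nonempty (B m) := fun m => (hall m).elim fun k hk => ⟨⟨k, hk⟩⟩
  obtain ⟨k, hk⟩ := exists_coherent B f hBfin hBne
  -- the ray
  let x : ℕ → V := fun n => Nat.casesOn n ((levSeq s0 nx 0).p (k 0).1).2
    fun m => ((levSeq s0 nx m).p (k m).1).1
  have hπk : ∀ m, π m (levSeq s0 nx m) (k (m + 1)).1 = (k m).1 := fun m => congrArg Subtype.val (hk m)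
  have hx2 : ∀ m, ((levSeq s0 nx m).p (k m).1).2 = x 0 := by
    intro m
    induction m with
    | zero => rfl
    | succ m ih =>
      have := (hπ m (levSeq s0 nx m) (k (m + 1)).1).1
      rw [hπk] at this
      exact this.trans ih
  have hdist : ∀ n, T.dist (x n) (x 0) = n := by
    intro n
    cases n with
    | zero => exact T.dist_self
    | succ m =>
      have := (levSeq s0 nx m).dist (k m).1
      rw [hx2] at this
      exact this
  have hadj : ∀ n, T.Adj (x n) (x (n + 1)) := by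
    intro n
    cases n with
    | zero =>
      have := hdist 1
      exact (T.dist_eq_one_iff_adj.1 this).symm
    | succ m =>
      have := (hπ m (levSeq s0 nx m) (k (m + 1)).1).2
      rw [hπk] at this
      exact this.symm
  obtain ⟨n, hn, hreg⟩ := hbar.ray x hadj fun n hne => by
    have h1 := hdist n
    have h2 := hdist (n + 2)
    rw [← hne] at h2
    omega
  obtain ⟨m, rfl⟩ : ∃ m, n = m + 1 := ⟨n - 1, by omega⟩
  apply (k m).2
  rw [hx2 m]
  exact hreg

end Pool.Agent.Lib.MP_551055_al.LS
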