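import Pool.Agent.Lib.MP_551055_al.LS.Stmts

/-!
# Adapted systems

Every system whose edge cells are oriented by an invariant orientation can be changed into an adapted
system by a basis change of the module of edge cells (after stabilisation).
-/

set_option autoImplicit false

namespace Pool.Agent.Lib.MP_551055_al.LS

open Pool.Agent.Lib.MP_551055_al
open MonoidAlgebra

universe u v w

namespace AdaptAux

section Alg

variable {S : Type u} [Ring S] {ι κ ι' κ' : Type}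

theorem blk_elim (f : (ι → S) →ₗ[S] (ι' → S)) (c : (ι → S) →ₗ[S] (κ' → S))
    (g : (κ → S) →ₗ[S] (κ' → S)) (x : ι → S) (y : κ → S) :
    blk f c g (Sum.elim x y) = Sum.elim (f x) (c x + g y) := rfl

theorem blk0_elim (f : (ι → S) →ₗ[S] (ι' → S)) (g : (κ → S) →ₗ[S] (κ' → S)) (x : ι → S)
    (y : κ → S) : blk f 0 g (Sum.elim x y) = Sum.elim (f x) (g y) := by
  rw [blk_elim, LinearMap.zero_apply, zero_add]

omit [Ring S] in
theorem eta (y : ι ⊕ κ → S) : ∃ (a : ι → S) (b : κ → S), y = Sum.elim a b :=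
  ⟨y ∘ Sum.inl, y ∘ Sum.inr, (Sum.elim_comp_inl_inr y).symm⟩

omit [Ring S] in
theorem elim_inj {a a' : ι → S} {b b' : κ → S} (h : Sum.elim a b = Sum.elim a' b') :
    a = a' ∧ b = b' :=
  ⟨funext fun i => congrFun h (Sum.inl i), funext fun i => congrFun h (Sum.inr i)⟩

/-- Block sums of isomorphisms. -/
noncomputable def blkE (f : (ι → S) ≃ₗ[S] (ι' → S)) (g : (κ → S) ≃ₗ[S] (κ' → S)) :
    (ι ⊕ κ → S) ≃ₗ[S] (ι' ⊕ κ' → S) :=
  LinearEquiv.ofLinearMap (blk f.toLinearMap 0 g.toLinearMap)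
    (blk f.symm.toLinearMap 0 g.symm.toLinearMap)
    (by
      ext1 y
      obtain ⟨a, b, rfl⟩ := eta y
      rw [LinearMap.comp_apply, blk0_elim, blk0_elim]
      simp)
    (by
      ext1 y
      obtain ⟨a, b, rfl⟩ := eta y
      rw [LinearMap.comp_apply, blk0_elim, blk0_elim]
      simp)

theorem blkE_toLin (f : (ι → S) ≃ₗ[S] (ι' → S)) (g : (κ → S) ≃ₗ[S] (κ' → S)) :
    (blkE f g).toLinearMap = blk f.toLinearMap 0 g.toLinearMap := rfl

theorem blkE_apply (f : (ι → S) ≃ₗ[S] (ι' → S)) (g : (κ → S) ≃ₗ[S] (κ' → S)) (a : ι → S)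
    (b : κ → S) : blkE f g (Sum.elim a b) = Sum.elim (f a) (g b) :=
  blk0_elim _ _ _ _

end Alg

/-- The permutation of the summands. -/
def permE (K A B I : Type) : ((K ⊕ A) ⊕ B) ⊕ I ≃ ((K ⊕ I) ⊕ A) ⊕ B where
  toFun := Sum.elim (Sum.elim (Sum.elim (fun k => Sum.inl (Sum.inl (Sum.inl k)))
    (fun a => Sum.inl (Sum.inr a))) (fun b => Sum.inr b)) (fun i => Sum.inl (Sum.inl (Sum.inr i)))
  invFun := Sum.elim (Sum.elim (Sum.elim (fun k => Sum.inl (Sum.inl (Sum.inl k)))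
    (fun i => Sum.inr i)) (fun a => Sum.inl (Sum.inl (Sum.inr a)))) (fun b => Sum.inl (Sum.inr b))
  left_inv x := by rcases x with ((k | a) | b) | i <;> rfl
  right_inv x := by rcases x with ((k | i) | a) | b <;> rfl

section Pos

variable {Γ : Type u} [Group Γ] {X : Type v} {Y : Type w} [MulAction Γ X] [MulAction Γ Y]
variable {ι κ : Type}

theorem pr_elim (p : ι → X) (q : κ → X) (P : Set X) (y : F Γ ι) (z : F Γ κ) :
    pr (Sum.elim p q) P (Sum.elim y z) = Sum.elim (pr p P y) (pr q P z) := by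
  funext i
  rcases i with i | i <;> rfl

theorem in_elim {p : ι → X} {q : κ → X} {P : Set X} {y : F Γ ι} {z : F Γ κ} :
    In (Sum.elim p q) P (Sum.elim y z) ↔ In p P y ∧ In q P z := by
  unfold In
  rw [pr_elim]
  constructor
  · intro h
    exact elim_inj h
  · rintro ⟨h1, h2⟩
    rw [h1, h2]

theorem elim_zero : (Sum.elim (0 : F Γ ι) (0 : F Γ κ)) = 0 := by
  funext i
  rcases i with i | i <;> rfl

/-- Placement by a function of the position. -/
theorem pr_comp (g : X → Y) (hg : ∀ (γ : Γ) x, γ • g x = g (γ • x)) (p : ι → X) (P : Set Y)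
    (y : F Γ ι) : pr (fun i => g (p i)) P y = pr p (g ⁻¹' P) y := by
  classical
  refine F_ext fun i γ => ?_
  rw [pr_coeff, pr_coeff, hg]
  rfl

/-- The positions of vectors are in the orbits of the positions of the basis. -/
theorem in_of_inv {p : ι → X} {O : Set X} (hO : ∀ (γ : Γ), ∀ a ∈ O, γ • a ∈ O)
    (hp : ∀ i, p i ∈ O) (y : F Γ ι) : In p O y :=
  in_iff.2 fun i γ _ => hO γ _ (hp i)

end Pos

section Main

variable {Γ : Type u} [Group Γ] {V : Type v} [MulAction Γ V]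
variable {K I J A B C D : Type}

/-- The new isomorphism. -/
noncomputable def newE (Φ : F Γ (K ⊕ I) ≃ₗ[ZG Γ] F Γ J)
    (β : F Γ ((K ⊕ A) ⊕ B) ≃ₗ[ZG Γ] F Γ (C ⊕ D)) :
    F Γ ((C ⊕ D) ⊕ I) ≃ₗ[ZG Γ] F Γ ((J ⊕ A) ⊕ B) :=
  ((blkE β.symm (LinearEquiv.refl (ZG Γ) (F Γ I))).trans
    (LinearEquiv.funCongrLeft (ZG Γ) (ZG Γ) (permE K A B I).symm)).trans
    (blkE (blkE Φ (LinearEquiv.refl (ZG Γ) (F Γ A))) (LinearEquiv.refl (ZG Γ) (F Γ B)))

theorem newE_apply (Φ : F Γ (K ⊕ I) ≃ₗ[ZG Γ] F Γ J)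
    (β : F Γ ((K ⊕ A) ⊕ B) ≃ₗ[ZG Γ] F Γ (C ⊕ D)) (k : F Γ K) (α : F Γ A) (b : F Γ B)
    (x : F Γ I) :
    newE Φ β (Sum.elim (β (Sum.elim (Sum.elim k α) b)) x) =
      Sum.elim (Sum.elim (Φ (Sum.elim k x)) α) b := by
  have h1 : (LinearEquiv.funCongrLeft (ZG Γ) (ZG Γ) (permE K A B I).symm)
      (Sum.elim (Sum.elim (Sum.elim k α) b) x) = Sum.elim (Sum.elim (Sum.elim k x) α) b := by
    funext i
    rcases i with ((i | i) | i) | i <;> rfl
  unfold newE
  rw [LinearEquiv.trans_apply, LinearEquiv.trans_apply, blkE_apply, LinearEquiv.symm_apply_apply,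
    LinearEquiv.refl_apply, h1, blkE_apply, blkE_apply, LinearEquiv.refl_apply,
    LinearEquiv.refl_apply]

theorem newE_symm (Φ : F Γ (K ⊕ I) ≃ₗ[ZG Γ] F Γ J)
    (β : F Γ ((K ⊕ A) ⊕ B) ≃ₗ[ZG Γ] F Γ (C ⊕ D)) (k : F Γ K) (α : F Γ A) (b : F Γ B)
    (x : F Γ I) (m : F Γ J) (hm : Φ.symm m = Sum.elim k x) :
    (newE Φ β).symm (Sum.elim (Sum.elim m α) b) =
      Sum.elim (β (Sum.elim (Sum.elim k α) b)) x := by
  rw [LinearEquiv.symm_apply_eq, newE_apply, ← hm, LinearEquiv.apply_symm_apply]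

/-- The classes of the new and the old isomorphism. -/
theorem newE_class [Finite K] [Finite I] [Finite J] [Finite A] [Finite B] [Finite C] [Finite D]
    (Q : K1C (ZG Γ)) (Φ : F Γ (K ⊕ I) ≃ₗ[ZG Γ] F Γ J)
    (β : F Γ ((K ⊕ A) ⊕ B) ≃ₗ[ZG Γ] F Γ (C ⊕ D)) (hβ : Q.G β.symm.toLinearMap)
    (h : Q.G (newE Φ β).toLinearMap) : Q.G Φ.toLinearMap := by
  have hid : ∀ ι : Type, Finite ι → Q.G (LinearMap.id : (ι → ZG Γ) →ₗ[ZG Γ] (ι → ZG Γ)) := by
    intro ι _
    have h1 := Q.perm (Equiv.refl ι)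
    have h2 : LinearMap.funLeft (ZG Γ) (ZG Γ) (Equiv.refl ι).symm =
        (LinearMap.id : (ι → ZG Γ) →ₗ[ZG Γ] (ι → ZG Γ)) := by
      ext1 y
      rfl
    rwa [h2] at h1
  have h1 : Q.G (blk β.symm.toLinearMap 0 (LinearMap.id : (I → ZG Γ) →ₗ[ZG Γ] (I → ZG Γ))) :=
    Q.tri _ _ _ hβ (hid I inferInstance)
  have h2 := Q.perm (permE K A B I)
  have h3 := Q.comp _ _ h1 h2
  have h4 : (newE Φ β).toLinearMap = (blk (blk Φ.toLinearMap 0
      (LinearMap.id : (A → ZG Γ) →ₗ[ZG Γ] (A → ZG Γ))) 0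
      (LinearMap.id : (B → ZG Γ) →ₗ[ZG Γ] (B → ZG Γ))) ∘ₗ
      (LinearMap.funLeft (ZG Γ) (ZG Γ) (permE K A B I).symm ∘ₗ
        blk β.symm.toLinearMap 0 (LinearMap.id : (I → ZG Γ) →ₗ[ZG Γ] (I → ZG Γ))) := rfl
  rw [h4] at h
  exact Q.unst _ (Q.unst _ (Q.left _ _ h h3))

end Main

section Final

variable {Γ : Type u} [Group Γ] {X : Type v} {Y : Type w} [MulAction Γ X] [MulAction Γ Y]
variable {ι κ K A B C D : Type}

theorem in_comp {g : X → Y} (hg : ∀ (γ : Γ) x, γ • g x = g (γ • x)) {p : ι → X} {P : Set Y}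
    {y : F Γ ι} : In (fun i => g (p i)) P y ↔ In p (g ⁻¹' P) y := by
  unfold In
  rw [pr_comp g hg]

theorem gr_comp {g : X → Y} (hg : ∀ (γ : Γ) x, γ • g x = g (γ • x)) {p : ι → X} {q : κ → X}
    {f : F Γ ι →ₗ[ZG Γ] F Γ κ} (h : Gr p q f) : Gr (fun i => g (p i)) (fun i => g (q i)) f := by
  intro P y
  rw [pr_comp g hg, pr_comp g hg, h]

theorem left_part {π : F Γ K →ₗ[ZG Γ] F Γ K} {β : F Γ ((K ⊕ A) ⊕ B) ≃ₗ[ZG Γ] F Γ (C ⊕ D)}
    (hβ : β.toLinearMap ∘ₗ blk (blk π 0 LinearMap.id) 0 0 =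
      blk LinearMap.id 0 0 ∘ₗ β.toLinearMap)
    {k : F Γ K} {α : F Γ A} {b : F Γ B} {z : F Γ C}
    (h : β (Sum.elim (Sum.elim k α) b) = Sum.elim z (0 : F Γ D)) : π k = k ∧ b = 0 := by
  have h1 := LinearMap.congr_fun hβ (Sum.elim (Sum.elim k α) b)
  rw [LinearMap.comp_apply, LinearMap.comp_apply, LinearEquiv.coe_coe, h, blk0_elim, blk0_elim,
    blk0_elim, LinearMap.id_apply, LinearMap.id_apply, LinearMap.zero_apply,
    LinearMap.zero_apply, ← h] at h1
  have h2 := elim_inj (β.injective h1)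
  exact ⟨(elim_inj h2.1).1, h2.2.symm⟩

theorem right_part {π : F Γ K →ₗ[ZG Γ] F Γ K} {β : F Γ ((K ⊕ A) ⊕ B) ≃ₗ[ZG Γ] F Γ (C ⊕ D)}
    (hβ : β.toLinearMap ∘ₗ blk (blk π 0 LinearMap.id) 0 0 =
      blk LinearMap.id 0 0 ∘ₗ β.toLinearMap)
    {k : F Γ K} {α : F Γ A} {b : F Γ B} {z : F Γ D}
    (h : β (Sum.elim (Sum.elim k α) b) = Sum.elim (0 : F Γ C) z) : π k = 0 ∧ α = 0 := by
  have h1 := LinearMap.congr_fun hβ (Sum.elim (Sum.elim k α) b)
  rw [LinearMap.comp_apply, LinearMap.comp_apply, LinearEquiv.coe_coe, h, blk0_elim, blk0_elim,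
    blk0_elim, LinearMap.id_apply, LinearMap.id_apply, LinearMap.zero_apply,
    LinearMap.zero_apply, elim_zero, ← map_zero β] at h1
  have h2 := elim_inj ((β.injective h1).trans elim_zero.symm)
  exact elim_inj (h2.1.trans elim_zero.symm)

end Final

section Core

variable {Γ : Type u} [Group Γ] {V : Type v} [MulAction Γ V]
variable {K I J A B C D : Type}

/-- The vertices are not placed at edges. -/
theorem in_diag (v : I → V) (x : F Γ I) :
    In (fun i => (v i, v i)) {e : V × V | e.1 = e.2} x :=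
  in_iff.2 fun _ _ _ => rfl

theorem core {f : K → V × V} {a : A → V × V} {b : B → V × V} {c : C → V × V} {d : D → V × V}
    {β : F Γ ((K ⊕ A) ⊕ B) ≃ₗ[ZG Γ] F Γ (C ⊕ D)}
    (hβ : Gr (Sum.elim (Sum.elim f a) b) (Sum.elim c d) β.toLinearMap) {O : Set (V × V)}
    (hO : ∀ (γ : Γ), ∀ a ∈ O, γ • a ∈ O) (hc : ∀ i, c i ∈ O) (hd : ∀ i, d i ∈ O) (v : I → V)
    {u w : V} (huw : u ≠ w) (h2 : (w, u) ∉ O) (k : F Γ K) (x : F Γ I)
    (hk : pr f {(u, w)} k = 0) {P : Set (V × V)} (hP : P = {(u, w), (w, u)}) :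
    pr (cell (Sum.elim c fun i => (d i).swap) v) P
      (Sum.elim (β (Sum.elim (Sum.elim k 0) 0)) x) = 0 := by
  have hx : pr (fun i => (v i, v i)) P x = 0 := by
    refine (in_diag v x).pr_eq_zero (Set.disjoint_left.2 fun e he he' => ?_)
    rw [hP] at he
    rcases he with he | he
    · rw [he] at he'
      exact huw he'
    · rw [Set.mem_singleton_iff.1 he] at he'
      exact huw he'.symm
  have hz : ∀ z : F Γ (C ⊕ D), pr (Sum.elim c fun i => (d i).swap) P z =
      pr (Sum.elim c d) {(u, w)} z := by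
    intro z
    have hin : In (Sum.elim c d) O z := in_of_inv hO (by rintro (i | i); exacts [hc i, hd i]) z
    have h3 : pr (Sum.elim c d) {(u, w)} z = pr (Sum.elim c d) P z := by
      refine hin.pr_congr fun e he => ?_
      rw [hP]
      constructor
      · intro h; exact Or.inl h
      · rintro (h | h)
        · exact h
        · rw [Set.mem_singleton_iff.1 h] at he
          exact absurd he h2
    rw [h3]
    obtain ⟨zc, zd, rfl⟩ := eta z
    rw [pr_elim, pr_elim, pr_comp Prod.swap (fun _ _ => rfl)]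
    congr 3
    rw [hP]
    ext e
    constructor
    · rintro (h | h)
      · right
        rw [← Prod.swap_swap e, h]; rfl
      · left
        rw [← Prod.swap_swap e, Set.mem_singleton_iff.1 h]; rfl
    · rintro (h | h)
      · right
        rw [h]; rfl
      · left
        rw [Set.mem_singleton_iff.1 h]; rfl
  change pr (Sum.elim (Sum.elim c fun i => (d i).swap) fun i => (v i, v i)) P _ = 0
  rw [pr_elim, hx, hz]
  have h4 := hβ {(u, w)} (Sum.elim (Sum.elim k 0) 0)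
  rw [LinearEquiv.coe_coe] at h4
  rw [← h4, pr_elim, pr_elim, hk, map_zero, map_zero, elim_zero, elim_zero, map_zero, elim_zero]

end Core

end AdaptAux

open AdaptAux in
theorem stAdapt (hs : StSplit.{u, v}) (hn : StNF.{u, v}) : StAdapt.{u, v} := by
  intro Γ _ V _ T hT hE O hO1 hO2 Q hQ s hsO
  obtain ⟨π, hπg, hπi, hπ⟩ := hs Γ V T hT O hO1 hO2 s hsO
  obtain ⟨A, B, C, D, _, _, _, _, a, b, c, d, β, hr, hβg, hβ⟩ :=
    hn Γ (V × V) s.K s.f π hπg hπi (fun k => hE _ _ (s.adj k))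
  have hadj : ∀ x, x ∈ Set.range s.f → T.Adj x.1 x.2 := by
    rintro _ ⟨k, rfl⟩
    exact s.adj k
  have hmem : ∀ x, x ∈ Set.range s.f → x ∈ O := by
    rintro _ ⟨k, rfl⟩
    exact hsO k
  have hcr : ∀ i, c i ∈ Set.range s.f := fun i => hr _ (Or.inr (Or.inr (Or.inl ⟨i, rfl⟩)))
  have hdr : ∀ i, d i ∈ Set.range s.f := fun i => hr _ (Or.inr (Or.inr (Or.inr ⟨i, rfl⟩)))
  have hsw : ∀ (γ : Γ) (x : V × V), γ • x.swap = (γ • x).swap := fun _ _ => rfl
  have hfst : ∀ (γ : Γ) (x : V × V), γ • x.1 = (γ • x).1 := fun _ _ => rfl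
  have hsnd : ∀ (γ : Γ) (x : V × V), γ • x.2 = (γ • x).2 := fun _ _ => rfl
  have hβg' := hβg.symm
  -- the new system
  let s' : Sys Γ T :=
    { K := C ⊕ D
      I := s.I
      J := (s.J ⊕ A) ⊕ B
      fK := inferInstance
      fI := s.fI
      fJ := inferInstance
      f := Sum.elim c fun i => (d i).swap
      v := s.v
      w := Sum.elim (Sum.elim s.w fun i => (a i).2) fun i => (b i).1
      adj := by
        rintro (i | i)
        · exact hadj _ (hcr i)
        · exact (hadj _ (hdr i)).symm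
      Φ := newE s.Φ β
      tr := by
        refine tr_of_hom fun x y hy => ?_
        obtain ⟨z, i, rfl⟩ := eta y
        obtain ⟨hz, hi⟩ := in_elim.1 hy
        obtain ⟨zc, zd, rfl⟩ := eta z
        obtain ⟨hzc, hzd⟩ := in_elim.1 hz
        rw [in_comp hsw] at hzd
        have hq : In (Sum.elim c d) {x, x.swap} (Sum.elim zc zd) := by
          refine in_elim.2 ⟨hzc.mono fun e he => Or.inl he, hzd.mono fun e he => Or.inr ?_⟩
          rw [Set.mem_singleton_iff, ← Prod.swap_swap e]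
          exact congrArg Prod.swap he
        have hq' := hβg'.in hq
        obtain ⟨t, b', ht⟩ := eta (β.symm (Sum.elim zc zd))
        obtain ⟨k, α, rfl⟩ := eta t
        rw [LinearEquiv.coe_coe, ht] at hq'
        obtain ⟨hq1, hb'⟩ := in_elim.1 hq'
        obtain ⟨hk, hα⟩ := in_elim.1 hq1
        rw [LinearEquiv.coe_coe, ← LinearEquiv.apply_symm_apply β (Sum.elim zc zd), ht,
          newE_apply]
        refine in_elim.2 ⟨in_elim.2 ⟨?_, ?_⟩, ?_⟩
        · have h1 : In (cell s.f s.v) {x, x.swap} (Sum.elim k i) :=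
            in_elim.2 ⟨hk, hi.mono fun e he => Or.inl he⟩
          refine (s.tr _ _ h1).mono fun e he => ?_
          obtain ⟨e', (he' | he'), h2⟩ := he
          · rw [he'] at h2
            exact h2
          · rw [Set.mem_singleton_iff.1 he'] at h2
            exact h2.symm
        · refine (in_comp hsnd).2 (hα.mono fun e he => ?_)
          rcases he with he | he
          · rw [he]
            exact Or.inr rfl
          · rw [Set.mem_singleton_iff.1 he]
            exact Or.inl rfl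
        · refine (in_comp hfst).2 (hb'.mono fun e he => ?_)
          rcases he with he | he
          · rw [he]
            exact Or.inl rfl
          · rw [Set.mem_singleton_iff.1 he]
            exact Or.inr rfl }
  refine ⟨s', ?_, ?_⟩
  · -- adapted
    intro a0 b0 hab y hy
    have hne : a0 ≠ b0 := hab.ne
    obtain ⟨z, i, rfl⟩ := eta y
    obtain ⟨hz, hi⟩ := in_elim.1 hy
    obtain ⟨zc, zd, rfl⟩ := eta z
    obtain ⟨hzc, hzd⟩ := in_elim.1 hz
    rw [in_comp hsw] at hzd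
    have hi0 : i = 0 := hi.eq_zero (in_diag _ i)
      (Set.disjoint_singleton_left.2 fun h => hne h)
    subst hi0
    have hzd' : In d {(b0, a0)} zd := hzd.mono fun e he => by
      rw [Set.mem_singleton_iff, ← Prod.swap_swap e]
      exact congrArg Prod.swap he
    have hcO : In c O zc := in_of_inv hO1 (fun i => hmem _ (hcr i)) zc
    have hdO : In d O zd := in_of_inv hO1 (fun i => hmem _ (hdr i)) zd
    obtain ⟨t, b', ht⟩ := eta (β.symm (Sum.elim zc zd))
    obtain ⟨k, α, rfl⟩ := eta t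
    have ht' : β (Sum.elim (Sum.elim k α) b') = Sum.elim zc zd := by
      rw [← ht, LinearEquiv.apply_symm_apply]
    have hPhi : s'.Φ (Sum.elim (Sum.elim zc zd) 0) =
        Sum.elim (Sum.elim (s.Φ (Sum.elim k 0)) α) b' := by
      rw [← ht']
      exact newE_apply _ _ _ _ _ _
    have hw : ∀ (m : F Γ s.J) (α : F Γ A) (b' : F Γ B), pr s'.w {a0}
        (Sum.elim (Sum.elim m α) b') = Sum.elim (Sum.elim (pr s.w {a0} m)
          (pr a (Prod.snd ⁻¹' {a0}) α)) (pr b (Prod.fst ⁻¹' {a0}) b') := by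
      intro m α b'
      change pr (Sum.elim (Sum.elim s.w fun i => (a i).2) fun i => (b i).1) {a0} _ = _
      rw [pr_elim, pr_elim, pr_comp Prod.snd hsnd, pr_comp Prod.fst hfst]
    obtain ⟨k', x', hk'⟩ := eta (s.Φ.symm (pr s.w {a0} (s.Φ (Sum.elim k 0))))
    rw [hPhi, hw]
    by_cases hO : (a0, b0) ∈ O
    · -- the part `C`
      have hO' : (b0, a0) ∉ O := (hO2 _ _ hab).1 hO
      have hzd0 : zd = 0 := hzd'.eq_zero hdO (Set.disjoint_singleton_left.2 hO')
      subst hzd0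
      obtain ⟨hπk, hb0⟩ := left_part hβ ht'
      subst hb0
      have hq : In (Sum.elim c d) {(a0, b0)} (Sum.elim zc 0) :=
        in_elim.2 ⟨hzc, In.zero _ _⟩
      have hq' := hβg'.in hq
      rw [LinearEquiv.coe_coe, ht] at hq'
      obtain ⟨hk, hα⟩ := in_elim.1 (in_elim.1 hq').1
      have hα0 : pr a (Prod.snd ⁻¹' {a0}) α = 0 :=
        hα.pr_eq_zero (Set.disjoint_singleton_right.2 fun h => hne h.symm)
      rw [hα0, map_zero]
      have hsy : s'.Φ.symm (Sum.elim (Sum.elim (pr s.w {a0} (s.Φ (Sum.elim k 0))) 0) 0) =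
          Sum.elim (β (Sum.elim (Sum.elim k' 0) 0)) x' := newE_symm _ _ _ _ _ _ _ hk'
      rw [hsy]
      refine core hβg hO1 (fun i => hmem _ (hcr i)) (fun i => hmem _ (hdr i)) s.v hne hO' k' x'
        ?_ rfl
      have hcell : In (cell s.f s.v) {(a0, b0)} (Sum.elim k (0 : F Γ s.I)) :=
        in_elim.2 ⟨hk, In.zero _ _⟩
      have h1 := s.tr.hom hcell
      rw [LinearEquiv.coe_coe] at h1
      have h2 : s.Φ (Sum.elim k 0) = pr s.w {a0} (s.Φ (Sum.elim k 0)) +
          pr s.w {b0} (s.Φ (Sum.elim k 0)) := by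
        rw [← pr_union _ (Set.disjoint_singleton.2 hne)]
        exact h1.eq.symm
      have h3 : Sum.elim k (0 : F Γ s.I) = s.Φ.symm (pr s.w {a0} (s.Φ (Sum.elim k 0))) +
          s.Φ.symm (pr s.w {b0} (s.Φ (Sum.elim k 0))) := by
        rw [← map_add, ← h2, LinearEquiv.symm_apply_apply]
      have h4 : k = k' + (fun j => s.Φ.symm (pr s.w {b0} (s.Φ (Sum.elim k 0))) (Sum.inl j)) := by
        funext j
        have h5 := congrFun h3 (Sum.inl j)
        rw [Pi.add_apply, hk'] at h5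
        exact h5
      have h6 := hπ a0 b0 k hk
      rw [hπk] at h6
      have h7 : pr s.f {(a0, b0)} k = pr s.f {(a0, b0)} k' +
          pr s.f {(a0, b0)} (fun j => s.Φ.symm (pr s.w {b0} (s.Φ (Sum.elim k 0)))
            (Sum.inl j)) := by
        rw [← map_add, ← h4]
      rw [← h6, hk.eq] at h7
      exact left_eq_add.1 (by rw [add_comm] at h7; exact h7)
    · -- the part `D`
      have hO' : (b0, a0) ∈ O := by
        by_contra h
        exact hO ((hO2 _ _ hab).2 h)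
      have hzc0 : zc = 0 := hzc.eq_zero hcO (Set.disjoint_singleton_left.2 hO)
      subst hzc0
      obtain ⟨hπk, hα0⟩ := right_part hβ ht'
      subst hα0
      have hq : In (Sum.elim c d) {(b0, a0)} (Sum.elim 0 zd) :=
        in_elim.2 ⟨In.zero _ _, hzd'⟩
      have hq' := hβg'.in hq
      rw [LinearEquiv.coe_coe, ht] at hq'
      obtain ⟨hq1, hb'⟩ := in_elim.1 hq'
      obtain ⟨hk, -⟩ := in_elim.1 hq1
      have hb0 : pr b (Prod.fst ⁻¹' {a0}) b' = 0 :=
        hb'.pr_eq_zero (Set.disjoint_singleton_right.2 fun h => hne h.symm)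
      rw [hb0, map_zero]
      have hsy : s'.Φ.symm (Sum.elim (Sum.elim (pr s.w {a0} (s.Φ (Sum.elim k 0))) 0) 0) =
          Sum.elim (β (Sum.elim (Sum.elim k' 0) 0)) x' := newE_symm _ _ _ _ _ _ _ hk'
      rw [hsy]
      refine core hβg hO1 (fun i => hmem _ (hcr i)) (fun i => hmem _ (hdr i)) s.v hne.symm hO
        k' x' ?_ (Set.pair_comm _ _)
      have h6 := hπ b0 a0 k hk
      rw [hπk] at h6
      have h7 : k' = fun j => s.Φ.symm (pr s.w {a0} (s.Φ (Sum.elim k 0))) (Sum.inl j) := by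
        funext j
        rw [hk']
        rfl
      rw [h7]
      exact h6.symm
  · -- the class
    intro h
    refine newE_class Q s.Φ β ?_ h
    exact hQ _ _ _ _ _ (gr_comp hfst hβg') β.symm.bijective

end Pool.Agent.Lib.MP_551055_al.LS
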