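import Pool.Agent.Lib.MP_551055_al.LS.Stmts

/-!
# Long segments: the Bass class of monomial and idempotent maps
-/

set_option autoImplicit false

namespace Pool.Agent.Lib.MP_551055_al.LS

open Pool.Agent.Lib.MP_551055_al
open Pool.Agent.Lib.MP_551055_al.Red (Img)

universe u v

namespace BM

variable {G : Type u} [Group G]

omit [Group G] in
theorem pair_injective (b : ℤ) :
    Function.Injective (fun g : G => (g, Multiplicative.ofAdd b)) := fun _ _ h =>
  congrArg Prod.fst h

/-- The part of degree `b`. -/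
noncomputable def slc (b : ℤ) : MonoidAlgebra ℤ (G × Multiplicative ℤ) →+ MonoidAlgebra ℤ G where
  toFun r := MonoidAlgebra.ofCoeff (r.coeff.comapDomain (fun g => (g, Multiplicative.ofAdd b))
    (pair_injective b).injOn)
  map_zero' := by ext h; simp
  map_add' r s := by ext h; simp

omit [Group G] in
theorem slc_coeff (b : ℤ) (r : MonoidAlgebra ℤ (G × Multiplicative ℤ)) (g : G) :
    (slc b r).coeff g = r.coeff (g, Multiplicative.ofAdd b) := rfl

theorem slc_inc_mul (b : ℤ) (s : MonoidAlgebra ℤ G) (r : MonoidAlgebra ℤ (G × Multiplicative ℤ)) :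
    slc b (inc ℤ (MonoidHom.inl G (Multiplicative ℤ)) s * r) = s * slc b r := by
  induction s using MonoidAlgebra.induction_linear with
  | zero => simp
  | add a b ha hb => rw [map_add, add_mul, map_add, ha, hb, add_mul]
  | single g c =>
    ext h
    rw [slc_coeff, inc_single, MonoidAlgebra.coeff_single_mul_apply,
      MonoidAlgebra.coeff_single_mul_apply, slc_coeff]
    simp

theorem slc_mul_inc (b : ℤ) (r : MonoidAlgebra ℤ (G × Multiplicative ℤ)) (s : MonoidAlgebra ℤ G) :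
    slc b (r * inc ℤ (MonoidHom.inl G (Multiplicative ℤ)) s) = slc b r * s := by
  induction s using MonoidAlgebra.induction_linear with
  | zero => simp
  | add a b ha hb => rw [map_add, mul_add, map_add, ha, hb, mul_add]
  | single g c =>
    ext h
    rw [slc_coeff, inc_single, MonoidAlgebra.coeff_mul_single_apply,
      MonoidAlgebra.coeff_mul_single_apply, slc_coeff]
    simp

/-- The element of degree `b` given by an element of the smaller ring. -/
noncomputable def lft (b : ℤ) (s : MonoidAlgebra ℤ G) : MonoidAlgebra ℤ (G × Multiplicative ℤ) :=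
  inc ℤ (MonoidHom.inl G (Multiplicative ℤ)) s *
    MonoidAlgebra.single (1, Multiplicative.ofAdd b) 1

theorem lft_coeff (b : ℤ) (s : MonoidAlgebra ℤ G) (g : G) (c : Multiplicative ℤ) :
    (lft b s).coeff (g, c) = if c.toAdd = b then s.coeff g else 0 := by
  unfold lft
  rw [MonoidAlgebra.coeff_mul_single_apply, mul_one]
  by_cases h : c.toAdd = b
  · rw [if_pos h]
    subst h
    have h1 : (g, c) * (1, Multiplicative.ofAdd c.toAdd)⁻¹
        = MonoidHom.inl G (Multiplicative ℤ) g := by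
      simp
    rw [h1, inc_coeff_apply _ (fun a b hab => congrArg Prod.fst hab)]
  · rw [if_neg h, inc_coeff_of_notMem]
    rintro ⟨g', hg'⟩
    apply h
    have h2 := congrArg Prod.snd hg'
    simp only [MonoidHom.inl_apply, Prod.snd_mul, Prod.snd_inv] at h2
    have h3 : c = Multiplicative.ofAdd b := by
      rw [eq_comm, mul_inv_eq_one] at h2
      exact h2
    rw [h3, toAdd_ofAdd]

theorem slc_lft (b c : ℤ) (s : MonoidAlgebra ℤ G) :
    slc b (lft c s) = if b = c then s else 0 := by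
  ext g
  rw [slc_coeff, lft_coeff, toAdd_ofAdd]
  split_ifs <;> rfl

/-- All degrees are at least `a j`. -/
def Ge {κ : Type} (a : κ → ℤ) (y : κ → MonoidAlgebra ℤ (G × Multiplicative ℤ)) : Prop :=
  ∀ (j : κ) (g : G × Multiplicative ℤ), (y j).coeff g ≠ 0 → a j ≤ g.2.toAdd

theorem mem_lat {κ : Type} {N : ℤ} {y : LV G κ} : y ∈ Lat (G := G) N κ ↔ Ge (fun _ => N) y :=
  Iff.rfl

omit [Group G] in
theorem Ge.mono {κ : Type} {a b : κ → ℤ} {y : κ → MonoidAlgebra ℤ (G × Multiplicative ℤ)}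
    (h : Ge a y) (hb : ∀ j, b j ≤ a j) : Ge b y := fun j g hg => (hb j).trans (h j g hg)

theorem Ge.add {κ : Type} {a : κ → ℤ} {y z : κ → MonoidAlgebra ℤ (G × Multiplicative ℤ)}
    (h : Ge a y) (h' : Ge a z) : Ge a (y + z) := by
  intro j g hg
  by_cases h1 : (y j).coeff g = 0
  · refine h' j g fun h2 => hg ?_
    rw [Pi.add_apply, MonoidAlgebra.coeff_add, Finsupp.add_apply, h1, h2, add_zero]
  · exact h j g h1

omit [Group G] in
theorem Ge.neg {κ : Type} {a : κ → ℤ} {y : κ → MonoidAlgebra ℤ (G × Multiplicative ℤ)}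
    (h : Ge a y) : Ge a (-y) := by
  intro j g hg
  refine h j g fun h2 => hg ?_
  rw [Pi.neg_apply, MonoidAlgebra.coeff_neg, Finsupp.neg_apply, h2, neg_zero]

theorem Ge.sub {κ : Type} {a : κ → ℤ} {y z : κ → MonoidAlgebra ℤ (G × Multiplicative ℤ)}
    (h : Ge a y) (h' : Ge a z) : Ge a (y - z) := by
  rw [sub_eq_add_neg]
  exact h.add h'.neg

/-- The parts of degrees `N ≤ b < a j`. -/
noncomputable def dd {κ : Type} (N : ℤ) (a : κ → ℤ) :
    LV G κ →ₗ[MonoidAlgebra ℤ G] ((Σ j : κ, Fin (a j - N).toNat) → MonoidAlgebra ℤ G) where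
  toFun y := fun t => slc (N + (t.2 : ℕ)) ((y : κ → MonoidAlgebra ℤ (G × Multiplicative ℤ)) t.1)
  map_add' y z := by
    funext t
    exact map_add _ _ _
  map_smul' s y := by
    funext t
    exact slc_inc_mul _ s _

theorem dd_eq_zero {κ : Type} {N : ℤ} {a : κ → ℤ} {y : LV G κ}
    (hy : Ge (fun _ => N) (y : κ → MonoidAlgebra ℤ (G × Multiplicative ℤ))) :
    dd N a y = 0 ↔ Ge a (y : κ → MonoidAlgebra ℤ (G × Multiplicative ℤ)) := by
  constructor
  · intro h j g hg
    by_contra hlt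
    rw [not_le] at hlt
    have h1 : N ≤ g.2.toAdd := hy j g hg
    have h2 : (g.2.toAdd - N).toNat < (a j - N).toNat := by omega
    have h3 := congrFun h ⟨j, ⟨(g.2.toAdd - N).toNat, h2⟩⟩
    have h4 : N + (((g.2.toAdd - N).toNat : ℕ) : ℤ) = g.2.toAdd := by omega
    apply hg
    have h5 : (slc (N + (((g.2.toAdd - N).toNat : ℕ) : ℤ))
        ((y : κ → MonoidAlgebra ℤ (G × Multiplicative ℤ)) j)).coeff g.1 = 0 := by
      have h6 : slc (N + (((g.2.toAdd - N).toNat : ℕ) : ℤ))
        ((y : κ → MonoidAlgebra ℤ (G × Multiplicative ℤ)) j) = 0 := h3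
      rw [h6]
      rfl
    rw [h4, slc_coeff, ofAdd_toAdd] at h5
    exact h5
  · intro h
    funext t
    change slc (N + (t.2 : ℕ)) ((y : κ → MonoidAlgebra ℤ (G × Multiplicative ℤ)) t.1) = 0
    ext g
    rw [slc_coeff]
    by_contra hne
    have h1 := h t.1 (g, Multiplicative.ofAdd (N + ((t.2 : ℕ) : ℤ))) hne
    rw [toAdd_ofAdd] at h1
    have h2 := t.2.2
    omega

theorem dd_surj {κ : Type} (N : ℤ) (a : κ → ℤ)
    (c : (Σ j : κ, Fin (a j - N).toNat) → MonoidAlgebra ℤ G) :
    ∃ y : LV G κ, y ∈ Lat (G := G) N κ ∧ dd N a y = c := by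
  classical
  refine ⟨fun j => ∑ t : Fin (a j - N).toNat, lft (N + (t : ℕ)) (c ⟨j, t⟩), ?_, ?_⟩
  · rw [mem_lat]
    rintro j ⟨g, b⟩ hg
    by_contra hlt
    apply hg
    rw [MonoidAlgebra.coeff_sum, Finsupp.finsetSum_apply]
    refine Finset.sum_eq_zero fun t _ => ?_
    rw [lft_coeff, if_neg]
    intro h
    apply hlt
    change N ≤ b.toAdd
    rw [h]
    omega
  · funext t
    change slc (N + (t.2 : ℕ)) (∑ s : Fin (a t.1 - N).toNat, lft (N + (s : ℕ)) (c ⟨t.1, s⟩)) = _
    rw [map_sum, Finset.sum_eq_single t.2]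
    · rw [slc_lft, if_pos rfl]
    · intro s _ hs
      rw [slc_lft, if_neg]
      intro h
      apply hs
      apply Fin.ext
      omega
    · intro h
      exact absurd (Finset.mem_univ _) h

/-- `Lat N` modulo the vectors with degrees at least `a j` is free. -/
theorem exists_dd {κ : Type} [Finite κ] (N : ℤ) (a : κ → ℤ) :
    ∃ (k : ℕ) (D : Lat (G := G) N κ →ₗ[MonoidAlgebra ℤ G] (Fin k → MonoidAlgebra ℤ G)),
      Function.Surjective D ∧ ∀ y : Lat (G := G) N κ,
        D y = 0 ↔ Ge a (y.1 : κ → MonoidAlgebra ℤ (G × Multiplicative ℤ)) := by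
  classical
  have := Fintype.ofFinite κ
  let e := Fintype.equivFin (Σ j : κ, Fin (a j - N).toNat)
  let E := LinearEquiv.funCongrLeft (MonoidAlgebra ℤ G) (MonoidAlgebra ℤ G) e.symm
  refine ⟨_, E.toLinearMap ∘ₗ (dd N a) ∘ₗ (Lat (G := G) N κ).subtype, ?_, ?_⟩
  · intro c
    obtain ⟨y, hy, hc⟩ := dd_surj (G := G) N a (E.symm c)
    refine ⟨⟨y, hy⟩, ?_⟩
    change E (dd N a y) = c
    rw [hc, LinearEquiv.apply_symm_apply]
  · intro y
    change E (dd N a y.1) = 0 ↔ _
    rw [LinearEquiv.map_eq_zero_iff]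
    exact dd_eq_zero (mem_lat.1 y.2)

section Quot

variable {R : Type u} [Ring R] {V : Type v} [AddCommGroup V] [Module R V]

/-- Split off a free quotient. -/
theorem quot_split {A B C : Submodule R V} (hAB : A ≤ B) (hBC : B ≤ C) {k : ℕ}
    (D : C →ₗ[R] (Fin k → R)) (hD : Function.Surjective D)
    (hker : ∀ y : C, D y = 0 ↔ (y : V) ∈ B) :
    Nonempty ((C ⧸ A.submoduleOf C) ≃ₗ[R] ((B ⧸ A.submoduleOf B) × (Fin k → R))) := by
  obtain ⟨σ, hσ⟩ := Module.projective_lifting_property D LinearMap.id hD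
  have hσ' : ∀ c, D (σ c) = c := fun c => DFunLike.congr_fun hσ c
  let q : C →ₗ[R] V := C.subtype ∘ₗ (LinearMap.id - σ ∘ₗ D)
  have hq : ∀ c, q c ∈ B := by
    intro c
    change ((c - σ (D c) : C) : V) ∈ B
    rw [← hker, map_sub, hσ', sub_self]
  let q' : C →ₗ[R] B := q.codRestrict B hq
  let Ψ : C →ₗ[R] ((B ⧸ A.submoduleOf B) × (Fin k → R)) :=
    ((A.submoduleOf B).mkQ ∘ₗ q').prod D
  have hΨ : Function.Surjective Ψ := by
    rintro ⟨b, c⟩
    obtain ⟨b, rfl⟩ := Submodule.mkQ_surjective _ b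
    have h1 : D ⟨b.1, hBC b.2⟩ = 0 := (hker _).2 b.2
    refine ⟨⟨b.1, hBC b.2⟩ + σ c, ?_⟩
    have h2 : D (⟨b.1, hBC b.2⟩ + σ c) = c := by rw [map_add, h1, hσ', zero_add]
    refine Prod.ext ?_ h2
    change (A.submoduleOf B).mkQ (q' (⟨b.1, hBC b.2⟩ + σ c)) = (A.submoduleOf B).mkQ b
    congr 1
    apply Subtype.ext
    change (((⟨b.1, hBC b.2⟩ + σ c) - σ (D (⟨b.1, hBC b.2⟩ + σ c)) : C) : V) = b.1
    rw [h2, add_sub_cancel_right]
  have hk : A.submoduleOf C = LinearMap.ker Ψ := by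
    ext c
    rw [LinearMap.mem_ker, Submodule.submoduleOf, Submodule.mem_comap, Submodule.subtype_apply]
    have hqc : D c = 0 → (q' c : V) = c := by
      intro h
      change ((c - σ (D c) : C) : V) = c
      rw [h, map_zero, sub_zero]
    constructor
    · intro hc
      have h1 : D c = 0 := (hker c).2 (hAB hc)
      refine Prod.ext ?_ h1
      change (A.submoduleOf B).mkQ (q' c) = 0
      rw [Submodule.mkQ_apply, Submodule.Quotient.mk_eq_zero, Submodule.submoduleOf,
        Submodule.mem_comap, Submodule.subtype_apply, hqc h1]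
      exact hc
    · intro hc
      have h1 : D c = 0 := congrArg Prod.snd hc
      have h2 : (A.submoduleOf B).mkQ (q' c) = 0 := congrArg Prod.fst hc
      rw [Submodule.mkQ_apply, Submodule.Quotient.mk_eq_zero, Submodule.submoduleOf,
        Submodule.mem_comap, Submodule.subtype_apply, hqc h1] at h2
      exact h2
  exact ⟨(Submodule.quotEquivOfEq _ _ hk).trans (Ψ.quotKerEquivOfSurjective hΨ)⟩

theorem stFree_prod {P : Type v} [AddCommGroup P] [Module R P] {k : ℕ} (h : StFree R P) :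
    StFree R (P × (Fin k → R)) := by
  obtain ⟨n, m, ⟨e⟩⟩ := h
  refine ⟨n, m + k, ⟨?_⟩⟩
  let E1 : ((P × (Fin k → R)) × (Fin n → R)) ≃ₗ[R] ((P × (Fin n → R)) × (Fin k → R)) :=
    (LinearEquiv.prodAssoc R P _ _).trans
      ((LinearEquiv.prodCongr (LinearEquiv.refl R P) (LinearEquiv.prodComm R _ _)).trans
        (LinearEquiv.prodAssoc R P _ _).symm)
  let E2 : ((P × (Fin n → R)) × (Fin k → R)) ≃ₗ[R] ((Fin m → R) × (Fin k → R)) :=
    LinearEquiv.prodCongr e (LinearEquiv.refl R _)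
  let E3 : ((Fin m → R) × (Fin k → R)) ≃ₗ[R] (Fin (m + k) → R) :=
    (LinearEquiv.sumArrowLequivProdArrow (Fin m) (Fin k) R R).symm.trans
      (LinearEquiv.funCongrLeft R R finSumFinEquiv.symm)
  exact E1.trans (E2.trans E3)

theorem stFree_of_prod {P : Type v} [AddCommGroup P] [Module R P] {k : ℕ}
    (h : StFree R (P × (Fin k → R))) : StFree R P := by
  obtain ⟨n, m, ⟨e⟩⟩ := h
  refine ⟨k + n, m, ⟨?_⟩⟩
  let E3 : (Fin (k + n) → R) ≃ₗ[R] ((Fin k → R) × (Fin n → R)) :=
    (LinearEquiv.funCongrLeft R R finSumFinEquiv).trans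
      (LinearEquiv.sumArrowLequivProdArrow (Fin k) (Fin n) R R)
  exact (LinearEquiv.prodCongr (LinearEquiv.refl R P) E3).trans
    ((LinearEquiv.prodAssoc R P _ _).symm.trans e)

end Quot

/-- Multiplication of all coordinates from the right. -/
noncomputable def rmul (Γ : Type u) [Group Γ] (κ : Type) (c : ZG Γ) : F Γ κ →ₗ[ZG Γ] F Γ κ where
  toFun y := fun j => y j * c
  map_add' y z := by
    funext j
    exact add_mul _ _ _
  map_smul' s y := by
    funext j
    exact mul_assoc _ _ _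

theorem ge_iff {κ : Type} {N : ℤ} {y : κ → MonoidAlgebra ℤ (G × Multiplicative ℤ)} :
    Ge (fun _ => N) y ↔ ∀ c < N, ∀ j, slc c (y j) = 0 := by
  constructor
  · intro h c hc j
    ext g
    rw [slc_coeff]
    by_contra hne
    have h1 : N ≤ (Multiplicative.ofAdd c).toAdd := h j (g, Multiplicative.ofAdd c) hne
    rw [toAdd_ofAdd] at h1
    omega
  · intro h j g hg
    by_contra hlt
    rw [not_le] at hlt
    apply hg
    have h1 := congrArg (fun w : MonoidAlgebra ℤ G => w.coeff g.1) (h _ hlt j)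
    simp only [slc_coeff, ofAdd_toAdd] at h1
    exact h1

theorem slc_rmul (b c : ℤ) (r : MonoidAlgebra ℤ (G × Multiplicative ℤ)) :
    slc b (r * MonoidAlgebra.single (1, Multiplicative.ofAdd c) 1) = slc (b - c) r := by
  ext g
  rw [slc_coeff, slc_coeff, MonoidAlgebra.coeff_mul_single_apply, mul_one]
  congr 1
  simp [← ofAdd_neg, ← ofAdd_add, sub_eq_add_neg]

theorem slc_vecMul {n : ℕ} (b : ℤ) (p : Matrix (Fin n) (Fin n) (MonoidAlgebra ℤ G))
    (y : Fin n → MonoidAlgebra ℤ (G × Multiplicative ℤ)) (j : Fin n) :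
    slc b (Matrix.vecMul y (p.map (inc ℤ (MonoidHom.inl G (Multiplicative ℤ)))) j)
      = Matrix.vecMul (fun i => slc b (y i)) p j := by
  change slc b (∑ i, y i * inc ℤ (MonoidHom.inl G (Multiplicative ℤ)) (p i j)) =
    ∑ i, slc b (y i) * p i j
  rw [map_sum]
  exact Finset.sum_congr rfl fun i _ => slc_mul_inc _ _ _

theorem inc_comm (s : MonoidAlgebra ℤ G) (c : ℤ) :
    MonoidAlgebra.single (1, Multiplicative.ofAdd c) 1 *
        inc ℤ (MonoidHom.inl G (Multiplicative ℤ)) s
      = inc ℤ (MonoidHom.inl G (Multiplicative ℤ)) s *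
        MonoidAlgebra.single (1, Multiplicative.ofAdd c) 1 := by
  induction s using MonoidAlgebra.induction_linear with
  | zero => simp
  | add a b ha hb => rw [map_add, mul_add, add_mul, ha, hb]
  | single g c =>
    rw [inc_single, MonoidAlgebra.single_mul_single, MonoidAlgebra.single_mul_single]
    simp

/-- The part of degree `b` of a vector. -/
noncomputable def slv (b : ℤ) (n : ℕ) :
    LV G (Fin n) →ₗ[MonoidAlgebra ℤ G] (Fin n → MonoidAlgebra ℤ G) where
  toFun y := fun j => slc b ((y : Fin n → MonoidAlgebra ℤ (G × Multiplicative ℤ)) j)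
  map_add' y z := by
    funext t
    exact map_add _ _ _
  map_smul' s y := by
    funext t
    exact slc_inc_mul _ s _

end BM

theorem stBassMono : StBassMono.{u} := by
  intro G _ ι _ g Φ hΦ
  have hcoef : ∀ (y : F (G × Multiplicative ℤ) ι) i x,
      (Φ y i).coeff x = (y i).coeff (x * (g i)⁻¹) := by
    intro y i x
    rw [hΦ, MonoidAlgebra.coeff_mul_single_apply, mul_one]
  have hsurj : ∀ c : F (G × Multiplicative ℤ) ι,
      Φ (fun i => c i * MonoidAlgebra.single (g i)⁻¹ 1) = c := by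
    intro c
    funext i
    rw [hΦ, mul_assoc, MonoidAlgebra.single_mul_single, inv_mul_cancel, mul_one]
    exact mul_one _
  have hbij : Function.Bijective Φ := by
    refine ⟨fun y z hyz => ?_, fun c => ⟨_, hsurj c⟩⟩
    refine F_ext fun i x => ?_
    have h1 := congrArg (fun w : F (G × Multiplicative ℤ) ι => (w i).coeff (x * g i)) hyz
    simp only [hcoef, mul_inv_cancel_right] at h1
    exact h1
  -- the image of `Lat 0`
  have hmem : ∀ y : LV G ι, y ∈ (Lat (G := G) 0 ι).map (LL Φ) ↔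
      BM.Ge (fun i => (g i).2.toAdd) (y : ι → MonoidAlgebra ℤ (G × Multiplicative ℤ)) := by
    intro y
    constructor
    · rintro ⟨z, hz, rfl⟩ j x hx
      have h1 : (z j).coeff (x * (g j)⁻¹) ≠ 0 := by
        rw [← hcoef]
        exact hx
      have h2 := hz j _ h1
      simp only [Prod.snd_mul, Prod.snd_inv, toAdd_mul, toAdd_inv] at h2
      linarith
    · intro h
      refine ⟨fun i => (y : ι → MonoidAlgebra ℤ (G × Multiplicative ℤ)) i *
        MonoidAlgebra.single (g i)⁻¹ 1, ?_, hsurj y⟩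
      intro j x hx
      rw [MonoidAlgebra.coeff_mul_single_apply, mul_one, inv_inv] at hx
      have h2 := h j _ hx
      simp only [Prod.snd_mul, toAdd_mul] at h2
      linarith
  obtain ⟨N, hN⟩ : ∃ N : ℤ, ∀ i, N ≤ (g i).2.toAdd := by
    obtain ⟨N, hN⟩ := (Set.finite_range fun i => (g i).2.toAdd).bddBelow
    exact ⟨N, fun i => hN ⟨i, rfl⟩⟩
  refine ⟨hbij, N, fun y hy => BM.mem_lat.2 (((hmem y).1 hy).mono hN), ?_⟩
  obtain ⟨k, D, hD, hker⟩ := BM.exists_dd (G := G) N fun i => (g i).2.toAdd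
  have hk : ((Lat (G := G) 0 ι).map (LL Φ)).submoduleOf (Lat (G := G) N ι) = LinearMap.ker D := by
    ext y
    rw [LinearMap.mem_ker, hker, Submodule.submoduleOf, Submodule.mem_comap,
      Submodule.subtype_apply, hmem]
  exact StFree.of_equiv_fin ((Submodule.quotEquivOfEq _ _ hk).trans (D.quotKerEquivOfSurjective hD))

theorem stBassIdem : StBassIdem.{u} := by
  intro G _ n p hp
  let p' : Matrix (Fin n) (Fin n) (ZG (G × Multiplicative ℤ)) :=
    p.map (inc ℤ (MonoidHom.inl G (Multiplicative ℤ)))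
  let P : F (G × Multiplicative ℤ) (Fin n) →ₗ[ZG (G × Multiplicative ℤ)]
    F (G × Multiplicative ℤ) (Fin n) := Matrix.toLinearMapRight' p'
  let ζ : ℤ → (F (G × Multiplicative ℤ) (Fin n) →ₗ[ZG (G × Multiplicative ℤ)]
    F (G × Multiplicative ℤ) (Fin n)) := fun c =>
      BM.rmul (G × Multiplicative ℤ) (Fin n) (MonoidAlgebra.single (1, Multiplicative.ofAdd c) 1)
  have hpp : p' * p' = p' := by
    change p.map _ * p.map _ = _
    rw [← Matrix.map_mul, hp]
  have hPP : ∀ y, P (P y) = P y := by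
    intro y
    change Matrix.toLinearMapRight' p' (Matrix.toLinearMapRight' p' y) = _
    rw [← Matrix.toLinearMapRight'_mul_apply, hpp]
  have hPζ : ∀ c y, P (ζ c y) = ζ c (P y) := by
    intro c y
    funext j
    change ∑ i, (y i * MonoidAlgebra.single (1, Multiplicative.ofAdd c) 1) *
      inc ℤ (MonoidHom.inl G (Multiplicative ℤ)) (p i j) =
      (∑ i, y i * inc ℤ (MonoidHom.inl G (Multiplicative ℤ)) (p i j)) *
        MonoidAlgebra.single (1, Multiplicative.ofAdd c) 1
    rw [Finset.sum_mul]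
    refine Finset.sum_congr rfl fun i _ => ?_
    rw [mul_assoc, BM.inc_comm, mul_assoc]
  have hζζ : ∀ c y, ζ c (ζ (-c) y) = y := by
    intro c y
    funext j
    change y j * MonoidAlgebra.single (1, Multiplicative.ofAdd (-c)) 1 *
      MonoidAlgebra.single (1, Multiplicative.ofAdd c) 1 = y j
    rw [mul_assoc, MonoidAlgebra.single_mul_single]
    have h1 : ((1 : G), Multiplicative.ofAdd (-c)) * (1, Multiplicative.ofAdd c) = 1 := by
      rw [Prod.mk_mul_mk, mul_one, ← ofAdd_add, neg_add_cancel]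
      rfl
    rw [h1, mul_one]
    exact mul_one _
  have hslP : ∀ b (y : F (G × Multiplicative ℤ) (Fin n)) j,
      BM.slc b (P y j) = Matrix.vecMul (fun i => BM.slc b (y i)) p j := fun b y j =>
    BM.slc_vecMul b p y j
  have hslζ : ∀ b c (y : F (G × Multiplicative ℤ) (Fin n)) j,
      BM.slc b (ζ c y j) = BM.slc (b - c) (y j) := fun b c y j => BM.slc_rmul b c (y j)
  have hPge : ∀ N (y : F (G × Multiplicative ℤ) (Fin n)),
      BM.Ge (fun _ => N) y → BM.Ge (fun _ => N) (P y) := by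
    intro N y hy
    rw [BM.ge_iff] at hy ⊢
    intro c hc j
    rw [hslP]
    have h1 : (fun i => BM.slc c (y i)) = 0 := by
      funext i
      exact hy c hc i
    rw [h1, Matrix.zero_vecMul]
    rfl
  have hζge : ∀ N c (y : F (G × Multiplicative ℤ) (Fin n)),
      BM.Ge (fun _ => N) y → BM.Ge (fun _ => N + c) (ζ c y) := by
    intro N c y hy
    rw [BM.ge_iff] at hy ⊢
    intro b hb j
    rw [hslζ]
    exact hy _ (by omega) j
  let α : ℤ → (F (G × Multiplicative ℤ) (Fin n) →ₗ[ZG (G × Multiplicative ℤ)]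
    F (G × Multiplicative ℤ) (Fin n)) := fun c => LinearMap.id - P + ζ c ∘ₗ P
  have hα : ∀ c y, α c y = y - P y + ζ c (P y) := fun c y => rfl
  have hαα : ∀ c y, α c (α (-c) y) = y := by
    intro c y
    have h1 : P (α (-c) y) = ζ (-c) (P y) := by
      rw [hα, map_add, map_sub, hPP, sub_self, zero_add, hPζ, hPP]
    rw [hα c, h1, hζζ, hα]
    abel
  refine ⟨α 1, ⟨fun y z hyz => ?_, fun y => ⟨α (-1) y, hαα 1 y⟩⟩, ?_⟩
  · rw [← hαα (-1) y, ← hαα (-1) z, neg_neg, hyz]
  rintro ⟨-, N, hN, hS⟩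
  have hA0 : (Lat (G := G) 0 (Fin n)).map (LL (α 1)) ≤ Lat (G := G) 0 (Fin n) := by
    rintro _ ⟨x, hx, rfl⟩
    rw [BM.mem_lat]
    have hx' : BM.Ge (fun _ => (0 : ℤ)) (x : Fin n → MonoidAlgebra ℤ (G × Multiplicative ℤ)) := hx
    change BM.Ge (fun _ => (0 : ℤ)) (α 1 x)
    rw [hα]
    exact (hx'.sub (hPge _ _ hx')).add ((hζge _ 1 _ (hPge _ _ hx')).mono fun _ => by omega)
  obtain ⟨k1, D1, hD1, hk1⟩ := BM.exists_dd (G := G) (κ := Fin n) (min N 0) fun _ => N
  obtain ⟨k2, D2, hD2, hk2⟩ := BM.exists_dd (G := G) (κ := Fin n) (min N 0) fun _ => 0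
  obtain ⟨E1⟩ := BM.quot_split hN
    (fun y hy => BM.mem_lat.2 ((BM.mem_lat.1 hy).mono fun _ => min_le_left N 0)) D1 hD1 hk1
  obtain ⟨E2⟩ := BM.quot_split hA0
    (fun y hy => BM.mem_lat.2 ((BM.mem_lat.1 hy).mono fun _ => min_le_right N 0)) D2 hD2 hk2
  have h1 := BM.stFree_of_prod (((BM.stFree_prod (k := k1) hS).congr E1.symm).congr E2)
  -- `Lat 0 / α (Lat 0)` is the image of `p`
  let E : Lat (G := G) 0 (Fin n) →ₗ[MonoidAlgebra ℤ G] Img p :=
    (Matrix.toLinearMapRight' p).rangeRestrict ∘ₗ BM.slv 0 n ∘ₗ (Lat (G := G) 0 (Fin n)).subtype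
  have hEval : ∀ y : Lat (G := G) 0 (Fin n), ((E y : Img p) : Fin n → MonoidAlgebra ℤ G)
      = Matrix.vecMul (BM.slv 0 n y.1) p := fun y => rfl
  have hE : Function.Surjective E := by
    rintro ⟨_, w, rfl⟩
    refine ⟨⟨fun j => BM.lft 0 (w j), ?_⟩, ?_⟩
    · rw [BM.mem_lat, BM.ge_iff]
      intro c hc j
      rw [BM.slc_lft, if_neg hc.ne]
    · apply Subtype.ext
      rw [hEval]
      change Matrix.vecMul _ p = Matrix.vecMul w p
      congr 1
      funext j
      change BM.slc 0 (BM.lft 0 (w j)) = w j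
      rw [BM.slc_lft, if_pos rfl]
  have hk : ((Lat (G := G) 0 (Fin n)).map (LL (α 1))).submoduleOf (Lat (G := G) 0 (Fin n))
      = LinearMap.ker E := by
    ext y
    rw [LinearMap.mem_ker, Submodule.submoduleOf, Submodule.mem_comap, Submodule.subtype_apply,
      ← Subtype.coe_inj, hEval]
    have hy0 : BM.Ge (fun _ => (0 : ℤ)) (y.1 : Fin n → MonoidAlgebra ℤ (G × Multiplicative ℤ)) :=
      y.2
    constructor
    · rintro ⟨x, hx, hxy⟩
      have hx' : BM.Ge (fun _ => (0 : ℤ)) (x : Fin n → MonoidAlgebra ℤ (G × Multiplicative ℤ)) :=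
        hx
      have h2 : BM.slv 0 n y.1 = BM.slv 0 n x - Matrix.vecMul (BM.slv 0 n x) p := by
        rw [← hxy]
        funext j
        change BM.slc 0 ((α 1 x : F (G × Multiplicative ℤ) (Fin n)) j) = _
        rw [hα, Pi.add_apply, Pi.sub_apply, map_add, map_sub, hslζ, hslP]
        have h3 : BM.slc (0 - 1) (P x j) = 0 := (BM.ge_iff.1 (hPge 0 _ hx')) (0 - 1) (by omega) j
        rw [h3, add_zero]
        rfl
      rw [h2, Matrix.sub_vecMul, Matrix.vecMul_vecMul, hp, sub_self]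
      rfl
    · intro h
      have h2 : BM.Ge (fun _ => (1 : ℤ)) (P y.1) := by
        rw [BM.ge_iff]
        intro c hc j
        by_cases hc0 : c < 0
        · exact (BM.ge_iff.1 (hPge _ _ hy0)) c hc0 j
        · have hc1 : c = 0 := by omega
          subst hc1
          rw [hslP]
          exact congrFun h j
      refine ⟨α (-1) y.1, ?_, hαα 1 y.1⟩
      change BM.Ge (fun _ => (0 : ℤ)) (α (-1) y.1)
      rw [hα]
      exact (hy0.sub (hPge _ _ hy0)).add ((hζge _ (-1) _ h2).mono fun _ => by omega)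
  exact h1.congr ((Submodule.quotEquivOfEq _ _ hk).trans (E.quotKerEquivOfSurjective hE))

end Pool.Agent.Lib.MP_551055_al.LS
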