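import Pool.Agent.Lib.MP_551055_al.LS.Stmts

/-!
# Module BassProj

The quotient `Lat N / Φ (Lat 0)` is a finitely generated projective module over `ℤ[G]`.
-/

set_option autoImplicit false

namespace Pool.Agent.Lib.MP_551055_al.LS

open Pool.Agent.Lib.MP_551055_al
open Pool.Agent.Lib.MP_551055_al.Red (res res_coeff res_single_mul exists_of_mul_coeff_ne)
open MonoidAlgebra

universe u v w

namespace BassProj

variable {G : Type u} [Group G] {ι κ : Type}

/-- An additive map which is compatible with the monomials is linear. -/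
noncomputable def mkLin {M : Type v} {M' : Type w} [AddCommGroup M] [AddCommGroup M']
    [Module (MonoidAlgebra ℤ G) M] [Module (MonoidAlgebra ℤ G) M'] (f : M →+ M')
    (h : ∀ (g : G) (c : ℤ) (y : M), f ((single g c : MonoidAlgebra ℤ G) • y) =
      (single g c : MonoidAlgebra ℤ G) • f y) : M →ₗ[MonoidAlgebra ℤ G] M' where
  toFun := f
  map_add' := map_add f
  map_smul' s y := by
    rw [RingHom.id_apply]
    induction s using MonoidAlgebra.induction_linear with
    | zero => rw [zero_smul, zero_smul, map_zero]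
    | add a b h1 h2 => rw [add_smul, add_smul, map_add, h1, h2]
    | single g c => exact h g c y

/-- Coefficients of vectors. -/
def cf (y : LV G κ) (j : κ) (g : G × Multiplicative ℤ) : ℤ := (asV y j).coeff g

theorem lv_ext {y z : LV G κ} (h : ∀ j g, cf y j g = cf z j g) : y = z := F_ext h

theorem cf_add (y z : LV G κ) (j : κ) (g : G × Multiplicative ℤ) :
    cf (y + z) j g = cf y j g + cf z j g := by
  change (asV y j + asV z j).coeff g = _
  rw [coeff_add, Finsupp.add_apply]
  rfl

theorem cf_sub (y z : LV G κ) (j : κ) (g : G × Multiplicative ℤ) :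
    cf (y - z) j g = cf y j g - cf z j g := by
  change (asV y j - asV z j).coeff g = _
  rw [coeff_sub, Finsupp.sub_apply]
  rfl

theorem cf_zero (j : κ) (g : G × Multiplicative ℤ) : cf (0 : LV G κ) j g = 0 := rfl

theorem cf_smul (g : G) (c : ℤ) (y : LV G κ) (j : κ) (h : G × Multiplicative ℤ) :
    cf ((single g c : MonoidAlgebra ℤ G) • y) j h = c * cf y j ((g, 1)⁻¹ * h) := by
  unfold cf
  rw [lv_single]
  exact single_smul_coeff _ _ _ _ _

theorem mem_lat {N : ℤ} {y : LV G κ} :
    y ∈ Lat (G := G) N κ ↔ ∀ j g, cf y j g ≠ 0 → N ≤ g.2.toAdd := Iff.rfl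

/-- The part of degrees at least `N`. -/
noncomputable def T (N : ℤ) : LV G κ →ₗ[MonoidAlgebra ℤ G] LV G κ :=
  mkLin
    { toFun := fun y => fun i => res {g : G × Multiplicative ℤ | N ≤ g.2.toAdd} (asV y i)
      map_zero' := by
        funext i
        exact map_zero _
      map_add' := fun y z => by
        funext i
        exact map_add _ _ _ }
    (fun g c y => by
      funext i
      change res _ (asV ((single g c : MonoidAlgebra ℤ G) • y) i) = _
      rw [lv_single, lv_single]
      change res _ (single (g, (1 : Multiplicative ℤ)) c * asV y i) =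
        single (g, (1 : Multiplicative ℤ)) c * res _ (asV y i)
      refine res_single_mul _ _ _ _ _ fun h => ?_
      change N ≤ h.2.toAdd ↔ N ≤ ((g, (1 : Multiplicative ℤ)) * h).2.toAdd
      rw [Prod.snd_mul, one_mul])

open Classical in
theorem cf_T (N : ℤ) (y : LV G κ) (j : κ) (g : G × Multiplicative ℤ) :
    cf (T N y) j g = if N ≤ g.2.toAdd then cf y j g else 0 := by
  change (res {g : G × Multiplicative ℤ | N ≤ g.2.toAdd} (asV y j)).coeff g = _
  rw [res_coeff]
  by_cases h : N ≤ g.2.toAdd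
  · rw [if_pos h]
    exact if_pos h
  · rw [if_neg h]
    exact if_neg h

theorem T_mem (N : ℤ) (y : LV G κ) : T N y ∈ Lat (G := G) N κ := by
  classical
  refine mem_lat.2 fun j g hne => ?_
  rw [cf_T] at hne
  by_contra hn
  rw [if_neg hn] at hne
  exact hne rfl

theorem T_of_mem {N : ℤ} {y : LV G κ} (h : y ∈ Lat (G := G) N κ) : T N y = y := by
  classical
  refine lv_ext fun j g => ?_
  rw [cf_T]
  split_ifs with h1
  · rfl
  · by_contra hne
    exact h1 (mem_lat.1 h j g (Ne.symm hne))

omit [Group G] in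
theorem emb_inj (n : ℤ) : Function.Injective fun g : G => (g, Multiplicative.ofAdd n) :=
  fun _ _ h => (Prod.mk.inj h).1

/-- The part of degree `n` of the coordinate `j`. -/
noncomputable def co (n : ℤ) (j : κ) : LV G κ →ₗ[MonoidAlgebra ℤ G] MonoidAlgebra ℤ G :=
  mkLin
    { toFun := fun y => MonoidAlgebra.ofCoeff
        ((asV y j).coeff.comapDomain (fun g : G => (g, Multiplicative.ofAdd n))
          (emb_inj n).injOn)
      map_zero' := by
        ext g
        rfl
      map_add' := fun y z => by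
        ext g
        change (asV y j + asV z j).coeff _ = (asV y j).coeff _ + (asV z j).coeff _
        rw [coeff_add, Finsupp.add_apply] }
    (fun g c y => by
      ext h
      change cf ((single g c : MonoidAlgebra ℤ G) • y) j (h, Multiplicative.ofAdd n) = _
      rw [cf_smul, smul_eq_mul, coeff_single_mul_apply]
      change c * cf y j _ = c * cf y j _
      congr 2
      rw [Prod.inv_mk, Prod.mk_mul_mk, inv_one, one_mul])

theorem co_coeff (n : ℤ) (j : κ) (y : LV G κ) (g : G) :
    (co n j y).coeff g = cf y j (g, Multiplicative.ofAdd n) := rfl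

open Classical in
/-- The basis vector of degree `n` at the coordinate `j`. -/
noncomputable def e (n : ℤ) (j : κ) : LV G κ :=
  (Pi.single j (single ((1 : G), Multiplicative.ofAdd n) 1) :
    F (G × Multiplicative ℤ) κ)

theorem e_mem (N n : ℤ) (h : N ≤ n) (j : κ) : e n j ∈ Lat (G := G) N κ := by
  classical
  refine mem_lat.2 fun i g hne => ?_
  change ((Pi.single j (single ((1 : G), Multiplicative.ofAdd n) 1) :
    F (G × Multiplicative ℤ) κ) i).coeff g ≠ 0 at hne
  by_cases hi : i = j
  · subst hi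
    rw [Pi.single_eq_same, coeff_single, Finsupp.single_apply] at hne
    by_cases hg : ((1 : G), Multiplicative.ofAdd n) = g
    · rw [← hg]
      exact h
    · rw [if_neg hg] at hne
      exact absurd rfl hne
  · rw [Pi.single_eq_of_ne hi] at hne
    exact absurd rfl hne

open Classical in
theorem cf_smul_e (a : MonoidAlgebra ℤ G) (n : ℤ) (j i : κ) (g : G × Multiplicative ℤ) :
    cf (a • e n j) i g = if i = j ∧ g.2 = Multiplicative.ofAdd n then a.coeff g.1 else 0 := by
  induction a using MonoidAlgebra.induction_linear with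
  | zero =>
    rw [zero_smul, cf_zero]
    split_ifs <;> rfl
  | add a b h1 h2 =>
    rw [add_smul, cf_add, h1, h2]
    split_ifs
    · rw [coeff_add, Finsupp.add_apply]
    · rfl
  | single h c =>
    rw [cf_smul]
    have h0 : cf (e n j : LV G κ) i ((h, 1)⁻¹ * g) =
      if i = j ∧ g.2 = Multiplicative.ofAdd n ∧ h = g.1 then 1 else 0 := by
      change ((Pi.single j (single ((1 : G), Multiplicative.ofAdd n) 1) :
        F (G × Multiplicative ℤ) κ) i).coeff _ = _
      by_cases hi : i = j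
      · subst hi
        rw [Pi.single_eq_same, coeff_single, Finsupp.single_apply]
        obtain ⟨g1, g2⟩ := g
        rw [Prod.inv_mk, Prod.mk_mul_mk, inv_one, one_mul]
        by_cases h1 : h = g1
        · subst h1
          by_cases h2 : g2 = Multiplicative.ofAdd n
          · rw [if_pos, if_pos ⟨rfl, h2, rfl⟩]
            rw [inv_mul_cancel, h2]
          · rw [if_neg, if_neg]
            · exact fun h3 => h2 h3.2.1
            · exact fun h3 => h2 (Prod.mk.inj h3).2.symm
        · rw [if_neg, if_neg]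
          · exact fun h3 => h1 h3.2.2
          · intro h3
            have h4 := (Prod.mk.inj h3).1
            exact h1 (inv_mul_eq_one.1 h4.symm)
      · rw [Pi.single_eq_of_ne hi, if_neg fun h3 => hi h3.1]
        rfl
    rw [h0, coeff_single, Finsupp.single_apply]
    by_cases h1 : i = j ∧ g.2 = Multiplicative.ofAdd n
    · by_cases h2 : h = g.1
      · rw [if_pos ⟨h1.1, h1.2, h2⟩, if_pos h1, if_pos h2, mul_one]
      · rw [if_neg fun h3 => h2 h3.2.2, if_pos h1, if_neg h2, mul_zero]
    · rw [if_neg fun h3 => h1 ⟨h3.1, h3.2.1⟩, if_neg h1, mul_zero]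

theorem cf_sum {α : Type v} (s : Finset α) (f : α → LV G κ) (j : κ) (g : G × Multiplicative ℤ) :
    cf (∑ a ∈ s, f a) j g = ∑ a ∈ s, cf (f a) j g := by
  classical
  induction s using Finset.induction_on with
  | empty => rfl
  | insert a s ha ih => rw [Finset.sum_insert ha, Finset.sum_insert ha, cf_add, ih]

theorem sum_co [Fintype κ] (n : ℤ) (y : LV G κ) :
    ∑ j, co n j y • (e n j : LV G κ) = T n y - T (n + 1) y := by
  classical
  refine lv_ext fun i g => ?_
  rw [cf_sum, cf_sub, cf_T, cf_T]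
  rw [Finset.sum_eq_single i]
  · rw [cf_smul_e, co_coeff]
    obtain ⟨g1, g2⟩ := g
    by_cases h1 : g2 = Multiplicative.ofAdd n
    · rw [if_pos ⟨rfl, h1⟩, h1]
      change _ = (if n ≤ n then _ else _) - (if n + 1 ≤ n then _ else _)
      rw [if_pos le_rfl, if_neg (by omega), sub_zero]
    · rw [if_neg fun h => h1 h.2]
      change _ = (if n ≤ g2.toAdd then _ else _) - (if n + 1 ≤ g2.toAdd then _ else _)
      have h2 : g2.toAdd ≠ n := fun h => h1 (by rw [← h]; rfl)
      by_cases h3 : n ≤ g2.toAdd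
      · rw [if_pos h3, if_pos (by omega), sub_self]
      · rw [if_neg h3, if_neg (by omega), sub_zero]
  · intro j _ hj
    rw [cf_smul_e, if_neg fun h => hj h.1.symm]
  · intro h
    exact absurd (Finset.mem_univ i) h

theorem sum_co_fin [Fintype κ] (N : ℤ) (d : ℕ) (y : LV G κ) :
    ∑ p : κ × Fin d, co (N + (p.2 : ℕ)) p.1 y • (e (N + (p.2 : ℕ)) p.1 : LV G κ) =
      T N y - T (N + d) y := by
  rw [Fintype.sum_prod_type_right]
  have h1 : ∀ k : Fin d, ∑ j : κ, co (N + (k : ℕ)) j y • (e (N + (k : ℕ)) j : LV G κ) =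
      T (N + (k : ℕ)) y - T (N + ((k : ℕ) + 1 : ℕ)) y := by
    intro k
    rw [sum_co]
    congr 3
    push_cast
    ring
  rw [Finset.sum_congr rfl fun k _ => h1 k]
  rw [Fin.sum_univ_eq_sum_range (fun k => T (N + (k : ℕ)) y - T (N + (k + 1 : ℕ)) y) d]
  rw [Finset.sum_range_sub' (fun k => T (N + (k : ℕ)) y) d]
  congr 3
  push_cast
  ring

/-- Linear maps have bounded degree. -/
theorem exists_bound [Finite ι] [Finite κ]
    (Φ : F (G × Multiplicative ℤ) ι →ₗ[ZG (G × Multiplicative ℤ)] F (G × Multiplicative ℤ) κ) :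
    ∃ D : ℤ, ∀ (a : ℤ) (y : LV G ι), y ∈ Lat (G := G) a ι → LL Φ y ∈ Lat (G := G) (a - D) κ := by
  classical
  have := Fintype.ofFinite ι
  have := Fintype.ofFinite κ
  -- the finite set of the degrees of the matrix of `Φ`
  let S : Finset ℤ := Finset.univ.biUnion fun i : ι => Finset.univ.biUnion fun j : κ =>
    (Φ (fun k => if i = k then 1 else 0) j).coeff.support.image fun g => g.2.toAdd
  obtain ⟨m, hm⟩ := S.bddBelow
  refine ⟨-m, fun a y hy => mem_lat.2 fun j g hne => ?_⟩
  change (Φ (asV y) j).coeff g ≠ 0 at hne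
  rw [LinearMap.pi_apply_eq_sum_univ Φ (asV y), Finset.sum_apply] at hne
  have h1 : ∃ i, (asV y i * Φ (fun k => if i = k then 1 else 0) j).coeff g ≠ 0 := by
    by_contra hn
    push Not at hn
    apply hne
    have h2 : ∀ s : Finset ι, (∑ i ∈ s, (asV y i • Φ (fun k => if i = k then 1 else 0)) j).coeff g
        = 0 := by
      intro s
      induction s using Finset.induction_on with
      | empty => rfl
      | insert a s ha ih =>
        rw [Finset.sum_insert ha, coeff_add, Finsupp.add_apply, ih, add_zero]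
        exact hn a
    exact h2 Finset.univ
  obtain ⟨i, hi⟩ := h1
  obtain ⟨x, z, hx, hz, hg⟩ := exists_of_mul_coeff_ne _ _ _ hi
  have h3 : a ≤ x.2.toAdd := mem_lat.1 hy i x hx
  have h4 : m ≤ z.2.toAdd := by
    apply hm
    rw [Finset.mem_coe, Finset.mem_biUnion]
    refine ⟨i, Finset.mem_univ i, ?_⟩
    rw [Finset.mem_biUnion]
    refine ⟨j, Finset.mem_univ j, ?_⟩
    exact Finset.mem_image.2 ⟨z, Finsupp.mem_support_iff.2 hz, rfl⟩
  rw [← hg, Prod.snd_mul, toAdd_mul]
  linarith

theorem main [Finite ι] [Finite κ]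
    (Φ : F (G × Multiplicative ℤ) ι →ₗ[ZG (G × Multiplicative ℤ)] F (G × Multiplicative ℤ) κ)
    (hΦ : Function.Bijective Φ) (N : ℤ)
    (hN : (Lat (G := G) 0 ι).map (LL Φ) ≤ Lat (G := G) N κ) :
    Module.Finite (MonoidAlgebra ℤ G)
        (Lat (G := G) N κ ⧸ ((Lat (G := G) 0 ι).map (LL Φ)).submoduleOf (Lat (G := G) N κ)) ∧
      Module.Projective (MonoidAlgebra ℤ G)
        (Lat (G := G) N κ ⧸ ((Lat (G := G) 0 ι).map (LL Φ)).submoduleOf (Lat (G := G) N κ)) := by
  classical
  have := Fintype.ofFinite κ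
  let E := LinearEquiv.ofBijective Φ hΦ
  let Ψ : F (G × Multiplicative ℤ) κ →ₗ[ZG (G × Multiplicative ℤ)] F (G × Multiplicative ℤ) ι :=
    E.symm.toLinearMap
  have hΨΦ : ∀ y : LV G ι, LL Ψ (LL Φ y) = y := fun y => E.symm_apply_apply y
  have hΦΨ : ∀ y : LV G κ, LL Φ (LL Ψ y) = y := fun y => E.apply_symm_apply y
  obtain ⟨D, hD⟩ := exists_bound Ψ
  let d : ℕ := (D - N).toNat
  have hd : D ≤ N + d := by
    have := Int.self_le_toNat (D - N)
    change D ≤ N + ((D - N).toNat : ℤ)
    linarith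
  have hM : ∀ y : LV G κ, y ∈ Lat (G := G) (N + d) κ → y ∈ (Lat (G := G) 0 ι).map (LL Φ) := by
    intro y hy
    refine Submodule.mem_map.2 ⟨LL Ψ y, ?_, hΦΨ y⟩
    have h1 := hD _ _ hy
    refine mem_lat.2 fun j g hne => ?_
    have h2 := mem_lat.1 h1 j g hne
    linarith
  -- the projection which kills `Φ (Lat 0)`
  let q : LV G κ →ₗ[MonoidAlgebra ℤ G] LV G κ :=
    LinearMap.id - LL Φ ∘ₗ T 0 ∘ₗ LL Ψ
  have hq : ∀ y : LV G κ, q y = y - LL Φ (T 0 (LL Ψ y)) := fun y => rfl
  have hq0 : ∀ y ∈ (Lat (G := G) 0 ι).map (LL Φ), q y = 0 := by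
    rintro y hy
    obtain ⟨x, hx, rfl⟩ := Submodule.mem_map.1 hy
    rw [hq, hΨΦ, T_of_mem hx, sub_self]
  have hTin : ∀ y : LV G κ, LL Φ (T 0 (LL Ψ y)) ∈ (Lat (G := G) 0 ι).map (LL Φ) :=
    fun y => Submodule.mem_map_of_mem (T_mem 0 _)
  have hqN : ∀ y ∈ Lat (G := G) N κ, q y ∈ Lat (G := G) N κ := by
    intro y hy
    rw [hq]
    exact Submodule.sub_mem _ hy (hN (hTin y))
  let L := Lat (G := G) N κ
  let B := ((Lat (G := G) 0 ι).map (LL Φ)).submoduleOf L
  let coP : LV G κ →ₗ[MonoidAlgebra ℤ G] (κ × Fin d → MonoidAlgebra ℤ G) :=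
    LinearMap.pi fun p => co (N + (p.2 : ℕ)) p.1
  have hker : B ≤ LinearMap.ker (coP ∘ₗ q ∘ₗ L.subtype) := by
    intro y hy
    rw [LinearMap.mem_ker]
    exact (congrArg coP (hq0 _ hy)).trans (map_zero _)
  let i : (L ⧸ B) →ₗ[MonoidAlgebra ℤ G] (κ × Fin d → MonoidAlgebra ℤ G) :=
    B.liftQ (coP ∘ₗ q ∘ₗ L.subtype) hker
  let eL : κ × Fin d → L := fun p => ⟨e (N + (p.2 : ℕ)) p.1, e_mem N _ (by omega) p.1⟩
  let s : (κ × Fin d → MonoidAlgebra ℤ G) →ₗ[MonoidAlgebra ℤ G] (L ⧸ B) :=
    B.mkQ ∘ₗ Fintype.linearCombination (MonoidAlgebra ℤ G) eL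
  have hsi : s ∘ₗ i = LinearMap.id := by
    apply Submodule.linearMap_qext
    ext1 y
    change B.mkQ (Fintype.linearCombination (MonoidAlgebra ℤ G) eL (coP (q (y : LV G κ)))) =
      B.mkQ y
    rw [← sub_eq_zero, ← map_sub, Submodule.mkQ_apply, Submodule.Quotient.mk_eq_zero]
    change ((Fintype.linearCombination (MonoidAlgebra ℤ G) eL (coP (q (y : LV G κ))) - y : L) :
      LV G κ) ∈ (Lat (G := G) 0 ι).map (LL Φ)
    have h1 : ((Fintype.linearCombination (MonoidAlgebra ℤ G) eL (coP (q (y : LV G κ))) : L) :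
        LV G κ) = T N (q y) - T (N + d) (q y) := by
      rw [Fintype.linearCombination_apply, Submodule.coe_sum, ← sum_co_fin]
      rfl
    rw [Submodule.coe_sub, h1, T_of_mem (hqN _ y.2), hq]
    have h2 : ∀ a b c : LV G κ, a - b - c - a = -(b + c) := fun a b c => by abel
    rw [h2]
    exact Submodule.neg_mem _ (Submodule.add_mem _ (hTin _) (hM _ (T_mem _ _)))
  refine ⟨Module.Finite.of_surjective s fun x => ⟨i x, ?_⟩, Module.Projective.of_split i s hsi⟩
  exact LinearMap.congr_fun hsi x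

end BassProj

theorem stBassProj : StBassProj.{u} := by
  intro G _ ι κ _ _ Φ hΦ
  refine ⟨?_, fun N hN => BassProj.main Φ hΦ N hN⟩
  obtain ⟨D, hD⟩ := BassProj.exists_bound Φ
  refine ⟨0 - D, ?_⟩
  rintro y hy
  obtain ⟨x, hx, rfl⟩ := Submodule.mem_map.1 hy
  exact hD _ _ hx

end Pool.Agent.Lib.MP_551055_al.LS
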