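import Pool.Agent.Lib.MP_551055_al.LS.Stmts
import Pool.Agent.Lib.MP_551055_al.VNFinal

/-!
# Matrices over the group ring of a subgroup with stably free projectives are in the Bass class
-/

set_option autoImplicit false
set_option linter.unusedSectionVars false

namespace Pool.Agent.Lib.MP_551055_al.LS

open Pool.Agent.Lib.MP_551055_al
open Pool.Agent.Lib.MP_551055_al.Red (res res_coeff resv resv_apply Sup)
open MonoidAlgebra

universe u

namespace BV

variable {G : Type u} [Group G] {ι κ : Type}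

theorem inl_inj : Function.Injective (MonoidHom.inl G (Multiplicative ℤ)) :=
  fun _ _ h => (Prod.ext_iff.1 h).1

/-- All degrees of `r` are at least `N`. -/
def Dg (N : ℤ) (r : MonoidAlgebra ℤ (G × Multiplicative ℤ)) : Prop :=
  ∀ p, r.coeff p ≠ 0 → N ≤ p.2.toAdd

theorem Dg.mul {a b : ℤ} {r s : MonoidAlgebra ℤ (G × Multiplicative ℤ)} (hr : Dg a r)
    (hs : Dg b s) : Dg (a + b) (r * s) := by
  intro p hp
  obtain ⟨x, y, hx, hy, rfl⟩ := Red.exists_of_mul_coeff_ne _ _ _ hp
  exact add_le_add (hr x hx) (hs y hy)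

theorem exists_of_sum_coeff_ne {α : Type} (s : Finset α)
    (r : α → MonoidAlgebra ℤ (G × Multiplicative ℤ)) (p : G × Multiplicative ℤ)
    (h : (∑ j ∈ s, r j).coeff p ≠ 0) : ∃ j ∈ s, (r j).coeff p ≠ 0 := by
  rw [coeff_sum, Finsupp.finsetSum_apply] at h
  exact Finset.exists_ne_zero_of_sum_ne_zero h

theorem exists_dg [Fintype ι] [Fintype κ]
    (A : Matrix ι κ (MonoidAlgebra ℤ (G × Multiplicative ℤ))) :
    ∃ N : ℤ, N ≤ 0 ∧ ∀ i k, Dg N (A i k) := by
  classical
  have hfin : (⋃ x : ι × κ, (fun p : G × Multiplicative ℤ => p.2.toAdd) ''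
      ((A x.1 x.2).coeff.support : Set (G × Multiplicative ℤ))).Finite :=
    Set.finite_iUnion fun x => (Finset.finite_toSet _).image _
  obtain ⟨N, hN⟩ := hfin.bddBelow
  refine ⟨min N 0, min_le_right _ _, fun i k p hp => ?_⟩
  refine (min_le_left _ _).trans (hN ?_)
  exact Set.mem_iUnion.2 ⟨(i, k), p, Finsupp.mem_support_iff.2 hp, rfl⟩

theorem apply_eq_sum [Fintype ι] [DecidableEq ι]
    (A : Matrix ι κ (MonoidAlgebra ℤ (G × Multiplicative ℤ)))
    (y : ι → MonoidAlgebra ℤ (G × Multiplicative ℤ)) (k : κ) :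
    Matrix.toLinearMapRight' A y k = ∑ j, y j * A j k := rfl

/-- The coefficient of degree `d`. -/
noncomputable def co (d : ℤ) : MonoidAlgebra ℤ (G × Multiplicative ℤ) →+ MonoidAlgebra ℤ G where
  toFun r := prj ℤ (MonoidHom.inl G (Multiplicative ℤ)) inl_inj
    (r * single (1, Multiplicative.ofAdd (-d)) 1)
  map_zero' := by rw [zero_mul, map_zero]
  map_add' a b := by rw [add_mul, map_add]

theorem co_coeff (d : ℤ) (r : MonoidAlgebra ℤ (G × Multiplicative ℤ)) (g : G) :
    (co d r).coeff g = r.coeff (g, Multiplicative.ofAdd d) := by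
  change (prj ℤ (MonoidHom.inl G (Multiplicative ℤ)) inl_inj
    (r * single (1, Multiplicative.ofAdd (-d)) 1)).coeff g = _
  rw [prj_coeff, coeff_mul_single_apply, mul_one]
  congr 1
  refine Prod.ext ?_ ?_
  · simp
  · simp

theorem co_inc_mul (d : ℤ) (a : MonoidAlgebra ℤ G) (r : MonoidAlgebra ℤ (G × Multiplicative ℤ)) :
    co d (inc ℤ (MonoidHom.inl G (Multiplicative ℤ)) a * r) = a * co d r := by
  change prj ℤ (MonoidHom.inl G (Multiplicative ℤ)) inl_inj
    (inc ℤ (MonoidHom.inl G (Multiplicative ℤ)) a * r *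
      single (1, Multiplicative.ofAdd (-d)) 1) = _
  rw [mul_assoc, prj_inc_mul]
  rfl

/-- The element of degree `d` with the coefficient `a`. -/
noncomputable def ic (d : ℤ) : MonoidAlgebra ℤ G →+ MonoidAlgebra ℤ (G × Multiplicative ℤ) where
  toFun a := inc ℤ (MonoidHom.inl G (Multiplicative ℤ)) a *
    single (1, Multiplicative.ofAdd d) 1
  map_zero' := by rw [map_zero, zero_mul]
  map_add' a b := by rw [map_add, add_mul]

theorem ic_coeff (d : ℤ) (a : MonoidAlgebra ℤ G) (p : G × Multiplicative ℤ) :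
    (ic d a).coeff p = if p.2.toAdd = d then a.coeff p.1 else 0 := by
  change (inc ℤ (MonoidHom.inl G (Multiplicative ℤ)) a *
    single (1, Multiplicative.ofAdd d) 1).coeff p = _
  rw [coeff_mul_single_apply, mul_one]
  split_ifs with h
  · have h1 : p * (1, Multiplicative.ofAdd d)⁻¹ = MonoidHom.inl G (Multiplicative ℤ) p.1 := by
      refine Prod.ext ?_ ?_
      · simp
      · apply Multiplicative.toAdd.injective
        simp [h]
    rw [h1, inc_coeff_apply _ inl_inj]
  · apply inc_coeff_of_notMem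
    rintro ⟨g, hg⟩
    apply h
    have h2 := congrArg (fun q : G × Multiplicative ℤ => q.2.toAdd) hg
    simp only [MonoidHom.inl_apply, toAdd_one, Prod.snd_mul, Prod.snd_inv, toAdd_mul, toAdd_inv,
      toAdd_ofAdd] at h2
    omega

theorem ic_mul (d : ℤ) (a b : MonoidAlgebra ℤ G) :
    ic d (a * b) = inc ℤ (MonoidHom.inl G (Multiplicative ℤ)) a * ic d b := by
  change inc ℤ (MonoidHom.inl G (Multiplicative ℤ)) (a * b) * _ = _ * (_ * _)
  rw [map_mul, mul_assoc]

theorem co_ic (d d' : ℤ) (a : MonoidAlgebra ℤ G) : co d (ic d' a) = if d = d' then a else 0 := by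
  ext g
  rw [co_coeff, ic_coeff]
  split_ifs with h1 h2 h2
  · rfl
  · exact absurd h1 h2
  · exact absurd h2 h1
  · rfl

section Window

variable {n m : ℕ} (σ : Fin n ≃ κ × Fin m) (N : ℤ)

/-- The coefficients of degrees `N, …, N + m - 1`. -/
noncomputable def down : LV G κ →ₗ[MonoidAlgebra ℤ G] (Fin n → MonoidAlgebra ℤ G) where
  toFun y := fun i => co (N + ((σ i).2 : ℕ)) (asV y (σ i).1)
  map_add' y z := by
    funext i
    exact map_add _ _ _
  map_smul' a y := by
    funext i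
    exact co_inc_mul _ _ _

/-- The vector with given coefficients of degrees `N, …, N + m - 1`. -/
noncomputable def up : (Fin n → MonoidAlgebra ℤ G) →ₗ[MonoidAlgebra ℤ G] LV G κ where
  toFun w := fun j => ∑ a : Fin m, ic (N + (a : ℕ)) (w (σ.symm (j, a)))
  map_add' w w' := by
    funext j
    change ∑ a : Fin m, ic (N + (a : ℕ)) (w (σ.symm (j, a)) + w' (σ.symm (j, a))) =
      ∑ a : Fin m, ic (N + (a : ℕ)) (w (σ.symm (j, a))) +
        ∑ a : Fin m, ic (N + (a : ℕ)) (w' (σ.symm (j, a)))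
    rw [← Finset.sum_add_distrib]
    exact Finset.sum_congr rfl fun a _ => map_add _ _ _
  map_smul' s w := by
    funext j
    change ∑ a : Fin m, ic (N + (a : ℕ)) (s * w (σ.symm (j, a))) =
      inc ℤ (MonoidHom.inl G (Multiplicative ℤ)) s *
        ∑ a : Fin m, ic (N + (a : ℕ)) (w (σ.symm (j, a)))
    rw [Finset.mul_sum]
    exact Finset.sum_congr rfl fun a _ => ic_mul _ _ _

theorem up_coeff (w : Fin n → MonoidAlgebra ℤ G) (j : κ) (p : G × Multiplicative ℤ) :
    (asV (up σ N w) j).coeff p =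
      ∑ a : Fin m, if p.2.toAdd = N + (a : ℕ) then (w (σ.symm (j, a))).coeff p.1 else 0 := by
  change (∑ a : Fin m, ic (N + (a : ℕ)) (w (σ.symm (j, a)))).coeff p = _
  rw [coeff_sum, Finsupp.finsetSum_apply]
  exact Finset.sum_congr rfl fun a _ => ic_coeff _ _ _

theorem up_mem_lat (w : Fin n → MonoidAlgebra ℤ G) : up σ N w ∈ Lat (G := G) N κ := by
  intro j p hp
  have h1 := up_coeff σ N w j p
  change (asV (up σ N w) j).coeff p ≠ 0 at hp
  rw [h1] at hp
  obtain ⟨a, _, ha⟩ := Finset.exists_ne_zero_of_sum_ne_zero hp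
  by_cases h : p.2.toAdd = N + (a : ℕ)
  · rw [h]
    omega
  · rw [if_neg h] at ha
    exact absurd rfl ha

/-- `y` and `up (down y)` agree up to degrees at least `N + m`. -/
theorem sub_up_down_mem (y : LV G κ) (hy : y ∈ Lat (G := G) N κ) :
    y - up σ N (down σ N y) ∈ Lat (G := G) (N + m) κ := by
  intro j p hp
  by_contra hlt
  rw [not_le] at hlt
  apply hp
  change (asV y j - asV (up σ N (down σ N y)) j).coeff p = 0
  rw [coeff_sub, Finsupp.sub_apply, up_coeff, sub_eq_zero]
  have h2 : ∀ a : Fin m, (if p.2.toAdd = N + (a : ℕ) then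
      (down σ N y (σ.symm (j, a))).coeff p.1 else 0) =
      if p.2.toAdd = N + (a : ℕ) then (asV y j).coeff p else 0 := by
    intro a
    by_cases ha : p.2.toAdd = N + (a : ℕ)
    · rw [if_pos ha, if_pos ha]
      change (co (N + ((σ (σ.symm (j, a))).2 : ℕ)) (asV y (σ (σ.symm (j, a))).1)).coeff p.1 = _
      rw [Equiv.apply_symm_apply, co_coeff]
      have h3 : (p.1, Multiplicative.ofAdd (N + (((j, a) : κ × Fin m).2 : ℕ))) = p := by
        refine Prod.ext rfl ?_
        apply Multiplicative.toAdd.injective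
        exact ha.symm
      rw [h3]
    · rw [if_neg ha, if_neg ha]
  rw [Finset.sum_congr rfl fun a _ => h2 a]
  by_cases hN : N ≤ p.2.toAdd
  · have hk : (p.2.toAdd - N).toNat < m := by omega
    rw [Finset.sum_eq_single ⟨(p.2.toAdd - N).toNat, hk⟩]
    · rw [if_pos]
      change p.2.toAdd = N + (((p.2.toAdd - N).toNat : ℕ) : ℤ)
      omega
    · intro b _ hb
      rw [if_neg]
      intro h
      apply hb
      apply Fin.ext
      change (b : ℕ) = (p.2.toAdd - N).toNat
      omega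
    · intro h
      exact absurd (Finset.mem_univ _) h
  · have h0 : (asV y j).coeff p = 0 := by
      by_contra hne
      exact hN (hy j p hne)
    rw [h0, Finset.sum_eq_zero]
    intro a _
    split_ifs <;> rfl

theorem mem_lat_of_down_eq_zero (y : LV G κ) (hy : y ∈ Lat (G := G) N κ) (h : down σ N y = 0) :
    y ∈ Lat (G := G) (N + m) κ := by
  have h1 := sub_up_down_mem σ N y hy
  rwa [h, map_zero, sub_zero] at h1

end Window

section Main

variable [Fintype ι] [Fintype κ] [DecidableEq ι] [DecidableEq κ]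
  (A : Matrix ι κ (MonoidAlgebra ℤ (G × Multiplicative ℤ)))
  (B : Matrix κ ι (MonoidAlgebra ℤ (G × Multiplicative ℤ)))

/-- The linear map of a matrix over `ℤ[G]`. -/
noncomputable def mp : LV G ι →ₗ[MonoidAlgebra ℤ G] LV G κ := LL (Matrix.toLinearMapRight' A)

theorem mp_mp (h : A * B = 1) (y : LV G ι) : mp B (mp A y) = y := by
  change Matrix.toLinearMapRight' B (Matrix.toLinearMapRight' A (asV y)) = asV y
  rw [← Matrix.toLinearMapRight'_mul_apply, h, Matrix.toLinearMapRight'_one]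
  rfl

theorem mp_mem_lat {a b : ℤ} (hA : ∀ i k, Dg a (A i k)) {y : LV G ι}
    (hy : y ∈ Lat (G := G) b ι) : mp A y ∈ Lat (G := G) (b + a) κ := by
  intro k p hp
  change (∑ j, asV y j * A j k).coeff p ≠ 0 at hp
  obtain ⟨j, _, hj⟩ := exists_of_sum_coeff_ne _ _ _ hp
  exact Dg.mul (fun p hp => hy j p hp) (hA j k) p hj

/-- The negative part. -/
noncomputable def ng (ι : Type) : LV G ι →ₗ[MonoidAlgebra ℤ G] LV G ι where
  toFun y := resv {p : G × Multiplicative ℤ | p.2.toAdd < 0} (asV y)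
  map_add' y z := map_add (resv {p : G × Multiplicative ℤ | p.2.toAdd < 0}) (asV y) (asV z)
  map_smul' a y := by
    refine MonoidAlgebra.induction_linear a ?_ ?_ ?_
    · rw [zero_smul, map_zero, zero_smul]
      exact map_zero _
    · intro a b ha hb
      rw [RingHom.id_apply] at *
      rw [add_smul, add_smul, ← ha, ← hb]
      exact map_add (resv {p : G × Multiplicative ℤ | p.2.toAdd < 0}) _ _
    · intro g c
      rw [RingHom.id_apply, lv_single, lv_single]
      funext j
      exact Red.res_single_mul _ _ _ _ _ fun p => by simp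

theorem ng_coeff (y : LV G ι) (j : ι) (p : G × Multiplicative ℤ) :
    (asV (ng ι y) j).coeff p = if p.2.toAdd < 0 then (asV y j).coeff p else 0 := by
  classical
  change (res {p : G × Multiplicative ℤ | p.2.toAdd < 0} (asV y j)).coeff p = _
  rw [res_coeff]
  congr 1

theorem ng_ng (y : LV G ι) : ng ι (ng ι y) = ng ι y := by
  funext j
  refine MonoidAlgebra.ext (Finsupp.ext fun p => ?_)
  change (asV (ng ι (ng ι y)) j).coeff p = (asV (ng ι y) j).coeff p
  rw [ng_coeff, ng_coeff]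
  split_ifs <;> rfl

theorem ng_of_lat {y : LV G ι} (hy : y ∈ Lat (G := G) 0 ι) : ng ι y = 0 := by
  funext j
  refine MonoidAlgebra.ext (Finsupp.ext fun p => ?_)
  change (asV (ng ι y) j).coeff p = 0
  rw [ng_coeff]
  split_ifs with h
  · by_contra hne
    exact absurd (hy j p hne) (not_le.2 h)
  · rfl

theorem sub_ng_mem (y : LV G ι) : y - ng ι y ∈ Lat (G := G) 0 ι := by
  intro j p hp
  change (asV y j - asV (ng ι y) j).coeff p ≠ 0 at hp
  rw [coeff_sub, Finsupp.sub_apply, ng_coeff] at hp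
  by_contra h
  rw [not_le] at h
  rw [if_pos h, sub_self] at hp
  exact hp rfl

/-- The projection with kernel `A (Lat 0)`. -/
noncomputable def qq : LV G κ →ₗ[MonoidAlgebra ℤ G] LV G κ := mp A ∘ₗ ng ι ∘ₗ mp B

theorem qq_apply (y : LV G κ) : qq A B y = mp A (ng ι (mp B y)) := rfl

theorem qq_of_map (hAB : A * B = 1) {y : LV G κ} (hy : y ∈ (Lat (G := G) 0 ι).map (mp A)) :
    qq A B y = 0 := by
  obtain ⟨x, hx, rfl⟩ := hy
  rw [qq_apply, mp_mp A B hAB, ng_of_lat hx, map_zero]

theorem sub_qq_mem (hBA : B * A = 1) (y : LV G κ) :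
    y - qq A B y ∈ (Lat (G := G) 0 ι).map (mp A) := by
  refine ⟨mp B y - ng ι (mp B y), sub_ng_mem _, ?_⟩
  rw [map_sub, mp_mp B A hBA, qq_apply]

theorem qq_qq (hAB : A * B = 1) (y : LV G κ) : qq A B (qq A B y) = qq A B y := by
  rw [qq_apply, qq_apply, mp_mp A B hAB, ng_ng]

variable {n m : ℕ} (σ : Fin n ≃ κ × Fin m) (N : ℤ)

/-- The idempotent on `ℤ[G]^n`. -/
noncomputable def ee : (Fin n → MonoidAlgebra ℤ G) →ₗ[MonoidAlgebra ℤ G]
    (Fin n → MonoidAlgebra ℤ G) := down σ N ∘ₗ qq A B ∘ₗ up σ N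

theorem ee_apply (w : Fin n → MonoidAlgebra ℤ G) :
    ee A B σ N w = down σ N (qq A B (up σ N w)) := rfl

variable (hAB : A * B = 1) (hBA : B * A = 1)
  (hN : (Lat (G := G) 0 ι).map (mp A) ≤ Lat (G := G) N κ)
  (hM : ∀ y ∈ Lat (G := G) (N + m) κ, qq A B y = 0)

include hBA hN in
theorem qq_mem {y : LV G κ} (hy : y ∈ Lat (G := G) N κ) : qq A B y ∈ Lat (G := G) N κ := by
  have h1 := hN (sub_qq_mem A B hBA y)
  have h2 := Submodule.sub_mem _ hy h1
  rwa [sub_sub_cancel] at h2

include hM in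
theorem qq_up_down {y : LV G κ} (hy : y ∈ Lat (G := G) N κ) :
    qq A B (up σ N (down σ N y)) = qq A B y := by
  have h1 := hM _ (sub_up_down_mem σ N y hy)
  rw [map_sub, sub_eq_zero] at h1
  exact h1.symm

include hAB hBA hN hM in
theorem ee_ee (w : Fin n → MonoidAlgebra ℤ G) : ee A B σ N (ee A B σ N w) = ee A B σ N w := by
  rw [ee_apply, ee_apply, qq_up_down A B σ N hM (qq_mem A B N hBA hN (up_mem_lat σ N w)),
    qq_qq A B hAB]

include hAB hBA hN hM in
theorem exists_equiv : Nonempty ((Lat (G := G) N κ ⧸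
    ((Lat (G := G) 0 ι).map (mp A)).submoduleOf (Lat (G := G) N κ)) ≃ₗ[MonoidAlgebra ℤ G]
    LinearMap.range (ee A B σ N)) := by
  let T : Lat (G := G) N κ →ₗ[MonoidAlgebra ℤ G] (Fin n → MonoidAlgebra ℤ G) :=
    down σ N ∘ₗ qq A B ∘ₗ (Lat (G := G) N κ).subtype
  have hT : ∀ y : Lat (G := G) N κ, T y = down σ N (qq A B (y : LV G κ)) := fun _ => rfl
  have hker : LinearMap.ker T =
      ((Lat (G := G) 0 ι).map (mp A)).submoduleOf (Lat (G := G) N κ) := by
    ext y
    rw [LinearMap.mem_ker, hT]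
    change _ ↔ (y : LV G κ) ∈ (Lat (G := G) 0 ι).map (mp A)
    constructor
    · intro h
      have h1 := hM _ (mem_lat_of_down_eq_zero σ N _ (qq_mem A B N hBA hN y.2) h)
      rw [qq_qq A B hAB] at h1
      have h2 := sub_qq_mem A B hBA (y : LV G κ)
      rwa [h1, sub_zero] at h2
    · intro h
      rw [qq_of_map A B hAB h, map_zero]
  have hrange : LinearMap.range T = LinearMap.range (ee A B σ N) := by
    ext w
    constructor
    · rintro ⟨y, rfl⟩
      refine ⟨down σ N (y : LV G κ), ?_⟩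
      rw [ee_apply, qq_up_down A B σ N hM y.2, hT]
    · rintro ⟨w, rfl⟩
      exact ⟨⟨up σ N w, up_mem_lat σ N w⟩, rfl⟩
  exact ⟨(Submodule.quotEquivOfEq _ _ hker.symm).trans
    ((LinearMap.quotKerEquivRange T).trans (LinearEquiv.ofEq _ _ hrange))⟩

end Main

section Support

variable (H : Subgroup G)

/-- The elements of `G × ℤ` over `H`. -/
def HZ : Set (G × Multiplicative ℤ) := {p | p.1 ∈ H}

theorem sup_mp [Fintype ι] [Fintype κ] [DecidableEq ι] [DecidableEq κ]
    {A : Matrix ι κ (MonoidAlgebra ℤ (G × Multiplicative ℤ))}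
    (hA : ∀ i k p, (A i k).coeff p ≠ 0 → p ∈ HZ H) {y : LV G ι} (hy : Sup (HZ H) (asV y)) :
    Sup (HZ H) (asV (mp A y)) := by
  intro k p hp
  change (∑ j, asV y j * A j k).coeff p ≠ 0 at hp
  obtain ⟨j, _, hj⟩ := exists_of_sum_coeff_ne _ _ _ hp
  obtain ⟨x, z, hx, hz, rfl⟩ := Red.exists_of_mul_coeff_ne _ _ _ hj
  exact H.mul_mem (hy j x hx) (hA j k z hz)

theorem sup_ng [Fintype ι] [DecidableEq ι] {y : LV G ι} (hy : Sup (HZ H) (asV y)) :
    Sup (HZ H) (asV (ng ι y)) := by
  intro j p hp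
  rw [ng_coeff] at hp
  split_ifs at hp with h
  · exact hy j p hp
  · exact absurd rfl hp

theorem sup_up {n m : ℕ} (σ : Fin n ≃ κ × Fin m) (N : ℤ) (i : Fin n) :
    Sup (HZ H) (asV (up σ N (Pi.single i 1))) := by
  classical
  intro j p hp
  rw [up_coeff] at hp
  obtain ⟨a, _, ha⟩ := Finset.exists_ne_zero_of_sum_ne_zero hp
  split_ifs at ha with h
  · by_cases hi : σ.symm (j, a) = i
    · rw [hi, Pi.single_eq_same] at ha
      change (single (1 : G) (1 : ℤ)).coeff p.1 ≠ 0 at ha
      rw [coeff_single, Finsupp.single_apply] at ha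
      split_ifs at ha with h1
      · change p.1 ∈ H
        rw [← h1]
        exact H.one_mem
      · exact absurd rfl ha
    · rw [Pi.single_eq_of_ne hi] at ha
      exact absurd rfl ha
  · exact absurd rfl ha

end Support

end BV

/-- Module BassVert. -/
theorem stBassVert' : StBassVert.{u} := by
  intro G _ H hH ι κ _ _ _ _ A₀ B₀ hAB₀ hBA₀
  set φ : MonoidAlgebra ℤ (H.prod (⊤ : Subgroup (Multiplicative ℤ))) →+*
    MonoidAlgebra ℤ (G × Multiplicative ℤ) := inc ℤ (H.prod ⊤).subtype with hφ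
  set A := A₀.map φ with hA
  set B := B₀.map φ with hB
  have hAB : A * B = 1 := by
    rw [hA, hB, ← Matrix.map_mul, hAB₀, Matrix.map_one φ (map_zero φ) (map_one φ)]
  have hBA : B * A = 1 := by
    rw [hA, hB, ← Matrix.map_mul, hBA₀, Matrix.map_one φ (map_zero φ) (map_one φ)]
  have hsup : ∀ (r : MonoidAlgebra ℤ (H.prod (⊤ : Subgroup (Multiplicative ℤ)))) p,
      (φ r).coeff p ≠ 0 → p ∈ BV.HZ H := by
    intro r p hp
    by_contra hn
    apply hp
    apply inc_coeff_of_notMem
    rintro ⟨q, rfl⟩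
    exact hn q.2.1
  refine ⟨?_, ?_⟩
  · rw [Function.bijective_iff_has_inverse]
    refine ⟨Matrix.toLinearMapRight' B, fun y => ?_, fun y => ?_⟩
    · rw [← Matrix.toLinearMapRight'_mul_apply, hAB, Matrix.toLinearMapRight'_one]
      rfl
    · rw [← Matrix.toLinearMapRight'_mul_apply, hBA, Matrix.toLinearMapRight'_one]
      rfl
  obtain ⟨N, hN0, hNA⟩ := BV.exists_dg A
  obtain ⟨M, hM0, hMB⟩ := BV.exists_dg B
  have hN : (Lat (G := G) 0 ι).map (BV.mp A) ≤ Lat (G := G) N κ := by
    rintro _ ⟨x, hx, rfl⟩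
    have := BV.mp_mem_lat A hNA hx
    rwa [zero_add] at this
  let m : ℕ := (-M - N).toNat
  have hm : 0 ≤ N + m + M := by omega
  have hM : ∀ y ∈ Lat (G := G) (N + m) κ, BV.qq A B y = 0 := by
    intro y hy
    have h1 := BV.mp_mem_lat B hMB hy
    have h2 : BV.mp B y ∈ Lat (G := G) 0 ι := fun j p hp => hm.trans (h1 j p hp)
    rw [BV.qq_apply, BV.ng_of_lat h2, map_zero]
  let σ : Fin (Fintype.card (κ × Fin m)) ≃ κ × Fin m := (Fintype.equivFin _).symm
  obtain ⟨E, hE⟩ := (Matrix.toLinearMapRight' (R := MonoidAlgebra ℤ G)).surjective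
    (BV.ee A B σ N)
  have hEE : E * E = E := by
    apply (Matrix.toLinearMapRight' (R := MonoidAlgebra ℤ G)).injective
    rw [Matrix.toLinearMapRight'_mul, hE]
    exact LinearMap.ext fun w => BV.ee_ee A B σ N hAB hBA hN hM w
  -- the entries are in `ℤ[H]`
  have hEsup : ∀ i k g, (E i k).coeff g ≠ 0 → g ∈ H := by
    intro i k g hg
    have h1 : E i k = BV.ee A B σ N (Pi.single i 1) k := by
      rw [← hE]
      change E i k = Matrix.vecMul (Pi.single i 1) E k
      rw [Matrix.single_one_vecMul]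
      rfl
    rw [h1, BV.ee_apply] at hg
    have h2 : Sup (BV.HZ H) (asV (BV.qq A B (BV.up σ N (Pi.single i 1)))) := by
      rw [BV.qq_apply]
      refine BV.sup_mp H (fun i k p hp => hsup _ p hp) (BV.sup_ng H (BV.sup_mp H
        (fun i k p hp => hsup _ p hp) (BV.sup_up H σ N i)))
    change (BV.co (N + ((σ k).2 : ℕ)) (asV (BV.qq A B (BV.up σ N (Pi.single i 1)))
      (σ k).1)).coeff g ≠ 0 at hg
    rw [BV.co_coeff] at hg
    exact h2 _ _ hg
  set E₀ := E.map (prj ℤ H.subtype H.subtype_injective) with hE₀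
  have hEE₀ : E₀.map (inc ℤ H.subtype) = E := by
    ext i k g
    change (inc ℤ H.subtype (prj ℤ H.subtype H.subtype_injective (E i k))).coeff g = _
    by_cases hg : g ∈ H
    · have h1 := inc_coeff_apply (k := ℤ) H.subtype H.subtype_injective
        (prj ℤ H.subtype H.subtype_injective (E i k)) ⟨g, hg⟩
      rw [prj_coeff] at h1
      exact h1
    · rw [inc_coeff_of_notMem]
      · by_contra hne
        exact hg (hEsup i k g (Ne.symm hne))
      · rintro ⟨x, rfl⟩
        exact hg x.2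
  have hidem : E₀ * E₀ = E₀ := by
    apply Matrix.map_injective (inc_injective (k := ℤ) H.subtype H.subtype_injective)
    change (E₀ * E₀).map (inc ℤ H.subtype) = E₀.map (inc ℤ H.subtype)
    rw [Matrix.map_mul, hEE₀, hEE]
  have hst := VN.stFree_range_of_proj hH E₀ hidem
  have hst' := stFree_map (inc ℤ H.subtype) E₀ hidem hst
  rw [hEE₀, hE] at hst'
  obtain ⟨Ψ⟩ := BV.exists_equiv A B σ N hAB hBA hN hM
  exact ⟨N, hN, hst'.congr Ψ.symm⟩

/-- Module BassVert. -/
theorem stBassVert (_ : StBassProj.{u}) : StBassVert.{u} := stBassVert'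

end Pool.Agent.Lib.MP_551055_al.LS
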