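import Pool.Agent.Lib.MP_551055_al.LS.Orb

/-!
# Module Elim: elimination of orbits of pairs
-/

set_option autoImplicit false

namespace Pool.Agent.Lib.MP_551055_al.LS

open Pool.Agent.Lib.MP_551055_al

universe u v

namespace ElimAux

open OrbAux

variable {Γ : Type u} [Group Γ] {X : Type v} [MulAction Γ X] {r : X → X → Prop}
variable {ι : Type} [Fintype ι] [DecidableEq ι]

/-- `B` is a Hadamard multiple of `A ^ j`. -/
def HM (p : ι → X) (A : Matrix ι ι (ZG Γ)) (j : ℕ) (B : Matrix ι ι (ZG Γ)) : Prop :=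
  ∃ c : X → X → ℤ, (∀ (γ : Γ) (x y : X), c (γ • x) (γ • y) = c x y) ∧
    ∀ (i l : ι) (γ : Γ), (B i l).coeff γ = c (p i) (γ • p l) * ((A ^ j) i l).coeff γ

theorem mat_ext {B C : Matrix ι ι (ZG Γ)} (h : ∀ i l γ, (B i l).coeff γ = (C i l).coeff γ) :
    B = C := by
  ext1 i l
  exact MonoidAlgebra.ext (Finsupp.ext (h i l))

theorem add_coeff' (B C : Matrix ι ι (ZG Γ)) (i l : ι) (γ : Γ) :
    ((B + C) i l).coeff γ = (B i l).coeff γ + (C i l).coeff γ := rfl

theorem neg_coeff' (B : Matrix ι ι (ZG Γ)) (i l : ι) (γ : Γ) :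
    ((-B) i l).coeff γ = -(B i l).coeff γ := rfl

theorem zero_coeff' (i l : ι) (γ : Γ) :
    ((0 : Matrix ι ι (ZG Γ)) i l).coeff γ = 0 := rfl

variable {p : ι → X} {A : Matrix ι ι (ZG Γ)}

theorem HM.add {j : ℕ} {B C : Matrix ι ι (ZG Γ)} (h : HM p A j B) (h' : HM p A j C) :
    HM p A j (B + C) := by
  obtain ⟨c, hc, hB⟩ := h
  obtain ⟨c', hc', hC⟩ := h'
  refine ⟨fun x y => c x y + c' x y, fun γ x y => ?_, fun i l γ => ?_⟩
  · change c (γ • x) (γ • y) + c' (γ • x) (γ • y) = c x y + c' x y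
    rw [hc, hc']
  · rw [add_coeff', hB, hC, add_mul]

theorem HM.neg {j : ℕ} {B : Matrix ι ι (ZG Γ)} (h : HM p A j B) : HM p A j (-B) := by
  obtain ⟨c, hc, hB⟩ := h
  refine ⟨fun x y => -c x y, fun γ x y => ?_, fun i l γ => ?_⟩
  · change -c (γ • x) (γ • y) = -c x y
    rw [hc]
  · rw [neg_coeff', hB, neg_mul]

theorem HM.zero (j : ℕ) : HM p A j 0 :=
  ⟨fun _ _ => 0, fun _ _ _ => rfl, fun i l γ => by rw [zero_mul, zero_coeff']⟩

theorem HM.self : HM p A 1 A :=
  ⟨fun _ _ => 1, fun _ _ _ => rfl, fun i l γ => by rw [one_mul, pow_one]⟩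

theorem HM.eq_zero {j k : ℕ} {B : Matrix ι ι (ZG Γ)} (h : HM p A j B) (hA : A ^ k = 0)
    (hj : k ≤ j) : B = 0 := by
  obtain ⟨c, -, hB⟩ := h
  refine mat_ext fun i l γ => ?_
  rw [hB, pow_eq_zero_of_le hj hA, zero_coeff', mul_zero]

theorem dg_pow (hr : UR (Γ := Γ) r) (hD : Dg r 1 p A) (j : ℕ) : Dg r j p (A ^ j) := by
  classical
  induction j with
  | zero =>
    intro i l γ hne
    rw [pow_zero, Matrix.one_apply] at hne
    split_ifs at hne with h
    · subst h
      rw [MonoidAlgebra.one_def, MonoidAlgebra.coeff_single, Finsupp.single_apply] at hne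
      split_ifs at hne with h1
      · rw [← h1, one_smul]
        rfl
      · exact absurd rfl hne
    · exact absurd rfl hne
  | succ j ih =>
    intro i l γ hne
    rw [pow_succ, Matrix.mul_apply] at hne
    obtain ⟨m, _, hm⟩ := exists_of_coeff_sum hne
    obtain ⟨a, b, ha, hb, hab⟩ := exists_of_coeff_mul hm
    rw [itr_add]
    refine ⟨a • p m, ih i m a ha, ?_⟩
    rw [← hab, mul_smul]
    exact itr_smul hr a 1 _ _ (hD m l b hb)

theorem HM.dg (hr : UR (Γ := Γ) r) (hD : Dg r 1 p A) {j : ℕ} {B : Matrix ι ι (ZG Γ)}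
    (h : HM p A j B) : Dg r j p B := by
  obtain ⟨c, -, hB⟩ := h
  intro i l γ hne
  rw [hB] at hne
  exact dg_pow hr hD j i l γ (right_ne_zero_of_mul hne)

theorem coeff_mul_eq (x y : MonoidAlgebra ℤ Γ) (γ : Γ) :
    (x * y).coeff γ = ∑ a ∈ x.coeff.support, x.coeff a * y.coeff (a⁻¹ * γ) := by
  have hsum : x = ∑ a ∈ x.coeff.support, MonoidAlgebra.single a (x.coeff a) :=
    (MonoidAlgebra.sum_coeff_single x).symm
  conv_lhs => rw [hsum, Finset.sum_mul, MonoidAlgebra.coeff_sum, Finsupp.finsetSum_apply]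
  refine Finset.sum_congr rfl fun a _ => ?_
  rw [MonoidAlgebra.coeff_single_mul_apply]

theorem coeff_mul_eq_sum (x y : MonoidAlgebra ℤ Γ) (γ : Γ) (s : Finset Γ)
    (hs : ∀ a, x.coeff a ≠ 0 → a ∈ s) :
    (x * y).coeff γ = ∑ a ∈ s, x.coeff a * y.coeff (a⁻¹ * γ) := by
  rw [coeff_mul_eq]
  refine Finset.sum_subset (fun a ha => hs a (Finsupp.mem_support_iff.1 ha)) fun a _ ha => ?_
  rw [Finsupp.notMem_support_iff.1 ha, zero_mul]

theorem HM.mul (hr : UR (Γ := Γ) r) (hD : Dg r 1 p A) {a b : ℕ} {B C : Matrix ι ι (ZG Γ)}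
    (h : HM p A a B) (h' : HM p A b C) : HM p A (a + b) (B * C) := by
  classical
  obtain ⟨c, hc, hB⟩ := h
  obtain ⟨c', hc', hC⟩ := h'
  let mid : X → X → X → Prop := fun x z y => itr r a x y ∧ itr r b y z
  have hmid : ∀ x z y y', mid x z y → mid x z y' → y = y' := fun x z y y' h1 h2 =>
    itr_uniq hr b a x y y' z h1.1 h2.1 h1.2 h2.2
  let c'' : X → X → ℤ := fun x z => if h : ∃ y, mid x z y then c x h.choose * c' h.choose z else 0
  have hc''1 : ∀ x z y, mid x z y → c'' x z = c x y * c' y z := by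
    intro x z y hy
    have h : ∃ y, mid x z y := ⟨y, hy⟩
    have h1 : h.choose = y := hmid x z _ _ h.choose_spec hy
    simp only [c'', dif_pos h, h1]
  have hmids : ∀ (γ : Γ) x z y, mid x z y → mid (γ • x) (γ • z) (γ • y) := fun γ x z y h =>
    ⟨itr_smul hr γ a x y h.1, itr_smul hr γ b y z h.2⟩
  refine ⟨c'', fun γ x z => ?_, fun i l γ => ?_⟩
  · by_cases h : ∃ y, mid x z y
    · obtain ⟨y, hy⟩ := h
      rw [hc''1 x z y hy, hc''1 _ _ _ (hmids γ x z y hy), hc, hc']
    · have h2 : ¬ ∃ y, mid (γ • x) (γ • z) y := by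
        rintro ⟨y, hy⟩
        apply h
        have h3 := hmids γ⁻¹ _ _ _ hy
        rw [inv_smul_smul, inv_smul_smul] at h3
        exact ⟨_, h3⟩
      simp only [c'', dif_neg h, dif_neg h2]
  · rw [pow_add, Matrix.mul_apply, Matrix.mul_apply, MonoidAlgebra.coeff_sum,
      MonoidAlgebra.coeff_sum, Finsupp.finsetSum_apply, Finsupp.finsetSum_apply, Finset.mul_sum]
    refine Finset.sum_congr rfl fun m _ => ?_
    rw [coeff_mul_eq_sum (B i m) (C m l) γ ((A ^ a) i m).coeff.support (fun g hg => by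
      rw [hB] at hg
      exact Finsupp.mem_support_iff.2 (right_ne_zero_of_mul hg)), coeff_mul_eq, Finset.mul_sum]
    refine Finset.sum_congr rfl fun g hg => ?_
    rw [hB, hC]
    by_cases h0 : ((A ^ b) m l).coeff (g⁻¹ * γ) = 0
    · rw [h0]
      ring
    · have h1 : mid (p i) (γ • p l) (g • p m) := by
        refine ⟨dg_pow hr hD a i m g (Finsupp.mem_support_iff.1 hg), ?_⟩
        have h2 := itr_smul hr g b _ _ (dg_pow hr hD b m l _ h0)
        rwa [smul_smul, mul_inv_cancel_left] at h2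
      rw [hc''1 _ _ _ h1]
      have h3 : c' (p m) ((g⁻¹ * γ) • p l) = c' (g • p m) (γ • p l) := by
        rw [← hc' g, smul_smul, mul_inv_cancel_left]
      rw [h3]
      ring

/-- Restriction of a matrix to a set of pairs. -/
noncomputable def rs (p : ι → X) (o : X → X → Prop) (B : Matrix ι ι (ZG Γ)) :
    Matrix ι ι (ZG Γ) := fun i l => Red.res {γ : Γ | o (p i) (γ • p l)} (B i l)

open Classical in
theorem rs_coeff (p : ι → X) (o : X → X → Prop) (B : Matrix ι ι (ZG Γ)) (i l : ι) (γ : Γ) :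
    (rs p o B i l).coeff γ = if o (p i) (γ • p l) then (B i l).coeff γ else 0 := by
  change (Red.res {γ : Γ | o (p i) (γ • p l)} (B i l)).coeff γ = _
  rw [Red.res_coeff]
  rfl

theorem HM.rs {j : ℕ} {B : Matrix ι ι (ZG Γ)} (h : HM p A j B) (o : X → X → Prop)
    (ho : ∀ (γ : Γ) x y, o (γ • x) (γ • y) ↔ o x y) : HM p A j (rs p o B) := by
  classical
  obtain ⟨c, hc, hB⟩ := h
  refine ⟨fun x y => if o x y then c x y else 0, fun γ x y => ?_, fun i l γ => ?_⟩
  · simp only [ho, hc]
  · rw [rs_coeff, hB]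
    by_cases h : o (p i) (γ • p l)
    · simp only [if_pos h]
    · simp only [if_neg h, zero_mul]

/-- The ideals of the filtration. -/
noncomputable def Idl (p : ι → X) (A : Matrix ι ι (ZG Γ)) (d : ℕ) : AddSubgroup (Matrix ι ι (ZG Γ)) :=
  AddSubgroup.closure {B | ∃ j, d ≤ j ∧ HM p A j B}

theorem HM.mem {d j : ℕ} {B : Matrix ι ι (ZG Γ)} (h : HM p A j B) (hd : d ≤ j) :
    B ∈ Idl p A d := AddSubgroup.subset_closure ⟨j, hd, h⟩

theorem idl_mono {d d' : ℕ} (h : d ≤ d') : Idl p A d' ≤ Idl p A d :=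
  AddSubgroup.closure_mono fun _ ⟨j, hj, hB⟩ => ⟨j, h.trans hj, hB⟩

theorem idl_mul (hr : UR (Γ := Γ) r) (hD : Dg r 1 p A) {a b : ℕ} {B C : Matrix ι ι (ZG Γ)}
    (hB : B ∈ Idl p A a) (hC : C ∈ Idl p A b) : B * C ∈ Idl p A (a + b) := by
  refine AddSubgroup.closure_induction (p := fun B _ => B * C ∈ Idl p A (a + b)) ?_ ?_ ?_ ?_ hB
  · rintro B ⟨j, hj, h⟩
    refine AddSubgroup.closure_induction (p := fun C _ => B * C ∈ Idl p A (a + b)) ?_ ?_ ?_ ?_ hC
    · rintro C ⟨j', hj', h'⟩
      exact (h.mul hr hD h').mem (Nat.add_le_add hj hj')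
    · rw [mul_zero]
      exact AddSubgroup.zero_mem _
    · intro x y _ _ hx hy
      rw [mul_add]
      exact AddSubgroup.add_mem _ hx hy
    · intro x _ hx
      rw [mul_neg]
      exact AddSubgroup.neg_mem _ hx
  · rw [zero_mul]
    exact AddSubgroup.zero_mem _
  · intro x y _ _ hx hy
    rw [add_mul]
    exact AddSubgroup.add_mem _ hx hy
  · intro x _ hx
    rw [neg_mul]
    exact AddSubgroup.neg_mem _ hx

theorem idl_split {d : ℕ} {X' : Matrix ι ι (ZG Γ)} (h : X' ∈ Idl p A d) :
    ∃ B Y, HM p A d B ∧ Y ∈ Idl p A (d + 1) ∧ X' = B + Y := by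
  refine AddSubgroup.closure_induction (p := fun X' _ => ∃ B Y, HM p A d B ∧
    Y ∈ Idl p A (d + 1) ∧ X' = B + Y) ?_ ?_ ?_ ?_ h
  · rintro B ⟨j, hj, h⟩
    rcases Nat.eq_or_lt_of_le hj with h1 | h1
    · subst h1
      exact ⟨B, 0, h, AddSubgroup.zero_mem _, (add_zero B).symm⟩
    · exact ⟨0, B, HM.zero d, h.mem h1, (zero_add B).symm⟩
  · exact ⟨0, 0, HM.zero d, AddSubgroup.zero_mem _, (add_zero _).symm⟩
  · rintro x y _ _ ⟨B, Y, hB, hY, rfl⟩ ⟨B', Y', hB', hY', rfl⟩
    exact ⟨B + B', Y + Y', hB.add hB', AddSubgroup.add_mem _ hY hY', by abel⟩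
  · rintro x _ ⟨B, Y, hB, hY, rfl⟩
    exact ⟨-B, -Y, hB.neg, AddSubgroup.neg_mem _ hY, by abel⟩

theorem idl_zero {k : ℕ} (hA : A ^ k = 0) {X' : Matrix ι ι (ZG Γ)} (h : X' ∈ Idl p A k) :
    X' = 0 := by
  refine AddSubgroup.closure_induction (p := fun X' _ => X' = 0) ?_ rfl ?_ ?_ h
  · rintro B ⟨j, hj, h⟩
    exact h.eq_zero hA hj
  · rintro x y _ _ rfl rfl
    exact add_zero 0
  · rintro x _ rfl
    exact neg_zero

theorem idl_pow (hr : UR (Γ := Γ) r) (hD : Dg r 1 p A) {d : ℕ} {N : Matrix ι ι (ZG Γ)}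
    (h : N ∈ Idl p A d) (m : ℕ) : N ^ (m + 1) ∈ Idl p A (d * (m + 1)) := by
  induction m with
  | zero => rwa [zero_add, pow_one, mul_one]
  | succ m ih =>
    rw [pow_succ, Nat.mul_succ]
    exact idl_mul hr hD ih h

end ElimAux

open OrbAux ElimAux in
/-- Module Elim. -/
theorem stElim : StElim.{u, v} := by
  classical
  intro Γ _ K X _ r hr ι _ _ p A k hA hD hO
  have hk : k = 0 ∨ 1 ≤ k := Nat.eq_zero_or_pos k
  -- the main induction
  have key : ∀ e d : ℕ, 1 ≤ d → k ≤ d + e → ∀ Y ∈ Idl p A d,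
      K.G (Matrix.toLinearMapRight' (1 + Y)) := by
    intro e
    induction e with
    | zero =>
      intro d _ hkd Y hY
      have h1 : Y = 0 := idl_zero hA (idl_mono hkd hY)
      rw [h1, add_zero, Matrix.toLinearMapRight'_one]
      exact K_id K ι
    | succ e ih =>
      intro d hd hkd Y hY
      obtain ⟨B, Z, hB, hZ, rfl⟩ := idl_split hY
      -- orbits of pairs
      have inner : ∀ (F : Finset (X × X)) (B : Matrix ι ι (ZG Γ)), HM p A d B →
          (∀ i l γ, (B i l).coeff γ ≠ 0 → ∃ s ∈ F, ∃ h : Γ, p i = h • s.1 ∧ γ • p l = h • s.2) →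
          ∀ Z ∈ Idl p A (d + 1), K.G (Matrix.toLinearMapRight' (1 + (B + Z))) := by
        intro F
        induction F using Finset.induction_on with
        | empty =>
          intro B hB hs Z hZ
          have h1 : B = 0 := by
            refine mat_ext fun i l γ => ?_
            by_contra hne
            obtain ⟨s, hs, -⟩ := hs i l γ hne
            exact Finset.notMem_empty s hs
          rw [h1, zero_add]
          exact ih (d + 1) (Nat.le_add_left 1 d) (by omega) Z hZ
        | insert s F hsF ihF =>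
          intro B hB hs Z hZ
          let o : X → X → Prop := fun x y => ∃ h : Γ, x = h • s.1 ∧ y = h • s.2
          have ho : ∀ (γ : Γ) x y, o (γ • x) (γ • y) ↔ o x y := by
            intro γ x y
            constructor
            · rintro ⟨h, h1, h2⟩
              refine ⟨γ⁻¹ * h, ?_, ?_⟩
              · rw [mul_smul, ← h1, inv_smul_smul]
              · rw [mul_smul, ← h2, inv_smul_smul]
            · rintro ⟨h, h1, h2⟩
              refine ⟨γ * h, ?_, ?_⟩
              · rw [mul_smul, ← h1]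
              · rw [mul_smul, ← h2]
          let N : Matrix ι ι (ZG Γ) := rs p o B
          let B' : Matrix ι ι (ZG Γ) := B + -N
          have hN : HM p A d N := hB.rs o ho
          have hB' : HM p A d B' := hB.add hN.neg
          have hBN : B = N + B' := by
            change B = N + (B + -N)
            abel
          have hB's : ∀ i l γ, (B' i l).coeff γ ≠ 0 →
              ∃ s ∈ F, ∃ h : Γ, p i = h • s.1 ∧ γ • p l = h • s.2 := by
            intro i l γ hne
            have h1 : (B' i l).coeff γ = (B i l).coeff γ - (N i l).coeff γ := by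
              rw [sub_eq_add_neg]
              rfl
            have h2 : (N i l).coeff γ = if o (p i) (γ • p l) then (B i l).coeff γ else 0 :=
              rs_coeff p o B i l γ
            by_cases hoo : o (p i) (γ • p l)
            · rw [h1, h2, if_pos hoo, sub_self] at hne
              exact absurd rfl hne
            · rw [h1, h2, if_neg hoo, sub_zero] at hne
              obtain ⟨t, ht, h, h3, h4⟩ := hs i l γ hne
              rcases Finset.mem_insert.1 ht with rfl | ht
              · exact absurd ⟨h, h3, h4⟩ hoo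
              · exact ⟨t, ht, h, h3, h4⟩
          have hNo : OrbS p N s.1 s.2 := by
            intro i l γ hne
            have h2 : (N i l).coeff γ = if o (p i) (γ • p l) then (B i l).coeff γ else 0 :=
              rs_coeff p o B i l γ
            by_contra hno
            rw [h2, if_neg hno] at hne
            exact hne rfl
          have hNmem : N ∈ Idl p A d := hN.mem le_rfl
          have hNk : N ^ k = 0 := by
            rcases hk with h0 | h1
            · subst h0
              rw [pow_zero] at hA ⊢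
              exact hA
            · obtain ⟨k', rfl⟩ : ∃ k', k = k' + 1 := ⟨k - 1, by omega⟩
              have h2 := idl_pow hr hD hNmem k'
              exact idl_zero hA (idl_mono (Nat.le_mul_of_pos_left _ hd) h2)
          obtain ⟨hi1, hi2⟩ := nil_inv hNk
          obtain ⟨I, hI⟩ : ∃ I, I = ∑ m ∈ Finset.range k, (-N) ^ m := ⟨_, rfl⟩
          rw [← hI] at hi1 hi2
          -- `W = N * I`, so that `I = 1 - W`
          have hW : N * I ∈ Idl p A d := by
            rw [hI, Finset.mul_sum]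
            refine AddSubgroup.sum_mem _ fun m _ => ?_
            have h3 : N * (-N) ^ m = (-1) ^ m * N ^ (m + 1) := by
              rw [neg_pow, pow_succ', ← mul_assoc, ← mul_assoc]
              congr 1
              exact (Commute.neg_one_left N).pow_left m |>.eq.symm
            rw [h3]
            have h4 : N ^ (m + 1) ∈ Idl p A d :=
              idl_mono (Nat.le_mul_of_pos_right _ (Nat.succ_pos m)) (idl_pow hr hD hNmem m)
            rcases neg_one_pow_eq_or (Matrix ι ι (ZG Γ)) m with h5 | h5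
            · rw [h5, one_mul]
              exact h4
            · rw [h5, neg_one_mul]
              exact AddSubgroup.neg_mem _ h4
          have hIW : I = 1 - N * I := by
            rw [← hi1, add_mul, one_mul]
            abel
          let Y : Matrix ι ι (ZG Γ) := I * (B' + Z)
          have hY1 : (1 + N) * (1 + Y) = 1 + (B + Z) := by
            change (1 + N) * (1 + I * (B' + Z)) = 1 + (B + Z)
            rw [mul_add, mul_one, ← mul_assoc, hi1, one_mul, hBN]
            abel
          have hY2 : Y = B' + (Z - N * I * (B' + Z)) := by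
            change I * (B' + Z) = B' + (Z - N * I * (B' + Z))
            conv_lhs => rw [hIW]
            rw [sub_mul, one_mul]
            abel
          have hY3 : Z - N * I * (B' + Z) ∈ Idl p A (d + 1) := by
            refine AddSubgroup.sub_mem _ hZ ?_
            have h6 : B' + Z ∈ Idl p A d :=
              AddSubgroup.add_mem _ (hB'.mem le_rfl) (idl_mono (Nat.le_succ d) hZ)
            exact idl_mono (Nat.add_le_add_left hd d) (idl_mul hr hD hW h6)
          have hG1 : K.G (Matrix.toLinearMapRight' (1 + Y)) := by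
            rw [hY2]
            exact ihF B' hB' hB's _ hY3
          have hG2 : K.G (Matrix.toLinearMapRight' (1 + N)) :=
            hO d N hd hNk (hN.dg hr hD) s.1 s.2 hNo
          rw [← hY1, Matrix.toLinearMapRight'_mul]
          exact K.comp _ _ hG2 hG1
      refine inner (Finset.univ.biUnion fun i => Finset.univ.biUnion fun l =>
        (B i l).coeff.support.image fun γ => (p i, γ • p l)) B hB ?_ Z hZ
      intro i l γ hne
      refine ⟨(p i, γ • p l), Finset.mem_biUnion.2 ⟨i, Finset.mem_univ i, Finset.mem_biUnion.2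
        ⟨l, Finset.mem_univ l, Finset.mem_image.2 ⟨γ, Finsupp.mem_support_iff.2 hne, rfl⟩⟩⟩, 1, ?_, ?_⟩
      · rw [one_smul]
      · rw [one_smul]
  exact key k 1 le_rfl (Nat.le_add_left k 1) A (HM.self.mem le_rfl)

end Pool.Agent.Lib.MP_551055_al.LS
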