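import Pool.Agent.Lib.MP_551055_al.LS.Stmts

/-!
# The kernel filtration

Module Fil of the long segment project: the submodules `kerFil p ν i` of the vectors all of whose
parts are killed by `ν ^ i` form a filtration by graded submodules on which `ν` acts as zero.
-/

set_option autoImplicit false

namespace Pool.Agent.Lib.MP_551055_al.LS

open Pool.Agent.Lib.MP_551055_al

universe u v

section Fil

variable {Γ : Type u} [Group Γ] {X : Type v} [MulAction Γ X] {ι : Type}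

theorem fil_mem {p : ι → X} {ν : Module.End (ZG Γ) (F Γ ι)} {i : ℕ} {y : F Γ ι} :
    y ∈ kerFil p ν i ↔ ∀ x, (ν ^ i) (pr p {x} y) = 0 := Iff.rfl

theorem fil_pow_succ_apply (ν : Module.End (ZG Γ) (F Γ ι)) (i : ℕ) (y : F Γ ι) :
    (ν ^ (i + 1)) y = (ν ^ i) (ν y) := by
  rw [pow_succ]
  rfl

/-- The powers of `ν` move positions along the iterates of `r`. -/
theorem fil_in_pow {r : X → X → Prop} {p : ι → X} {ν : Module.End (ZG Γ) (F Γ ι)} (h : Tr r p p ν)
    (i : ℕ) : ∀ (P : Set X) (y : F Γ ι), In p P y →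
      In p {c | ∃ a ∈ P, itr r i a c} ((ν ^ i) y) := by
  induction i with
  | zero =>
    intro P y hy
    rw [pow_zero]
    exact hy.mono fun c hc => ⟨c, hc, rfl⟩
  | succ i ih =>
    intro P y hy
    rw [fil_pow_succ_apply]
    refine (ih _ _ (h P y hy)).mono fun c hc => ?_
    obtain ⟨b, ⟨a, ha, hab⟩, hbc⟩ := hc
    exact ⟨a, ha, b, hab, hbc⟩

/-- The homogeneous case of the main property of the kernel filtration. -/
theorem fil_pow_pr_eq_zero {r : X → X → Prop} (hr : UR (Γ := Γ) r) {p : ι → X}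
    {ν : Module.End (ZG Γ) (F Γ ι)} (h : Tr r p p ν) {i : ℕ} {x : X} {y : F Γ ι} (hy : In p {x} y)
    (h0 : (ν ^ (i + 1)) y = 0) (z : X) : (ν ^ i) (pr p {z} (ν y)) = 0 := by
  have h1 : In p {b | r x b} (ν y) := h.hom hy
  by_cases hz : r x z
  · have hA : In p {c | itr r i z c} ((ν ^ i) (pr p {z} (ν y))) := by
      refine (fil_in_pow h i {z} _ (in_pr p {z} (ν y))).mono fun c hc => ?_
      obtain ⟨a, ha, hac⟩ := hc
      rw [Set.mem_singleton_iff] at ha
      subst ha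
      exact hac
    have hB : In p {c | ∃ a ∈ ({z}ᶜ ∩ {b | r x b} : Set X), itr r i a c}
        ((ν ^ i) (pr p {z}ᶜ (ν y))) := fil_in_pow h i _ _ h1.pr_inter
    have hd : Disjoint {c | itr r i z c}
        {c | ∃ a ∈ ({z}ᶜ ∩ {b | r x b} : Set X), itr r i a c} := by
      refine Set.disjoint_left.2 fun c hc hc' => ?_
      obtain ⟨a, ⟨ha1, ha2⟩, hac⟩ := hc'
      exact ha1 (Set.mem_singleton_iff.2 (hr.uniq i x a z c ha2 hz hac hc))
    have h2 : (ν ^ i) (pr p {z} (ν y)) + (ν ^ i) (pr p {z}ᶜ (ν y)) = 0 := by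
      rw [← map_add, pr_add_compl, ← fil_pow_succ_apply, h0]
    have h3 : pr p {c | itr r i z c}
        ((ν ^ i) (pr p {z} (ν y)) + (ν ^ i) (pr p {z}ᶜ (ν y))) = 0 := by
      rw [h2, map_zero]
    rwa [map_add, hA.eq, hB.pr_eq_zero hd, add_zero] at h3
  · rw [h1.pr_eq_zero (Set.disjoint_singleton_left.2 hz), map_zero]

theorem kerFil_zero (p : ι → X) (ν : Module.End (ZG Γ) (F Γ ι)) : kerFil p ν 0 = ⊥ := by
  refine (Submodule.eq_bot_iff _).2 fun y hy => eq_zero_of_pr (p := p) fun x => ?_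
  have h := hy x
  rwa [pow_zero] at h

theorem kerFil_top (p : ι → X) {ν : Module.End (ZG Γ) (F Γ ι)} {k : ℕ} (hk : ν ^ k = 0) :
    kerFil p ν k = ⊤ := by
  refine Submodule.eq_top_iff'.2 fun y x => ?_
  rw [hk]
  rfl

theorem kerFil_mono (p : ι → X) (ν : Module.End (ZG Γ) (F Γ ι)) : Monotone (kerFil p ν) := by
  refine monotone_nat_of_le_succ fun i y hy x => ?_
  have h : (ν ^ (i + 1)) (pr p {x} y) = ν ((ν ^ i) (pr p {x} y)) := by
    rw [pow_succ']
    rfl
  rw [h, hy x, map_zero]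

theorem kerFil_step [Finite ι] {r : X → X → Prop} (hr : UR (Γ := Γ) r) {p : ι → X}
    {ν : Module.End (ZG Γ) (F Γ ι)} (h : Tr r p p ν) (i : ℕ) (y : F Γ ι)
    (hy : y ∈ kerFil p ν (i + 1)) : ν y ∈ kerFil p ν i := by
  intro z
  obtain ⟨s, _, hs⟩ := exists_sum_pr p y
  rw [hs, map_sum, map_sum, map_sum]
  exact Finset.sum_eq_zero fun x _ => fil_pow_pr_eq_zero hr h (in_pr p {x} y) (hy x) z

theorem kerFil_graded (p : ι → X) (ν : Module.End (ZG Γ) (F Γ ι)) (i : ℕ) (P : Set X) (y : F Γ ι)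
    (hy : y ∈ kerFil p ν i) : pr p P y ∈ kerFil p ν i := by
  intro x
  rw [pr_pr]
  by_cases hx : x ∈ P
  · rw [Set.inter_eq_left.2 (Set.singleton_subset_iff.2 hx)]
    exact hy x
  · rw [(Set.disjoint_singleton_left.2 hx).inter_eq, pr_empty, map_zero]

end Fil

/-- Module Fil. -/
theorem stFil : StFil.{u, v} := by
  intro Γ _ X _ r hr ι _ p ν k hk h
  exact ⟨kerFil_zero p ν, kerFil_top p hk, kerFil_mono p ν, kerFil_step hr h, kerFil_graded p ν⟩

end Pool.Agent.Lib.MP_551055_al.LS
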