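import Pool.Agent.Lib.MP_551055_al.LS.InSingle
import Pool.Agent.Lib.MP_551055_al.LS.Stmts

/-!
# Module Init: every automorphism comes from a system
-/

set_option autoImplicit false

namespace Pool.Agent.Lib.MP_551055_al.LS

open MonoidAlgebra

universe u v

section Init

/-- Finitely many elements of the group ring as combinations of common group elements. -/
theorem init_dec {Γ : Type u} [Group Γ] {ι : Type} [Finite ι] (x : ι → ZG Γ) :
    ∃ (s : ℕ) (g : Fin s → Γ) (c : ι → Fin s → ℤ),
      ∀ i, x i = ∑ a, (single (g a) (c i a) : ZG Γ) := by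
  classical
  have := Fintype.ofFinite ι
  let S : Finset Γ := Finset.univ.biUnion fun i => (x i).coeff.support
  refine ⟨S.card, fun a => (S.equivFin.symm a : Γ),
    fun i a => (x i).coeff (S.equivFin.symm a : Γ), fun i => ?_⟩
  have h1 : ∑ a : Fin S.card, (single (S.equivFin.symm a : Γ)
      ((x i).coeff (S.equivFin.symm a : Γ)) : ZG Γ) = ∑ γ ∈ S, single γ ((x i).coeff γ) := by
    rw [← Finset.sum_coe_sort S (fun γ => (single γ ((x i).coeff γ) : ZG Γ))]
    exact Equiv.sum_comp S.equivFin.symm (fun γ : S => (single (γ : Γ) ((x i).coeff γ) : ZG Γ))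
  rw [h1]
  ext γ
  rw [coeff_sum, Finsupp.finsetSum_apply]
  simp only [coeff_single, Finsupp.single_apply]
  rw [Finset.sum_ite_eq' S γ]
  split_ifs with h
  · rfl
  · by_contra hne
    apply h
    exact Finset.mem_biUnion.2 ⟨i, Finset.mem_univ i, Finsupp.mem_support_iff.2 hne⟩

/-- The edges of the system. -/
abbrev IK (n s : ℕ) (L : Fin s → ℕ) : Type := Σ a : Fin s, Fin n × Fin (L a)

/-- The index of the vertex number `t` on the path `(a, j)`. -/
def idxI {n s : ℕ} {L : Fin s → ℕ} (a : Fin s) (j : Fin n) (t : Fin (L a + 1)) :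
    Fin n ⊕ IK n s L :=
  Fin.cases (motive := fun _ => Fin n ⊕ IK n s L) (Sum.inl j) (fun t => Sum.inr ⟨a, j, t⟩) t

theorem idx_zero {n s : ℕ} {L : Fin s → ℕ} (a : Fin s) (j : Fin n) :
    idxI (L := L) a j 0 = Sum.inl j := rfl

theorem idx_succ {n s : ℕ} {L : Fin s → ℕ} (a : Fin s) (j : Fin n) (t : Fin (L a)) :
    idxI (L := L) a j t.succ = Sum.inr ⟨a, j, t⟩ := rfl

theorem idx_eq_inr {n s : ℕ} {L : Fin s → ℕ} (a : Fin s) (j : Fin n) (t : Fin (L a + 1))
    (k : IK n s L) :
    Sum.inr k = idxI a j t ↔ (k.1 = a ∧ k.2.1 = j ∧ k.2.2.val + 1 = t.val) := by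
  refine Fin.cases ?_ (fun t => ?_) t
  · rw [idx_zero]
    constructor
    · intro h
      exact absurd h (by simp)
    · rintro ⟨_, _, h⟩
      exact absurd h (Nat.succ_ne_zero _)
  · rw [idx_succ, Sum.inr.injEq]
    obtain ⟨a', j', t'⟩ := k
    constructor
    · intro h
      cases h
      exact ⟨rfl, rfl, rfl⟩
    · rintro ⟨h1, h2, h3⟩
      dsimp only at h1 h2 h3
      subst h1
      subst h2
      have : t' = t := Fin.ext (by simpa using h3)
      rw [this]

section Maps

variable {S : Type u} [Ring S] {n s : ℕ} (L : Fin s → ℕ)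

open Classical in
/-- The rows of the nilpotent part of `V`. -/
noncomputable def initPV : Fin n ⊕ IK n s L → (Fin n ⊕ IK n s L → S) :=
  Sum.elim (fun _ => 0) fun k => Pi.single (Sum.inl k.2.1) 1

open Classical in
/-- The rows of the nilpotent part of `T`. -/
noncomputable def initPT : IK n s L → (IK n s L → S) := fun k k' =>
  if (k'.1 = k.1 ∧ k'.2.1 = k.2.1 ∧ k'.2.2.val + 1 = k.2.2.val) then -1 else 0

variable (S n)

/-- The map `V`. -/
noncomputable def initV : (Fin n ⊕ IK n s L → S) →ₗ[S] (Fin n ⊕ IK n s L → S) :=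
  LinearMap.id + Fintype.linearCombination S (initPV L)

/-- The map `T`. -/
noncomputable def initT : (IK n s L → S) →ₗ[S] (IK n s L → S) :=
  LinearMap.id + Fintype.linearCombination S (initPT L)

variable {n}

theorem initV_good (hU : StUnip.{u}) (K : K1C S) : K.G (initV S n L) := by
  classical
  refine hU S K _ (Sum.elim (fun _ => 0) fun _ => 1) _ fun t y hy j hj => ?_
  rw [Fintype.linearCombination_apply, Finset.sum_apply]
  refine Finset.sum_eq_zero fun i _ => ?_
  rcases i with i | k
  · change y _ * (0 : S) = 0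
    rw [mul_zero]
  · change y (Sum.inr k) * (Pi.single (Sum.inl k.2.1) 1 : Fin n ⊕ IK n s L → S) j = 0
    rcases j with j | k'
    · have ht : t = 0 := Nat.le_zero.1 hj
      rw [hy (Sum.inr k) (by rw [ht]; exact le_refl 1), zero_mul]
    · rw [Pi.single_eq_of_ne (by simp), mul_zero]

theorem initT_good (hU : StUnip.{u}) (K : K1C S) : K.G (initT S n L) := by
  classical
  refine hU S K _ (fun k => k.2.2.val) _ fun t y hy k' hk' => ?_
  rw [Fintype.linearCombination_apply, Finset.sum_apply]
  refine Finset.sum_eq_zero fun k _ => ?_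
  change y k * (if (k'.1 = k.1 ∧ k'.2.1 = k.2.1 ∧ k'.2.2.val + 1 = k.2.2.val) then -1 else 0) = 0
  split_ifs with h
  · rw [hy k (by rw [← h.2.2]; exact Nat.succ_le_succ hk'), zero_mul]
  · rw [mul_zero]

open Classical in
/-- The value of `T` at a basis vector. -/
theorem initT_single (k : IK n s L) (k' : IK n s L) :
    initT S n L (Pi.single k 1) k' = (if k' = k then 1 else 0) -
      (if (k'.1 = k.1 ∧ k'.2.1 = k.2.1 ∧ k'.2.2.val + 1 = k.2.2.val) then 1 else 0) := by
  change (Pi.single k 1 : IK n s L → S) k' +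
    Fintype.linearCombination S (initPT L) (Pi.single k 1) k' = _
  rw [Fintype.linearCombination_apply_single, one_smul, Pi.single_apply, sub_eq_add_neg]
  congr 1
  change (if (k'.1 = k.1 ∧ k'.2.1 = k.2.1 ∧ k'.2.2.val + 1 = k.2.2.val) then (-1 : S) else 0) = _
  split_ifs
  · rfl
  · rw [neg_zero]

open Classical in
/-- The value of `V` at a basis vector. -/
theorem initV_single (a : Fin s) (j : Fin n) (t : Fin (L a + 1)) :
    initV S n L (Pi.single (idxI a j t) 1) = Sum.elim (Pi.single j 1) (fun k' =>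
      if (k'.1 = a ∧ k'.2.1 = j ∧ k'.2.2.val + 1 = t.val) then 1 else 0) := by
  have h0 : initV S n L (Pi.single (idxI a j t) 1) =
      Pi.single (idxI a j t) 1 + initPV L (idxI a j t) := by
    change (Pi.single (idxI a j t) 1 : Fin n ⊕ IK n s L → S) +
      Fintype.linearCombination S (initPV L) (Pi.single (idxI a j t) 1) = _
    rw [Fintype.linearCombination_apply_single, one_smul]
  rw [h0]
  funext x
  rcases x with j' | k'
  · rw [Sum.elim_inl, Pi.add_apply]
    refine Fin.cases ?_ (fun t => ?_) t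
    · rw [idx_zero]
      change (Pi.single (Sum.inl j) 1 : Fin n ⊕ IK n s L → S) (Sum.inl j') + 0 = _
      rw [add_zero, Pi.single_apply, Pi.single_apply]
      simp only [Sum.inl.injEq]
    · rw [idx_succ]
      change (Pi.single (Sum.inr _) 1 : Fin n ⊕ IK n s L → S) (Sum.inl j') +
        (Pi.single (Sum.inl j) 1 : Fin n ⊕ IK n s L → S) (Sum.inl j') = _
      rw [Pi.single_eq_of_ne (by simp), zero_add, Pi.single_apply, Pi.single_apply]
      simp only [Sum.inl.injEq]
  · rw [Sum.elim_inr, Pi.add_apply, Pi.single_apply]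
    have h1 : initPV (S := S) L (idxI a j t) (Sum.inr k') = 0 := by
      refine Fin.cases ?_ (fun t => ?_) t
      · rfl
      · rw [idx_succ]
        change (Pi.single (Sum.inl j) 1 : Fin n ⊕ IK n s L → S) (Sum.inr k') = 0
        rw [Pi.single_eq_of_ne (by simp)]
    rw [h1, add_zero]
    by_cases h : Sum.inr k' = idxI a j t
    · rw [if_pos h, if_pos ((idx_eq_inr a j t k').1 h)]
    · rw [if_neg h, if_neg fun h' => h ((idx_eq_inr a j t k').2 h')]

open Classical in
/-- `V` maps the difference of two consecutive vertices to the value of `T`. -/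
theorem initV_sub (a : Fin s) (j : Fin n) (t : Fin (L a)) :
    initV S n L (Pi.single (idxI a j t.succ) 1 - Pi.single (idxI a j t.castSucc) 1) =
      Sum.elim (fun _ => 0) (initT S n L (Pi.single ⟨a, j, t⟩ 1)) := by
  rw [map_sub, initV_single, initV_single]
  funext x
  rcases x with j' | k'
  · simp
  · rw [Pi.sub_apply, Sum.elim_inr, Sum.elim_inr, Sum.elim_inr, initT_single]
    congr 1
    have h := idx_eq_inr a j t.succ k'
    rw [idx_succ, Sum.inr.injEq] at h
    by_cases h1 : k' = ⟨a, j, t⟩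
    · rw [if_pos h1, if_pos (h.1 h1)]
    · rw [if_neg h1, if_neg fun h' => h1 (h.2 h')]

end Maps

section Blk

variable {S : Type u} [Ring S]

theorem init_blk_bij {ι κ ι' κ' : Type} (f : (ι → S) →ₗ[S] (ι' → S)) (c : (ι → S) →ₗ[S] (κ' → S))
    (g : (κ → S) →ₗ[S] (κ' → S)) (hf : Function.Bijective f) (hg : Function.Bijective g) :
    Function.Bijective (blk f c g) := by
  constructor
  · rw [injective_iff_map_eq_zero]
    intro y hy
    have h1 : f (y ∘ Sum.inl) = 0 := by
      funext j
      exact congrFun hy (Sum.inl j)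
    have h2 : y ∘ Sum.inl = 0 := hf.1 (by rw [h1, map_zero])
    have h3 : g (y ∘ Sum.inr) = 0 := by
      funext j
      have h4 : c (y ∘ Sum.inl) j + g (y ∘ Sum.inr) j = 0 := congrFun hy (Sum.inr j)
      rwa [h2, map_zero, Pi.zero_apply, zero_add] at h4
    have h4 : y ∘ Sum.inr = 0 := hg.1 (by rw [h3, map_zero])
    funext j
    rcases j with j | j
    · exact congrFun h2 j
    · exact congrFun h4 j
  · intro z
    obtain ⟨x, hx⟩ := hf.2 (z ∘ Sum.inl)
    obtain ⟨y, hy⟩ := hg.2 (z ∘ Sum.inr - c x)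
    refine ⟨Sum.elim x y, ?_⟩
    funext j
    rcases j with j | j
    · change f x j = _
      rw [hx]
      rfl
    · change c x j + g y j = _
      rw [hy, Pi.sub_apply]
      change c x j + (z (Sum.inr j) - c x j) = _
      abel

theorem init_id (K : K1C S) (ι : Type) [Finite ι] :
    K.G (LinearMap.id : (ι → S) →ₗ[S] (ι → S)) := by
  have h := K.perm (Equiv.refl ι)
  have e : LinearMap.funLeft S S (Equiv.refl ι).symm = (LinearMap.id : (ι → S) →ₗ[S] (ι → S)) :=
    LinearMap.ext fun _ => rfl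
  rwa [e] at h

/-- The diagonal blocks of a block triangular map. -/
theorem init_unblk (K : K1C S) {ι κ : Type} [Finite ι] [Finite κ] (f : (ι → S) →ₗ[S] (ι → S))
    (c : (ι → S) →ₗ[S] (κ → S)) (g : (κ → S) →ₗ[S] (κ → S)) (hf : Function.Bijective f)
    (hg : K.G g) (h : K.G (blk f c g)) : K.G f := by
  let fe : (ι → S) ≃ₗ[S] (ι → S) := LinearEquiv.ofBijective f hf
  have h1 : blk f c g = blk LinearMap.id (c ∘ₗ fe.symm.toLinearMap) g ∘ₗ
      blk f 0 (LinearMap.id : (κ → S) →ₗ[S] (κ → S)) := by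
    refine LinearMap.ext fun y => ?_
    funext j
    rcases j with j | j
    · rfl
    · change c (y ∘ Sum.inl) j + g (y ∘ Sum.inr) j =
        c (fe.symm (f (y ∘ Sum.inl))) j + g (fun i => (0 : κ → S) i + y (Sum.inr i)) j
      have h2 : fe.symm (f (y ∘ Sum.inl)) = y ∘ Sum.inl := fe.symm_apply_apply _
      have h3 : (fun i => (0 : κ → S) i + y (Sum.inr i)) = y ∘ Sum.inr := by
        funext i
        exact zero_add _
      rw [h2, h3]
  rw [h1] at h
  exact K.unst f (K.right _ _ h (K.tri _ _ _ (init_id K ι) hg))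

end Blk

end Init

/-- Module Init. -/
theorem stInit (_hC : StConj.{u}) (hU : StUnip.{u}) : StInit.{u, v} := by
  classical
  intro Γ _ V _ T hT O hO K n α hα
  obtain ⟨v0⟩ := hT.tree.connected.nonempty
  obtain ⟨s, g, c, hc⟩ := init_dec (ι := Fin n × Fin n)
    (fun ij => α (Pi.single ij.1 1) ij.2)
  have hw : ∀ a : Fin s, Nonempty (T.Walk v0 ((g a)⁻¹ • v0)) := fun a =>
    hT.tree.connected.preconnected v0 ((g a)⁻¹ • v0)
  let W : ∀ a : Fin s, T.Walk v0 ((g a)⁻¹ • v0) := fun a => (hw a).some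
  let L : Fin s → ℕ := fun a => (W a).length
  let q : Fin s → ℕ → V := fun a t => (W a).getVert t
  have hq0 : ∀ a, q a 0 = v0 := fun a => (W a).getVert_zero
  have hqL : ∀ a, q a (L a) = (g a)⁻¹ • v0 := fun a => (W a).getVert_length
  have hqadj : ∀ a (t : Fin (L a)), T.Adj (q a t) (q a (t + 1)) := fun a t =>
    (W a).adj_getVert_succ t.2
  let E : IK n s L → V × V := fun k =>
    if (q k.1 k.2.2, q k.1 (k.2.2 + 1)) ∈ O then (q k.1 k.2.2, q k.1 (k.2.2 + 1))
    else (q k.1 (k.2.2 + 1), q k.1 k.2.2)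
  have hE : ∀ k, E k ∈ O ∧ T.Adj (E k).1 (E k).2 ∧
      (∀ b : V, (b = q k.1 k.2.2 ∨ b = q k.1 (k.2.2 + 1)) → (b = (E k).1 ∨ b = (E k).2)) := by
    intro k
    by_cases h : (q k.1 k.2.2, q k.1 (k.2.2 + 1)) ∈ O
    · have : E k = (q k.1 k.2.2, q k.1 (k.2.2 + 1)) := if_pos h
      rw [this]
      exact ⟨h, hqadj _ _, fun b hb => hb⟩
    · have : E k = (q k.1 (k.2.2 + 1), q k.1 k.2.2) := if_neg h
      rw [this]
      refine ⟨?_, (hqadj _ _).symm, fun b hb => hb.symm⟩
      by_contra h'
      exact h ((hO _ _ (hqadj _ _)).2 h')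
  let w : Fin n ⊕ IK n s L → V := Sum.elim (fun _ => v0) fun k => q k.1 (k.2.2 + 1)
  have hwi : ∀ a (j : Fin n) (t : Fin (L a + 1)), w (idxI a j t) = q a t := by
    intro a j t
    refine Fin.cases ?_ (fun t => ?_) t
    · rw [idx_zero]
      exact (hq0 a).symm
    · rw [idx_succ]
      rfl
  let x : Fin n → F Γ (Fin n ⊕ IK n s L) := fun i =>
    ∑ j : Fin n, ∑ a : Fin s, (single (g a) (c (i, j) a) : ZG Γ) •
      Pi.single (idxI a j (Fin.last (L a))) 1
  let C : F Γ (Fin n) →ₗ[ZG Γ] F Γ (IK n s L) :=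
    Fintype.linearCombination (ZG Γ) fun i k => initV (ZG Γ) n L (x i) (Sum.inr k)
  let B0 : F Γ (Fin n ⊕ IK n s L) →ₗ[ZG Γ] F Γ (Fin n ⊕ IK n s L) := blk α C (initT (ZG Γ) n L)
  let B : F Γ (IK n s L ⊕ Fin n) →ₗ[ZG Γ] F Γ (Fin n ⊕ IK n s L) :=
    B0 ∘ₗ LinearMap.funLeft (ZG Γ) (ZG Γ) (Equiv.sumComm (IK n s L) (Fin n)).symm
  have hV : Function.Bijective (initV (ZG Γ) n L) := K.bij _ (initV_good (ZG Γ) L hU K)
  have hTb : Function.Bijective (initT (ZG Γ) n L) := K.bij _ (initT_good (ZG Γ) L hU K)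
  have hP : K.G (LinearMap.funLeft (ZG Γ) (ZG Γ) (Equiv.sumComm (IK n s L) (Fin n)).symm) :=
    K.perm _
  have hB : Function.Bijective B :=
    (init_blk_bij α C _ hα hTb).comp (K.bij _ hP)
  let Φ : F Γ (IK n s L ⊕ Fin n) ≃ₗ[ZG Γ] F Γ (Fin n ⊕ IK n s L) :=
    (LinearEquiv.ofBijective B hB).trans (LinearEquiv.ofBijective _ hV).symm
  have hVΦ : ∀ y, initV (ZG Γ) n L (Φ y) = B y := fun y =>
    (LinearEquiv.ofBijective _ hV).apply_symm_apply (B y)
  have hB1 : ∀ k : IK n s L, B (Pi.single (Sum.inl k) 1) =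
      Sum.elim (fun _ => 0) (initT (ZG Γ) n L (Pi.single k 1)) := by
    intro k
    change Sum.elim (α _) (C _ + initT (ZG Γ) n L _) = _
    have h1 : (LinearMap.funLeft (ZG Γ) (ZG Γ) (Equiv.sumComm (IK n s L) (Fin n)).symm
        (Pi.single (Sum.inl k) 1 : F Γ (IK n s L ⊕ Fin n))) ∘ (Sum.inl : Fin n → _) = 0 := by
      funext i
      change (Pi.single (Sum.inl k) 1 : F Γ (IK n s L ⊕ Fin n)) (Sum.inr i) = 0
      rw [Pi.single_eq_of_ne (by simp)]
    have h2 : (LinearMap.funLeft (ZG Γ) (ZG Γ) (Equiv.sumComm (IK n s L) (Fin n)).symm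
        (Pi.single (Sum.inl k) 1 : F Γ (IK n s L ⊕ Fin n))) ∘ (Sum.inr : IK n s L → _) =
        Pi.single k 1 := by
      funext i
      change (Pi.single (Sum.inl k) 1 : F Γ (IK n s L ⊕ Fin n)) (Sum.inl i) = _
      rw [Pi.single_apply, Pi.single_apply]
      simp only [Sum.inl.injEq]
    rw [h1, h2, map_zero, map_zero, zero_add]
    rfl
  have hB2 : ∀ i : Fin n, B (Pi.single (Sum.inr i) 1) =
      Sum.elim (α (Pi.single i 1)) (fun k => initV (ZG Γ) n L (x i) (Sum.inr k)) := by
    intro i
    change Sum.elim (α _) (C _ + initT (ZG Γ) n L _) = _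
    have h1 : (LinearMap.funLeft (ZG Γ) (ZG Γ) (Equiv.sumComm (IK n s L) (Fin n)).symm
        (Pi.single (Sum.inr i) 1 : F Γ (IK n s L ⊕ Fin n))) ∘ (Sum.inl : Fin n → _) =
        Pi.single i 1 := by
      funext j
      change (Pi.single (Sum.inr i) 1 : F Γ (IK n s L ⊕ Fin n)) (Sum.inr j) = _
      rw [Pi.single_apply, Pi.single_apply]
      simp only [Sum.inr.injEq]
    have h2 : (LinearMap.funLeft (ZG Γ) (ZG Γ) (Equiv.sumComm (IK n s L) (Fin n)).symm
        (Pi.single (Sum.inr i) 1 : F Γ (IK n s L ⊕ Fin n))) ∘ (Sum.inr : IK n s L → _) = 0 := by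
      funext k
      change (Pi.single (Sum.inr i) 1 : F Γ (IK n s L ⊕ Fin n)) (Sum.inl k) = 0
      rw [Pi.single_eq_of_ne (by simp)]
    rw [h1, h2, map_zero, add_zero]
    congr 1
    change Fintype.linearCombination (ZG Γ) _ (Pi.single i 1) = _
    rw [Fintype.linearCombination_apply_single, one_smul]
  have hΦ1 : ∀ k : IK n s L, Φ (Pi.single (Sum.inl k) 1) =
      Pi.single (idxI k.1 k.2.1 k.2.2.succ) 1 - Pi.single (idxI k.1 k.2.1 k.2.2.castSucc) 1 := by
    intro k
    apply hV.1
    rw [hVΦ, hB1]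
    have h := initV_sub (ZG Γ) L k.1 k.2.1 k.2.2
    convert h.symm using 3
  have hΦ2 : ∀ i : Fin n, Φ (Pi.single (Sum.inr i) 1) = x i := by
    intro i
    apply hV.1
    rw [hVΦ, hB2]
    funext j
    rcases j with j' | k
    · rw [Sum.elim_inl]
      have h1 : initV (ZG Γ) n L (x i) = ∑ j : Fin n, ∑ a : Fin s,
          (single (g a) (c (i, j) a) : ZG Γ) •
            initV (ZG Γ) n L (Pi.single (idxI a j (Fin.last (L a))) 1) := by
        rw [map_sum]
        refine Finset.sum_congr rfl fun j _ => ?_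
        rw [map_sum]
        refine Finset.sum_congr rfl fun a _ => ?_
        rw [map_smul]
      rw [h1, Finset.sum_apply, Finset.sum_eq_single j']
      · rw [Finset.sum_apply, hc (i, j')]
        refine Finset.sum_congr rfl fun a _ => ?_
        rw [Pi.smul_apply, initV_single, Sum.elim_inl, Pi.single_eq_same, smul_eq_mul, mul_one]
      · intro j _ hj
        rw [Finset.sum_apply]
        refine Finset.sum_eq_zero fun a _ => ?_
        rw [Pi.smul_apply, initV_single, Sum.elim_inl, Pi.single_eq_of_ne (Ne.symm hj), smul_zero]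
      · intro h
        exact absurd (Finset.mem_univ j') h
    · rfl
  refine ⟨{ K := IK n s L
            I := Fin n
            J := Fin n ⊕ IK n s L
            fK := inferInstance
            fI := inferInstance
            fJ := inferInstance
            f := E
            v := fun _ => v0
            w := w
            adj := fun k => (hE k).2.1
            Φ := Φ
            tr := ?_ }, fun k => (hE k).1, fun hG => ?_⟩
  · refine tr_of_basis ?_ ?_
    · rintro γ a b (h | h)
      · left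
        rw [h]
        rfl
      · right
        rw [h]
        rfl
    · have hib : ∀ i, In w {w i} (Pi.single i 1 : F Γ (Fin n ⊕ IK n s L)) := fun i =>
        @in_single Γ _ _ _ _ _ w i
      have key : ∀ i, In w {b | b = (cell E (fun _ : Fin n => v0) i).1 ∨
          b = (cell E (fun _ : Fin n => v0) i).2} (Φ (Pi.single i 1)) := by
        intro i
        rcases i with k | i
        · rw [hΦ1]
          refine In.sub ((hib _).mono ?_) ((hib _).mono ?_)
          · rw [Set.singleton_subset_iff, hwi]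
            refine (hE k).2.2 _ (Or.inr ?_)
            rw [Fin.val_succ]
          · rw [Set.singleton_subset_iff, hwi]
            exact (hE k).2.2 _ (Or.inl rfl)
        · rw [hΦ2]
          refine In.sum fun j _ => In.sum fun a _ => ?_
          refine (hib _).smul (g a) (c (i, j) a) fun b hb => ?_
          rw [Set.mem_singleton_iff.1 hb, hwi, Fin.val_last, hqL, smul_smul, mul_inv_cancel,
            one_smul]
          exact Or.inl rfl
      intro i
      have key' := key i
      rw [single_any _ (fun a b => Classical.propDecidable (a = b))] at key'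
      exact key'
  · have h1 : K.G B := by
      have h2 := K.comp _ _ hG (initV_good (ZG Γ) L hU K)
      have h3 : initV (ZG Γ) n L ∘ₗ Φ.toLinearMap = B := LinearMap.ext hVΦ
      rwa [h3] at h2
    have h2 : K.G B0 := K.left _ _ h1 hP
    exact init_unblk K α C _ hα (initT_good (ZG Γ) L hU K) h2

end Pool.Agent.Lib.MP_551055_al.LS
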