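import Pool.Agent.Lib.MP_551055_al.LS.Stmts

/-!
# Module KI: nilpotent maps at edges and vertices

A nilpotent map `ω` at oriented edges and vertices which moves edges one step backwards and kills
the vectors placed at vertices is of the form `(x, z) ↦ (ν x, μ x)`, and `ν` moves segments of
length one a step backwards.
-/

set_option autoImplicit false

namespace Pool.Agent.Lib.MP_551055_al.LS

open Pool.Agent.Lib.MP_551055_al
open MonoidAlgebra

universe u v

section

variable (Γ : Type u) [Group Γ] (A I : Type)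

/-- The inclusion `x ↦ (x, 0)`. -/
noncomputable def kiIn : F Γ A →ₗ[ZG Γ] F Γ (A ⊕ I) where
  toFun x := Sum.elim x 0
  map_add' x y := by
    funext j
    rcases j with j | j
    · rfl
    · exact (add_zero (0 : MonoidAlgebra ℤ Γ)).symm
  map_smul' s x := by
    funext j
    rcases j with j | j
    · rfl
    · exact (smul_zero (A := MonoidAlgebra ℤ Γ) s).symm

/-- The projection `(x, z) ↦ x`. -/
noncomputable def kiA : F Γ (A ⊕ I) →ₗ[ZG Γ] F Γ A := LinearMap.funLeft (ZG Γ) (ZG Γ) Sum.inl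

/-- The projection `(x, z) ↦ z`. -/
noncomputable def kiI : F Γ (A ⊕ I) →ₗ[ZG Γ] F Γ I := LinearMap.funLeft (ZG Γ) (ZG Γ) Sum.inr

end

section

variable {Γ : Type u} [Group Γ] {A I : Type} {V : Type v} [MulAction Γ V]

theorem ki_in {f : A → V × V} {v : I → V} {P : Set (V × V)} {x : F Γ A} (h : In f P x) :
    In (cell f v) P (kiIn Γ A I x) := by
  refine in_iff.2 fun i γ hne => ?_
  rcases i with i | i
  · exact in_iff.1 h i γ hne
  · exact absurd rfl hne

/-- `ω` kills the vectors placed at vertices. -/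
theorem ki_kill {f : A → V × V} {v : I → V} {ω : Module.End (ZG Γ) (F Γ (A ⊕ I))}
    (h : Tr (fun a b => a.1 ≠ a.2 ∧ b.2 = a.1 ∧ b.1 ≠ a.2) (cell f v) (cell f v) ω)
    (y : F Γ (A ⊕ I)) : ω (kiIn Γ A I (kiA Γ A I y)) = ω y := by
  have h1 : In (cell f v) {x : V × V | x.1 = x.2} (y - kiIn Γ A I (kiA Γ A I y)) := by
    refine in_iff.2 fun i γ hne => ?_
    rcases i with i | i
    · exfalso
      apply hne
      have h2 : (y - kiIn Γ A I (kiA Γ A I y)) (Sum.inl i) = y (Sum.inl i) - y (Sum.inl i) := rfl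
      rw [h2, sub_self]
      rfl
    · rfl
  have h3 := h _ _ h1
  have h4 : ω (y - kiIn Γ A I (kiA Γ A I y)) = 0 := by
    refine h3.eq_zero h3 ?_
    rw [Set.disjoint_left]
    rintro b ⟨a, ha, hab, _⟩
    exact absurd ha hab
  rw [map_sub, sub_eq_zero] at h4
  exact h4.symm

theorem ki_pow {f : A → V × V} {v : I → V} {ω : Module.End (ZG Γ) (F Γ (A ⊕ I))}
    (h : Tr (fun a b => a.1 ≠ a.2 ∧ b.2 = a.1 ∧ b.1 ≠ a.2) (cell f v) (cell f v) ω) (n : ℕ)
    (y : F Γ (A ⊕ I)) :
    ((kiA Γ A I ∘ₗ ω ∘ₗ kiIn Γ A I : Module.End (ZG Γ) (F Γ A)) ^ n) (kiA Γ A I y) =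
      kiA Γ A I ((ω ^ n) y) := by
  induction n with
  | zero => rw [pow_zero, pow_zero]; rfl
  | succ n ih =>
    rw [pow_succ', pow_succ', Module.End.mul_apply, Module.End.mul_apply, ih]
    change kiA Γ A I (ω (kiIn Γ A I (kiA Γ A I ((ω ^ n) y)))) = _
    rw [ki_kill h]

end

theorem stKI (h : StTreeB.{u, v}) : StKI.{u, v} := by
  intro Γ _ V _ T hT K hK A I _ _ f v ω hf hnil htr
  obtain ⟨_, _, hsh⟩ := h Γ V T hT 1 le_rfl
  -- the component at edges
  have hν : K.G ((1 : Module.End (ZG Γ) (F Γ A)) + (kiA Γ A I ∘ₗ ω ∘ₗ kiIn Γ A I)) := by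
    refine hK A f _ (fun k => SimpleGraph.dist_eq_one_iff_adj.2 (hf k)) ?_ ?_
    · obtain ⟨n, hn⟩ := hnil
      refine ⟨n, LinearMap.ext fun x => ?_⟩
      have h1 := ki_pow htr n (kiIn Γ A I x)
      rw [hn] at h1
      exact h1
    · refine tr_of_hom fun x y hy => ?_
      have h1 := htr.hom (ki_in (v := v) hy)
      refine in_iff.2 fun i γ hne => ?_
      have h2 : γ • f i ∈ {b : V × V | x.1 ≠ x.2 ∧ b.2 = x.1 ∧ b.1 ≠ x.2} :=
        in_iff.1 h1 (Sum.inl i) γ hne
      obtain ⟨_, h4, h5⟩ := h2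
      have h6 : T.Adj (γ • f i).1 (γ • f i).2 := hT.adj γ _ _ (hf i)
      have h7 : T.Adj x.1 x.2 := by
        by_contra hn
        have h8 : y = 0 := by
          refine F_ext fun j g => ?_
          by_contra hne'
          apply hn
          have h9 : g • f j = x := in_iff.1 hy j g hne'
          rw [← h9]
          exact hT.adj g _ _ (hf j)
        rw [h8, map_zero] at hne
        exact absurd rfl hne
      rw [h4] at h6
      have h10 := hsh _ _ _ h7 h6 h5
      have h11 : ((γ • f i).1, x.1) = γ • f i := by rw [← h4]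
      rw [h11] at h10
      exact h10
  have hid : K.G (LinearMap.id : F Γ I →ₗ[ZG Γ] F Γ I) := K.perm (Equiv.refl I)
  have h1 := K.tri _ (kiI Γ A I ∘ₗ ω ∘ₗ kiIn Γ A I) _ hν hid
  have h2 : blk ((1 : Module.End (ZG Γ) (F Γ A)) + (kiA Γ A I ∘ₗ ω ∘ₗ kiIn Γ A I))
      (kiI Γ A I ∘ₗ ω ∘ₗ kiIn Γ A I) (LinearMap.id : F Γ I →ₗ[ZG Γ] F Γ I) =
      (1 : Module.End (ZG Γ) (F Γ (A ⊕ I))) + ω := by
    apply LinearMap.ext
    intro y
    have h3 := ki_kill htr y
    funext j
    rcases j with j | j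
    · change y (Sum.inl j) + ω (kiIn Γ A I (kiA Γ A I y)) (Sum.inl j) =
        y (Sum.inl j) + ω y (Sum.inl j)
      rw [h3]
    · change ω (kiIn Γ A I (kiA Γ A I y)) (Sum.inr j) + y (Sum.inr j) =
        y (Sum.inr j) + ω y (Sum.inr j)
      rw [h3, add_comm]
  rw [h2] at h1
  exact h1

end Pool.Agent.Lib.MP_551055_al.LS
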