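import Pool.Agent.Lib.MP_551055_al.LS.InSingle
import Pool.Agent.Lib.MP_551055_al.LS.Stmts
import Pool.Agent.Lib.MP_551055_al.Matrices
import Pool.Agent.Lib.MP_551055_al.VNFinal

/-!
# Graded idempotents are stably standard
-/

set_option autoImplicit false

namespace Pool.Agent.Lib.MP_551055_al.LS

open Pool.Agent.Lib.MP_551055_al
open Pool.Agent.Lib.MP_551055_al.Red (exists_of_mul_coeff_ne)
open MonoidAlgebra Matrix

universe u v

namespace NF

section MG

variable {Γ : Type u} [Group Γ] {X : Type v} [MulAction Γ X]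

/-- A matrix which preserves positions. -/
def MG {ι κ : Type} (p : ι → X) (q : κ → X) (M : Matrix ι κ (ZG Γ)) : Prop :=
  ∀ i j γ, (M i j).coeff γ ≠ 0 → γ • q j = p i

theorem coeff_sum_ne {α : Type} (s : Finset α) (f : α → ZG Γ) (γ : Γ)
    (h : (∑ a ∈ s, f a).coeff γ ≠ 0) : ∃ a ∈ s, (f a).coeff γ ≠ 0 := by
  by_contra hn
  push Not at hn
  apply h
  have h1 : ∀ t : Finset α, (∀ a ∈ t, (f a).coeff γ = 0) → (∑ a ∈ t, f a).coeff γ = 0 := by
    classical
    intro t
    induction t using Finset.induction_on with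
    | empty => intro _; rfl
    | insert a t ha ih =>
      intro ht
      rw [Finset.sum_insert ha, coeff_add, Finsupp.add_apply, ht a (Finset.mem_insert_self a t),
        ih fun b hb => ht b (Finset.mem_insert_of_mem hb), add_zero]
  exact h1 s hn

theorem MG.gr {ι κ : Type} [Fintype ι] [DecidableEq ι] {p : ι → X} {q : κ → X}
    {M : Matrix ι κ (ZG Γ)} (h : MG p q M) : Gr p q (Matrix.toLinearMapRight' M) := by
  refine gr_of_hom fun x y hy => ?_
  refine in_iff.2 fun j γ hne => ?_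
  change (∑ i, y i * M i j).coeff γ ≠ 0 at hne
  obtain ⟨i, _, hi⟩ := coeff_sum_ne _ _ _ hne
  obtain ⟨a, b, ha, hb, rfl⟩ := exists_of_mul_coeff_ne _ _ _ hi
  have h1 := in_iff.1 hy i a ha
  rw [mul_smul, h i j b hb]
  exact h1

theorem mg_of_gr {ι κ : Type} [Finite ι] [DecidableEq ι] {p : ι → X} {q : κ → X}
    {f : F Γ ι →ₗ[ZG Γ] F Γ κ} (h : Gr p q f) :
    MG p q (fun i j => f (Pi.single i 1) j : Matrix ι κ (ZG Γ)) := by
  classical
  intro i j γ hne
  have h0 : In p {p i} (Pi.single i 1 : F Γ ι) := @in_single Γ _ X _ ι _ p i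
  exact Set.mem_singleton_iff.1 (in_iff.1 (h.in h0) j γ hne)

theorem mg_fromBlocks {ι κ ι' κ' : Type} {p : ι → X} {q : κ → X} {p' : ι' → X} {q' : κ' → X}
    {A : Matrix ι κ (ZG Γ)} {B : Matrix ι κ' (ZG Γ)} {C : Matrix ι' κ (ZG Γ)}
    {D : Matrix ι' κ' (ZG Γ)} (hA : MG p q A) (hB : MG p q' B) (hC : MG p' q C)
    (hD : MG p' q' D) : MG (Sum.elim p p') (Sum.elim q q') (Matrix.fromBlocks A B C D) := by
  rintro (i | i) (j | j) γ hne
  · exact hA i j γ hne
  · exact hB i j γ hne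
  · exact hC i j γ hne
  · exact hD i j γ hne

theorem mg_fromRows {ι κ ι' : Type} {p : ι → X} {q : κ → X} {p' : ι' → X}
    {A : Matrix ι κ (ZG Γ)} {C : Matrix ι' κ (ZG Γ)} (hA : MG p q A) (hC : MG p' q C) :
    MG (Sum.elim p p') q (Matrix.fromRows A C) := by
  rintro (i | i) j γ hne
  · exact hA i j γ hne
  · exact hC i j γ hne

theorem mg_zero {ι κ : Type} (p : ι → X) (q : κ → X) : MG p q (0 : Matrix ι κ (ZG Γ)) := by
  intro i j γ hne
  exact absurd rfl hne

end MG

section Block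

variable {Γ : Type u} [Group Γ]

theorem inc_prj_of {H : Subgroup Γ} {x : ZG Γ} (hx : ∀ γ, x.coeff γ ≠ 0 → γ ∈ H) :
    inc ℤ H.subtype (prj ℤ H.subtype Subtype.val_injective x) = x := by
  ext g
  by_cases hg : g ∈ H
  · exact inc_coeff_apply (k := ℤ) H.subtype Subtype.val_injective
      (prj ℤ H.subtype Subtype.val_injective x) ⟨g, hg⟩
  · rw [inc_coeff_of_notMem]
    · by_contra hne
      exact hg (hx g (Ne.symm hne))
    · rintro ⟨t, ht⟩
      exact hg (ht ▸ t.2)

theorem inc_supp {H : Subgroup Γ} (x : MonoidAlgebra ℤ H) (γ : Γ)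
    (h : (inc ℤ H.subtype x).coeff γ ≠ 0) : γ ∈ H := by
  by_contra hne
  apply h
  apply inc_coeff_of_notMem
  rintro ⟨t, ht⟩
  exact hne (ht ▸ t.2)

/-- The matrices for one idempotent matrix over the group ring of a subgroup. -/
theorem exists_block {ι : Type} [Fintype ι] [DecidableEq ι] (H : Subgroup Γ)
    (hst : VN.ProjStFree H) (E : Matrix ι ι (ZG Γ)) (hE : E * E = E)
    (hsupp : ∀ i j γ, (E i j).coeff γ ≠ 0 → γ ∈ H) :
    ∃ (a b : ℕ) (u1 : Matrix ι (Fin b) (ZG Γ)) (u2 : Matrix (Fin a) (Fin b) (ZG Γ))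
      (v1 : Matrix (Fin b) ι (ZG Γ)) (v2 : Matrix (Fin b) (Fin a) (ZG Γ)),
      v1 * u1 + v2 * u2 = 1 ∧ u1 * v1 = E ∧ u1 * v2 = 0 ∧ u2 * v1 = 0 ∧ u2 * v2 = 1 ∧
      (∀ i j γ, (u1 i j).coeff γ ≠ 0 → γ ∈ H) ∧ (∀ i j γ, (u2 i j).coeff γ ≠ 0 → γ ∈ H) ∧
      (∀ i j γ, (v1 i j).coeff γ ≠ 0 → γ ∈ H) ∧ (∀ i j γ, (v2 i j).coeff γ ≠ 0 → γ ∈ H) := by
  let φ : ι ≃ Fin (Fintype.card ι) := Fintype.equivFin ι
  let f := inc ℤ H.subtype
  let ε : Matrix (Fin (Fintype.card ι)) (Fin (Fintype.card ι)) (MonoidAlgebra ℤ H) :=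
    fun i j => prj ℤ H.subtype Subtype.val_injective (E (φ.symm i) (φ.symm j))
  have hεE : ε.map f = E.submatrix φ.symm φ.symm := by
    ext1 i j
    exact inc_prj_of (hsupp _ _)
  have hmap : Function.Injective (fun M : Matrix (Fin (Fintype.card ι)) (Fin (Fintype.card ι))
      (MonoidAlgebra ℤ H) => M.map f) :=
    Matrix.map_injective (inc_injective H.subtype Subtype.val_injective)
  have hε : ε * ε = ε := by
    apply hmap
    change (ε * ε).map f = ε.map f
    rw [Matrix.map_mul, hεE, Matrix.submatrix_mul_equiv, hE]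
  obtain ⟨a, b, MU, MV, h1, h2⟩ :=
    matrices_of_stFree ε hε (VN.stFree_range_of_proj hst ε hε)
  have h1' : MV.map f * MU.map f = 1 := by
    rw [← Matrix.map_mul, h1, Matrix.map_one f (map_zero f) (map_one f)]
  have h2' : MU.map f * MV.map f = Matrix.fromBlocks (E.submatrix φ.symm φ.symm) 0 0 1 := by
    rw [← Matrix.map_mul, h2, Matrix.fromBlocks_map, Matrix.map_one f (map_zero f) (map_one f),
      Matrix.map_zero _ (map_zero f), Matrix.map_zero _ (map_zero f), hεE]
  refine ⟨a, b, (MU.map f).submatrix (fun i => Sum.inl (φ i)) id,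
    (MU.map f).submatrix Sum.inr id, (MV.map f).submatrix id (fun i => Sum.inl (φ i)),
    (MV.map f).submatrix id Sum.inr, ?_, ?_, ?_, ?_, ?_, ?_, ?_, ?_, ?_⟩
  · rw [← h1']
    ext1 c c'
    rw [Matrix.add_apply, Matrix.mul_apply, Matrix.mul_apply, Matrix.mul_apply,
      Fintype.sum_sum_type]
    congr 1
    exact Equiv.sum_comp φ fun i => (MV.map f) c (Sum.inl i) * (MU.map f) (Sum.inl i) c'
  · have h3 := congrArg (fun M => M.submatrix (fun i : ι => (Sum.inl (φ i) :
      Fin (Fintype.card ι) ⊕ Fin a)) (fun i : ι => Sum.inl (φ i))) h2'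
    rw [Matrix.submatrix_mul _ _ _ id _ Function.bijective_id] at h3
    rw [h3]
    ext1 i j
    change E (φ.symm (φ i)) (φ.symm (φ j)) = E i j
    rw [Equiv.symm_apply_apply, Equiv.symm_apply_apply]
  · have h3 := congrArg (fun M => M.submatrix (fun i : ι => (Sum.inl (φ i) :
      Fin (Fintype.card ι) ⊕ Fin a)) (Sum.inr : Fin a → Fin (Fintype.card ι) ⊕ Fin a)) h2'
    rw [Matrix.submatrix_mul _ _ _ id _ Function.bijective_id] at h3
    rw [h3]
    rfl
  · have h3 := congrArg (fun M => M.submatrix (Sum.inr : Fin a → Fin (Fintype.card ι) ⊕ Fin a)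
      (fun i : ι => (Sum.inl (φ i) : Fin (Fintype.card ι) ⊕ Fin a))) h2'
    rw [Matrix.submatrix_mul _ _ _ id _ Function.bijective_id] at h3
    rw [h3]
    rfl
  · have h3 := congrArg (fun M => M.submatrix (Sum.inr : Fin a → Fin (Fintype.card ι) ⊕ Fin a)
      (Sum.inr : Fin a → Fin (Fintype.card ι) ⊕ Fin a)) h2'
    rw [Matrix.submatrix_mul _ _ _ id _ Function.bijective_id] at h3
    rw [h3]
    rfl
  · exact fun i j γ h => inc_supp _ γ h
  · exact fun i j γ h => inc_supp _ γ h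
  · exact fun i j γ h => inc_supp _ γ h
  · exact fun i j γ h => inc_supp _ γ h

end Block

section Assemble

variable {Γ : Type u} [Group Γ] {X : Type v} [MulAction Γ X]

/-- Representatives of the orbits of the positions. -/
theorem exists_rep {ι : Type} (p : ι → X) :
    ∃ (ρ : ι → ι) (t : ι → Γ), (∀ i, t i • p (ρ i) = p i) ∧
      (∀ i j (γ : Γ), γ • p (ρ i) = p (ρ j) → ρ i = ρ j) := by
  classical
  let o : ι → MulAction.orbitRel.Quotient Γ X := fun i => Quotient.mk _ (p i)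
  have hex : ∀ i, ∃ j, o j = o i := fun i => ⟨i, rfl⟩
  let r : MulAction.orbitRel.Quotient Γ X → Option ι := fun q =>
    if h : ∃ j, o j = q then some h.choose else none
  have hr : ∀ i, r (o i) = some (hex i).choose := fun i => dif_pos (hex i)
  have hρ : ∀ i, o (hex i).choose = o i := fun i => (hex i).choose_spec
  have ht : ∀ i, ∃ γ : Γ, γ • p (hex i).choose = p i := by
    intro i
    have h1 : (MulAction.orbitRel Γ X) (p i) (p (hex i).choose) := Quotient.exact (hρ i).symm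
    exact MulAction.mem_orbit_iff.1 (MulAction.orbitRel_apply.1 h1)
  refine ⟨fun i => (hex i).choose, fun i => (ht i).choose, fun i => (ht i).choose_spec, ?_⟩
  intro i j γ h
  have h1 : o (hex i).choose = o (hex j).choose := by
    apply Quotient.sound
    change (MulAction.orbitRel Γ X) _ _
    rw [MulAction.orbitRel_apply, MulAction.mem_orbit_iff]
    refine ⟨γ⁻¹, ?_⟩
    rw [← h, smul_smul, inv_mul_cancel, one_smul]
  have h2 : o i = o j := by rw [← hρ i, ← hρ j, h1]
  have h3 : r (o i) = r (o j) := congrArg r h2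
  rw [hr i, hr j] at h3
  exact Option.some_injective _ h3

/-- The matrices for one graded idempotent matrix. -/
theorem exists_mats {ι : Type} [Fintype ι] [DecidableEq ι] (p : ι → X) (P : Matrix ι ι (ZG Γ))
    (hP : P * P = P) (hG : MG p p P)
    (hst : ∀ i, VN.ProjStFree (MulAction.stabilizer Γ (p i))) :
    ∃ (A C : Type) (_ : Fintype A) (_ : Fintype C) (_ : DecidableEq A) (_ : DecidableEq C)
      (a : A → X) (c : C → X) (U1 : Matrix ι C (ZG Γ)) (U2 : Matrix A C (ZG Γ))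
      (V1 : Matrix C ι (ZG Γ)) (V2 : Matrix C A (ZG Γ)),
      (∀ x, (x ∈ Set.range a ∨ x ∈ Set.range c) → x ∈ Set.range p) ∧
      V1 * U1 + V2 * U2 = 1 ∧ U1 * V1 = P ∧ U1 * V2 = 0 ∧ U2 * V1 = 0 ∧ U2 * V2 = 1 ∧
      MG p c U1 ∧ MG a c U2 := by
  classical
  obtain ⟨ρ, t, ht, hρ⟩ := exists_rep (Γ := Γ) p
  let D : Matrix ι ι (ZG Γ) := Matrix.diagonal fun i => single (t i) (1 : ℤ)
  let D' : Matrix ι ι (ZG Γ) := Matrix.diagonal fun i => single (t i)⁻¹ (1 : ℤ)
  have hDD' : D * D' = 1 := by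
    rw [Matrix.diagonal_mul_diagonal, ← Matrix.diagonal_one]
    congr 1
    funext i
    rw [single_mul_single, mul_inv_cancel, one_mul]
    rfl
  have hD'D : D' * D = 1 := by
    rw [Matrix.diagonal_mul_diagonal, ← Matrix.diagonal_one]
    congr 1
    funext i
    rw [single_mul_single, inv_mul_cancel, one_mul]
    rfl
  let Q : Matrix ι ι (ZG Γ) := D' * P * D
  have hQ : Q * Q = Q := by
    change D' * P * D * (D' * P * D) = D' * P * D
    calc D' * P * D * (D' * P * D) = D' * P * (D * D') * P * D := by simp only [Matrix.mul_assoc]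
      _ = D' * (P * P) * D := by rw [hDD', Matrix.mul_one]; simp only [Matrix.mul_assoc]
      _ = D' * P * D := by rw [hP]
  have hQP : D * Q * D' = P := by
    change D * (D' * P * D) * D' = P
    calc D * (D' * P * D) * D' = (D * D') * P * (D * D') := by simp only [Matrix.mul_assoc]
      _ = P := by rw [hDD', Matrix.one_mul, Matrix.mul_one]
  have hQe : ∀ i j, Q i j = single (t i)⁻¹ (1 : ℤ) * P i j * single (t j) (1 : ℤ) := by
    intro i j
    change (D' * P * D) i j = _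
    rw [Matrix.mul_diagonal, Matrix.diagonal_mul]
  have hQG : MG (fun i => p (ρ i)) (fun i => p (ρ i)) Q := by
    intro i j γ hne
    rw [hQe] at hne
    obtain ⟨x, y, hx, hy, rfl⟩ := exists_of_mul_coeff_ne _ _ _ hne
    obtain ⟨x1, x2, hx1, hx2, rfl⟩ := exists_of_mul_coeff_ne _ _ _ hx
    have e1 : (t i)⁻¹ = x1 := by
      by_contra hn
      apply hx1
      rw [coeff_single, Finsupp.single_apply, if_neg hn]
    have e2 : t j = y := by
      by_contra hn
      apply hy
      rw [coeff_single, Finsupp.single_apply, if_neg hn]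
    subst e1 e2
    change ((t i)⁻¹ * x2 * t j) • p (ρ j) = p (ρ i)
    rw [mul_smul, ht j, mul_smul, hG i j x2 hx2, ← ht i, smul_smul, inv_mul_cancel, one_smul]
  have hQ0 : ∀ i j, ρ i ≠ ρ j → Q i j = 0 := by
    intro i j hne
    ext γ
    by_contra hn
    exact hne (hρ j i γ (hQG i j γ hn)).symm
  -- the blocks
  let E : ι → Matrix ι ι (ZG Γ) := fun r i j => if ρ i = r ∧ ρ j = r then Q i j else 0
  have hE1 : ∀ r i j, ρ i ≠ r → E r i j = 0 := fun r i j h => if_neg fun h' => h h'.1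
  have hE2 : ∀ r i j, ρ j ≠ r → E r i j = 0 := fun r i j h => if_neg fun h' => h h'.2
  have hE : ∀ r, E r * E r = E r := by
    intro r
    ext1 i j
    rw [Matrix.mul_apply]
    by_cases hi : ρ i = r
    · by_cases hj : ρ j = r
      · have h1 : ∀ k, E r i k * E r k j = Q i k * Q k j := by
          intro k
          by_cases hk : ρ k = r
          · change (if ρ i = r ∧ ρ k = r then Q i k else 0) *
              (if ρ k = r ∧ ρ j = r then Q k j else 0) = _
            rw [if_pos ⟨hi, hk⟩, if_pos ⟨hk, hj⟩]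
          · rw [hE2 r i k hk, hQ0 i k (by rw [hi]; exact Ne.symm hk), zero_mul, zero_mul]
        rw [Finset.sum_congr rfl fun k _ => h1 k, ← Matrix.mul_apply, hQ]
        change _ = if ρ i = r ∧ ρ j = r then Q i j else 0
        rw [if_pos ⟨hi, hj⟩]
      · rw [hE2 r i j hj]
        exact Finset.sum_eq_zero fun k _ => by rw [hE2 r k j hj, mul_zero]
    · rw [hE1 r i j hi]
      exact Finset.sum_eq_zero fun k _ => by rw [hE1 r i k hi, zero_mul]
  have hEE : ∀ r r', r ≠ r' → E r * E r' = 0 := by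
    intro r r' hrr
    ext1 i j
    rw [Matrix.mul_apply]
    refine Finset.sum_eq_zero fun k _ => ?_
    by_cases hk : ρ k = r
    · rw [hE1 r' k j (by rw [hk]; exact hrr), mul_zero]
    · rw [hE2 r i k hk, zero_mul]
  have hEsum : ∀ i j, ∑ r, E r i j = Q i j := by
    intro i j
    rw [Finset.sum_eq_single (ρ i)]
    · change (if ρ i = ρ i ∧ ρ j = ρ i then Q i j else 0) = Q i j
      by_cases h : ρ j = ρ i
      · rw [if_pos ⟨rfl, h⟩]
      · rw [if_neg fun h' => h h'.2, hQ0 i j (Ne.symm h)]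
    · intro r _ hr
      exact hE1 r i j (Ne.symm hr)
    · intro h
      exact absurd (Finset.mem_univ _) h
  have hEs : ∀ r i j γ, (E r i j).coeff γ ≠ 0 → γ ∈ MulAction.stabilizer Γ (p r) := by
    intro r i j γ hne
    by_cases h : ρ i = r ∧ ρ j = r
    · have h1 : E r i j = Q i j := if_pos h
      rw [h1] at hne
      have h2 : γ • p (ρ j) = p (ρ i) := hQG i j γ hne
      rw [h.1, h.2] at h2
      exact MulAction.mem_stabilizer_iff.2 h2
    · have h1 : E r i j = 0 := if_neg h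
      rw [h1] at hne
      exact absurd rfl hne
  choose a b u1 u2 v1 v2 k1 k2 k3 k4 k5 s1 s2 s3 s4 using fun r =>
    exists_block (MulAction.stabilizer Γ (p r)) (hst r) (E r) (hE r) (hEs r)
  have hu1 : ∀ r, E r * u1 r = u1 r := by
    intro r
    have h1 : u1 r * (v1 r * u1 r + v2 r * u2 r) = u1 r := by rw [k1 r, Matrix.mul_one]
    rw [Matrix.mul_add, ← Matrix.mul_assoc, ← Matrix.mul_assoc, k2 r, k3 r, Matrix.zero_mul,
      add_zero] at h1
    exact h1
  have hv1 : ∀ r, v1 r * E r = v1 r := by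
    intro r
    have h1 : (v1 r * u1 r + v2 r * u2 r) * v1 r = v1 r := by rw [k1 r, Matrix.one_mul]
    rw [Matrix.add_mul, Matrix.mul_assoc, Matrix.mul_assoc, k2 r, k4 r, Matrix.mul_zero,
      add_zero] at h1
    exact h1
  have hu10 : ∀ r i c, ρ i ≠ r → u1 r i c = 0 := by
    intro r i c h
    rw [← hu1 r, Matrix.mul_apply]
    exact Finset.sum_eq_zero fun k _ => by rw [hE1 r i k h, zero_mul]
  let W1 : Matrix ι (Σ r : ι, Fin (b r)) (ZG Γ) := fun i c => u1 c.1 i c.2
  let W2 : Matrix (Σ r : ι, Fin (a r)) (Σ r : ι, Fin (b r)) (ZG Γ) := Matrix.blockDiagonal' u2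
  let Z1 : Matrix (Σ r : ι, Fin (b r)) ι (ZG Γ) := fun c i => v1 c.1 c.2 i
  let Z2 : Matrix (Σ r : ι, Fin (b r)) (Σ r : ι, Fin (a r)) (ZG Γ) := Matrix.blockDiagonal' v2
  have m1 : Z1 * W1 + Z2 * W2 = 1 := by
    change Z1 * W1 + Matrix.blockDiagonal' v2 * Matrix.blockDiagonal' u2 = 1
    rw [← Matrix.blockDiagonal'_mul]
    ext1 c c'
    obtain ⟨r, c⟩ := c
    obtain ⟨r', c'⟩ := c'
    have h0 : (Z1 * W1) ⟨r, c⟩ ⟨r', c'⟩ = (v1 r * u1 r') c c' := rfl
    rw [Matrix.add_apply, h0]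
    by_cases hrr : r = r'
    · subst hrr
      rw [Matrix.blockDiagonal'_apply_eq, ← Matrix.add_apply, k1 r]
      by_cases hcc : c = c'
      · subst hcc
        rw [Matrix.one_apply_eq, Matrix.one_apply_eq]
      · rw [Matrix.one_apply_ne hcc, Matrix.one_apply_ne]
        intro h
        exact hcc (eq_of_heq (Sigma.mk.inj h).2)
    · rw [Matrix.blockDiagonal'_apply_ne _ _ _ hrr, add_zero, Matrix.one_apply_ne]
      · have h1 : v1 r * u1 r' = 0 := by
          rw [← hv1 r, ← hu1 r', Matrix.mul_assoc, ← Matrix.mul_assoc (E r), hEE r r' hrr,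
            Matrix.zero_mul, Matrix.mul_zero]
        rw [h1]
        rfl
      · intro h
        exact hrr (Sigma.mk.inj h).1
  have m2 : W1 * Z1 = Q := by
    ext1 i j
    rw [Matrix.mul_apply, Fintype.sum_sigma, ← hEsum i j]
    refine Finset.sum_congr rfl fun r _ => ?_
    rw [← k2 r, Matrix.mul_apply]
  have m3 : W1 * Z2 = 0 := by
    ext1 i c
    obtain ⟨r, c⟩ := c
    rw [Matrix.mul_apply, Fintype.sum_sigma, Finset.sum_eq_single r]
    · have h1 : (u1 r * v2 r) i c = 0 := by rw [k3 r]; rfl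
      rw [Matrix.mul_apply] at h1
      rw [Matrix.zero_apply, ← h1]
      refine Finset.sum_congr rfl fun x _ => ?_
      change u1 r i x * Matrix.blockDiagonal' v2 ⟨r, x⟩ ⟨r, c⟩ = _
      rw [Matrix.blockDiagonal'_apply_eq]
    · intro r' _ hr'
      refine Finset.sum_eq_zero fun x _ => ?_
      change _ * Matrix.blockDiagonal' v2 ⟨r', x⟩ ⟨r, c⟩ = _
      rw [Matrix.blockDiagonal'_apply_ne _ _ _ hr', mul_zero]
    · intro h
      exact absurd (Finset.mem_univ _) h
  have m4 : W2 * Z1 = 0 := by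
    ext1 c i
    obtain ⟨r, c⟩ := c
    rw [Matrix.mul_apply, Fintype.sum_sigma, Finset.sum_eq_single r]
    · have h1 : (u2 r * v1 r) c i = 0 := by rw [k4 r]; rfl
      rw [Matrix.mul_apply] at h1
      rw [Matrix.zero_apply, ← h1]
      refine Finset.sum_congr rfl fun x _ => ?_
      change Matrix.blockDiagonal' u2 ⟨r, c⟩ ⟨r, x⟩ * v1 r x i = _
      rw [Matrix.blockDiagonal'_apply_eq]
    · intro r' _ hr'
      refine Finset.sum_eq_zero fun x _ => ?_
      change Matrix.blockDiagonal' u2 ⟨r, c⟩ ⟨r', x⟩ * _ = _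
      rw [Matrix.blockDiagonal'_apply_ne _ _ _ (Ne.symm hr'), zero_mul]
    · intro h
      exact absurd (Finset.mem_univ _) h
  have m5 : W2 * Z2 = 1 := by
    change Matrix.blockDiagonal' u2 * Matrix.blockDiagonal' v2 = 1
    rw [← Matrix.blockDiagonal'_mul, ← Matrix.blockDiagonal'_one]
    congr 1
    funext r
    exact k5 r
  refine ⟨Σ r : ι, Fin (a r), Σ r : ι, Fin (b r), inferInstance, inferInstance, inferInstance,
    inferInstance, fun c => p c.1, fun c => p c.1, D * W1, W2, Z1 * D', Z2, ?_, ?_, ?_, ?_, ?_,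
    m5, ?_, ?_⟩
  · rintro x (⟨c, rfl⟩ | ⟨c, rfl⟩)
    · exact ⟨c.1, rfl⟩
    · exact ⟨c.1, rfl⟩
  · rw [← m1]
    congr 1
    rw [Matrix.mul_assoc, ← Matrix.mul_assoc D', hD'D, Matrix.one_mul]
  · rw [← hQP, ← m2]
    simp only [Matrix.mul_assoc]
  · rw [Matrix.mul_assoc, m3, Matrix.mul_zero]
  · rw [← Matrix.mul_assoc, m4, Matrix.zero_mul]
  · intro i c γ hne
    obtain ⟨r, c⟩ := c
    change ((Matrix.diagonal (fun i => MonoidAlgebra.single (t i) (1 : ℤ)) * W1) i ⟨r, c⟩).coeff γ ≠ 0 at hne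
    rw [Matrix.diagonal_mul] at hne
    change (single (t i) (1 : ℤ) * u1 r i c).coeff γ ≠ 0 at hne
    obtain ⟨x, y, hx, hy, rfl⟩ := exists_of_mul_coeff_ne _ _ _ hne
    have e1 : t i = x := by
      by_contra hn
      apply hx
      rw [coeff_single, Finsupp.single_apply, if_neg hn]
    subst e1
    have hir : ρ i = r := by
      by_contra hn
      apply hy
      rw [hu10 r i c hn]
      rfl
    have h1 := MulAction.mem_stabilizer_iff.1 (s1 r i c y hy)
    change (t i * y) • p r = p i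
    rw [mul_smul, h1, ← hir, ht i]
  · intro c c' γ hne
    obtain ⟨r, c⟩ := c
    obtain ⟨r', c'⟩ := c'
    by_cases hrr : r = r'
    · subst hrr
      change (Matrix.blockDiagonal' u2 ⟨r, c⟩ ⟨r, c'⟩).coeff γ ≠ 0 at hne
      rw [Matrix.blockDiagonal'_apply_eq] at hne
      exact MulAction.mem_stabilizer_iff.1 (s2 r c c' γ hne)
    · change (Matrix.blockDiagonal' u2 ⟨r, c⟩ ⟨r', c'⟩).coeff γ ≠ 0 at hne
      rw [Matrix.blockDiagonal'_apply_ne _ _ _ hrr] at hne
      exact absurd rfl hne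

end Assemble

theorem blk_toLin {S : Type u} [Ring S] {ι κ ι' κ' : Type} [Fintype ι] [Fintype κ]
    [DecidableEq ι] [DecidableEq κ] (A : Matrix ι ι' S) (B : Matrix ι κ' S) (C : Matrix κ κ' S) :
    blk (Matrix.toLinearMapRight' A) (Matrix.toLinearMapRight' B) (Matrix.toLinearMapRight' C)
      = Matrix.toLinearMapRight' (Matrix.fromBlocks A B 0 C) := by
  apply LinearMap.ext
  intro y
  funext j
  rcases j with j | j
  · change ∑ i, y (Sum.inl i) * A i j = ∑ i, y i * Matrix.fromBlocks A B 0 C i (Sum.inl j)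
    rw [Fintype.sum_sum_type]
    simp
  · change ∑ i, y (Sum.inl i) * B i j + ∑ i, y (Sum.inr i) * C i j =
      ∑ i, y i * Matrix.fromBlocks A B 0 C i (Sum.inr j)
    rw [Fintype.sum_sum_type]
    simp

end NF

open NF

theorem stNF : StNF.{u, v} := by
  classical
  intro Γ _ X _ ι _ p π hgr hππ hst
  have := Fintype.ofFinite ι
  obtain ⟨P, hPdef⟩ : ∃ P : Matrix ι ι (ZG Γ), P = fun i j => π (Pi.single i 1) j := ⟨_, rfl⟩
  have hPG : MG p p P := by rw [hPdef]; exact mg_of_gr hgr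
  have hπP : π = Matrix.toLinearMapRight' P := by
    ext1 i
    refine LinearMap.ext_ring ?_
    funext j
    change π (Pi.single i 1) j = ∑ k, (Pi.single i 1 : ι → ZG Γ) k * P k j
    rw [Finset.sum_eq_single i]
    · rw [Pi.single_eq_same, one_mul, hPdef]
    · intro k _ hk
      rw [Pi.single_eq_of_ne hk, zero_mul]
    · intro h
      exact absurd (Finset.mem_univ _) h
  have hPP : P * P = P := by
    apply (Matrix.toLinearMapRight' (m := ι) (n := ι) (R := ZG Γ)).injective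
    rw [Matrix.toLinearMapRight'_mul, ← hπP, hππ]
  have hone : MG p p (1 : Matrix ι ι (ZG Γ)) := by
    intro i j γ hne
    by_cases hij : i = j
    · subst hij
      rw [Matrix.one_apply_eq, one_def, coeff_single, Finsupp.single_apply] at hne
      by_cases h1 : (1 : Γ) = γ
      · rw [← h1, one_smul]
      · rw [if_neg h1] at hne
        exact absurd rfl hne
    · rw [Matrix.one_apply_ne hij] at hne
      exact absurd rfl hne
  have hQG : MG p p (1 - P) := by
    intro i j γ hne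
    by_cases h1 : ((1 : Matrix ι ι (ZG Γ)) i j).coeff γ = 0
    · by_cases h2 : (P i j).coeff γ = 0
      · exfalso
        apply hne
        rw [Matrix.sub_apply, coeff_sub, Finsupp.sub_apply, h1, h2, sub_zero]
      · exact hPG i j γ h2
    · exact hone i j γ h1
  have hQQ : (1 - P) * (1 - P) = 1 - P := by
    rw [Matrix.mul_sub, Matrix.mul_one, Matrix.sub_mul, Matrix.one_mul, hPP, sub_self, sub_zero]
  obtain ⟨A, C, _, _, _, _, a, c, U1, U2, V1, V2, hac, e1, e2, e3, e4, e5, gU1, gU2⟩ :=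
    exists_mats p P hPP hPG hst
  obtain ⟨B, D, _, _, _, _, b, d, W1, W2, Z1, Z2, hbd, f1, f2, f3, f4, f5, gW1, gW2⟩ :=
    exists_mats p (1 - P) hQQ hQG hst
  have hU1 : P * U1 = U1 := by
    have h1 : U1 * (V1 * U1 + V2 * U2) = U1 := by rw [e1, Matrix.mul_one]
    rw [Matrix.mul_add, ← Matrix.mul_assoc, ← Matrix.mul_assoc, e2, e3, Matrix.zero_mul,
      add_zero] at h1
    exact h1
  have hV1 : V1 * P = V1 := by
    have h1 : (V1 * U1 + V2 * U2) * V1 = V1 := by rw [e1, Matrix.one_mul]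
    rw [Matrix.add_mul, Matrix.mul_assoc, Matrix.mul_assoc, e2, e4, Matrix.mul_zero,
      add_zero] at h1
    exact h1
  have hW1 : P * W1 = 0 := by
    have h1 : W1 * (Z1 * W1 + Z2 * W2) = W1 := by rw [f1, Matrix.mul_one]
    rw [Matrix.mul_add, ← Matrix.mul_assoc, ← Matrix.mul_assoc, f2, f3, Matrix.zero_mul,
      add_zero, Matrix.sub_mul, Matrix.one_mul, sub_eq_self] at h1
    exact h1
  have hZ1 : Z1 * P = 0 := by
    have h1 : (Z1 * W1 + Z2 * W2) * Z1 = Z1 := by rw [f1, Matrix.one_mul]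
    rw [Matrix.add_mul, Matrix.mul_assoc, Matrix.mul_assoc, f2, f4, Matrix.mul_zero,
      add_zero, Matrix.mul_sub, Matrix.mul_one, sub_eq_self] at h1
    exact h1
  have hVW : V1 * W1 = 0 := by
    rw [← hV1, Matrix.mul_assoc, hW1, Matrix.mul_zero]
  have hZU : Z1 * U1 = 0 := by
    rw [← hU1, ← Matrix.mul_assoc, hZ1, Matrix.zero_mul]
  obtain ⟨M, hM⟩ : ∃ M : Matrix ((ι ⊕ A) ⊕ B) (C ⊕ D) (ZG Γ), M =
    Matrix.fromBlocks (Matrix.fromRows U1 U2) (Matrix.fromRows W1 0) 0 W2 := ⟨_, rfl⟩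
  obtain ⟨N, hN⟩ : ∃ N : Matrix (C ⊕ D) ((ι ⊕ A) ⊕ B) (ZG Γ), N =
    Matrix.fromBlocks (Matrix.fromCols V1 V2) 0 (Matrix.fromCols Z1 0) Z2 := ⟨_, rfl⟩
  have hA : Matrix.fromRows W1 (0 : Matrix A D (ZG Γ)) * Z2 = 0 := by
    rw [Matrix.fromRows_mul, f3, Matrix.zero_mul, Matrix.fromRows_zero]
  have hB : W2 * Matrix.fromCols Z1 (0 : Matrix D A (ZG Γ)) = 0 := by
    rw [Matrix.mul_fromCols, f4, Matrix.mul_zero, Matrix.fromCols_zero]
  have hMN : M * N = 1 := by
    rw [hM, hN, Matrix.fromBlocks_multiply, Matrix.fromRows_mul_fromCols,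
      Matrix.fromRows_mul_fromCols, e2, e3, e4, e5, f2, hA, hB, f5]
    simp only [Matrix.mul_zero, Matrix.zero_mul, Matrix.fromBlocks_add, add_sub_cancel, add_zero,
      zero_add, Matrix.fromBlocks_one]
  have hNM : N * M = 1 := by
    rw [hM, hN, Matrix.fromBlocks_multiply, Matrix.fromCols_mul_fromRows,
      Matrix.fromCols_mul_fromRows, Matrix.fromCols_mul_fromRows, Matrix.fromCols_mul_fromRows,
      e1, hVW, hZU]
    simp only [Matrix.mul_zero, Matrix.zero_mul, add_zero, f1, Matrix.fromBlocks_one]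
  refine ⟨A, B, C, D, inferInstance, inferInstance, inferInstance, inferInstance, a, b, c, d,
    Matrix.toLinearEquivRight'OfInv hNM hMN, ?_, ?_, ?_⟩
  · rintro x (h | h | h | h)
    · exact hac x (Or.inl h)
    · exact hbd x (Or.inl h)
    · exact hac x (Or.inr h)
    · exact hbd x (Or.inr h)
  · have h1 : MG (Sum.elim (Sum.elim p a) b) (Sum.elim c d) M := by
      rw [hM]
      exact mg_fromBlocks (mg_fromRows gU1 gU2) (mg_fromRows gW1 (mg_zero a d)) (mg_zero b c) gW2
    exact h1.gr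
  · have hb1 : blk (blk π 0 (LinearMap.id : F Γ A →ₗ[ZG Γ] F Γ A)) 0 (0 : F Γ B →ₗ[ZG Γ] F Γ B) =
        Matrix.toLinearMapRight' (Matrix.fromBlocks (Matrix.fromBlocks P 0 0 1) 0 0 0) := by
      rw [← blk_toLin, ← blk_toLin, hπP, map_zero, map_zero, map_zero,
        Matrix.toLinearMapRight'_one]
    have hb2 : blk (LinearMap.id : F Γ C →ₗ[ZG Γ] F Γ C) 0 (0 : F Γ D →ₗ[ZG Γ] F Γ D) =
        Matrix.toLinearMapRight' (Matrix.fromBlocks 1 0 0 0) := by
      rw [← blk_toLin, map_zero, map_zero, Matrix.toLinearMapRight'_one]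
    have hb3 : (Matrix.toLinearEquivRight'OfInv hNM hMN).toLinearMap =
        Matrix.toLinearMapRight' M := rfl
    rw [hb1, hb2, hb3, ← Matrix.toLinearMapRight'_mul, ← Matrix.toLinearMapRight'_mul]
    congr 1
    rw [hM, Matrix.fromBlocks_multiply, Matrix.fromBlocks_multiply,
      Matrix.fromBlocks_mul_fromRows, Matrix.fromBlocks_mul_fromRows, hU1, hW1]
    simp only [Matrix.mul_zero, Matrix.zero_mul, add_zero, zero_add, Matrix.one_mul,
      Matrix.mul_one, Matrix.fromRows_zero]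

end Pool.Agent.Lib.MP_551055_al.LS
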