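import Pool.Agent.Lib.MP_551055_al.LS.PStmts

/-!
# Extensions by `ℤ`, module PExact: the Mayer-Vietoris sequence of the line
-/

set_option autoImplicit false

namespace Pool.Agent.Lib.MP_551055_al.LS

open Pool.Agent.Lib.MP_551055_al
open MonoidAlgebra

universe u

section PExact

variable {Γ : Type u} [Group Γ] {ι : Type}

theorem px_coeff (t : Γ) (m : ℕ) (y : F Γ (Fin (m + 1) × ι)) (i : ι) (g : Γ) :
    (evm t m ι y i).coeff g = ∑ k : Fin (m + 1), (y (k, i)).coeff (g * (t ^ (k : ℕ))⁻¹) := by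
  have h : ∀ s : Finset (Fin (m + 1)),
      (∑ k ∈ s, y (k, i) * single (t ^ (k : ℕ)) (1 : ℤ)).coeff g =
        ∑ k ∈ s, (y (k, i)).coeff (g * (t ^ (k : ℕ))⁻¹) := by
    classical
    intro s
    induction s using Finset.induction_on with
    | empty => rfl
    | insert a s ha ih =>
      rw [Finset.sum_insert ha, Finset.sum_insert ha, coeff_add, Finsupp.add_apply, ih,
        coeff_mul_single_apply, mul_one]
  rw [evm_apply, h]

theorem px_toAdd (f : Γ →* Multiplicative ℤ) (g h : Γ) :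
    (f (g * h)).toAdd = (f g).toAdd + (f h).toAdd := by
  rw [map_mul, toAdd_mul]

theorem px_toAdd_inv (f : Γ →* Multiplicative ℤ) (g : Γ) :
    (f g⁻¹).toAdd = - (f g).toAdd := by
  rw [map_inv, toAdd_inv]

theorem px_toAdd_pow (f : Γ →* Multiplicative ℤ) (t : Γ) (ht : f t = Multiplicative.ofAdd 1)
    (k : ℕ) : (f (t ^ k)).toAdd = k := by
  rw [map_pow, ht, ← ofAdd_nsmul, toAdd_ofAdd, nsmul_eq_mul, mul_one]

/-- A vector has all positions in `P` iff the degrees of its coefficients are in `P`. -/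
theorem px_in_iff {f : Γ →* Multiplicative ℤ} {κ : Type} {P : Set (Ln f)} {y : F Γ κ} :
    In (pz f κ) P y ↔ ∀ i γ, (y i).coeff γ ≠ 0 → pt f (f γ).toAdd ∈ P := by
  rw [in_iff]
  have h : ∀ (i : κ) (γ : Γ), γ • pz f κ i = pt f (f γ).toAdd := by
    intro i γ
    change γ • pt f 0 = _
    rw [smul_pt, add_zero]
  simp only [h]

theorem px_single {f : Γ →* Multiplicative ℤ} (k l : ℤ) :
    pt f k ∈ ({pt f l} : Set (Ln f)) ↔ k = l := by
  rw [Set.mem_singleton_iff]
  exact Iff.rfl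

/-- The degrees of `evm y`. -/
theorem px_in (f : Γ →* Multiplicative ℤ) (t : Γ) (ht : f t = Multiplicative.ofAdd 1) (m : ℕ)
    (a b : ℤ) (y : F Γ (Fin (m + 1) × ι)) (hy : In (pz f _) (seg f a b) y) :
    In (pz f ι) (seg f a (b + m)) (evm t m ι y) := by
  rw [px_in_iff] at hy ⊢
  intro i γ hne
  rw [px_coeff] at hne
  obtain ⟨k, _, hk⟩ := Finset.exists_ne_zero_of_sum_ne_zero hne
  have h1 := hy (k, i) _ hk
  rw [pt_mem_seg, px_toAdd, px_toAdd_inv, px_toAdd_pow f t ht] at h1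
  rw [pt_mem_seg]
  have h2 : ((k : ℕ) : ℤ) ≤ m := by
    have := k.2
    omega
  have h3 : (0 : ℤ) ≤ ((k : ℕ) : ℤ) := Int.natCast_nonneg _
  constructor <;> linarith [h1.1, h1.2]

/-- `evm` is injective on vectors with one position. -/
theorem px_inj (f : Γ →* Multiplicative ℤ) (t : Γ) (ht : f t = Multiplicative.ofAdd 1) (m : ℕ)
    (a : ℤ) (y : F Γ (Fin (m + 1) × ι)) (hy : In (pz f _) {pt f a} y)
    (h0 : evm t m ι y = 0) : y = 0 := by
  rw [px_in_iff] at hy
  refine F_ext fun ki h => ?_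
  obtain ⟨k, i⟩ := ki
  change (y (k, i)).coeff h = 0
  by_contra hne
  have h1 : (f h).toAdd = a := (px_single _ _).1 (hy _ _ hne)
  have h2 : (evm t m ι y i).coeff (h * t ^ (k : ℕ)) = 0 := by rw [h0]; rfl
  rw [px_coeff, Finset.sum_eq_single k, mul_inv_cancel_right] at h2
  · exact hne h2
  · intro j _ hj
    by_contra hne2
    have h3 := (px_single _ _).1 (hy _ _ hne2)
    rw [px_toAdd, px_toAdd, px_toAdd_inv, px_toAdd_pow f t ht, px_toAdd_pow f t ht, h1] at h3
    apply hj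
    apply Fin.ext
    omega
  · exact fun h => absurd (Finset.mem_univ _) h

theorem px_uniq (f : Γ →* Multiplicative ℤ) (t : Γ) (ht : f t = Multiplicative.ofAdd 1) (m : ℕ)
    (a : ℤ) (y z : F Γ (Fin (m + 1) × ι)) (hy : In (pz f _) {pt f a} y)
    (hz : In (pz f _) {pt f a} z) (h : evm t m ι y = evm t m ι z) : y = z := by
  rw [← sub_eq_zero]
  exact px_inj f t ht m a _ (hy.sub hz) (by rw [map_sub, h, sub_self])

/-- `evm` is surjective onto the vectors with degrees in a segment. -/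
theorem px_surj (f : Γ →* Multiplicative ℤ) (t : Γ) (ht : f t = Multiplicative.ofAdd 1) (m : ℕ)
    (a : ℤ) (z : F Γ ι) (hz : In (pz f ι) (seg f a (a + m)) z) :
    ∃ y : F Γ (Fin (m + 1) × ι), In (pz f _) {pt f a} y ∧ evm t m ι y = z := by
  classical
  refine ⟨fun ki => pr (pz f ι) {pt f (a + (ki.1 : ℕ))} z ki.2 *
    single ((t ^ (ki.1 : ℕ))⁻¹) 1, ?_, ?_⟩
  · rw [px_in_iff]
    rintro ⟨k, i⟩ γ hne
    change (pr (pz f ι) {pt f (a + (k : ℕ))} z i * single ((t ^ (k : ℕ))⁻¹) 1).coeff γ ≠ 0 at hne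
    rw [coeff_mul_single_apply, mul_one, inv_inv] at hne
    have h1 := px_in_iff.1 (in_pr (pz f ι) {pt f (a + (k : ℕ))} z) i _ hne
    rw [px_single, px_toAdd, px_toAdd_pow f t ht] at h1
    rw [px_single]
    linarith
  · funext i
    rw [evm_apply]
    have h1 : ∀ k : Fin (m + 1), (pr (pz f ι) {pt f (a + (k : ℕ))} z i *
        single ((t ^ (k : ℕ))⁻¹) (1 : ℤ)) * single (t ^ (k : ℕ)) 1 =
        pr (pz f ι) {pt f (a + (k : ℕ))} z i := by
      intro k
      rw [mul_assoc, single_mul_single, inv_mul_cancel, mul_one, ← one_def, mul_one]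
    rw [Finset.sum_congr rfl fun k _ => h1 k]
    ext g
    have h2 : ∀ s : Finset (Fin (m + 1)),
        (∑ k ∈ s, pr (pz f ι) {pt f (a + (k : ℕ))} z i).coeff g =
          ∑ k ∈ s, (pr (pz f ι) {pt f (a + (k : ℕ))} z i).coeff g := by
      intro s
      induction s using Finset.induction_on with
      | empty => rfl
      | insert b s hb ih =>
        rw [Finset.sum_insert hb, Finset.sum_insert hb, coeff_add, Finsupp.add_apply, ih]
    rw [h2]
    have h3 : ∀ k : Fin (m + 1), (pr (pz f ι) {pt f (a + (k : ℕ))} z i).coeff g =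
        if (f g).toAdd = a + (k : ℕ) then (z i).coeff g else 0 := by
      intro k
      rw [pr_coeff]
      change (if g • pt f 0 ∈ ({pt f (a + (k : ℕ))} : Set (Ln f)) then _ else _) = _
      rw [smul_pt, add_zero]
      simp only [px_single]
    rw [Finset.sum_congr rfl fun k _ => h3 k]
    by_cases hg : (z i).coeff g = 0
    · rw [hg]
      simp
    · have h4 := px_in_iff.1 hz i g hg
      rw [pt_mem_seg] at h4
      obtain ⟨k, hk⟩ : ∃ k : ℕ, (f g).toAdd = a + k := by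
        refine ⟨((f g).toAdd - a).toNat, ?_⟩
        have := Int.toNat_of_nonneg (sub_nonneg.2 h4.1)
        omega
      have hkm : k < m + 1 := by omega
      rw [Finset.sum_eq_single (⟨k, hkm⟩ : Fin (m + 1)), if_pos hk]
      · intro j _ hj
        rw [if_neg]
        intro h5
        apply hj
        apply Fin.ext
        change (j : ℕ) = k
        omega
      · exact fun h => absurd (Finset.mem_univ _) h

/-! ## The map `θ` -/

/-- The inclusion `e_(k, i) ↦ e_(k, i)`. -/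
noncomputable def pxA (Γ : Type u) [Group Γ] (n : ℕ) (ι : Type) :
    F Γ (Fin (n + 1) × ι) →ₗ[ZG Γ] F Γ (Fin (n + 1 + 1) × ι) where
  toFun y ki := Fin.lastCases (motive := fun _ => ZG Γ) 0 (fun k => y (k, ki.2)) ki.1
  map_add' y z := by
    funext ki
    obtain ⟨k, i⟩ := ki
    induction k using Fin.lastCases with
    | last => simp
    | cast k => simp
  map_smul' s y := by
    funext ki
    obtain ⟨k, i⟩ := ki
    induction k using Fin.lastCases with
    | last => simp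
    | cast k => simp

theorem pxA_last (n : ℕ) (y : F Γ (Fin (n + 1) × ι)) (i : ι) :
    pxA Γ n ι y (Fin.last (n + 1), i) = 0 := by
  change Fin.lastCases (motive := fun _ => ZG Γ) 0 (fun k => y (k, i)) (Fin.last (n + 1)) = 0
  rw [Fin.lastCases_last]

theorem pxA_cast (n : ℕ) (y : F Γ (Fin (n + 1) × ι)) (k : Fin (n + 1)) (i : ι) :
    pxA Γ n ι y (k.castSucc, i) = y (k, i) := by
  change Fin.lastCases (motive := fun _ => ZG Γ) 0 (fun k => y (k, i)) k.castSucc = y (k, i)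
  rw [Fin.lastCases_castSucc]

/-- The map `e_(k, i) ↦ t⁻¹ e_(k + 1, i)`. -/
noncomputable def pxB (t : Γ) (n : ℕ) (ι : Type) :
    F Γ (Fin (n + 1) × ι) →ₗ[ZG Γ] F Γ (Fin (n + 1 + 1) × ι) where
  toFun y ki := Fin.cases (motive := fun _ => ZG Γ) 0 (fun k => y (k, ki.2) * single t⁻¹ 1) ki.1
  map_add' y z := by
    funext ki
    obtain ⟨k, i⟩ := ki
    induction k using Fin.cases with
    | zero => simp
    | succ k => simp [add_mul]
  map_smul' s y := by
    funext ki
    obtain ⟨k, i⟩ := ki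
    induction k using Fin.cases with
    | zero => simp
    | succ k => simp [mul_assoc]

theorem pxB_zero (t : Γ) (n : ℕ) (y : F Γ (Fin (n + 1) × ι)) (i : ι) :
    pxB t n ι y (0, i) = 0 := rfl

theorem pxB_succ (t : Γ) (n : ℕ) (y : F Γ (Fin (n + 1) × ι)) (k : Fin (n + 1)) (i : ι) :
    pxB t n ι y (k.succ, i) = y (k, i) * single t⁻¹ 1 := rfl

theorem pxA_evm (t : Γ) (n : ℕ) (y : F Γ (Fin (n + 1) × ι)) :
    evm t (n + 1) ι (pxA Γ n ι y) = evm t n ι y := by
  funext i
  rw [evm_apply, evm_apply, Fin.sum_univ_castSucc, pxA_last, zero_mul, add_zero]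
  refine Finset.sum_congr rfl fun k _ => ?_
  rw [pxA_cast]
  rfl

theorem pxB_evm (t : Γ) (n : ℕ) (y : F Γ (Fin (n + 1) × ι)) :
    evm t (n + 1) ι (pxB t n ι y) = evm t n ι y := by
  funext i
  rw [evm_apply, evm_apply, Fin.sum_univ_succ, pxB_zero, zero_mul, zero_add]
  refine Finset.sum_congr rfl fun k _ => ?_
  rw [pxB_succ, mul_assoc, single_mul_single, mul_one, Fin.val_succ, pow_succ',
    inv_mul_cancel_left]

theorem pxA_pr (f : Γ →* Multiplicative ℤ) (n : ℕ) (y : F Γ (Fin (n + 1) × ι))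
    (P : Set (Ln f)) : pr (pz f _) P (pxA Γ n ι y) = pxA Γ n ι (pr (pz f _) P y) := by
  funext ki
  obtain ⟨k, i⟩ := ki
  induction k using Fin.lastCases with
  | last =>
    rw [pxA_last]
    change Red.res _ (pxA Γ n ι y (Fin.last (n + 1), i)) = 0
    rw [pxA_last, map_zero]
  | cast k =>
    rw [pxA_cast]
    change Red.res _ (pxA Γ n ι y (k.castSucc, i)) = _
    rw [pxA_cast]
    rfl

theorem pxB_pr (f : Γ →* Multiplicative ℤ) (t : Γ) (ht : f t = Multiplicative.ofAdd 1) (n : ℕ)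
    (y : F Γ (Fin (n + 1) × ι)) (a : ℤ) :
    pr (pz f _) {pt f a} (pxB t n ι y) = pxB t n ι (pr (pz f _) {pt f (a + 1)} y) := by
  classical
  refine F_ext fun ki g => ?_
  obtain ⟨k, i⟩ := ki
  rw [pr_coeff]
  induction k using Fin.cases with
  | zero =>
    rw [pxB_zero, pxB_zero]
    simp
  | succ k =>
    rw [pxB_succ, pxB_succ, coeff_mul_single_apply, coeff_mul_single_apply, pr_coeff, mul_one,
      mul_one, inv_inv]
    change (if g • pt f 0 ∈ ({pt f a} : Set (Ln f)) then _ else _) =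
      if (g * t) • pt f 0 ∈ ({pt f (a + 1)} : Set (Ln f)) then _ else _
    rw [smul_pt, smul_pt, px_toAdd, ht, toAdd_ofAdd, add_zero, add_zero]
    simp only [px_single, add_left_inj]

/-- The map `e_(k, i) ↦ e_(k, i) - t⁻¹ e_(k + 1, i)`. -/
noncomputable def pxT (t : Γ) (n : ℕ) (ι : Type) :
    F Γ (Fin (n + 1) × ι) →ₗ[ZG Γ] F Γ (Fin (n + 1 + 1) × ι) := pxA Γ n ι - pxB t n ι

theorem pxT_apply (t : Γ) (n : ℕ) (y : F Γ (Fin (n + 1) × ι)) :
    pxT t n ι y = pxA Γ n ι y - pxB t n ι y := rfl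

theorem pxT_evm (t : Γ) (n : ℕ) (y : F Γ (Fin (n + 1) × ι)) :
    evm t (n + 1) ι (pxT t n ι y) = 0 := by
  rw [pxT_apply, map_sub, pxA_evm, pxB_evm, sub_self]

theorem pxT_pr (f : Γ →* Multiplicative ℤ) (t : Γ) (ht : f t = Multiplicative.ofAdd 1) (n : ℕ)
    (y : F Γ (Fin (n + 1) × ι)) (a : ℤ) :
    pr (pz f _) {pt f a} (pxT t n ι y) =
      pxA Γ n ι (pr (pz f _) {pt f a} y) - pxB t n ι (pr (pz f _) {pt f (a + 1)} y) := by
  rw [pxT_apply, map_sub, pxA_pr, pxB_pr f t ht]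

theorem pxT_inj (t : Γ) (n : ℕ) (y : F Γ (Fin (n + 1) × ι)) (h : pxT t n ι y = 0) : y = 0 := by
  rw [pxT_apply, sub_eq_zero] at h
  have key : ∀ (j : ℕ) (hj : j < n + 1) (i : ι), y (⟨j, hj⟩, i) = 0 := by
    intro j
    induction j with
    | zero =>
      intro hj i
      have h1 : pxA Γ n ι y ((⟨0, hj⟩ : Fin (n + 1)).castSucc, i) =
          pxB t n ι y ((⟨0, hj⟩ : Fin (n + 1)).castSucc, i) := by rw [h]
      rw [pxA_cast] at h1
      exact h1
    | succ j ih =>
      intro hj i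
      have h1 : pxA Γ n ι y ((⟨j + 1, hj⟩ : Fin (n + 1)).castSucc, i) =
          pxB t n ι y ((⟨j + 1, hj⟩ : Fin (n + 1)).castSucc, i) := by rw [h]
      rw [pxA_cast] at h1
      have h2 : (⟨j + 1, hj⟩ : Fin (n + 1)).castSucc =
          (⟨j, (Nat.lt_succ_self j).trans hj⟩ : Fin (n + 1)).succ := rfl
      rw [h2, pxB_succ, ih, zero_mul] at h1
      exact h1
  funext ki
  obtain ⟨⟨j, hj⟩, i⟩ := ki
  exact key j hj i

theorem pxT_mem (f : Γ →* Multiplicative ℤ) (t : Γ) (ht : f t = Multiplicative.ofAdd 1) (n : ℕ)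
    (M : Submodule (ZG Γ) (F Γ ι)) (y : F Γ (Fin (n + 1) × ι)) (hy : y ∈ SB f t n M) :
    pxT t n ι y ∈ SB f t (n + 1) M := by
  rw [mem_SB] at hy ⊢
  intro x
  rw [← pt_co x, pxT_pr f t ht, map_sub, pxA_evm, pxB_evm]
  exact M.sub_mem (hy _) (hy _)

/-- A vector with one position which is mapped into `M` is in `SB`. -/
theorem px_mem_SB (f : Γ →* Multiplicative ℤ) (t : Γ) (m : ℕ)
    (M : Submodule (ZG Γ) (F Γ ι)) (a : ℤ) (y : F Γ (Fin (m + 1) × ι))
    (hy : In (pz f _) {pt f a} y) (h : evm t m ι y ∈ M) : y ∈ SB f t m M := by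
  rw [mem_SB]
  intro x
  by_cases hx : x = pt f a
  · rw [hx, hy.eq]
    exact h
  · rw [hy.pr_eq_zero (Set.disjoint_singleton.2 hx), map_zero]
    exact M.zero_mem

theorem px_key (f : Γ →* Multiplicative ℤ) (t : Γ) (ht : f t = Multiplicative.ofAdd 1) (n : ℕ)
    (M : Submodule (ZG Γ) (F Γ ι)) (l : ℕ) : ∀ (a : ℤ) (y : F Γ (Fin (n + 1 + 1) × ι)),
    y ∈ SB f t (n + 1) M → evm t (n + 1) ι y = 0 → In (pz f _) (seg f a (a + l)) y →
    ∃ w ∈ SB f t n M, pxT t n ι w = y := by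
  induction l with
  | zero =>
    intro a y _ h0 hin
    refine ⟨0, Submodule.zero_mem _, ?_⟩
    rw [map_zero]
    symm
    refine px_inj f t ht (n + 1) a y (hin.mono fun x hx => ?_) h0
    rw [Set.mem_singleton_iff]
    have h1 : a ≤ co x := hx.1
    have h2 : co x ≤ a + ((0 : ℕ) : ℤ) := hx.2
    apply co_injective
    rw [co_pt]
    push_cast at h2
    omega
  | succ l ih =>
    intro a y hy h0 hin
    have hdec : pr (pz f _) {pt f a} y + pr (pz f _) {pt f a}ᶜ y = y := pr_add_compl _ _ _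
    have hrest : In (pz f _) (seg f (a + 1) (a + 1 + l)) (pr (pz f _) {pt f a}ᶜ y) := by
      refine hin.pr_inter.mono fun x hx => ?_
      have h1 : a ≤ co x := hx.2.1
      have h2 : co x ≤ a + ((l + 1 : ℕ) : ℤ) := hx.2.2
      have h3 : co x ≠ a := fun h => hx.1 (co_injective f h)
      refine ⟨?_, ?_⟩
      · omega
      · push_cast at h2
        omega
    -- the lowest part
    have hya : In (pz f _) {pt f a} (pr (pz f _) {pt f a} y) := in_pr _ _ _
    have hev : evm t (n + 1) ι (pr (pz f _) {pt f a} y) =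
        - evm t (n + 1) ι (pr (pz f _) {pt f a}ᶜ y) := by
      rw [eq_neg_iff_add_eq_zero, ← map_add, hdec, h0]
    have hin1 : In (pz f ι) (seg f a (a + ((n + 1 : ℕ) : ℤ)))
        (evm t (n + 1) ι (pr (pz f _) {pt f a} y)) := by
      refine px_in f t ht (n + 1) a a _ (hya.mono fun x hx => ?_)
      rw [Set.mem_singleton_iff.1 hx, pt_mem_seg]
      exact ⟨le_rfl, le_rfl⟩
    have hin2 : In (pz f ι) (seg f (a + 1) (a + 1 + l + ((n + 1 : ℕ) : ℤ)))
        (evm t (n + 1) ι (pr (pz f _) {pt f a} y)) := by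
      rw [hev]
      exact (px_in f t ht (n + 1) (a + 1) (a + 1 + l) _ hrest).neg
    have hin3 : In (pz f ι) (seg f (a + 1) (a + 1 + n))
        (evm t (n + 1) ι (pr (pz f _) {pt f a} y)) := by
      rw [px_in_iff] at hin1 hin2 ⊢
      intro i γ hne
      have h1 := hin1 i γ hne
      have h2 := hin2 i γ hne
      rw [pt_mem_seg] at h1 h2 ⊢
      refine ⟨h2.1, ?_⟩
      have h3 := h1.2
      push_cast at h3
      linarith
    obtain ⟨z, hz1, hz2⟩ := px_surj f t ht n (a + 1) _ hin3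
    have hzM : z ∈ SB f t n M := by
      refine px_mem_SB f t n M (a + 1) z hz1 ?_
      rw [hz2]
      exact mem_SB.1 hy _
    have hB : pxB t n ι z = pr (pz f _) {pt f a} y := by
      refine px_uniq f t ht (n + 1) a _ _ ?_ hya ?_
      · unfold In
        rw [pxB_pr f t ht, hz1.eq]
      · rw [pxB_evm, hz2]
    have hA : In (pz f _) {pt f (a + 1)} (pxA Γ n ι z) := by
      unfold In
      rw [pxA_pr, hz1.eq]
    have hsum : y + pxT t n ι z = pr (pz f _) {pt f a}ᶜ y + pxA Γ n ι z := by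
      rw [pxT_apply, hB]
      nth_rewrite 1 [← hdec]
      abel
    obtain ⟨w, hw, hw2⟩ := ih (a + 1) (y + pxT t n ι z)
      (Submodule.add_mem _ hy (pxT_mem f t ht n M z hzM))
      (by rw [map_add, h0, pxT_evm, add_zero])
      (by
        rw [hsum]
        refine hrest.add (hA.mono fun x hx => ?_)
        rw [Set.mem_singleton_iff.1 hx, pt_mem_seg]
        constructor
        · exact le_rfl
        · omega)
    refine ⟨w - z, Submodule.sub_mem _ hw hzM, ?_⟩
    rw [map_sub, hw2, add_sub_cancel_right]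

end PExact

/-- Module PExact. -/
theorem stPExact : StPExact.{u} := by
  intro Γ _ f t ht ι _ n M
  have hmem : ∀ y : SB f t (n + 1) M,
      evm t (n + 1) ι (y : F Γ (Fin (n + 1 + 1) × ι)) ∈ M := by
    intro y
    obtain ⟨s, _, hs⟩ := exists_sum_pr (pz f (Fin (n + 1 + 1) × ι))
      (y : F Γ (Fin (n + 1 + 1) × ι))
    rw [hs, map_sum]
    exact Submodule.sum_mem _ fun x _ => mem_SB.1 y.2 x
  let θ : SB f t n M →ₗ[ZG Γ] SB f t (n + 1) M :=
    ((pxT t n ι).domRestrict (SB f t n M)).codRestrict (SB f t (n + 1) M)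
      fun y => pxT_mem f t ht n M _ y.2
  let e : SB f t (n + 1) M →ₗ[ZG Γ] M :=
    ((evm t (n + 1) ι).domRestrict (SB f t (n + 1) M)).codRestrict M hmem
  have hθ : ∀ y : SB f t n M, ((θ y : SB f t (n + 1) M) : F Γ (Fin (n + 1 + 1) × ι)) =
      pxT t n ι (y : F Γ (Fin (n + 1) × ι)) := fun _ => rfl
  have he : ∀ y : SB f t (n + 1) M, ((e y : M) : F Γ ι) =
      evm t (n + 1) ι (y : F Γ (Fin (n + 1 + 1) × ι)) := fun _ => rfl
  refine ⟨θ, e, ?_, ?_, ?_⟩
  · rw [injective_iff_map_eq_zero]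
    intro y hy
    apply Subtype.ext
    apply pxT_inj t n
    rw [← hθ, hy]
    rfl
  · apply le_antisymm
    · rintro _ ⟨y, rfl⟩
      rw [LinearMap.mem_ker]
      apply Subtype.ext
      rw [he, hθ, pxT_evm]
      rfl
    · intro y hy
      rw [LinearMap.mem_ker] at hy
      have h0 : evm t (n + 1) ι (y : F Γ (Fin (n + 1 + 1) × ι)) = 0 := by
        rw [← he, hy]
        rfl
      obtain ⟨s, hs⟩ := exists_finset (pz f (Fin (n + 1 + 1) × ι))
        (y : F Γ (Fin (n + 1 + 1) × ι))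
      have hB : ∃ B : ℕ, ∀ x ∈ s, (co x).natAbs ≤ B :=
        ⟨s.sup fun x => (co x).natAbs, fun x hx => Finset.le_sup (f := fun x => (co x).natAbs) hx⟩
      obtain ⟨B, hB⟩ := hB
      have hin : In (pz f _) (seg f (-(B : ℤ)) (-(B : ℤ) + ((2 * B : ℕ) : ℤ)))
          (y : F Γ (Fin (n + 1 + 1) × ι)) := by
        refine hs.mono fun x hx => ?_
        have h1 := hB x (Finset.mem_coe.1 hx)
        constructor
        · omega
        · push_cast
          omega
      obtain ⟨w, hw, hw2⟩ := px_key f t ht n M (2 * B) (-(B : ℤ)) _ y.2 h0 hin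
      exact ⟨⟨w, hw⟩, Subtype.ext (by rw [hθ]; exact hw2)⟩
  · intro y hy
    have hy' : In (pz f ι) (seg f 0 (0 + ((n + 1 : ℕ) : ℤ))) (y : F Γ ι) := by
      refine hy.mono fun x hx => ?_
      refine ⟨hx.1, ?_⟩
      have h1 : co x ≤ (n : ℤ) + 1 := hx.2
      push_cast
      linarith
    obtain ⟨z, hz1, hz2⟩ := px_surj f t ht (n + 1) 0 _ hy'
    have hzM : z ∈ SB f t (n + 1) M := px_mem_SB f t (n + 1) M 0 z hz1 (by rw [hz2]; exact y.2)
    exact ⟨⟨z, hzM⟩, Subtype.ext (by rw [he]; exact hz2)⟩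

end Pool.Agent.Lib.MP_551055_al.LS
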