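import Pool.Agent.Lib.MP_551055_al.LS.PStmts2
import Pool.Agent.Lib.MP_551055_al.LS.PExt

/-!
# Module PFree: finite free resolutions
-/

set_option autoImplicit false

namespace Pool.Agent.Lib.MP_551055_al.LS

open Pool.Agent.Lib.MP_551055_al

universe u

variable {R : Type u} [Ring R]

theorem FFF.congr {d : ℕ} {M N : Type u} [AddCommGroup M] [Module R M] [AddCommGroup N]
    [Module R N] (e : M ≃ₗ[R] N) (h : FFF R d M) : FFF R d N := by
  cases d with
  | zero =>
    obtain ⟨n, ⟨e'⟩⟩ := h
    exact ⟨n, ⟨e.symm.trans e'⟩⟩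
  | succ d =>
    obtain ⟨n, f, hf, hk⟩ := h
    refine ⟨n, e.toLinearMap ∘ₗ f, e.surjective.comp hf, ?_⟩
    rw [LinearMap.ker_comp_of_ker_eq_bot f (LinearEquiv.ker e)]
    exact hk

theorem FFF.zero_of_subsingleton {M : Type u} [AddCommGroup M] [Module R M] [Subsingleton M] :
    FFF R 0 M := ⟨0, ⟨0⟩⟩

/-- A free module of finite rank with a finite index type. -/
theorem FFF.of_fun {M : Type u} [AddCommGroup M] [Module R M] {ι : Type} [Finite ι]
    (e : M ≃ₗ[R] (ι → R)) : FFF R 0 M := by
  have := Fintype.ofFinite ι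
  exact ⟨Fintype.card ι, ⟨e.trans (LinearEquiv.funCongrLeft R R (Fintype.equivFin ι).symm)⟩⟩

theorem FFF.succ {d : ℕ} : ∀ {M : Type u} [AddCommGroup M] [Module R M], FFF R d M →
    FFF R (d + 1) M := by
  induction d with
  | zero =>
    intro M _ _ h
    obtain ⟨n, ⟨e⟩⟩ := h
    refine ⟨n, e.symm.toLinearMap, e.symm.surjective, ?_⟩
    have h0 : LinearMap.ker e.symm.toLinearMap = ⊥ := LinearEquiv.ker e.symm
    have h1 : Subsingleton (LinearMap.ker e.symm.toLinearMap) := by
      rw [h0]
      infer_instance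
    exact FFF.zero_of_subsingleton
  | succ d ih =>
    intro M _ _ h
    obtain ⟨n, f, hf, hk⟩ := h
    exact ⟨n, f, hf, ih hk⟩

theorem FFF.mono {d d' : ℕ} (hd : d ≤ d') {M : Type u} [AddCommGroup M] [Module R M]
    (h : FFF R d M) : FFF R d' M := by
  induction hd with
  | refl => exact h
  | step _ ih => exact ih.succ

/-- The zero module. -/
theorem FFF.of_subsingleton (d : ℕ) {M : Type u} [AddCommGroup M] [Module R M]
    [Subsingleton M] : FFF R d M :=
  FFF.zero_of_subsingleton.mono (Nat.zero_le d)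

/-- The free module of finite rank may be replaced by one with a finite index type. -/
theorem FFF.of_surj {d : ℕ} {M : Type u} [AddCommGroup M] [Module R M] {ι : Type} [Finite ι]
    (f : (ι → R) →ₗ[R] M) (hf : Function.Surjective f) (h : FFF R d (LinearMap.ker f)) :
    FFF R (d + 1) M := by
  have := Fintype.ofFinite ι
  let e : (Fin (Fintype.card ι) → R) ≃ₗ[R] (ι → R) :=
    LinearEquiv.funCongrLeft R R (Fintype.equivFin ι)
  refine ⟨Fintype.card ι, f ∘ₗ e.toLinearMap, hf.comp e.surjective, ?_⟩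
  have hk : LinearMap.ker (f ∘ₗ e.toLinearMap) = (LinearMap.ker f).comap e.toLinearMap :=
    LinearMap.ker_comp _ _
  let e' : LinearMap.ker (f ∘ₗ e.toLinearMap) ≃ₗ[R] LinearMap.ker f :=
    e.ofSubmodules _ _ (by
      rw [hk]
      exact Submodule.map_comap_eq_of_surjective e.surjective _)
  exact h.congr e'.symm

theorem FFF.toFFR {d : ℕ} : ∀ {M : Type u} [AddCommGroup M] [Module R M], FFF R d M →
    FFR R d M := by
  induction d with
  | zero =>
    intro M _ _ h
    obtain ⟨n, ⟨e⟩⟩ := h
    exact ⟨Module.Finite.equiv e.symm, Module.Projective.of_equiv e.symm⟩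
  | succ d ih =>
    intro M _ _ h
    obtain ⟨n, f, hf, hk⟩ := h
    exact ⟨n, f, hf, ih hk⟩

section

variable {A B C : Type u} [AddCommGroup A] [AddCommGroup B] [AddCommGroup C] [Module R A]
  [Module R B] [Module R C]

/-- A short exact sequence with projective end splits. -/
theorem exists_split_equiv [Module.Projective R C] (i : A →ₗ[R] B) (q : B →ₗ[R] C)
    (hi : Function.Injective i) (hq : Function.Surjective q)
    (hr : LinearMap.range i = LinearMap.ker q) : Nonempty ((A × C) ≃ₗ[R] B) := by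
  obtain ⟨s, hs⟩ := Module.projective_lifting_property q LinearMap.id hq
  have hs' : ∀ c, q (s c) = c := fun c => DFunLike.congr_fun hs c
  have hqi : ∀ a, q (i a) = 0 := fun a => by
    rw [← LinearMap.mem_ker, ← hr]
    exact ⟨a, rfl⟩
  let h : (A × C) →ₗ[R] B := LinearMap.coprod i s
  have hbij : Function.Bijective h := by
    constructor
    · rw [← LinearMap.ker_eq_bot, eq_bot_iff]
      rintro ⟨a, c⟩ hac
      have h1 : i a + s c = 0 := by
        rw [LinearMap.mem_ker] at hac
        exact hac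
      have h2 : c = 0 := by
        have h3 := congrArg q h1
        rwa [map_add, hqi, hs', zero_add, map_zero] at h3
      have h4 : a = 0 := by
        rw [h2, map_zero, add_zero] at h1
        exact hi (by rw [h1, map_zero])
      rw [Submodule.mem_bot, h2, h4]
      rfl
    · intro b
      have h1 : b - s (q b) ∈ LinearMap.range i := by
        rw [hr, LinearMap.mem_ker, map_sub, hs', sub_self]
      obtain ⟨a, ha⟩ := h1
      refine ⟨(a, q b), ?_⟩
      change i a + s (q b) = b
      rw [ha, sub_add_cancel]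
  exact ⟨LinearEquiv.ofBijective h hbij⟩

open PExt in
/-- The horseshoe lemma, one step. -/
theorem exists_horseshoe (i : A →ₗ[R] B) (q : B →ₗ[R] C)
    (hi : Function.Injective i) (hq : Function.Surjective q)
    (hr : LinearMap.range i = LinearMap.ker q) {a c : ℕ} (fA : (Fin a → R) →ₗ[R] A)
    (hfA : Function.Surjective fA) (fC : (Fin c → R) →ₗ[R] C) (hfC : Function.Surjective fC) :
    ∃ (h : (Fin a ⊕ Fin c → R) →ₗ[R] B) (i' : LinearMap.ker fA →ₗ[R] LinearMap.ker h)
      (q' : LinearMap.ker h →ₗ[R] LinearMap.ker fC), Function.Surjective h ∧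
      Function.Injective i' ∧ Function.Surjective q' ∧ LinearMap.range i' = LinearMap.ker q' := by
  obtain ⟨g, hg⟩ := Module.projective_lifting_property q fC hq
  have hg' : ∀ y, q (g y) = fC y := fun y => DFunLike.congr_fun hg y
  have hqi : ∀ a, q (i a) = 0 := fun a => by
    rw [← LinearMap.mem_ker, ← hr]
    exact ⟨a, rfl⟩
  let h : (Fin a ⊕ Fin c → R) →ₗ[R] B := sumMap (i ∘ₗ fA) g
  have hh : ∀ z, h z = i (fA (z ∘ Sum.inl)) + g (z ∘ Sum.inr) := fun z => rfl
  have hsurj : Function.Surjective h := by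
    intro b
    obtain ⟨y, hy⟩ := hfC (q b)
    have h1 : b - g y ∈ LinearMap.range i := by
      rw [hr, LinearMap.mem_ker, map_sub, hg', hy, sub_self]
    obtain ⟨a', ha'⟩ := h1
    obtain ⟨x, rfl⟩ := hfA a'
    refine ⟨Sum.elim x y, ?_⟩
    rw [hh, Sum.elim_comp_inl, Sum.elim_comp_inr, ha', sub_add_cancel]
  let i' : LinearMap.ker fA →ₗ[R] LinearMap.ker h :=
    LinearMap.codRestrict (LinearMap.ker h) (inlL (Fin a) (Fin c) ∘ₗ (LinearMap.ker fA).subtype)
      fun x => by
        rw [LinearMap.mem_ker, hh]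
        change i (fA (x : Fin a → R)) + g 0 = 0
        rw [LinearMap.mem_ker.1 x.2, map_zero, map_zero, add_zero]
  let q' : LinearMap.ker h →ₗ[R] LinearMap.ker fC :=
    LinearMap.codRestrict (LinearMap.ker fC)
      (LinearMap.funLeft R R (Sum.inr : Fin c → Fin a ⊕ Fin c) ∘ₗ (LinearMap.ker h).subtype)
      fun z => by
        rw [LinearMap.mem_ker]
        change fC ((z : Fin a ⊕ Fin c → R) ∘ Sum.inr) = 0
        have h1 := LinearMap.mem_ker.1 z.2
        rw [hh] at h1
        have h2 := congrArg q h1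
        rwa [map_add, hqi, zero_add, hg', map_zero] at h2
  have hi' : Function.Injective i' := by
    intro x y hxy
    apply Subtype.ext
    have h1 : inlL (Fin a) (Fin c) (x : Fin a → R) = inlL (Fin a) (Fin c) (y : Fin a → R) :=
      congrArg Subtype.val hxy
    exact congrArg (fun z => z ∘ Sum.inl) h1
  have hq' : Function.Surjective q' := by
    intro y
    have h1 : g (y : Fin c → R) ∈ LinearMap.range i := by
      rw [hr, LinearMap.mem_ker, hg']
      exact LinearMap.mem_ker.1 y.2
    obtain ⟨a', ha'⟩ := h1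
    obtain ⟨x, rfl⟩ := hfA a'
    have h2 : (Sum.elim (-x) (y : Fin c → R) : Fin a ⊕ Fin c → R) ∈ LinearMap.ker h := by
      rw [LinearMap.mem_ker, hh, Sum.elim_comp_inl, Sum.elim_comp_inr, map_neg, map_neg, ha',
        neg_add_cancel]
    exact ⟨⟨_, h2⟩, Subtype.ext rfl⟩
  have hr' : LinearMap.range i' = LinearMap.ker q' := by
    ext z
    constructor
    · rintro ⟨x, rfl⟩
      rw [LinearMap.mem_ker]
      exact Subtype.ext rfl
    · intro hz
      have h1 : (z : Fin a ⊕ Fin c → R) ∘ Sum.inr = 0 :=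
        congrArg Subtype.val (LinearMap.mem_ker.1 hz)
      have h2 := LinearMap.mem_ker.1 z.2
      rw [hh, h1, map_zero, add_zero] at h2
      have h3 : (z : Fin a ⊕ Fin c → R) ∘ Sum.inl ∈ LinearMap.ker fA := by
        rw [LinearMap.mem_ker]
        exact hi (by rw [h2, map_zero])
      refine ⟨⟨_, h3⟩, Subtype.ext ?_⟩
      funext j
      rcases j with j | j
      · rfl
      · exact (congrFun h1 j).symm
  exact ⟨h, i', q', hsurj, hi', hq', hr'⟩

/-- The kernel of a composition of two surjections. -/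
theorem exists_ker_comp {E : Type u} [AddCommGroup E] [Module R E] (i : A →ₗ[R] B)
    (q : B →ₗ[R] C) (hi : Function.Injective i) (hr : LinearMap.range i = LinearMap.ker q)
    (p : E →ₗ[R] B) (hp : Function.Surjective p) :
    ∃ (i' : LinearMap.ker p →ₗ[R] LinearMap.ker (q ∘ₗ p))
      (q' : LinearMap.ker (q ∘ₗ p) →ₗ[R] A), Function.Injective i' ∧ Function.Surjective q' ∧
      LinearMap.range i' = LinearMap.ker q' := by
  let e : A ≃ₗ[R] LinearMap.range i := LinearEquiv.ofInjective i hi
  have he : ∀ a, (e a : B) = i a := fun a => LinearEquiv.ofInjective_apply i a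
  have hmem : ∀ x : LinearMap.ker (q ∘ₗ p), p (x : E) ∈ LinearMap.range i := fun x => by
    rw [hr, LinearMap.mem_ker]
    exact LinearMap.mem_ker.1 x.2
  let q₀ : LinearMap.ker (q ∘ₗ p) →ₗ[R] LinearMap.range i :=
    LinearMap.codRestrict (LinearMap.range i) (p ∘ₗ (LinearMap.ker (q ∘ₗ p)).subtype) hmem
  have hq₀ : ∀ x, (q₀ x : B) = p (x : E) := fun x => rfl
  let i' : LinearMap.ker p →ₗ[R] LinearMap.ker (q ∘ₗ p) :=
    LinearMap.codRestrict (LinearMap.ker (q ∘ₗ p)) (LinearMap.ker p).subtype fun x => by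
      rw [LinearMap.mem_ker, LinearMap.comp_apply]
      change q (p (x : E)) = 0
      rw [LinearMap.mem_ker.1 x.2, map_zero]
  have hi'v : ∀ x, ((i' x : LinearMap.ker (q ∘ₗ p)) : E) = (x : E) := fun x => rfl
  refine ⟨i', e.symm.toLinearMap ∘ₗ q₀, ?_, ?_, ?_⟩
  · intro x y hxy
    apply Subtype.ext
    have h1 := congrArg Subtype.val hxy
    rwa [hi'v, hi'v] at h1
  · intro a
    obtain ⟨x, hx⟩ := hp (i a)
    have hx2 : x ∈ LinearMap.ker (q ∘ₗ p) := by
      rw [LinearMap.mem_ker, LinearMap.comp_apply, hx, ← LinearMap.mem_ker, ← hr]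
      exact ⟨a, rfl⟩
    refine ⟨⟨x, hx2⟩, ?_⟩
    change e.symm (q₀ ⟨x, hx2⟩) = a
    rw [LinearEquiv.symm_apply_eq]
    apply Subtype.ext
    rw [he, hq₀, hx]
  · ext x
    rw [LinearMap.mem_ker]
    change x ∈ LinearMap.range i' ↔ e.symm (q₀ x) = 0
    rw [LinearEquiv.symm_apply_eq, map_zero]
    constructor
    · rintro ⟨y, rfl⟩
      apply Subtype.ext
      rw [hq₀, hi'v]
      exact LinearMap.mem_ker.1 y.2
    · intro h
      have h1 : p (x : E) = 0 := by
        rw [← hq₀, h]
        rfl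
      exact ⟨⟨(x : E), LinearMap.mem_ker.2 h1⟩, Subtype.ext rfl⟩

end

/-- Extensions of modules with finite free resolutions. -/
theorem fff_ext (d : ℕ) : ∀ {A B C : Type u} [AddCommGroup A] [AddCommGroup B] [AddCommGroup C]
    [Module R A] [Module R B] [Module R C] (i : A →ₗ[R] B) (q : B →ₗ[R] C),
    Function.Injective i → Function.Surjective q → LinearMap.range i = LinearMap.ker q →
    FFF R d A → FFF R d C → FFF R d B := by
  induction d with
  | zero =>
    intro A B C _ _ _ _ _ _ i q hi hq hr hA hC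
    obtain ⟨a, ⟨eA⟩⟩ := hA
    obtain ⟨c, ⟨eC⟩⟩ := hC
    have : Module.Projective R C := Module.Projective.of_equiv eC.symm
    obtain ⟨e⟩ := exists_split_equiv i q hi hq hr
    exact FFF.of_fun (ι := Fin a ⊕ Fin c) (e.symm.trans ((LinearEquiv.prodCongr eA eC).trans
      (LinearEquiv.sumArrowLequivProdArrow (Fin a) (Fin c) R R).symm))
  | succ d ih =>
    intro A B C _ _ _ _ _ _ i q hi hq hr hA hC
    obtain ⟨a, fA, hfA, hkA⟩ := hA
    obtain ⟨c, fC, hfC, hkC⟩ := hC
    obtain ⟨h, i', q', hh, hi', hq', hr'⟩ := exists_horseshoe i q hi hq hr fA hfA fC hfC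
    exact FFF.of_surj h hh (ih i' q' hi' hq' hr' hkA hkC)

/-- Module PFree, part 1. -/
theorem stPFreeSes : StPFreeSes.{u} := by
  intro R _ d
  cases d with
  | zero =>
    intro A B C _ _ _ _ _ _ i q hi hq hr hA hB
    obtain ⟨n, ⟨e⟩⟩ := hB
    refine ⟨n, q ∘ₗ e.symm.toLinearMap, hq.comp e.symm.surjective, ?_⟩
    have hk : LinearMap.ker (q ∘ₗ e.symm.toLinearMap) =
        (LinearMap.ker q).comap e.symm.toLinearMap := LinearMap.ker_comp _ _
    let e' : LinearMap.ker (q ∘ₗ e.symm.toLinearMap) ≃ₗ[R] LinearMap.ker q :=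
      e.symm.ofSubmodules _ _ (by
        rw [hk]
        exact Submodule.map_comap_eq_of_surjective e.symm.surjective _)
    let e2 : A ≃ₗ[R] LinearMap.ker q :=
      (LinearEquiv.ofInjective i hi).trans (LinearEquiv.ofEq _ _ hr)
    exact hA.congr (e2.trans e'.symm)
  | succ d =>
    intro A B C _ _ _ _ _ _ i q hi hq hr hA hB
    obtain ⟨n, p, hp, hk⟩ := hB
    obtain ⟨i', q', hi', hq', hr'⟩ := exists_ker_comp i q hi hr p hp
    exact ⟨n, q ∘ₗ p, hq.comp hp, fff_ext (d + 1) i' q' hi' hq' hr' hk.succ hA⟩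

theorem stFree_of_fff (d : ℕ) : ∀ (M : Type u) [AddCommGroup M] [Module R M],
    Module.Projective R M → FFF R d M → StFree R M := by
  induction d with
  | zero =>
    intro M _ _ _ h
    obtain ⟨n, ⟨e⟩⟩ := h
    exact StFree.of_equiv_fin e
  | succ d ih =>
    intro M _ _ hM h
    obtain ⟨n, f, hf, hk⟩ := h
    obtain ⟨e⟩ := exists_split_equiv (LinearMap.ker f).subtype f
      (LinearMap.ker f).injective_subtype hf (Submodule.range_subtype _)
    have hP : Module.Projective R (LinearMap.ker f) := by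
      refine Module.Projective.of_split (e.toLinearMap ∘ₗ LinearMap.inl R (LinearMap.ker f) M)
        (LinearMap.fst R (LinearMap.ker f) M ∘ₗ e.symm.toLinearMap) ?_
      ext1 x
      change (e.symm (e (x, 0))).1 = x
      rw [LinearEquiv.symm_apply_apply]
    obtain ⟨a, b, ⟨g⟩⟩ := ih (LinearMap.ker f) hP hk
    let e1 : (M × (LinearMap.ker f × (Fin a → R))) ≃ₗ[R] (LinearMap.ker f × M) × (Fin a → R) :=
      { toFun := fun z => ((z.2.1, z.1), z.2.2)
        invFun := fun z => (z.1.2, (z.1.1, z.2))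
        left_inv := fun z => rfl
        right_inv := fun z => rfl
        map_add' := fun z z' => rfl
        map_smul' := fun r z => rfl }
    refine ⟨b, n + a, ⟨?_⟩⟩
    exact (LinearEquiv.prodCongr (LinearEquiv.refl R M) g.symm).trans (e1.trans
      ((LinearEquiv.prodCongr e (LinearEquiv.refl R (Fin a → R))).trans
        ((LinearEquiv.sumArrowLequivProdArrow (Fin n) (Fin a) R R).symm.trans
          (LinearEquiv.funCongrLeft R R finSumFinEquiv.symm))))

theorem fff_one_of_stFree {M : Type u} [AddCommGroup M] [Module R M] (h : StFree R M) :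
    FFF R 1 M := by
  obtain ⟨n, m, ⟨e⟩⟩ := h
  refine ⟨m, LinearMap.fst R M (Fin n → R) ∘ₗ e.symm.toLinearMap, ?_, ?_⟩
  · intro x
    refine ⟨e (x, 0), ?_⟩
    change (e.symm (e (x, 0))).1 = x
    rw [LinearEquiv.symm_apply_apply]
  · set p : (Fin m → R) →ₗ[R] M := LinearMap.fst R M (Fin n → R) ∘ₗ e.symm.toLinearMap with hp
    have hpv : ∀ y, p y = (e.symm y).1 := fun y => rfl
    have h1 : ∀ x : Fin n → R, e (0, x) ∈ LinearMap.ker p := fun x => by
      rw [LinearMap.mem_ker, hpv, LinearEquiv.symm_apply_apply]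
    let g : (Fin n → R) →ₗ[R] LinearMap.ker p :=
      LinearMap.codRestrict (LinearMap.ker p)
        (e.toLinearMap ∘ₗ LinearMap.inr R M (Fin n → R)) h1
    have hg : ∀ x, ((g x : LinearMap.ker p) : Fin m → R) = e (0, x) := fun x => rfl
    have hbij : Function.Bijective g := by
      constructor
      · intro x y hxy
        have h2 := congrArg Subtype.val hxy
        rw [hg, hg] at h2
        exact congrArg Prod.snd (e.injective h2)
      · intro y
        refine ⟨(e.symm (y : Fin m → R)).2, Subtype.ext ?_⟩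
        rw [hg]
        have h3 : (e.symm (y : Fin m → R)).1 = 0 := by
          rw [← hpv]
          exact LinearMap.mem_ker.1 y.2
        rw [← LinearEquiv.eq_symm_apply]
        exact Prod.ext h3.symm rfl
    exact ⟨n, ⟨(LinearEquiv.ofBijective g hbij).symm⟩⟩

/-- Module PFree, part 2. -/
theorem stPFreeProj : StPFreeProj.{u} := fun _ _ M _ _ =>
  ⟨fun d hM h => stFree_of_fff d M hM h, fun h => fff_one_of_stFree h⟩

end Pool.Agent.Lib.MP_551055_al.LS
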