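import Pool.Agent.Lib.MP_551055_al.LS.PStmts

/-!
# Poly-`ℤ` groups: projective modules are stably free (statements)
-/

set_option autoImplicit false

namespace Pool.Agent.Lib.MP_551055_al.LS

open Pool.Agent.Lib.MP_551055_al
open Pool.Agent.Lib.MP_551055_al.Red (Vec)

universe u

/-- `M` has a resolution of length `d` by free modules of finite rank. -/
def FFF (R : Type u) [Ring R] : ℕ → ∀ (M : Type u) [AddCommGroup M] [Module R M], Prop
  | 0, M, _, _ => ∃ n : ℕ, Nonempty (M ≃ₗ[R] (Fin n → R))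
  | d + 1, M, _, _ =>
      ∃ (n : ℕ) (f : (Fin n → R) →ₗ[R] M), Function.Surjective f ∧ FFF R d (LinearMap.ker f)

/-- Module PFree, part 1. -/
def StPFreeSes : Prop :=
  ∀ (R : Type u) [Ring R] (d : ℕ) (A B C : Type u) [AddCommGroup A] [AddCommGroup B]
    [AddCommGroup C] [Module R A] [Module R B] [Module R C] (i : A →ₗ[R] B) (q : B →ₗ[R] C),
    Function.Injective i → Function.Surjective q → LinearMap.range i = LinearMap.ker q →
    FFF R d A → FFF R d B → FFF R (d + 1) C

/-- Module PFree, part 2. -/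
def StPFreeProj : Prop :=
  ∀ (R : Type u) [Ring R] (M : Type u) [AddCommGroup M] [Module R M],
    (∀ d, Module.Projective R M → FFF R d M → StFree R M) ∧ (StFree R M → FFF R 1 M)

/-- Module PIndF. -/
def StPIndF : Prop :=
  ∀ (Γ : Type u) [Group Γ] (f : Γ →* Multiplicative ℤ), Function.Surjective f →
    VN.ProjStFree (St f) → ∀ (κ : Type) [Finite κ] (B : Submodule (ZG Γ) (F Γ κ)),
    (∀ P, ∀ y ∈ B, pr (pz f κ) P y ∈ B) → ∀ d,
    FFR (MonoidAlgebra ℤ (St f)) d (homIn B (pz f κ) (pt f 0)) → FFF (ZG Γ) (d + 1) B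

/-- Module PK0 (Grothendieck). -/
def StPK0 : Prop :=
  ∀ (Γ : Type u) [Group Γ] (f : Γ →* Multiplicative ℤ), Function.Surjective f →
    RegNoeth (MonoidAlgebra ℤ (St f)) → VN.ProjStFree (St f) → VN.ProjStFree Γ

/-- Module PPoly. -/
def StPPoly : Prop :=
  ∀ (G : Type) [Group G], PolyZ G → ∀ n : ℕ, VN.ProjStFree (G × ZN n)

end Pool.Agent.Lib.MP_551055_al.LS
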