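import Pool.Agent.Lib.MP_551055_al.LS.PStmts2
import Pool.Agent.Lib.MP_551055_al.LS.PReg
import Pool.Agent.Lib.MP_551055_al.LS.PGr

/-!
# Module PK0: projective modules over extensions by `ℤ` are stably free (Grothendieck)
-/

set_option autoImplicit false

namespace Pool.Agent.Lib.MP_551055_al.LS

open Pool.Agent.Lib.MP_551055_al
open Pool.Agent.Lib.MP_551055_al.Red (Vec)

universe u

/-- The submodules `SB` are graded. -/
theorem pr_mem_SB {Γ : Type u} [Group Γ] {f : Γ →* Multiplicative ℤ} {t : Γ} {m : ℕ} {ι : Type}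
    {M : Submodule (ZG Γ) (F Γ ι)} (P : Set (Ln f)) {y : F Γ (Fin (m + 1) × ι)}
    (hy : y ∈ SB f t m M) : pr (pz f _) P y ∈ SB f t m M := by
  rw [mem_SB]
  intro x
  rw [pr_pr]
  by_cases hx : x ∈ P
  · rw [Set.inter_eq_left.2 (Set.singleton_subset_iff.2 hx)]
    exact hy x
  · rw [Set.singleton_inter_eq_empty.2 hx, pr_empty, map_zero]
    exact M.zero_mem

/-- The vectors of `SB` at the position `0` are the window. -/
noncomputable def homInSBEquiv {Γ : Type u} [Group Γ] (f : Γ →* Multiplicative ℤ) (t : Γ)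
    (ht : f t = Multiplicative.ofAdd 1) {ι : Type} (m : ℕ) (M : Submodule (ZG Γ) (F Γ ι)) :
    homIn (SB f t m M) (pz f _) (pt f 0) ≃ₗ[MonoidAlgebra ℤ (St f)] winSub f M 0 m :=
  LinearEquiv.ofBijective (PGr.win f t ht m M) (PGr.win_bijective f t ht m M)

theorem stPK0 (h1 : StPWin.{u}) (h2 : StPNoeth.{u}) (h3 : StPFreeSes.{u}) (h4 : StPFreeProj.{u})
    (h5 : StPIndF.{u}) (h6 : StPExact.{u}) : StPK0.{u} := by
  intro Γ _ f hf hR hP
  obtain ⟨hN, hres⟩ := hR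
  obtain ⟨_, hgen⟩ := h2 Γ f hf hN
  obtain ⟨t, ht⟩ := hf (Multiplicative.ofAdd 1)
  intro X _ _ hX hXP
  obtain ⟨r, p, hp⟩ := Module.Finite.exists_fin' (ZG Γ) X
  let M : Submodule (ZG Γ) (F Γ (Fin r)) := LinearMap.ker p
  obtain ⟨k, hk⟩ := hgen (Fin r) M
  obtain ⟨θ, e, hθ, hex, hr⟩ := h6 Γ f t ht (Fin r) k M
  have he : Function.Surjective e := by
    intro y
    have hle : Submodule.span (ZG Γ) {z : F Γ (Fin r) | z ∈ M ∧ In (pz f (Fin r)) (seg f 0 k) z}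
        ≤ (LinearMap.range e).map M.subtype := by
      refine Submodule.span_le.2 ?_
      rintro z ⟨hzM, hz⟩
      refine ⟨⟨z, hzM⟩, hr ⟨z, hzM⟩ (hz.mono fun x hx => ?_), rfl⟩
      obtain ⟨hx1, hx2⟩ := hx
      exact ⟨hx1, by omega⟩
    obtain ⟨y', hy', hyy⟩ := hle (hk y y.2)
    have h6 : y' = y := Subtype.ext hyy
    rw [← h6]
    exact hy'
  obtain ⟨d0, hd0⟩ := hres (winSub f M 0 (k : ℤ)) (winSub_finite h1 f hf hN M 0 k)
  obtain ⟨d1, hd1⟩ := hres (winSub f M 0 ((k + 1 : ℕ) : ℤ))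
    (winSub_finite h1 f hf hN M 0 ((k + 1 : ℕ) : ℤ))
  have g0 : FFF (ZG Γ) (max d0 d1 + 1) (SB f t k M) :=
    h5 Γ f hf hP _ (SB f t k M) (fun P y hy => pr_mem_SB P hy) (max d0 d1)
      ((hd0.mono (le_max_left _ _)).congr (homInSBEquiv f t ht k M).symm)
  have g1 : FFF (ZG Γ) (max d0 d1 + 1) (SB f t (k + 1) M) :=
    h5 Γ f hf hP _ (SB f t (k + 1) M) (fun P y hy => pr_mem_SB P hy) (max d0 d1)
      ((hd1.mono (le_max_right _ _)).congr (homInSBEquiv f t ht (k + 1) M).symm)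
  have g : FFF (ZG Γ) (max d0 d1 + 1 + 1) M :=
    h3 (ZG Γ) (max d0 d1 + 1) _ _ _ θ e hθ he hex g0 g1
  exact (h4 (ZG Γ) X).1 (max d0 d1 + 1 + 1 + 1) hXP ⟨r, p, hp, g⟩

end Pool.Agent.Lib.MP_551055_al.LS
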