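import Pool.Agent.Lib.MP_551055_al.LS.Final
import Pool.Agent.Lib.MP_551055_al.LS.Stmts2
import Pool.Agent.Lib.MP_551055_al.LS.TreeB

/-!
# Module Ray: nilpotent maps along edges are good if all rays are good
-/

set_option autoImplicit false

namespace Pool.Agent.Lib.MP_551055_al.LS

open Pool.Agent.Lib.MP_551055_al

universe u v

/-- Regular coherence passes to smaller subgroups of a group. -/
theorem regCoh_of_le (hR : StRegSub.{u}) {Γ : Type u} [Group Γ] {H H' : Subgroup Γ} (h : H' ≤ H)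
    (hH : RegCoh (MonoidAlgebra ℤ H)) : RegCoh (MonoidAlgebra ℤ H') :=
  RegCoh.congr (MonoidAlgebra.mapDomainRingEquiv ℤ (Subgroup.subgroupOfEquivOfLe h))
    (hR H (H'.subgroupOf H) hH)

/-- An element which fixes `u'` and `v` fixes the neighbour `w` of `u'` on the geodesic to `v`. -/
theorem stab_le_of_adj {Γ : Type u} [Group Γ] {V : Type v} [MulAction Γ V] {T : SimpleGraph V}
    (hA : TreeAct Γ V T) {l : ℕ} {a b : V × V} (h2 : b.2 = a.2) (hadj : T.Adj b.1 a.1)
    (ha : T.dist a.1 a.2 = l) (hb : T.dist b.1 b.2 = l + 1) :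
    MulAction.stabilizer Γ b ≤ MulAction.stabilizer Γ a := by
  intro γ hγ
  have hγ' : γ • b = b := hγ
  have h3 : γ • b.1 = b.1 := congrArg Prod.fst hγ'
  have h4 : γ • b.2 = b.2 := congrArg Prod.snd hγ'
  rw [h2] at h4 hb
  have h5 : T.dist b.1 a.1 = 1 := T.dist_eq_one_iff_adj.2 hadj
  have h6 : T.dist b.1 (γ • a.1) = 1 := by
    have := dist_smul_smul hA γ b.1 a.1
    rwa [h3, h5] at this
  have h7 : T.dist (γ • a.1) a.2 = l := by
    have := dist_smul_smul hA γ a.1 a.2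
    rwa [h4, ha] at this
  have h8 : a.1 = γ • a.1 := tree_eq_of_dist hA.tree (x := b.1) (z := a.2)
    (by rw [hb, h5, ha, Nat.add_comm]) (by rw [hb, h6, h7, Nat.add_comm]) (by rw [h5, h6])
  change γ • a = a
  exact Prod.ext h8.symm h4

/-- A nilpotent map along segments of length `m + 1`. -/
structure Lev (Γ : Type u) [Group Γ] {V : Type v} [MulAction Γ V] (T : SimpleGraph V)
    (m : ℕ) where
  ι : Type
  fin : Finite ι
  p : ι → V × V
  ν : Module.End (ZG Γ) (F Γ ι)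
  dist : ∀ i, T.dist (p i).1 (p i).2 = m + 1
  nil : IsNilpotent ν
  tr : Tr (sh T (m + 1)) p p ν

attribute [instance] Lev.fin

/-- The sequence of iterated steps. -/
def levSeq {Γ : Type u} [Group Γ] {V : Type v} [MulAction Γ V] {T : SimpleGraph V}
    (s0 : Lev Γ T 0) (nx : ∀ m, Lev Γ T m → Lev Γ T (m + 1)) : ∀ m, Lev Γ T m
  | 0 => s0
  | m + 1 => nx m (levSeq s0 nx m)

open CategoryTheory in
/-- Coherent choices in inverse sequences of nonempty finite types. -/
theorem exists_coherent (B : ℕ → Type) (f : ∀ m, B (m + 1) → B m) (h1 : ∀ m, Finite (B m))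
    (h2 : ∀ m, Nonempty (B m)) : ∃ k : ∀ m, B m, ∀ m, f m (k (m + 1)) = k m := by
  let 𝓕 : ℕᵒᵖ ⥤ Type := Functor.ofOpSequence (X := B) (fun m => ↾(f m))
  have h1 : ∀ j, Finite (𝓕.obj j) := fun j => h1 _
  have h2 : ∀ j, Nonempty (𝓕.obj j) := fun j => h2 _
  obtain ⟨s, hs⟩ := nonempty_sections_of_finite_inverse_system 𝓕
  refine ⟨fun m => s (Opposite.op m), fun m => ?_⟩
  have h3 := hs (homOfLE (Nat.le_add_right m 1)).op
  rw [Functor.ofOpSequence_map_homOfLE_succ] at h3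
  exact h3

/-- Module Ray. -/
theorem stRay (hN : StNil.{u, v}) (hS : StStepP.{u, v}) (hR : StRegSub.{u}) (hB : StTreeB.{u, v})
    (_hC : StTreeC.{u, v}) :
    StRay.{u, v} := by
  intro Γ _ V _ T hT hray K ι _ p ν hp hnil htr
  -- the step
  have hstep : ∀ (m : ℕ) (s : Lev Γ T m), ∃ (s' : Lev Γ T (m + 1)) (π : s'.ι → s.ι),
      (∀ k, (s'.p k).2 = (s.p (π k)).2 ∧ T.Adj (s'.p k).1 (s.p (π k)).1) ∧
      (K.G ((1 : Module.End (ZG Γ) (F Γ s'.ι)) + s'.ν) →
        K.G ((1 : Module.End (ZG Γ) (F Γ s.ι)) + s.ν)) := by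
    intro m s
    obtain ⟨κ, hκ, q, π, μ, h1, h2, h3, h4, h5⟩ :=
      hS Γ V T hT K (m + 1) (Nat.le_add_left 1 m) s.ι s.p s.ν s.dist s.nil s.tr
    exact ⟨⟨κ, hκ, q, μ, h1, h3, h4⟩, π, h2, h5⟩
  choose nx π hπ hG using hstep
  have hι : Finite ι := inferInstance
  generalize hs0 : (⟨ι, hι, p, ν, hp, hnil, htr⟩ : Lev Γ T 0) = s0
  have hgoal : K.G ((1 : Module.End (ZG Γ) (F Γ s0.ι)) + s0.ν) →
      K.G ((1 : Module.End (ZG Γ) (F Γ ι)) + ν) := by
    rw [← hs0]
    exact fun h => h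
  apply hgoal
  clear hgoal hs0
  have hdown : ∀ m, K.G ((1 : Module.End (ZG Γ) (F Γ (levSeq s0 nx m).ι)) + (levSeq s0 nx m).ν) →
      K.G ((1 : Module.End (ZG Γ) (F Γ s0.ι)) + s0.ν) := by
    intro m
    induction m with
    | zero => exact fun h => h
    | succ m ih => exact fun h => ih (hG m (levSeq s0 nx m) h)
  by_cases hall : ∃ m, ∀ k : (levSeq s0 nx m).ι,
      RegCoh (MonoidAlgebra ℤ (MulAction.stabilizer Γ ((levSeq s0 nx m).p k)))
  · obtain ⟨m, hm⟩ := hall
    exact hdown m (hN Γ K (V × V) (sh T (m + 1)) (hB Γ V T hT (m + 1) (Nat.le_add_left 1 m)).1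
      (levSeq s0 nx m).ι (levSeq s0 nx m).p (levSeq s0 nx m).ν (levSeq s0 nx m).nil (levSeq s0 nx m).tr hm)
  exfalso
  push Not at hall
  -- the bad indices
  let B : ℕ → Type := fun m => {k : (levSeq s0 nx m).ι //
    ¬ RegCoh (MonoidAlgebra ℤ (MulAction.stabilizer Γ ((levSeq s0 nx m).p k)))}
  have hle : ∀ (m : ℕ) (k : (levSeq s0 nx (m + 1)).ι),
      MulAction.stabilizer Γ ((levSeq s0 nx (m + 1)).p k) ≤
        MulAction.stabilizer Γ ((levSeq s0 nx m).p (π m (levSeq s0 nx m) k)) := by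
    intro m k
    exact stab_le_of_adj hT (hπ m (levSeq s0 nx m) k).1 (hπ m (levSeq s0 nx m) k).2 ((levSeq s0 nx m).dist _)
      ((levSeq s0 nx (m + 1)).dist k)
  let f : ∀ m, B (m + 1) → B m := fun m k =>
    ⟨π m (levSeq s0 nx m) k.1, fun h => k.2 (regCoh_of_le hR (hle m k.1) h)⟩
  have hBfin : ∀ m, Finite (B m) := fun m =>
    inferInstanceAs (Finite {k : (levSeq s0 nx m).ι //
      ¬ RegCoh (MonoidAlgebra ℤ (MulAction.stabilizer Γ ((levSeq s0 nx m).p k)))})
  have hBne : ∀ m, Nonempty (B m) := fun m => (hall m).elim fun k hk => ⟨⟨k, hk⟩⟩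
  obtain ⟨k, hk⟩ := exists_coherent B f hBfin hBne
  -- the ray
  let x : ℕ → V := fun n => Nat.casesOn n ((levSeq s0 nx 0).p (k 0).1).2 fun m => ((levSeq s0 nx m).p (k m).1).1
  have hπk : ∀ m, π m (levSeq s0 nx m) (k (m + 1)).1 = (k m).1 := fun m => congrArg Subtype.val (hk m)
  have hx2 : ∀ m, ((levSeq s0 nx m).p (k m).1).2 = x 0 := by
    intro m
    induction m with
    | zero => rfl
    | succ m ih =>
      have := (hπ m (levSeq s0 nx m) (k (m + 1)).1).1
      rw [hπk] at this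
      exact this.trans ih
  have hdist : ∀ n, T.dist (x n) (x 0) = n := by
    intro n
    cases n with
    | zero => exact T.dist_self
    | succ m =>
      have := (levSeq s0 nx m).dist (k m).1
      rw [hx2] at this
      exact this
  have hadj : ∀ n, T.Adj (x n) (x (n + 1)) := by
    intro n
    cases n with
    | zero =>
      have := hdist 1
      exact (T.dist_eq_one_iff_adj.1 this).symm
    | succ m =>
      have := (hπ m (levSeq s0 nx m) (k (m + 1)).1).2
      rw [hπk] at this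
      exact this.symm
  obtain ⟨n, hn, hreg⟩ := hray x hadj fun n hne => by
    have h1 := hdist n
    have h2 := hdist (n + 2)
    rw [← hne] at h2
    omega
  obtain ⟨m, rfl⟩ : ∃ m, n = m + 1 := ⟨n - 1, by omega⟩
  apply (k m).2
  have h1 : (x (m + 1), x 0) = (levSeq s0 nx m).p (k m).1 := Prod.ext rfl (hx2 m).symm
  rw [← h1]
  exact hreg

end Pool.Agent.Lib.MP_551055_al.LS
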