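import Pool.Agent.Lib.MP_551055_al.LS.Stmts

/-!
# The idempotent of a system
-/

set_option autoImplicit false

namespace Pool.Agent.Lib.MP_551055_al.LS

open Pool.Agent.Lib.MP_551055_al
open MonoidAlgebra

universe u v

section

variable {Γ : Type u} [Group Γ] {V : Type v} [MulAction Γ V] {T : SimpleGraph V}

/-- The inclusion of the vectors with edge coordinates only. -/
noncomputable def inK (K I : Type) : F Γ K →ₗ[ZG Γ] F Γ (K ⊕ I) where
  toFun y := Sum.elim y 0
  map_add' y z := by
    funext j
    rcases j with j | j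
    · rfl
    · change (0 : ZG Γ) = 0 + 0
      rw [add_zero]
  map_smul' s y := by
    funext j
    rcases j with j | j
    · rfl
    · change (0 : ZG Γ) = s • 0
      rw [smul_zero]

/-- The edge coordinates of a vector. -/
noncomputable def outK (K I : Type) : F Γ (K ⊕ I) →ₗ[ZG Γ] F Γ K :=
  LinearMap.funLeft (ZG Γ) (ZG Γ) Sum.inl

theorem outK_inK {K I : Type} (y : F Γ K) : outK K I (inK K I y) = y := rfl

theorem pr_inK {K I : Type} (f : K → V × V) (v : I → V) (P : Set (V × V)) (y : F Γ K) :
    pr (cell f v) P (inK K I y) = inK K I (pr f P y) := by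
  classical
  refine F_ext fun i γ => ?_
  rcases i with k | i
  · rfl
  · rw [pr_coeff]
    change (if _ then (0 : ZG Γ).coeff γ else 0) = (0 : ZG Γ).coeff γ
    split_ifs <;> rfl

theorem pr_outK {K I : Type} (f : K → V × V) (v : I → V) (P : Set (V × V))
    (y : F Γ (K ⊕ I)) : pr f P (outK K I y) = outK K I (pr (cell f v) P y) := rfl

end

theorem stSplit (hA : StTreeA.{v}) (hc : StCut.{u, v}) : StSplit.{u, v} := by
  classical
  intro Γ _ V _ T hT O hO1 hO2 s hs
  -- the family of additive maps
  let φ : V × V → (F Γ s.K →+ F Γ s.K) := fun c =>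
    (pr s.f {c}).comp ((outK s.K s.I).toAddMonoidHom.comp (s.Φ.symm.toLinearMap.toAddMonoidHom.comp
      ((pr s.w {c.2}).comp (s.Φ.toLinearMap.toAddMonoidHom.comp (inK s.K s.I).toAddMonoidHom))))
  have hφ : ∀ (c : V × V) (y : F Γ s.K),
      φ c y = pr s.f {c} (outK s.K s.I (s.Φ.symm (pr s.w {c.2} (s.Φ (inK s.K s.I y))))) :=
    fun _ _ => rfl
  obtain ⟨π, hπ⟩ := exists_lin s.f φ (by
    intro γ c y _
    rw [hφ, hφ, map_smul, map_smul, Prod.smul_snd, pr_smul_singleton, map_smul, map_smul,
      pr_smul_singleton])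
  have hπ' : ∀ (a b : V) (y : F Γ s.K), In s.f {(a, b)} y →
      π y = pr s.f {(a, b)} (outK s.K s.I (s.Φ.symm (pr s.w {b} (s.Φ (inK s.K s.I y))))) :=
    fun a b y hy => hπ (a, b) y hy
  refine ⟨π, ?_, ?_, ?_⟩
  · refine gr_of_hom fun x y hy => ?_
    rw [hπ x y hy]
    exact in_pr _ _ _
  · -- idempotent
    refine linearMap_ext s.f fun x n hn => ?_
    obtain ⟨a, b⟩ := x
    have hcells : ∀ y : F Γ s.K, In s.f {c : V × V | T.Adj c.1 c.2 ∧ c ∈ O} y := by
      intro y
      refine in_iff.2 fun k γ _ => ?_
      exact ⟨hT.adj γ _ _ (s.adj k), hO1 γ _ (hs k)⟩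
    by_cases hQ : T.Adj a b ∧ (a, b) ∈ O
    · obtain ⟨hab, habO⟩ := hQ
      have hbaO : (b, a) ∉ O := (hO2 a b hab).1 habO
      obtain ⟨-, hbH, -, -⟩ := hA V T hT.tree b a hab.symm
      set y : F Γ (s.K ⊕ s.I) := s.Φ.symm (pr s.w {b} (s.Φ (inK s.K s.I n))) with hy
      have hΦy : In s.w {b} (s.Φ y) := by
        rw [hy, LinearEquiv.apply_symm_apply]
        exact in_pr _ _ _
      set n' : F Γ s.K := π n with hn'
      have hn'y : n' = pr s.f {(a, b)} (outK s.K s.I y) := hπ' a b n hn
      have hn'in : In s.f {(a, b)} n' := by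
        rw [hn'y]
        exact in_pr _ _ _
      have hcell : pr (cell s.f s.v) {(a, b), (b, a)} y = inK s.K s.I n' := by
        rw [hn'y]
        refine F_ext fun i γ => ?_
        rw [pr_coeff]
        rcases i with k | i
        · change _ = (pr s.f {(a, b)} (outK s.K s.I y) k).coeff γ
          rw [pr_coeff]
          have h1 : γ • s.f k ≠ (b, a) := fun h => hbaO (h ▸ hO1 γ _ (hs k))
          by_cases h2 : γ • s.f k = (a, b)
          · rw [if_pos, if_pos (Set.mem_singleton_iff.2 h2)]
            · rfl
            · exact Or.inl h2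
          · rw [if_neg, if_neg (fun h => h2 (Set.mem_singleton_iff.1 h))]
            rintro (h | h)
            · exact h2 h
            · exact h1 (Set.mem_singleton_iff.1 h)
        · rw [if_neg]
          · rfl
          · rintro (h | h)
            · have h1 : γ • s.v i = a := congrArg Prod.fst h
              have h2 : γ • s.v i = b := congrArg Prod.snd h
              exact hab.ne (h1.symm.trans h2)
            · have h0 := Set.mem_singleton_iff.1 h
              have h1 : γ • s.v i = b := congrArg Prod.fst h0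
              have h2 : γ • s.v i = a := congrArg Prod.snd h0
              exact hab.ne (h2.symm.trans h1)
      have hcut := hc Γ V T hT s a b hab y hΦy
      rw [hcell] at hcut
      have hΦn' : In s.w {a, b} (s.Φ (inK s.K s.I n')) := by
        have h1 : In (cell s.f s.v) {(a, b)} (inK s.K s.I n') := by
          unfold In
          rw [pr_inK, hn'in.eq]
        refine (s.tr _ _ h1).mono ?_
        rintro x ⟨c, hc, hx⟩
        rw [Set.mem_singleton_iff.1 hc] at hx
        exact hx
      have hsplit : pr s.w {a} (s.Φ (inK s.K s.I n')) + pr s.w {b} (s.Φ (inK s.K s.I n')) =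
          s.Φ (inK s.K s.I n') := by
        rw [← pr_union s.w (Set.disjoint_singleton.2 hab.ne)]
        exact hΦn'.eq
      have hb : pr s.w {b} (s.Φ (inK s.K s.I n')) =
          s.Φ (inK s.K s.I n' + pr (cell s.f s.v) (side T b a ×ˢ side T b a) y) := by
        rw [map_add]
        have h1 : pr s.w {a} (s.Φ (inK s.K s.I n')) =
            - s.Φ (pr (cell s.f s.v) (side T b a ×ˢ side T b a) y) :=
          eq_neg_of_add_eq_zero_right hcut
        rw [h1, neg_add_eq_iff_eq_add] at hsplit
        rw [hsplit, add_comm]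
      rw [LinearMap.comp_apply, ← hn', hπ' a b n' hn'in, hb, LinearEquiv.symm_apply_apply, map_add,
        outK_inK, map_add, hn'in.eq, ← pr_outK, pr_pr]
      have h0 : ({(a, b)} : Set (V × V)) ∩ (side T b a ×ˢ side T b a) = ∅ := by
        ext x
        constructor
        · rintro ⟨h1, h2⟩
          rw [Set.mem_singleton_iff.1 h1] at h2
          exact absurd h2.2 hbH
        · intro h
          exact absurd h (Set.notMem_empty _)
      rw [h0, pr_empty, add_zero]
    · have h0 : n = 0 := by
        refine (hcells n).eq_zero hn (Set.disjoint_singleton_right.2 hQ)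
      rw [h0, map_zero, map_zero]
  · intro a b y hy
    exact hπ' a b y hy

end Pool.Agent.Lib.MP_551055_al.LS
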