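import Pool.Agent.Lib.MP_551055_al.LS.InSingle
import Pool.Agent.Lib.MP_551055_al.LS.Stmts2

/-!
# Module Step: nilpotent maps along segments of length `l` and of length `l + 1`
-/

set_option autoImplicit false

namespace Pool.Agent.Lib.MP_551055_al.LS

open Pool.Agent.Lib.MP_551055_al
open MonoidAlgebra

universe u v

section

variable {Γ : Type u} [Group Γ] {X : Type v} [MulAction Γ X] {ι : Type}

open Classical in
/-- The positions of the images of the basis vectors. -/
theorem exists_pos [Finite ι] {r : X → X → Prop} (p : ι → X) (ν : F Γ ι →ₗ[ZG Γ] F Γ ι)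
    (h : Tr r p p ν) (k : ι) : ∃ s : Finset X, (∀ x ∈ s, r (p k) x) ∧
      In p (s : Set X) (ν (Pi.single k 1)) := by
  obtain ⟨s, hs⟩ := exists_finset p (ν (Pi.single k 1))
  have h1 := h.hom (in_basis_one (Γ := Γ) p k)
  refine ⟨s.filter fun x => r (p k) x, fun x hx => (Finset.mem_filter.1 hx).2, ?_⟩
  refine in_iff.2 fun i γ hne => ?_
  rw [Finset.mem_coe, Finset.mem_filter]
  exact ⟨Finset.mem_coe.1 (in_iff.1 hs i γ hne), in_iff.1 h1 i γ hne⟩

end

/-- The step from segments of length `l` to segments of length `l + 1`, for one map. -/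
theorem stStepP (h : StTreeB.{u, v}) (hs : StSwap.{u}) : StStepP.{u, v} := by
  classical
  intro Γ _ V _ T hT K l hl ι _ p ν hp hnil htr
  have := Fintype.ofFinite ι
  obtain ⟨hUR, hsh, _⟩ := h Γ V T hT l hl
  obtain ⟨hUR', _, _⟩ := h Γ V T hT (l + 1) (by omega)
  choose S hS1 hS2 using exists_pos p ν htr
  let K' : Type := Σ k : ι, Fin (S k).card
  let τ : K' → V × V := fun x => ((S x.1).equivFin.symm x.2 : V × V)
  have hτ : ∀ x : K', sh T l (p x.1) (τ x) := fun x =>
    hS1 x.1 _ ((S x.1).equivFin.symm x.2).2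
  let p' : K' → V × V := fun x => ((τ x).1, (p x.1).2)
  let a : F Γ ι →ₗ[ZG Γ] F Γ K' := LinearMap.funLeft (ZG Γ) (ZG Γ) (Sigma.fst : K' → ι)
  let b : F Γ K' →ₗ[ZG Γ] F Γ ι :=
    Fintype.linearCombination (ZG Γ) fun x : K' => pr p {τ x} (ν (Pi.single x.1 1))
  have ha : ∀ (y : F Γ ι) (x : K'), a y x = y x.1 := fun y x => rfl
  have hb : ∀ x : K', b (Pi.single x 1) = pr p {τ x} (ν (Pi.single x.1 1)) := by
    intro x
    change Fintype.linearCombination (ZG Γ)
      (fun x : K' => pr p {τ x} (ν (Pi.single x.1 1))) (Pi.single x 1) = _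
    rw [Fintype.linearCombination_apply_single, one_smul]
  have hba : b ∘ₗ a = ν := by
    apply LinearMap.ext
    intro y
    have h1 : b (a y) = ∑ x : K', y x.1 • pr p {τ x} (ν (Pi.single x.1 1)) :=
      Fintype.linearCombination_apply _ _ _
    rw [LinearMap.comp_apply, h1, Fintype.sum_sigma]
    have h2 : ∀ k : ι, ∑ t : Fin (S k).card,
        y k • pr p {τ ⟨k, t⟩} (ν (Pi.single k 1)) = y k • ν (Pi.single k 1) := by
      intro k
      rw [← Finset.smul_sum]
      congr 1
      have h3 : ∑ t : Fin (S k).card, pr p {τ ⟨k, t⟩} (ν (Pi.single k 1)) =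
          ∑ x : S k, pr p {(x : V × V)} (ν (Pi.single k 1)) :=
        Equiv.sum_comp (S k).equivFin.symm
          (fun x : S k => pr p {(x : V × V)} (ν (Pi.single k 1)))
      rw [h3, Finset.sum_coe_sort (S k) (fun x => pr p {x} (ν (Pi.single k 1))), sum_pr]
      exact hS2 k
    rw [Finset.sum_congr rfl fun k _ => h2 k]
    have h4 : y = ∑ k, y k • (Pi.single k 1 : F Γ ι) := by
      funext j
      simp [Finset.sum_apply, Pi.single_apply]
    conv_rhs => rw [h4]
    rw [map_sum]
    exact Finset.sum_congr rfl fun k _ => (map_smul ν _ _).symm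
  -- nilpotency
  have hpow : ∀ n : ℕ, (a ∘ₗ b : Module.End (ZG Γ) (F Γ K')) ^ (n + 1) =
      a ∘ₗ (ν ^ n) ∘ₗ b := by
    intro n
    induction n with
    | zero => rw [zero_add, pow_one, pow_zero]; rfl
    | succ n ih =>
      rw [pow_succ, ih, pow_succ]
      apply LinearMap.ext
      intro z
      have h5 : b (a (b z)) = ν (b z) := DFunLike.congr_fun hba (b z)
      simp only [Module.End.mul_apply, LinearMap.comp_apply]
      rw [h5]
  have hnil' : IsNilpotent (a ∘ₗ b : Module.End (ZG Γ) (F Γ K')) := by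
    obtain ⟨n, hn⟩ := hnil
    refine ⟨n + 1, ?_⟩
    rw [hpow, hn, LinearMap.zero_comp, LinearMap.comp_zero]
  -- positions
  have htr' : Tr (sh T (l + 1)) p' p' (a ∘ₗ b) := by
    refine tr_of_basis (fun γ c d hcd => hUR'.inv γ c d hcd) fun x => ?_
    rw [LinearMap.comp_apply]
    have e1 : b (@Pi.single K' (fun _ => MonoidAlgebra ℤ Γ) _
        (fun c d => Classical.propDecidable (c = d)) x 1) =
        pr p {τ x} (ν (Pi.single x.1 1)) := by
      rw [← hb x]
      exact congrArg b (single_any _ _ _ _)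
    refine Eq.mpr (congrArg (fun z => In p' _ (a z)) e1) ?_
    have hy : In p {τ x} (pr p {τ x} (ν (Pi.single x.1 1)) : F Γ ι) := in_pr _ _ _
    refine in_iff.2 fun z γ hne => ?_
    rw [ha] at hne
    have h6 : γ • p z.1 = τ x := in_iff.1 hy z.1 γ hne
    have h7 : sh T l (τ x) (γ • τ z) := by
      rw [← h6]
      exact hUR.inv γ _ _ (hτ z)
    have h8 := hsh _ _ _ (hτ x) h7
    have h9 : γ • p' z = ((γ • τ z).1, (τ x).2) := by
      rw [← h6]
      rfl
    change sh T (l + 1) (p' x) (γ • p' z)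
    rw [h9]
    exact h8
  refine ⟨K', inferInstance, p', Sigma.fst, a ∘ₗ b, fun x => (hτ x).2.2.2.2,
    fun x => ⟨rfl, (hτ x).1⟩, hnil', htr', fun hG => ?_⟩
  have h10 := hs (ZG Γ) K ι K' a b hG
  rw [hba] at h10
  exact h10

/-- The step from segments of length `l + 1` to segments of length `l`. -/
theorem stStep (h : StTreeB.{u, v}) (hs : StSwap.{u}) : StStep.{u, v} := by
  intro Γ _ V _ T hT K l hl hK ι _ p ν hp hnil htr
  obtain ⟨κ, _, q, _, μ, h1, _, h3, h4, h5⟩ := stStepP h hs Γ V T hT K l hl ι p ν hp hnil htr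
  exact h5 (hK κ q μ h1 h3 h4)

end Pool.Agent.Lib.MP_551055_al.LS
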