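import Pool.Agent.Lib.MP_551055_al.LS.K1a
import Pool.Agent.Lib.MP_551055_al.LS.K1c
import Pool.Agent.Lib.MP_551055_al.LS.K1d
import Pool.Agent.Lib.MP_551055_al.LS.K1e
import Pool.Agent.Lib.MP_551055_al.LS.Dev
import Pool.Agent.Lib.MP_551055_al.LS.Coh
import Pool.Agent.Lib.MP_551055_al.LS.VecFree
import Pool.Agent.Lib.MP_551055_al.LS.Ind
import Pool.Agent.Lib.MP_551055_al.LS.Fil
import Pool.Agent.Lib.MP_551055_al.LS.Nil
import Pool.Agent.Lib.MP_551055_al.LS.NF
import Pool.Agent.Lib.MP_551055_al.LS.TreeA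
import Pool.Agent.Lib.MP_551055_al.LS.TreeB
import Pool.Agent.Lib.MP_551055_al.LS.TreeC
import Pool.Agent.Lib.MP_551055_al.LS.Cut
import Pool.Agent.Lib.MP_551055_al.LS.Init
import Pool.Agent.Lib.MP_551055_al.LS.Split
import Pool.Agent.Lib.MP_551055_al.LS.Adapt
import Pool.Agent.Lib.MP_551055_al.LS.Theta
import Pool.Agent.Lib.MP_551055_al.LS.KI
import Pool.Agent.Lib.MP_551055_al.LS.Step
import Pool.Agent.Lib.MP_551055_al.LS.BassProj
import Pool.Agent.Lib.MP_551055_al.LS.BassClass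
import Pool.Agent.Lib.MP_551055_al.LS.BassMono
import Pool.Agent.Lib.MP_551055_al.LS.BassVert
import Pool.Agent.Lib.MP_551055_al.LS.Graded
import Pool.Agent.Lib.MP_551055_al.LS.RegSub
import Pool.Agent.Lib.MP_551055_al.LS.Ray
import Pool.Agent.Lib.MP_551055_al.LS.RayE
import Pool.Agent.Lib.MP_551055_al.LS.FinalE
import Pool.Agent.Lib.MP_551055_al.LS.Elim
import Pool.Agent.Lib.MP_551055_al.LS.Orb
import Pool.Agent.Lib.MP_551055_al.LS.PWin
import Pool.Agent.Lib.MP_551055_al.LS.PNoeth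
import Pool.Agent.Lib.MP_551055_al.LS.PExt
import Pool.Agent.Lib.MP_551055_al.LS.PSes
import Pool.Agent.Lib.MP_551055_al.LS.PGr
import Pool.Agent.Lib.MP_551055_al.LS.PExact
import Pool.Agent.Lib.MP_551055_al.LS.PReg
import Pool.Agent.Lib.MP_551055_al.LS.PFin
import Pool.Agent.Lib.MP_551055_al.LS.PFree
import Pool.Agent.Lib.MP_551055_al.LS.PIndF
import Pool.Agent.Lib.MP_551055_al.LS.PK0
import Pool.Agent.Lib.MP_551055_al.LS.PPoly

/-!
# LS: the assembled theorems
-/

universe u v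

namespace Pool.Agent.Lib.MP_551055_al.LS

theorem lsNil : StNil.{u, v} :=
  stNil stFil stCoh stInd
    (stDev (stSES stConj (stGAInd stConj)) (stGAFree stConj) stUnip)
    stVecFree stHomFree (stGAFree stConj)

theorem lsNilE : StNilE.{u, v} :=
  stNilE stElim (stOrb lsNil stUnip)

theorem lsRayE : StRayE.{u, v} :=
  stRayE lsNilE (stStepP stTreeB stSwap) stTreeB

theorem lsAdapt : StAdapt.{u, v} :=
  stAdapt (stSplit stTreeA (stCut stTreeA)) stNF

/-- The closure theorem for groups acting on trees. -/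
theorem lsFinalE : StFinalE.{u, v} :=
  stFinalE stTreeC (stKI stTreeB) (stTheta stTreeA (stCut stTreeA)) lsAdapt (stInit stConj stUnip)
    lsRayE (stBassClass stBassProj) stBassMono (stBassVert stBassProj) stBassIdem stGraded

theorem lsPReg : StPReg.{u} :=
  stPReg stPWin (stPNoeth stPWin) (stPSes stPExt) (stPGr stInd) stPExact

theorem lsPFin : StPFin := stPFin lsPReg

theorem lsPPoly : StPPoly :=
  stPPoly (stPK0 stPWin (stPNoeth stPWin) stPFreeSes stPFreeProj (stPIndF stPFreeProj) stPExact) lsPFin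

end Pool.Agent.Lib.MP_551055_al.LS
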