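import Pool.Agent.Lib.MP_551055_al.LS.TreeB

/-!
# Module TreeA: half-trees
-/

set_option autoImplicit false

namespace Pool.Agent.Lib.MP_551055_al.LS

open Pool.Agent.Lib.MP_551055_al

universe v

theorem mem_side_iff {V : Type v} {T : SimpleGraph V} {u v w : V} :
    w ∈ side T u v ↔ T.dist w v < T.dist w u := Iff.rfl

/-- The complement of a half-tree is the opposite half-tree. -/
theorem side_compl {V : Type v} {T : SimpleGraph V} (hT : T.IsTree) {u v : V} (huv : T.Adj u v) :
    (side T u v)ᶜ = side T v u := by
  ext w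
  rw [Set.mem_compl_iff, mem_side_iff, mem_side_iff]
  rcases hT.dist_eq_dist_add_one_of_adj w huv with h | h <;> omega

/-- Module TreeA. -/
theorem stTreeA : StTreeA.{v} := by
  intro V T hT u v huv
  have h1 : T.dist u v = 1 := T.dist_eq_one_iff_adj.2 huv
  have h2 : T.dist v u = 1 := T.dist_eq_one_iff_adj.2 huv.symm
  refine ⟨?_, ?_, side_compl hT huv, ?_⟩
  · rw [mem_side_iff, T.dist_self]
    omega
  · rw [mem_side_iff, T.dist_self]
    omega
  · intro a b hab ha hb
    rw [mem_side_iff] at ha hb
    have h3 : T.dist b a = 1 := T.dist_eq_one_iff_adj.2 hab.symm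
    have h3' : T.dist a b = 1 := T.dist_eq_one_iff_adj.2 hab
    have h4 := hT.dist_eq_dist_add_one_of_adj a huv
    have h5 := hT.dist_eq_dist_add_one_of_adj b huv
    have h6 := hT.connected.dist_triangle (u := b) (v := a) (w := v)
    have h7 := hT.connected.dist_triangle (u := a) (v := b) (w := u)
    have hav : a = v := by
      by_contra hne
      have h8 : T.dist b u = T.dist b a + T.dist a v + T.dist v u :=
        tree_dist_add' hT (by omega) (by omega) hne
      omega
    refine ⟨hav, ?_⟩
    rw [hav] at ha h3 h4 h6 h7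
    rw [T.dist_self] at h6 h4
    have h9 : T.dist b u = 0 := by omega
    exact hT.connected.dist_eq_zero_iff.1 h9

end Pool.Agent.Lib.MP_551055_al.LS
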