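import Pool.Agent.Lib.MP_551055_al.LS.Stmts
import Pool.Agent.Lib.MP_551055_al.VNBlocks

/-!
# Module BassClass: the Bass class has the formal properties of a class of `K₁`
-/

set_option autoImplicit false

namespace Pool.Agent.Lib.MP_551055_al.LS
namespace BassC

open Pool.Agent.Lib.MP_551055_al

universe u

section Gen

variable {R : Type u} [Ring R]

/-- The quotient `B / A` of two submodules. -/
abbrev Qt {V : Type u} [AddCommGroup V] [Module R V] (A B : Submodule R V) : Type u :=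
  B ⧸ A.submoduleOf B

theorem qt_of_map {V W : Type u} [AddCommGroup V] [Module R V] [AddCommGroup W] [Module R W]
    (p : V →ₗ[R] W) (B C : Submodule R V) (B' C' : Submodule R W) (hC : C.map p = C')
    (hB : ∀ x ∈ C, x ∈ B ↔ p x ∈ B') : Nonempty (Qt B C ≃ₗ[R] Qt B' C') := by
  subst hC
  let f : C →ₗ[R] (C.map p) := p.submoduleMap C
  have hf : Function.Surjective f := LinearMap.submoduleMap_surjective p C
  let g : C →ₗ[R] Qt B' (C.map p) := (B'.submoduleOf (C.map p)).mkQ ∘ₗ f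
  have hg : Function.Surjective g := (Submodule.mkQ_surjective _).comp hf
  have hk : LinearMap.ker g = B.submoduleOf C := by
    ext x
    rw [LinearMap.mem_ker]
    change (Submodule.Quotient.mk (f x) : Qt B' (C.map p)) = 0 ↔ x.1 ∈ B
    rw [Submodule.Quotient.mk_eq_zero]
    exact (hB x.1 x.2).symm
  exact ⟨(Submodule.quotEquivOfEq _ _ hk.symm).trans (g.quotKerEquivOfSurjective hg)⟩

theorem qt_map_inj {V W : Type u} [AddCommGroup V] [Module R V] [AddCommGroup W] [Module R W]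
    (p : V →ₗ[R] W) (hp : Function.Injective p) (B C : Submodule R V) :
    Nonempty (Qt B C ≃ₗ[R] Qt (B.map p) (C.map p)) := by
  refine qt_of_map p B C _ _ rfl fun x _ => ⟨fun h => ⟨x, h, rfl⟩, ?_⟩
  rintro ⟨y, hy, h⟩
  rw [← hp h]
  exact hy

theorem qt_split {V : Type u} [AddCommGroup V] [Module R V] (A B C : Submodule R V)
    (hAB : A ≤ B) (hBC : B ≤ C) (hp : Module.Projective R (Qt B C)) :
    Nonempty ((Qt A B × Qt B C) ≃ₗ[R] Qt A C) := by
  let i : Qt A B →ₗ[R] Qt A C := Submodule.mapQ (A.submoduleOf B) (A.submoduleOf C)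
    (Submodule.inclusion hBC) (fun x hx => hx)
  let q : Qt A C →ₗ[R] Qt B C := Submodule.mapQ (A.submoduleOf C) (B.submoduleOf C)
    LinearMap.id (fun x hx => hAB hx)
  have hq : Function.Surjective q := by
    intro z
    obtain ⟨c, rfl⟩ := Submodule.mkQ_surjective _ z
    exact ⟨Submodule.Quotient.mk c, rfl⟩
  obtain ⟨s, hs⟩ := Module.projective_lifting_property q LinearMap.id hq
  have hs' : ∀ z, q (s z) = z := fun z => DFunLike.congr_fun hs z
  have hqi : ∀ x, q (i x) = 0 := by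
    intro x
    obtain ⟨b, rfl⟩ := Submodule.mkQ_surjective _ x
    change (Submodule.Quotient.mk (Submodule.inclusion hBC b) : Qt B C) = 0
    rw [Submodule.Quotient.mk_eq_zero]
    exact b.2
  have hi : ∀ x, i x = 0 → x = 0 := by
    intro x hx
    obtain ⟨b, rfl⟩ := Submodule.mkQ_surjective _ x
    have h1 : (Submodule.Quotient.mk (Submodule.inclusion hBC b) : Qt A C) = 0 := hx
    rw [Submodule.Quotient.mk_eq_zero] at h1
    change (Submodule.Quotient.mk b : Qt A B) = 0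
    rw [Submodule.Quotient.mk_eq_zero]
    exact h1
  have hex : ∀ y, q y = 0 → ∃ x, i x = y := by
    intro y hy
    obtain ⟨c, rfl⟩ := Submodule.mkQ_surjective _ y
    have h1 : (Submodule.Quotient.mk c : Qt B C) = 0 := hy
    rw [Submodule.Quotient.mk_eq_zero] at h1
    exact ⟨Submodule.Quotient.mk ⟨c.1, h1⟩, rfl⟩
  let φ : (Qt A B × Qt B C) →ₗ[R] Qt A C := LinearMap.coprod i s
  have hφ : ∀ x z, φ (x, z) = i x + s z := fun x z => LinearMap.coprod_apply i s (x, z)
  refine ⟨LinearEquiv.ofBijective φ ⟨?_, ?_⟩⟩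
  · rw [← LinearMap.ker_eq_bot, LinearMap.ker_eq_bot']
    rintro ⟨x, z⟩ h
    rw [hφ] at h
    have hz : z = 0 := by
      have h2 := congrArg q h
      rw [map_add, hqi, hs', zero_add, map_zero] at h2
      exact h2
    subst hz
    rw [map_zero, add_zero] at h
    rw [hi x h]
    rfl
  · intro y
    obtain ⟨x, hx⟩ := hex (y - s (q y)) (by rw [map_sub, hs', sub_self])
    exact ⟨(x, q y), by rw [hφ, hx, sub_add_cancel]⟩

theorem st_right {P Q : Type u} [AddCommGroup P] [Module R P] [AddCommGroup Q] [Module R Q]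
    (hP : StFree R P) (h : StFree R (P × Q)) : StFree R Q := by
  obtain ⟨n, m, ⟨f⟩⟩ := hP
  apply StFree.of_prod_free (a := m)
  have h1 : StFree R ((P × Q) × (Fin n → R)) := h.prod_free
  refine h1.congr ?_
  let e1 : ((P × Q) × (Fin n → R)) ≃ₗ[R] (Q × (P × (Fin n → R))) :=
    { toFun := fun z => (z.1.2, (z.1.1, z.2))
      invFun := fun z => ((z.2.1, z.1), z.2.2)
      left_inv := fun z => rfl
      right_inv := fun z => rfl
      map_add' := fun z z' => rfl
      map_smul' := fun r z => rfl }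
  exact e1.trans (LinearEquiv.prodCongr (LinearEquiv.refl R Q) f)

theorem st_left {P Q : Type u} [AddCommGroup P] [Module R P] [AddCommGroup Q] [Module R Q]
    (hQ : StFree R Q) (h : StFree R (P × Q)) : StFree R P :=
  st_right hQ (h.congr (LinearEquiv.prodComm R P Q))

theorem st_zero {P : Type u} [AddCommGroup P] [Module R P] [Subsingleton P] : StFree R P := by
  refine StFree.of_equiv_fin (k := 0) ?_
  exact LinearEquiv.ofBijective (0 : P →ₗ[R] (Fin 0 → R))
    ⟨fun a b _ => Subsingleton.elim a b, fun b => ⟨0, Subsingleton.elim _ _⟩⟩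

theorem st_qt_self {V : Type u} [AddCommGroup V] [Module R V] (A : Submodule R V) :
    StFree R (Qt A A) := by
  have : Subsingleton (Qt A A) := by
    refine ⟨fun a b => ?_⟩
    have h0 : ∀ z : Qt A A, z = 0 := by
      intro z
      obtain ⟨c, rfl⟩ := Submodule.mkQ_surjective _ z
      change (Submodule.Quotient.mk c : Qt A A) = 0
      rw [Submodule.Quotient.mk_eq_zero]
      exact c.2
    rw [h0 a, h0 b]
  exact st_zero

end Gen

section Lattices

variable {G : Type u} [Group G] {ι κ μ : Type}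

/-- The group. -/
abbrev GZ (G : Type u) : Type u := G × Multiplicative ℤ

theorem mem_lat {N : ℤ} {y : LV G κ} : y ∈ Lat (G := G) N κ ↔
    ∀ (j : κ) (g : G × Multiplicative ℤ), (asV y j).coeff g ≠ 0 → N ≤ g.2.toAdd := Iff.rfl

theorem lat_mono {N M : ℤ} (h : N ≤ M) : Lat (G := G) M κ ≤ Lat (G := G) N κ :=
  fun _ hy j g hg => h.trans (hy j g hg)

theorem LL_comp (f : F (G × Multiplicative ℤ) ι →ₗ[ZG (G × Multiplicative ℤ)]
    F (G × Multiplicative ℤ) κ) (g : F (G × Multiplicative ℤ) κ →ₗ[ZG (G × Multiplicative ℤ)]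
    F (G × Multiplicative ℤ) μ) : LL (g ∘ₗ f) = LL g ∘ₗ LL f := rfl

theorem LL_apply (f : F (G × Multiplicative ℤ) ι →ₗ[ZG (G × Multiplicative ℤ)]
    F (G × Multiplicative ℤ) κ) (y : LV G ι) : asV (LL f y) = f (asV y) := rfl

/-- The power of the central element. -/
noncomputable def zp (a : ℤ) : MonoidAlgebra ℤ (G × Multiplicative ℤ) :=
  MonoidAlgebra.single ((1 : G), Multiplicative.ofAdd a) 1

theorem zp_mul (a : ℤ) (s : MonoidAlgebra ℤ (G × Multiplicative ℤ)) :
    zp a * s = s * zp a := by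
  ext g
  rw [zp, MonoidAlgebra.coeff_single_mul_apply, MonoidAlgebra.coeff_mul_single_apply, one_mul,
    mul_one]
  congr 1
  ext1
  · simp
  · simp [mul_comm]

theorem zp_coeff (a : ℤ) (s : MonoidAlgebra ℤ (G × Multiplicative ℤ))
    (g : G × Multiplicative ℤ) :
    (zp a * s).coeff g = s.coeff (g.1, Multiplicative.ofAdd (g.2.toAdd - a)) := by
  rw [zp, MonoidAlgebra.coeff_single_mul_apply, one_mul]
  congr 1
  ext1
  · simp
  · change (Multiplicative.ofAdd a)⁻¹ * g.2 = _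
    apply Multiplicative.toAdd.injective
    change -a + g.2.toAdd = g.2.toAdd - a
    ring

/-- Multiplication by the power of the central element. -/
noncomputable def zm (G : Type u) [Group G] (κ : Type) (a : ℤ) :
    F (G × Multiplicative ℤ) κ →ₗ[ZG (G × Multiplicative ℤ)] F (G × Multiplicative ℤ) κ where
  toFun y := fun j => zp a * y j
  map_add' y z := by
    funext j
    exact mul_add _ _ _
  map_smul' s y := by
    funext j
    change zp a * (s * y j) = s * (zp a * y j)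
    rw [← mul_assoc, zp_mul, mul_assoc]

theorem zp_add (a b : ℤ) : (zp a : MonoidAlgebra ℤ (G × Multiplicative ℤ)) * zp b = zp (a + b) := by
  rw [zp, zp, MonoidAlgebra.single_mul_single, one_mul, zp]
  congr 1
  ext1
  · simp
  · rfl

theorem zp_zero : (zp 0 : MonoidAlgebra ℤ (G × Multiplicative ℤ)) = 1 := rfl

theorem zm_zm (a b : ℤ) (y : F (G × Multiplicative ℤ) κ) : zm G κ a (zm G κ b y) = zm G κ (a + b) y := by
  funext j
  change zp a * (zp b * y j) = zp (a + b) * y j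
  rw [← mul_assoc, zp_add]

theorem zm_zero (y : F (G × Multiplicative ℤ) κ) : zm G κ 0 y = y := by
  funext j
  change zp 0 * y j = y j
  rw [zp_zero, one_mul]

theorem zm_bij (a : ℤ) : Function.Bijective (zm G κ a) := by
  refine ⟨fun x y h => ?_, fun y => ⟨zm G κ (-a) y, ?_⟩⟩
  · have h1 := congrArg (zm G κ (-a)) h
    rwa [zm_zm, zm_zm, neg_add_cancel, zm_zero, zm_zero] at h1
  · rw [zm_zm, add_neg_cancel, zm_zero]

theorem zm_comm (a : ℤ) (f : F (G × Multiplicative ℤ) ι →ₗ[ZG (G × Multiplicative ℤ)]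
    F (G × Multiplicative ℤ) κ) : zm G κ a ∘ₗ f = f ∘ₗ zm G ι a := by
  refine LinearMap.ext fun y => ?_
  have h1 : ∀ (κ : Type) (y : F (G × Multiplicative ℤ) κ),
      zm G κ a y = (zp a : MonoidAlgebra ℤ (G × Multiplicative ℤ)) • y :=
    fun κ y => funext fun j => rfl
  change zm G κ a (f y) = f (zm G ι a y)
  rw [h1, h1, map_smul]

theorem zm_mem {a N : ℤ} {y : LV G κ} :
    LL (zm G κ a) y ∈ Lat (G := G) (N + a) κ ↔ y ∈ Lat (G := G) N κ := by
  rw [mem_lat, mem_lat]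
  constructor
  · intro h j g hg
    have h1 := h j (g.1, Multiplicative.ofAdd (g.2.toAdd + a)) ?_
    · change N + a ≤ g.2.toAdd + a at h1
      linarith
    · change (zp a * asV y j).coeff _ ≠ 0
      rw [zp_coeff]
      simpa using hg
  · intro h j g hg
    change (zp a * asV y j).coeff _ ≠ 0 at hg
    rw [zp_coeff] at hg
    have h1 := h j _ hg
    change N ≤ g.2.toAdd - a at h1
    linarith

theorem lat_map (a N : ℤ) (κ : Type) :
    (Lat (G := G) N κ).map (LL (zm G κ a)) = Lat (G := G) (N + a) κ := by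
  ext y
  constructor
  · rintro ⟨x, hx, rfl⟩
    exact zm_mem.2 hx
  · intro hy
    refine ⟨LL (zm G κ (-a)) y, ?_, ?_⟩
    · have h1 : LL (zm G κ (-a)) y ∈ Lat (G := G) (N + a + -a) κ := zm_mem.2 hy
      rwa [add_neg_cancel_right] at h1
    · change zm G κ a (zm G κ (-a) (asV y)) = y
      rw [zm_zm, add_neg_cancel, zm_zero]

theorem LL_inj {f : F (G × Multiplicative ℤ) ι →ₗ[ZG (G × Multiplicative ℤ)]
    F (G × Multiplicative ℤ) κ} (hf : Function.Injective f) : Function.Injective (LL (G := G) f) :=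
  hf

/-- The slice of degree `a`. -/
noncomputable def slice (a : ℤ) :
    MonoidAlgebra ℤ (G × Multiplicative ℤ) →+ MonoidAlgebra ℤ G where
  toFun r := MonoidAlgebra.ofCoeff (r.coeff.comapDomain (fun g => (g, Multiplicative.ofAdd a))
    (fun _ _ _ _ h => congrArg Prod.fst h))
  map_zero' := by ext h; simp
  map_add' r s := by
    ext h
    rfl

omit [Group G] in
theorem slice_coeff (a : ℤ) (r : MonoidAlgebra ℤ (G × Multiplicative ℤ)) (g : G) :
    (slice a r).coeff g = r.coeff (g, Multiplicative.ofAdd a) := rfl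

theorem slice_mul (a : ℤ) (r : MonoidAlgebra ℤ G) (s : MonoidAlgebra ℤ (G × Multiplicative ℤ)) :
    slice a (inc ℤ (MonoidHom.inl G (Multiplicative ℤ)) r * s) = r * slice a s := by
  induction r using MonoidAlgebra.induction_linear with
  | zero => simp
  | add x y hx hy => rw [map_add, add_mul, map_add, hx, hy, add_mul]
  | single h c =>
    ext g
    rw [slice_coeff, inc_single, MonoidAlgebra.coeff_single_mul_apply,
      MonoidAlgebra.coeff_single_mul_apply, slice_coeff]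
    congr 2
    ext1
    · rfl
    · simp

theorem slice_inc_zp (a b : ℤ) (r : MonoidAlgebra ℤ G) :
    slice b (inc ℤ (MonoidHom.inl G (Multiplicative ℤ)) r * zp a) = if b = a then r else 0 := by
  rw [slice_mul]
  have h1 : slice b (zp a : MonoidAlgebra ℤ (G × Multiplicative ℤ)) = if b = a then 1 else 0 := by
    classical
    ext g
    rw [slice_coeff, zp, MonoidAlgebra.coeff_single, Finsupp.single_apply]
    by_cases hab : b = a
    · subst hab
      rw [if_pos rfl, MonoidAlgebra.one_def, MonoidAlgebra.coeff_single, Finsupp.single_apply]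
      simp
    · rw [if_neg hab, if_neg]
      · simp
      · intro h
        apply hab
        exact (congrArg (fun x => x.2.toAdd) h).symm
  rw [h1]
  split_ifs
  · rw [mul_one]
  · rw [mul_zero]

/-- All slices of degrees `N, …, N + d - 1`. -/
noncomputable def slices (N : ℤ) (d : ℕ) (κ : Type) :
    LV G κ →ₗ[MonoidAlgebra ℤ G] (κ × Fin d → MonoidAlgebra ℤ G) where
  toFun y := fun k => slice (N + (k.2 : ℕ)) (asV y k.1)
  map_add' y z := by
    funext k
    exact map_add _ _ _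
  map_smul' r y := by
    funext k
    exact slice_mul _ _ _

theorem lat_free [Finite κ] {N M : ℤ} (h : N ≤ M) :
    ∃ m : ℕ, Nonempty (Qt (Lat (G := G) M κ) (Lat (G := G) N κ)
      ≃ₗ[MonoidAlgebra ℤ G] (Fin m → MonoidAlgebra ℤ G)) := by
  classical
  cases nonempty_fintype κ
  let d : ℕ := (M - N).toNat
  have hd : ((d : ℕ) : ℤ) = M - N := Int.toNat_of_nonneg (by linarith)
  have h1 := qt_of_map (slices (G := G) N d κ) (Lat (G := G) M κ) (Lat (G := G) N κ)
    (⊥ : Submodule (MonoidAlgebra ℤ G) (κ × Fin d → MonoidAlgebra ℤ G)) ⊤ ?_ ?_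
  · obtain ⟨e1⟩ := h1
    refine ⟨Fintype.card (κ × Fin d), ⟨?_⟩⟩
    have h2 : (⊥ : Submodule (MonoidAlgebra ℤ G) (κ × Fin d → MonoidAlgebra ℤ G)).submoduleOf ⊤
        = ⊥ := by
      ext x
      change x.1 ∈ (⊥ : Submodule (MonoidAlgebra ℤ G) (κ × Fin d → MonoidAlgebra ℤ G)) ↔ x ∈ ⊥
      rw [Submodule.mem_bot, Submodule.mem_bot]
      exact ⟨fun h => Subtype.ext h, fun h => congrArg Subtype.val h⟩
    exact e1.trans ((Submodule.quotEquivOfEqBot _ h2).trans (Submodule.topEquiv.trans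
      (LinearEquiv.funCongrLeft (MonoidAlgebra ℤ G) (MonoidAlgebra ℤ G)
        (Fintype.equivFin (κ × Fin d)).symm)))
  · rw [eq_top_iff]
    intro x _
    let y : LV G κ := fun j => ∑ t : Fin d,
      inc ℤ (MonoidHom.inl G (Multiplicative ℤ)) (x (j, t)) * zp (N + (t : ℕ))
    refine ⟨y, ?_, ?_⟩
    · intro j g hg
      by_contra hlt
      apply hg
      change (∑ t : Fin d, inc ℤ (MonoidHom.inl G (Multiplicative ℤ)) (x (j, t))
        * zp (N + (t : ℕ)) : MonoidAlgebra ℤ (G × Multiplicative ℤ)).coeff g = 0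
      rw [MonoidAlgebra.coeff_sum, Finsupp.finsetSum_apply]
      refine Finset.sum_eq_zero fun t _ => ?_
      rw [← zp_mul, zp_coeff]
      apply inc_coeff_of_notMem
      rintro ⟨a, ha⟩
      have h3 : (0 : ℤ) = g.2.toAdd - (N + (t : ℕ)) := congrArg (fun x => x.2.toAdd) ha
      apply hlt
      have := Int.natCast_nonneg (t : ℕ)
      linarith
    · funext k
      change slice (N + (k.2 : ℕ)) (∑ t : Fin d,
        inc ℤ (MonoidHom.inl G (Multiplicative ℤ)) (x (k.1, t)) * zp (N + (t : ℕ))) = x k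
      rw [map_sum, Finset.sum_congr rfl fun t _ => slice_inc_zp _ _ _]
      rw [Finset.sum_eq_single k.2]
      · rw [if_pos rfl]
      · intro t _ ht
        rw [if_neg]
        intro h3
        apply ht
        apply Fin.ext
        have h4 : ((k.2 : ℕ) : ℤ) = ((t : ℕ) : ℤ) := by linarith
        exact_mod_cast h4.symm
      · intro h3
        exact absurd (Finset.mem_univ _) h3
  · intro y hy
    rw [Submodule.mem_bot]
    constructor
    · intro h3
      funext k
      ext g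
      change (slice (N + (k.2 : ℕ)) (asV y k.1)).coeff g = 0
      rw [slice_coeff]
      by_contra h4
      have h5 := h3 k.1 _ h4
      change M ≤ N + ((k.2 : ℕ) : ℤ) at h5
      have h6 : ((k.2 : ℕ) : ℤ) < (d : ℤ) := by exact_mod_cast k.2.2
      linarith
    · intro h3 j g hg
      by_contra h4
      have h5 : N ≤ g.2.toAdd := hy j g hg
      apply hg
      have h6 : (g.2.toAdd - N).toNat < d := by
        have : ((g.2.toAdd - N).toNat : ℤ) = g.2.toAdd - N := Int.toNat_of_nonneg (by linarith)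
        have h7 : ((g.2.toAdd - N).toNat : ℤ) < (d : ℤ) := by
          rw [this, hd]
          linarith
        exact_mod_cast h7
      have h8 := congrArg (fun z => (z (j, ⟨_, h6⟩)).coeff g.1) h3
      change (slice (N + (((g.2.toAdd - N).toNat : ℕ) : ℤ)) (asV y j)).coeff g.1 = 0 at h8
      rw [slice_coeff, Int.toNat_of_nonneg (by linarith), add_sub_cancel] at h8
      exact h8

end Lattices

section Class

variable {G : Type u} [Group G] {ι κ μ ι' κ' : Type}

/-- The image of the standard lattice. -/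
noncomputable abbrev Im (f : F (G × Multiplicative ℤ) ι →ₗ[ZG (G × Multiplicative ℤ)]
    F (G × Multiplicative ℤ) κ) : Submodule (MonoidAlgebra ℤ G) (LV G κ) :=
  (Lat (G := G) 0 ι).map (LL f)

theorem im_comp (f : F (G × Multiplicative ℤ) ι →ₗ[ZG (G × Multiplicative ℤ)]
    F (G × Multiplicative ℤ) κ) (g : F (G × Multiplicative ℤ) κ →ₗ[ZG (G × Multiplicative ℤ)]
    F (G × Multiplicative ℤ) μ) : Im (g ∘ₗ f) = (Im f).map (LL g) := by
  ext y
  constructor
  · rintro ⟨x, hx, rfl⟩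
    exact ⟨LL f x, ⟨x, hx, rfl⟩, rfl⟩
  · rintro ⟨_, ⟨x, hx, rfl⟩, rfl⟩
    exact ⟨x, hx, rfl⟩

theorem lat_st [Finite κ] {N M : ℤ} (h : N ≤ M) :
    StFree (MonoidAlgebra ℤ G) (Qt (Lat (G := G) M κ) (Lat (G := G) N κ)) ∧
    Module.Projective (MonoidAlgebra ℤ G) (Qt (Lat (G := G) M κ) (Lat (G := G) N κ)) := by
  obtain ⟨m, ⟨e⟩⟩ := lat_free (G := G) (κ := κ) h
  exact ⟨StFree.of_equiv_fin e, Module.Projective.of_equiv e.symm⟩

theorem indep [Finite κ] (A : Submodule (MonoidAlgebra ℤ G) (LV G κ)) {N M : ℤ}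
    (hN : A ≤ Lat (G := G) N κ) (hM : A ≤ Lat (G := G) M κ)
    (h : StFree (MonoidAlgebra ℤ G) (Qt A (Lat (G := G) N κ))) :
    StFree (MonoidAlgebra ℤ G) (Qt A (Lat (G := G) M κ)) := by
  rcases le_total N M with hNM | hNM
  · obtain ⟨h1, h2⟩ := lat_st (G := G) (κ := κ) hNM
    obtain ⟨e⟩ := qt_split A _ _ hM (lat_mono hNM) h2
    exact st_left h1 (h.congr e.symm)
  · obtain ⟨h1, h2⟩ := lat_st (G := G) (κ := κ) hNM
    obtain ⟨e⟩ := qt_split A _ _ hN (lat_mono hNM) h2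
    exact (VN.StFree.prod h h1).congr e

theorem comp_qt (h : StBassProj.{u}) [Finite κ] [Finite μ]
    (f : F (G × Multiplicative ℤ) ι →ₗ[ZG (G × Multiplicative ℤ)] F (G × Multiplicative ℤ) κ)
    (g : F (G × Multiplicative ℤ) κ →ₗ[ZG (G × Multiplicative ℤ)] F (G × Multiplicative ℤ) μ)
    (hg : Function.Bijective g) {N M : ℤ} (hN : Im f ≤ Lat (G := G) N κ)
    (hM : Im g ≤ Lat (G := G) M μ) :
    Im (g ∘ₗ f) ≤ Lat (G := G) (M + N) μ ∧
    Nonempty ((Qt (Im f) (Lat (G := G) N κ) × Qt (Im g) (Lat (G := G) M μ))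
      ≃ₗ[MonoidAlgebra ℤ G] Qt (Im (g ∘ₗ f)) (Lat (G := G) (M + N) μ)) := by
  have hB : (Im g).map (LL (zm G μ N)) = (Lat (G := G) N κ).map (LL g) := by
    have h1 : Lat (G := G) N κ = (Lat (G := G) 0 κ).map (LL (zm G κ N)) := by
      rw [lat_map, zero_add]
    have h2 : (Im (zm G κ N)).map (LL g) = Im (g ∘ₗ zm G κ N) := (im_comp _ _).symm
    rw [h1, ← im_comp, zm_comm]
    exact h2.symm
  obtain ⟨e1⟩ := qt_map_inj (LL g) (LL_inj hg.1) (Im f) (Lat (G := G) N κ)
  have h2 := qt_map_inj (LL (zm G μ N)) (LL_inj (zm_bij N).1) (Im g) (Lat (G := G) M μ)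
  rw [hB, lat_map] at h2
  obtain ⟨e2⟩ := h2
  have hle1 : (Im f).map (LL g) ≤ (Lat (G := G) N κ).map (LL g) := Submodule.map_mono hN
  have hle2 : (Lat (G := G) N κ).map (LL g) ≤ Lat (G := G) (M + N) μ := by
    rw [← hB, ← lat_map]
    exact Submodule.map_mono hM
  have hp : Module.Projective (MonoidAlgebra ℤ G) (Qt (Im g) (Lat (G := G) M μ)) :=
    ((h G κ μ g hg).2 M hM).2
  have hp' : Module.Projective (MonoidAlgebra ℤ G)
      (Qt ((Lat (G := G) N κ).map (LL g)) (Lat (G := G) (M + N) μ)) :=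
    Module.Projective.of_equiv e2
  obtain ⟨e3⟩ := qt_split _ _ _ hle1 hle2 hp'
  rw [im_comp]
  exact ⟨hle1.trans hle2, ⟨(LinearEquiv.prodCongr e1 e2).trans e3⟩⟩

theorem bg_comp (h : StBassProj.{u}) [Finite κ] [Finite μ]
    (f : F (G × Multiplicative ℤ) ι →ₗ[ZG (G × Multiplicative ℤ)] F (G × Multiplicative ℤ) κ)
    (g : F (G × Multiplicative ℤ) κ →ₗ[ZG (G × Multiplicative ℤ)] F (G × Multiplicative ℤ) μ)
    (hf : BG f) (hg : BG g) : BG (g ∘ₗ f) := by
  obtain ⟨hfb, N, hN, hfs⟩ := hf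
  obtain ⟨hgb, M, hM, hgs⟩ := hg
  obtain ⟨h1, ⟨e⟩⟩ := comp_qt h f g hgb hN hM
  exact ⟨hgb.comp hfb, M + N, h1, (VN.StFree.prod hfs hgs).congr e⟩

theorem bg_left (h : StBassProj.{u}) [Finite κ] [Finite μ]
    (f : F (G × Multiplicative ℤ) ι →ₗ[ZG (G × Multiplicative ℤ)] F (G × Multiplicative ℤ) κ)
    (g : F (G × Multiplicative ℤ) κ →ₗ[ZG (G × Multiplicative ℤ)] F (G × Multiplicative ℤ) μ)
    (hgf : BG (g ∘ₗ f)) (hf : BG f) : BG g := by
  obtain ⟨hfb, N, hN, hfs⟩ := hf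
  obtain ⟨hgfb, P, hP, hgfs⟩ := hgf
  have hgb : Function.Bijective g := (Function.Bijective.of_comp_iff g hfb).1 hgfb
  obtain ⟨M, hM⟩ := (h G κ μ g hgb).1
  obtain ⟨h1, ⟨e⟩⟩ := comp_qt h f g hgb hN hM
  exact ⟨hgb, M, hM, st_right hfs ((indep _ hP h1 hgfs).congr e.symm)⟩

theorem bg_right (h : StBassProj.{u}) [Finite ι] [Finite κ] [Finite μ]
    (f : F (G × Multiplicative ℤ) ι →ₗ[ZG (G × Multiplicative ℤ)] F (G × Multiplicative ℤ) κ)
    (g : F (G × Multiplicative ℤ) κ →ₗ[ZG (G × Multiplicative ℤ)] F (G × Multiplicative ℤ) μ)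
    (hgf : BG (g ∘ₗ f)) (hg : BG g) : BG f := by
  obtain ⟨hgb, M, hM, hgs⟩ := hg
  obtain ⟨hgfb, P, hP, hgfs⟩ := hgf
  have hfb : Function.Bijective f := by
    refine ⟨fun x y hxy => hgfb.1 (congrArg g hxy), fun y => ?_⟩
    obtain ⟨x, hx⟩ := hgfb.2 (g y)
    exact ⟨x, hgb.1 hx⟩
  obtain ⟨N, hN⟩ := (h G ι κ f hfb).1
  obtain ⟨h1, ⟨e⟩⟩ := comp_qt h f g hgb hN hM
  exact ⟨hfb, N, hN, st_left hgs ((indep _ hP h1 hgfs).congr e.symm)⟩

theorem bg_of_im (f : F (G × Multiplicative ℤ) ι →ₗ[ZG (G × Multiplicative ℤ)]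
    F (G × Multiplicative ℤ) κ) (hf : Function.Bijective f) (N : ℤ)
    (h0 : Im f = Lat (G := G) N κ) : BG f := by
  have h1 : StFree (MonoidAlgebra ℤ G) (Qt (Im f) (Lat (G := G) N κ)) := by
    rw [h0]
    exact st_qt_self _
  exact ⟨hf, N, h0.le, h1⟩

theorem bg_zm (a : ℤ) : BG (zm G κ a) := by
  refine bg_of_im _ (zm_bij a) a ?_
  have h1 := lat_map (G := G) a 0 κ
  rw [zero_add] at h1
  exact h1

theorem bg_perm (e : ι ≃ κ) :
    BG (LinearMap.funLeft (ZG (G × Multiplicative ℤ)) (ZG (G × Multiplicative ℤ)) e.symm) := by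
  refine bg_of_im _ ⟨fun x y hxy => ?_, fun y => ⟨fun i => y (e i), ?_⟩⟩ 0 ?_
  · funext i
    have h1 := congrFun hxy (e i)
    change x (e.symm (e i)) = y (e.symm (e i)) at h1
    rwa [e.symm_apply_apply] at h1
  · funext j
    change y (e (e.symm j)) = y j
    rw [e.apply_symm_apply]
  · ext y
    constructor
    · rintro ⟨x, hx, rfl⟩ j g hg
      exact hx (e.symm j) g hg
    · intro hy
      refine ⟨fun i => asV y (e i), fun i g hg => hy (e i) g hg, ?_⟩
      funext j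
      change asV y (e (e.symm j)) = y j
      rw [e.apply_symm_apply]

theorem blk_apply (f : F (G × Multiplicative ℤ) ι →ₗ[ZG (G × Multiplicative ℤ)]
    F (G × Multiplicative ℤ) ι') (c : F (G × Multiplicative ℤ) ι →ₗ[ZG (G × Multiplicative ℤ)]
    F (G × Multiplicative ℤ) κ') (g : F (G × Multiplicative ℤ) κ →ₗ[ZG (G × Multiplicative ℤ)]
    F (G × Multiplicative ℤ) κ') (x : F (G × Multiplicative ℤ) ι) (y : F (G × Multiplicative ℤ) κ) :
    blk f c g (Sum.elim x y) = Sum.elim (f x) (c x + g y) := rfl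

theorem elim_eta (z : F (G × Multiplicative ℤ) (ι ⊕ κ)) :
    Sum.elim (z ∘ Sum.inl) (z ∘ Sum.inr) = z := Sum.elim_comp_inl_inr z

theorem elim_mem {N : ℤ} {x : LV G ι} {y : LV G κ} (hx : x ∈ Lat (G := G) N ι)
    (hy : y ∈ Lat (G := G) N κ) :
    (Sum.elim (asV x) (asV y) : LV G (ι ⊕ κ)) ∈ Lat (G := G) N (ι ⊕ κ) := by
  rintro (j | j) g hg
  · exact hx j g hg
  · exact hy j g hg

/-- The first projection. -/
noncomputable def p1 (G : Type u) [Group G] (ι κ : Type) :
    LV G (ι ⊕ κ) →ₗ[MonoidAlgebra ℤ G] LV G ι :=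
  LL (LinearMap.funLeft (ZG (G × Multiplicative ℤ)) (ZG (G × Multiplicative ℤ)) Sum.inl)

/-- The second projection. -/
noncomputable def p2 (G : Type u) [Group G] (ι κ : Type) :
    LV G (ι ⊕ κ) →ₗ[MonoidAlgebra ℤ G] LV G κ :=
  LL (LinearMap.funLeft (ZG (G × Multiplicative ℤ)) (ZG (G × Multiplicative ℤ)) Sum.inr)

theorem p1_apply (z : LV G (ι ⊕ κ)) : p1 G ι κ z = (asV z) ∘ Sum.inl := rfl

theorem p2_apply (z : LV G (ι ⊕ κ)) : p2 G ι κ z = (asV z) ∘ Sum.inr := rfl

theorem p1_mem {N : ℤ} {z : LV G (ι ⊕ κ)} (hz : z ∈ Lat (G := G) N (ι ⊕ κ)) :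
    p1 G ι κ z ∈ Lat (G := G) N ι := fun j g hg => hz (Sum.inl j) g hg

theorem p2_mem {N : ℤ} {z : LV G (ι ⊕ κ)} (hz : z ∈ Lat (G := G) N (ι ⊕ κ)) :
    p2 G ι κ z ∈ Lat (G := G) N κ := fun j g hg => hz (Sum.inr j) g hg

theorem blk0_qt (f : F (G × Multiplicative ℤ) ι →ₗ[ZG (G × Multiplicative ℤ)]
    F (G × Multiplicative ℤ) ι') (g : F (G × Multiplicative ℤ) κ →ₗ[ZG (G × Multiplicative ℤ)]
    F (G × Multiplicative ℤ) κ') {N : ℤ} (hf : Im f ≤ Lat (G := G) N ι')
    (hg : Im g ≤ Lat (G := G) N κ')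
    (hp : Module.Projective (MonoidAlgebra ℤ G) (Qt (Im f) (Lat (G := G) N ι'))) :
    Im (blk f 0 g) ≤ Lat (G := G) N (ι' ⊕ κ') ∧
    Nonempty ((Qt (Im g) (Lat (G := G) N κ') × Qt (Im f) (Lat (G := G) N ι'))
      ≃ₗ[MonoidAlgebra ℤ G] Qt (Im (blk f 0 g)) (Lat (G := G) N (ι' ⊕ κ'))) := by
  let C : Submodule (MonoidAlgebra ℤ G) (LV G (ι' ⊕ κ')) := Lat (G := G) N (ι' ⊕ κ')
  let B : Submodule (MonoidAlgebra ℤ G) (LV G (ι' ⊕ κ')) := C ⊓ (Im f).comap (p1 G ι' κ')
  have hBC : B ≤ C := inf_le_left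
  have hAB : Im (blk f 0 g) ≤ B := by
    rintro _ ⟨z, hz, rfl⟩
    have hz1 : LL f (p1 G ι κ z) ∈ Im f := ⟨_, p1_mem hz, rfl⟩
    have hz2 : LL g (p2 G ι κ z) ∈ Im g := ⟨_, p2_mem hz, rfl⟩
    have h1 : (LL (blk f 0 g) z : LV G (ι' ⊕ κ'))
        = Sum.elim (asV (LL f (p1 G ι κ z))) (asV (LL g (p2 G ι κ z))) := by
      change Sum.elim (f (asV z ∘ Sum.inl)) ((0 : F (G × Multiplicative ℤ) ι
        →ₗ[ZG (G × Multiplicative ℤ)] F (G × Multiplicative ℤ) κ') (asV z ∘ Sum.inl)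
          + g (asV z ∘ Sum.inr)) = _
      rw [LinearMap.zero_apply, zero_add]
      rfl
    rw [h1]
    exact ⟨elim_mem (hf hz1) (hg hz2), hz1⟩
  have e1 := qt_of_map (p1 G ι' κ') B C (Im f) (Lat (G := G) N ι') (by
    ext y
    constructor
    · rintro ⟨x, hx, rfl⟩
      exact p1_mem hx
    · intro hy
      exact ⟨(Sum.elim (asV y) 0 : F (G × Multiplicative ℤ) (ι' ⊕ κ')),
        elim_mem hy (Submodule.zero_mem (Lat (G := G) N κ')), rfl⟩)
    (fun x hx => ⟨fun h => h.2, fun h => ⟨hx, h⟩⟩)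
  have e2 := qt_of_map (p2 G ι' κ') (Im (blk f 0 g)) B (Im g) (Lat (G := G) N κ') (by
    ext y
    constructor
    · rintro ⟨x, hx, rfl⟩
      exact p2_mem hx.1
    · intro hy
      exact ⟨(Sum.elim 0 (asV y) : F (G × Multiplicative ℤ) (ι' ⊕ κ')),
        ⟨elim_mem (Submodule.zero_mem (Lat (G := G) N ι')) hy, (Im f).zero_mem⟩, rfl⟩)
    (fun x hx => by
      constructor
      · rintro ⟨z, hz, rfl⟩
        refine ⟨p2 G ι κ z, p2_mem hz, ?_⟩
        change g (asV z ∘ Sum.inr) = (0 : F (G × Multiplicative ℤ) ι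
          →ₗ[ZG (G × Multiplicative ℤ)] F (G × Multiplicative ℤ) κ') (asV z ∘ Sum.inl)
          + g (asV z ∘ Sum.inr)
        rw [LinearMap.zero_apply, zero_add]
      · rintro ⟨x2, hx2, h2⟩
        obtain ⟨x1, hx1, h1⟩ := hx.2
        refine ⟨(Sum.elim (asV x1) (asV x2) : F (G × Multiplicative ℤ) (ι ⊕ κ)),
          elim_mem hx1 hx2, ?_⟩
        change Sum.elim (f (asV x1)) ((0 : F (G × Multiplicative ℤ) ι
          →ₗ[ZG (G × Multiplicative ℤ)] F (G × Multiplicative ℤ) κ') (asV x1)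
            + g (asV x2)) = x
        rw [LinearMap.zero_apply, zero_add]
        change f (asV x1) = asV x ∘ Sum.inl at h1
        change g (asV x2) = asV x ∘ Sum.inr at h2
        rw [h1, h2]
        exact elim_eta (asV x))
  obtain ⟨e1⟩ := e1
  obtain ⟨e2⟩ := e2
  have hp' : Module.Projective (MonoidAlgebra ℤ G) (Qt B C) := Module.Projective.of_equiv e1.symm
  obtain ⟨e3⟩ := qt_split _ _ _ hAB hBC hp'
  exact ⟨hAB.trans hBC, ⟨(LinearEquiv.prodCongr e2.symm e1.symm).trans e3⟩⟩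

theorem blk0_bij (f : F (G × Multiplicative ℤ) ι →ₗ[ZG (G × Multiplicative ℤ)]
    F (G × Multiplicative ℤ) ι') (g : F (G × Multiplicative ℤ) κ →ₗ[ZG (G × Multiplicative ℤ)]
    F (G × Multiplicative ℤ) κ') (c : F (G × Multiplicative ℤ) ι →ₗ[ZG (G × Multiplicative ℤ)]
    F (G × Multiplicative ℤ) κ') (hf : Function.Bijective f) (hg : Function.Bijective g) :
    Function.Bijective (blk f c g) := by
  constructor
  · intro x y hxy
    rw [← elim_eta x, ← elim_eta y, blk_apply, blk_apply] at hxy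
    have h1 : f (x ∘ Sum.inl) = f (y ∘ Sum.inl) := by
      funext j
      exact congrFun hxy (Sum.inl j)
    have h2 := hf.1 h1
    have h3 : c (x ∘ Sum.inl) + g (x ∘ Sum.inr) = c (y ∘ Sum.inl) + g (y ∘ Sum.inr) := by
      funext j
      exact congrFun hxy (Sum.inr j)
    rw [h2] at h3
    have h4 := hg.1 (add_left_cancel h3)
    rw [← elim_eta x, ← elim_eta y, h2, h4]
  · intro z
    obtain ⟨x, hx⟩ := hf.2 (z ∘ Sum.inl)
    obtain ⟨y, hy⟩ := hg.2 (z ∘ Sum.inr - c x)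
    refine ⟨Sum.elim x y, ?_⟩
    rw [blk_apply, hx, hy, add_sub_cancel, elim_eta]

theorem bg_blk0 (h : StBassProj.{u}) [Finite ι] [Finite ι'] [Finite κ']
    (f : F (G × Multiplicative ℤ) ι →ₗ[ZG (G × Multiplicative ℤ)]
    F (G × Multiplicative ℤ) ι') (g : F (G × Multiplicative ℤ) κ →ₗ[ZG (G × Multiplicative ℤ)]
    F (G × Multiplicative ℤ) κ') (hf : BG f) (hg : BG g) : BG (blk f 0 g) := by
  obtain ⟨hfb, N, hN, hfs⟩ := hf
  obtain ⟨hgb, M, hM, hgs⟩ := hg
  have hN' : Im f ≤ Lat (G := G) (min N M) ι' := le_trans hN (lat_mono (min_le_left _ _))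
  have hM' : Im g ≤ Lat (G := G) (min N M) κ' := le_trans hM (lat_mono (min_le_right _ _))
  obtain ⟨h1, ⟨e⟩⟩ := blk0_qt f g hN' hM' (((h G ι ι' f hfb).2 _ hN').2)
  exact ⟨blk0_bij f g 0 hfb hgb, min N M, h1,
    (VN.StFree.prod (indep _ hM hM' hgs) (indep _ hN hN' hfs)).congr e⟩

theorem im_id : Im (LinearMap.id : F (G × Multiplicative ℤ) κ →ₗ[ZG (G × Multiplicative ℤ)]
    F (G × Multiplicative ℤ) κ) = Lat (G := G) 0 κ := by
  ext y
  constructor
  · rintro ⟨x, hx, rfl⟩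
    exact hx
  · intro hy
    exact ⟨y, hy, rfl⟩

theorem bg_id : BG (LinearMap.id : F (G × Multiplicative ℤ) κ →ₗ[ZG (G × Multiplicative ℤ)]
    F (G × Multiplicative ℤ) κ) :=
  bg_of_im _ Function.bijective_id 0 im_id

theorem bg_unst (h : StBassProj.{u}) [Finite ι] [Finite ι'] [Finite κ]
    (f : F (G × Multiplicative ℤ) ι →ₗ[ZG (G × Multiplicative ℤ)]
    F (G × Multiplicative ℤ) ι')
    (hf : BG (blk f 0 (LinearMap.id : F (G × Multiplicative ℤ) κ →ₗ[ZG (G × Multiplicative ℤ)]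
      F (G × Multiplicative ℤ) κ))) : BG f := by
  obtain ⟨hb, P, hP, hs⟩ := hf
  have hfb : Function.Bijective f := by
    constructor
    · intro x y hxy
      have h1 : (Sum.elim x 0 : F (G × Multiplicative ℤ) (ι ⊕ κ)) = Sum.elim y 0 := by
        apply hb.1
        rw [blk_apply, blk_apply, hxy]
        rfl
      funext i
      exact congrFun h1 (Sum.inl i)
    · intro y
      obtain ⟨z, hz⟩ := hb.2 (Sum.elim y 0)
      refine ⟨z ∘ Sum.inl, ?_⟩
      funext j
      exact congrFun hz (Sum.inl j)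
  obtain ⟨N, hN⟩ := (h G ι ι' f hfb).1
  have hN' : Im f ≤ Lat (G := G) (min N 0) ι' := le_trans hN (lat_mono (min_le_left _ _))
  have hM' : Im (LinearMap.id : F (G × Multiplicative ℤ) κ →ₗ[ZG (G × Multiplicative ℤ)]
      F (G × Multiplicative ℤ) κ) ≤ Lat (G := G) (min N 0) κ := by
    rw [im_id]
    exact lat_mono (min_le_right _ _)
  obtain ⟨h1, ⟨e⟩⟩ := blk0_qt f (LinearMap.id : F (G × Multiplicative ℤ) κ
    →ₗ[ZG (G × Multiplicative ℤ)] F (G × Multiplicative ℤ) κ) hN' hM'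
    (((h G ι ι' f hfb).2 _ hN').2)
  have h2 : StFree (MonoidAlgebra ℤ G) (Qt (Im (LinearMap.id : F (G × Multiplicative ℤ) κ
      →ₗ[ZG (G × Multiplicative ℤ)] F (G × Multiplicative ℤ) κ)) (Lat (G := G) (min N 0) κ)) := by
    rw [im_id]
    exact (lat_st (min_le_right _ _)).1
  exact ⟨hfb, min N 0, hN', st_right h2 ((indep _ hP h1 hs).congr e.symm)⟩

theorem bg_elem (h : StBassProj.{u}) [Finite ι] [Finite κ]
    (c : F (G × Multiplicative ℤ) ι →ₗ[ZG (G × Multiplicative ℤ)] F (G × Multiplicative ℤ) κ) :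
    BG (blk (LinearMap.id : F (G × Multiplicative ℤ) ι →ₗ[ZG (G × Multiplicative ℤ)]
      F (G × Multiplicative ℤ) ι) c LinearMap.id) := by
  have hE : Function.Bijective (blk (LinearMap.id : F (G × Multiplicative ℤ) ι
      →ₗ[ZG (G × Multiplicative ℤ)] F (G × Multiplicative ℤ) ι) c
      (LinearMap.id : F (G × Multiplicative ℤ) κ →ₗ[ZG (G × Multiplicative ℤ)]
      F (G × Multiplicative ℤ) κ)) :=
    blk0_bij _ _ _ Function.bijective_id Function.bijective_id
  obtain ⟨N, hN⟩ := (h G _ _ _ hE).1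
  have hc : ∀ x ∈ Lat (G := G) 0 ι, LL c x ∈ Lat (G := G) N κ := by
    intro x hx
    have h1 : LL (blk (LinearMap.id : F (G × Multiplicative ℤ) ι
      →ₗ[ZG (G × Multiplicative ℤ)] F (G × Multiplicative ℤ) ι) c
      (LinearMap.id : F (G × Multiplicative ℤ) κ →ₗ[ZG (G × Multiplicative ℤ)]
      F (G × Multiplicative ℤ) κ)) (Sum.elim (asV x) 0 : F (G × Multiplicative ℤ) (ι ⊕ κ))
        ∈ Lat (G := G) N (ι ⊕ κ) :=
      hN ⟨_, elim_mem hx (Submodule.zero_mem (Lat (G := G) 0 κ)), rfl⟩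
    have h2 := p2_mem h1
    have h3 : p2 G ι κ (LL (blk (LinearMap.id : F (G × Multiplicative ℤ) ι
      →ₗ[ZG (G × Multiplicative ℤ)] F (G × Multiplicative ℤ) ι) c
      (LinearMap.id : F (G × Multiplicative ℤ) κ →ₗ[ZG (G × Multiplicative ℤ)]
      F (G × Multiplicative ℤ) κ)) (Sum.elim (asV x) 0 : F (G × Multiplicative ℤ) (ι ⊕ κ)))
        = LL c x := by
      change c (asV x) + 0 = c (asV x)
      rw [add_zero]
    rwa [h3] at h2
  let c' : F (G × Multiplicative ℤ) ι →ₗ[ZG (G × Multiplicative ℤ)] F (G × Multiplicative ℤ) κ :=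
    zm G κ (-N) ∘ₗ c
  have hc' : ∀ x ∈ Lat (G := G) 0 ι, LL c' x ∈ Lat (G := G) 0 κ := by
    intro x hx
    have h1 : LL (zm G κ (-N)) (LL c x) ∈ Lat (G := G) (N + -N) κ := zm_mem.2 (hc x hx)
    rwa [add_neg_cancel] at h1
  have hE' : BG (blk (LinearMap.id : F (G × Multiplicative ℤ) ι →ₗ[ZG (G × Multiplicative ℤ)]
      F (G × Multiplicative ℤ) ι) c' LinearMap.id) := by
    refine bg_of_im _ (blk0_bij _ _ _ Function.bijective_id Function.bijective_id) 0 ?_
    ext y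
    constructor
    · rintro ⟨x, hx, rfl⟩
      have h1 : (LL (blk (LinearMap.id : F (G × Multiplicative ℤ) ι
        →ₗ[ZG (G × Multiplicative ℤ)] F (G × Multiplicative ℤ) ι) c'
        (LinearMap.id : F (G × Multiplicative ℤ) κ →ₗ[ZG (G × Multiplicative ℤ)]
        F (G × Multiplicative ℤ) κ)) x : LV G (ι ⊕ κ))
          = Sum.elim (asV (p1 G ι κ x)) (asV (LL c' (p1 G ι κ x) + p2 G ι κ x)) := rfl
      rw [h1]
      exact elim_mem (p1_mem hx) (Submodule.add_mem _ (hc' _ (p1_mem hx)) (p2_mem hx))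
    · intro hy
      refine ⟨(Sum.elim (asV (p1 G ι κ y)) (asV (p2 G ι κ y - LL c' (p1 G ι κ y)))
        : F (G × Multiplicative ℤ) (ι ⊕ κ)),
        elim_mem (p1_mem hy) (Submodule.sub_mem _ (p2_mem hy) (hc' _ (p1_mem hy))), ?_⟩
      change Sum.elim (asV y ∘ Sum.inl) (c' (asV y ∘ Sum.inl)
        + (asV y ∘ Sum.inr - c' (asV y ∘ Sum.inl))) = asV y
      rw [add_sub_cancel, elim_eta]
  have hD : BG (blk (LinearMap.id : F (G × Multiplicative ℤ) ι →ₗ[ZG (G × Multiplicative ℤ)]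
      F (G × Multiplicative ℤ) ι) 0 (zm G κ (-N))) := bg_blk0 h _ _ bg_id (bg_zm _)
  refine bg_right h _ _ ?_ hD
  have hcomm : blk (LinearMap.id : F (G × Multiplicative ℤ) ι →ₗ[ZG (G × Multiplicative ℤ)]
      F (G × Multiplicative ℤ) ι) 0 (zm G κ (-N)) ∘ₗ
      blk (LinearMap.id : F (G × Multiplicative ℤ) ι →ₗ[ZG (G × Multiplicative ℤ)]
      F (G × Multiplicative ℤ) ι) c LinearMap.id
      = blk (LinearMap.id : F (G × Multiplicative ℤ) ι →ₗ[ZG (G × Multiplicative ℤ)]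
      F (G × Multiplicative ℤ) ι) c' LinearMap.id ∘ₗ
      blk (LinearMap.id : F (G × Multiplicative ℤ) ι →ₗ[ZG (G × Multiplicative ℤ)]
      F (G × Multiplicative ℤ) ι) 0 (zm G κ (-N)) := by
    refine LinearMap.ext fun z => ?_
    rw [← elim_eta z]
    change Sum.elim (z ∘ Sum.inl) ((0 : F (G × Multiplicative ℤ) ι →ₗ[ZG (G × Multiplicative ℤ)]
      F (G × Multiplicative ℤ) κ) (z ∘ Sum.inl)
        + zm G κ (-N) (c (z ∘ Sum.inl) + z ∘ Sum.inr))
      = Sum.elim (z ∘ Sum.inl) (zm G κ (-N) (c (z ∘ Sum.inl))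
        + ((0 : F (G × Multiplicative ℤ) ι →ₗ[ZG (G × Multiplicative ℤ)]
      F (G × Multiplicative ℤ) κ) (z ∘ Sum.inl) + zm G κ (-N) (z ∘ Sum.inr)))
    rw [LinearMap.zero_apply, zero_add, zero_add, map_add]
  rw [hcomm]
  exact bg_comp h _ _ hD hE'

theorem bg_tri (h : StBassProj.{u}) [Finite ι] [Finite κ] [Finite ι'] [Finite κ']
    (f : F (G × Multiplicative ℤ) ι →ₗ[ZG (G × Multiplicative ℤ)]
    F (G × Multiplicative ℤ) ι') (c : F (G × Multiplicative ℤ) ι →ₗ[ZG (G × Multiplicative ℤ)]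
    F (G × Multiplicative ℤ) κ') (g : F (G × Multiplicative ℤ) κ →ₗ[ZG (G × Multiplicative ℤ)]
    F (G × Multiplicative ℤ) κ') (hf : BG f) (hg : BG g) : BG (blk f c g) := by
  let e := LinearEquiv.ofBijective f hf.1
  have h1 : blk f c g = blk (LinearMap.id : F (G × Multiplicative ℤ) ι'
      →ₗ[ZG (G × Multiplicative ℤ)] F (G × Multiplicative ℤ) ι') (c ∘ₗ e.symm.toLinearMap)
      LinearMap.id ∘ₗ blk f 0 g := by
    refine LinearMap.ext fun z => ?_
    rw [← elim_eta z]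
    change Sum.elim (f (z ∘ Sum.inl)) (c (z ∘ Sum.inl) + g (z ∘ Sum.inr))
      = Sum.elim (f (z ∘ Sum.inl)) (c (e.symm (e (z ∘ Sum.inl)))
        + ((0 : F (G × Multiplicative ℤ) ι →ₗ[ZG (G × Multiplicative ℤ)]
      F (G × Multiplicative ℤ) κ') (z ∘ Sum.inl) + g (z ∘ Sum.inr)))
    rw [LinearMap.zero_apply, zero_add, e.symm_apply_apply]
  rw [h1]
  exact bg_comp h _ _ (bg_blk0 h f g hf hg) (bg_elem h _)

end Class

end BassC

universe u

theorem stBassClass (h : StBassProj.{u}) : StBassClass.{u} := by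
  intro G _
  exact ⟨{ G := fun f => BG f
           bij := fun f hf => hf.1
           comp := fun f g hf hg => BassC.bg_comp h f g hf hg
           left := fun f g hgf hf => BassC.bg_left h f g hgf hf
           right := fun f g hgf hg => BassC.bg_right h f g hgf hg
           perm := fun e => BassC.bg_perm e
           tri := fun f c g hf hg => BassC.bg_tri h f c g hf hg
           unst := fun f hf => BassC.bg_unst h f hf }, fun ι κ Φ => Iff.rfl⟩

end Pool.Agent.Lib.MP_551055_al.LS
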