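import Pool.Agent.Lib.MP_551055_al.LS.FinalR
import Pool.Agent.Lib.MP_551055_al.LS.PStmts

/-!
# Long segments: the closure theorem
-/

set_option autoImplicit false

namespace Pool.Agent.Lib.MP_551055_al.LS

open Pool.Agent.Lib.MP_551055_al
open Pool.Agent.Lib.MP_551055_al.Red (Img)

/-- `D` is poly-`ℤ`, or all group rings `ℤ[D × ℤ^m]` are regular coherent. -/
def Small (D : Type) [Group D] : Prop :=
  PolyZ D ∨ ∀ m : ℕ, RegCoh (MonoidAlgebra ℤ (D × ZN m))

theorem Small.regCoh (hP : StPFin) {D : Type} [Group D] (h : Small D) (m : ℕ) :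
    RegCoh (MonoidAlgebra ℤ (D × ZN m)) := by
  rcases h with h | h
  · intro M _ _ hM
    exact (hP D h m).2 M inferInstance
  · exact h m

/-- `ℤ^n × ℤ = ℤ^(n+1)`. -/
def znSucc (D : Type) [Group D] (n : ℕ) : (D × ZN n) × Multiplicative ℤ ≃* D × ZN (n + 1) where
  toFun x := (x.1.1, Multiplicative.ofAdd (Fin.snoc (α := fun _ => ℤ) x.1.2.toAdd x.2.toAdd))
  invFun y := ((y.1, Multiplicative.ofAdd fun i => y.2.toAdd i.castSucc),
    Multiplicative.ofAdd (y.2.toAdd (Fin.last n)))
  left_inv x := by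
    refine Prod.ext (Prod.ext rfl ?_) ?_
    · change Multiplicative.ofAdd (fun i : Fin n =>
        Fin.snoc (α := fun _ => ℤ) x.1.2.toAdd x.2.toAdd i.castSucc) = x.1.2
      simp only [Fin.snoc_castSucc]
      rfl
    · change Multiplicative.ofAdd (Fin.snoc (α := fun _ => ℤ) x.1.2.toAdd x.2.toAdd (Fin.last n)) = x.2
      rw [Fin.snoc_last]
      rfl
  right_inv y := by
    refine Prod.ext rfl ?_
    change Multiplicative.ofAdd (Fin.snoc (α := fun _ => ℤ) (fun i : Fin n => y.2.toAdd i.castSucc)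
      (y.2.toAdd (Fin.last n))) = y.2
    have h := Fin.snoc_init_self (α := fun _ => ℤ) y.2.toAdd
    exact congrArg Multiplicative.ofAdd h
  map_mul' x y := by
    refine Prod.ext rfl ?_
    change Multiplicative.ofAdd (Fin.snoc (α := fun _ => ℤ) (x.1.2.toAdd + y.1.2.toAdd)
      (x.2.toAdd + y.2.toAdd)) = Multiplicative.ofAdd
      (Fin.snoc (α := fun _ => ℤ) x.1.2.toAdd x.2.toAdd + Fin.snoc (α := fun _ => ℤ) y.1.2.toAdd y.2.toAdd)
    congr 1
    funext i
    refine Fin.lastCases ?_ (fun j => ?_) i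
    · simp
    · simp

/-- The closure theorem. -/
theorem closure_trees (hF : StFinalR.{0, 0}) (hP : StPFin) (n : ℕ) (G : Type) [Group G] (V : Type)
    [MulAction G V] (T : SimpleGraph V) (hT : TreeAct G V T)
    (hv : ∀ v : V, VN.ProjStFree (MulAction.stabilizer G v × ZN n))
    (he : ∀ u v, T.Adj u v → VN.ProjStFree (MulAction.stabilizer G (u, v) × ZN (n + 1)))
    (hx : ∀ x : ℕ → V, (∀ k, T.Adj (x k) (x (k + 1))) → (∀ k, x k ≠ x (k + 2)) →
      ∃ k, 1 ≤ k ∧ Small (MulAction.stabilizer G (x 0, x k))) :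
    VN.ProjStFree (G × ZN n) := by
  let _ : MulAction (G × ZN n) V := MulAction.compHom V (MonoidHom.fst G (ZN n))
  have hsmul : ∀ (γ : G × ZN n) (x : V), γ • x = γ.1 • x := fun _ _ => rfl
  have hT' : TreeAct (G × ZN n) V T :=
    { tree := hT.tree
      adj := fun γ a b hab => hT.adj γ.1 a b hab
      inv := fun γ a b hab h => hT.inv γ.1 a b hab h }
  -- stabilisers
  have hst1 : ∀ a : V, Nonempty (MulAction.stabilizer G a × ZN n ≃*
      MulAction.stabilizer (G × ZN n) a) := by
    intro a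
    exact ⟨{ toFun := fun γ => ⟨(γ.1.1, γ.2), γ.1.2⟩
             invFun := fun γ => (⟨γ.1.1, γ.2⟩, γ.1.2)
             left_inv := fun _ => rfl
             right_inv := fun _ => rfl
             map_mul' := fun _ _ => rfl }⟩
  have hst2 : ∀ a : V × V, Nonempty (MulAction.stabilizer G a × ZN n ≃*
      MulAction.stabilizer (G × ZN n) a) := by
    intro a
    exact ⟨{ toFun := fun γ => ⟨(γ.1.1, γ.2), γ.1.2⟩
             invFun := fun γ => (⟨γ.1.1, γ.2⟩, γ.1.2)
             left_inv := fun _ => rfl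
             right_inv := fun _ => rfl
             map_mul' := fun _ _ => rfl }⟩
  have hst3 : ∀ a : V × V, Nonempty (MulAction.stabilizer G a × ZN (n + 1) ≃*
      MulAction.stabilizer (G × ZN n) a × Multiplicative ℤ) := by
    intro a
    obtain ⟨e⟩ := hst2 a
    exact ⟨(znSucc (MulAction.stabilizer G a) n).symm.trans
      (MulEquiv.prodCongr e (MulEquiv.refl (Multiplicative ℤ)))⟩
  refine hF (G × ZN n) V T hT' (fun v => ?_) (fun u v huv => ?_) (fun x hx1 hx2 => ?_)
  · obtain ⟨e⟩ := hst1 v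
    exact projStFree_congr e (hv v)
  · obtain ⟨e⟩ := hst3 (u, v)
    exact projStFree_congr e (he u v huv)
  · obtain ⟨k, hk, h⟩ := hx x hx1 hx2
    refine ⟨k, hk, ?_⟩
    have hsw : MulAction.stabilizer G (x 0, x k) = MulAction.stabilizer G (x k, x 0) := by
      ext γ
      rw [MulAction.mem_stabilizer_iff, MulAction.mem_stabilizer_iff]
      constructor
      · intro h
        exact Prod.ext (congrArg Prod.snd h) (congrArg Prod.fst h)
      · intro h
        exact Prod.ext (congrArg Prod.snd h) (congrArg Prod.fst h)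
    have h1 := h.regCoh hP (n + 1)
    rw [hsw] at h1
    obtain ⟨e⟩ := hst3 (x k, x 0)
    exact RegCoh.congr (MonoidAlgebra.mapDomainRingEquiv ℤ e) h1

/-- Unions. -/
theorem closure_union (n : ℕ) (G : Type) [Group G]
    (h : ∀ s : Finset G, ∃ H : Subgroup G, (s : Set G) ⊆ H ∧ VN.ProjStFree (H × ZN n)) :
    VN.ProjStFree (G × ZN n) := by
  classical
  apply Red.stIdem
  intro m M hM
  let s : Finset G := Finset.univ.biUnion fun i => Finset.univ.biUnion fun j =>
    (M i j).coeff.support.image Prod.fst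
  obtain ⟨H, hsH, hH⟩ := h s
  let φ : H × ZN n →* G × ZN n := MonoidHom.prodMap H.subtype (MonoidHom.id _)
  have hφ : Function.Injective φ := by
    rintro ⟨a, b⟩ ⟨a', b'⟩ hab
    have h1 : (a : G) = a' := congrArg Prod.fst hab
    have h2 : b = b' := congrArg Prod.snd hab
    rw [Subtype.ext h1, h2]
  have hex : ∀ i j, ∃ r : MonoidAlgebra ℤ (H × ZN n), inc ℤ φ r = M i j := by
    intro i j
    refine ⟨prj ℤ φ hφ (M i j), ?_⟩
    ext g
    by_cases hg : g ∈ Set.range φ
    · obtain ⟨h', rfl⟩ := hg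
      rw [inc_coeff_apply φ hφ, prj_coeff]
    · rw [inc_coeff_of_notMem φ _ g hg]
      by_contra hne
      apply hg
      have h1 : g.1 ∈ s := by
        refine Finset.mem_biUnion.2 ⟨i, Finset.mem_univ i, Finset.mem_biUnion.2
          ⟨j, Finset.mem_univ j, Finset.mem_image.2 ⟨g, Finsupp.mem_support_iff.2 (Ne.symm hne), rfl⟩⟩⟩
      exact ⟨(⟨g.1, hsH h1⟩, g.2), rfl⟩
  choose M₀ hM₀ using hex
  have hmap : (Matrix.of M₀).map (inc ℤ φ) = M := by
    ext1 i j
    exact hM₀ i j
  have hinj : Function.Injective (inc ℤ φ) := inc_injective φ hφ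
  have hid : (Matrix.of M₀) * (Matrix.of M₀) = Matrix.of M₀ := by
    apply Matrix.map_injective hinj
    change (Matrix.of M₀ * Matrix.of M₀).map (inc ℤ φ) = (Matrix.of M₀).map (inc ℤ φ)
    rw [Matrix.map_mul, hmap, hM]
  have hproj : Module.Projective (MonoidAlgebra ℤ (H × ZN n)) (Img (Matrix.of M₀)) := by
    have hid' : ∀ y ∈ Img (Matrix.of M₀), Matrix.toLinearMapRight' (Matrix.of M₀) y = y := by
      rintro _ ⟨y, rfl⟩
      rw [← Matrix.toLinearMapRight'_mul_apply, hid]
    refine Module.Projective.of_split (Img (Matrix.of M₀)).subtype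
      (LinearMap.rangeRestrict (Matrix.toLinearMapRight' (Matrix.of M₀))) ?_
    ext1 y
    exact Subtype.ext (hid' y y.2)
  have h1 : StFree (MonoidAlgebra ℤ (H × ZN n)) (Img (Matrix.of M₀)) :=
    hH (Img (Matrix.of M₀)) (Module.Finite.range _) hproj
  have h2 := stFree_map (inc ℤ φ) (Matrix.of M₀) hid h1
  rw [hmap] at h2
  exact h2

end Pool.Agent.Lib.MP_551055_al.LS
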