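import Pool.Agent.Lib.MP_551055_al.LS.Stmts

/-!
# Basic properties of modules with finite resolutions
-/

set_option autoImplicit false

namespace Pool.Agent.Lib.MP_551055_al.LS

open Pool.Agent.Lib.MP_551055_al

universe u

variable {R : Type u} [Ring R]

theorem FFR.congr {d : ℕ} {M N : Type u} [AddCommGroup M] [Module R M] [AddCommGroup N]
    [Module R N] (e : M ≃ₗ[R] N) (h : FFR R d M) : FFR R d N := by
  cases d with
  | zero =>
    obtain ⟨h1, h2⟩ := h
    exact ⟨Module.Finite.equiv e, Module.Projective.of_equiv e⟩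
  | succ d =>
    obtain ⟨n, f, hf, hk⟩ := h
    refine ⟨n, e.toLinearMap ∘ₗ f, e.surjective.comp hf, ?_⟩
    rw [LinearMap.ker_comp_of_ker_eq_bot f (LinearEquiv.ker e)]
    exact hk

theorem FFR.finite {d : ℕ} {M : Type u} [AddCommGroup M] [Module R M] (h : FFR R d M) :
    Module.Finite R M := by
  cases d with
  | zero => exact h.1
  | succ d =>
    obtain ⟨n, f, hf, hk⟩ := h
    exact Module.Finite.of_surjective f hf

theorem FFR.succ {d : ℕ} : ∀ {M : Type u} [AddCommGroup M] [Module R M], FFR R d M →
    FFR R (d + 1) M := by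
  induction d with
  | zero =>
    intro M _ _ h
    obtain ⟨h1, h2⟩ := h
    obtain ⟨n, f, hf⟩ := Module.Finite.exists_fin' R M
    refine ⟨n, f, hf, ?_⟩
    obtain ⟨s, hs⟩ := Module.projective_lifting_property f LinearMap.id hf
    have hs' : ∀ m, f (s m) = m := fun m => DFunLike.congr_fun hs m
    -- the kernel is a direct summand
    let q : (Fin n → R) →ₗ[R] LinearMap.ker f :=
      LinearMap.codRestrict (LinearMap.ker f) (LinearMap.id - s ∘ₗ f) fun y => by
        rw [LinearMap.mem_ker, LinearMap.sub_apply, map_sub, LinearMap.comp_apply, hs',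
          LinearMap.id_apply, sub_self]
    have hq : q ∘ₗ (LinearMap.ker f).subtype = LinearMap.id := by
      ext1 y
      apply Subtype.ext
      change (y : Fin n → R) - s (f y) = y
      rw [LinearMap.mem_ker.1 y.2, map_zero, sub_zero]
    exact ⟨Module.Finite.of_surjective q fun y => ⟨y, DFunLike.congr_fun hq y⟩,
      Module.Projective.of_split _ q hq⟩
  | succ d ih =>
    intro M _ _ h
    obtain ⟨n, f, hf, hk⟩ := h
    exact ⟨n, f, hf, ih hk⟩

theorem FFR.mono {d d' : ℕ} (hd : d ≤ d') {M : Type u} [AddCommGroup M] [Module R M]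
    (h : FFR R d M) : FFR R d' M := by
  induction hd with
  | refl => exact h
  | step _ ih => exact ih.succ

theorem stFFRMono : StFFRMono.{u} := fun _ _ _ _ _ _ _ hd h => h.mono hd

/-- The zero module. -/
theorem FFR.of_subsingleton (d : ℕ) {M : Type u} [AddCommGroup M] [Module R M]
    [Subsingleton M] : FFR R d M := by
  have h0 : FFR R 0 M :=
    ⟨Module.Finite.of_surjective (0 : R →ₗ[R] M) fun y => ⟨0, Subsingleton.elim _ _⟩,
      Module.Projective.of_free⟩
  exact h0.mono (Nat.zero_le d)

/-- The free module of finite rank may be replaced by one with a finite index type. -/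
theorem FFR.of_surj {d : ℕ} {M : Type u} [AddCommGroup M] [Module R M] {ι : Type} [Finite ι]
    (f : (ι → R) →ₗ[R] M) (hf : Function.Surjective f) (h : FFR R d (LinearMap.ker f)) :
    FFR R (d + 1) M := by
  have := Fintype.ofFinite ι
  let e : (Fin (Fintype.card ι) → R) ≃ₗ[R] (ι → R) :=
    LinearEquiv.funCongrLeft R R (Fintype.equivFin ι)
  refine ⟨Fintype.card ι, f ∘ₗ e.toLinearMap, hf.comp e.surjective, ?_⟩
  have hk : LinearMap.ker (f ∘ₗ e.toLinearMap) = (LinearMap.ker f).comap e.toLinearMap :=
    LinearMap.ker_comp _ _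
  let e' : LinearMap.ker (f ∘ₗ e.toLinearMap) ≃ₗ[R] LinearMap.ker f :=
    e.ofSubmodules _ _ (by
      rw [hk]
      exact Submodule.map_comap_eq_of_surjective e.surjective _)
  exact h.congr e'.symm

end Pool.Agent.Lib.MP_551055_al.LS
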