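import Pool.Agent.Lib.MP_551055_al.LS.Pos

/-!
# The position of a basis vector, for any decidability instance
-/

set_option autoImplicit false

namespace Pool.Agent.Lib.MP_551055_al.LS

open Pool.Agent.Lib.MP_551055_al

universe u v w

theorem in_single {Γ : Type u} [Group Γ] {X : Type v} [MulAction Γ X] {ι : Type} [DecidableEq ι]
    (p : ι → X) (i : ι) : In p {p i} (Pi.single i 1 : F Γ ι) := by
  rw [in_iff]
  intro k γ hne
  by_cases hk : k = i
  · subst hk
    rw [Pi.single_eq_same, MonoidAlgebra.one_def, MonoidAlgebra.coeff_single] at hne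
    have h1 : γ = 1 := by
      by_contra h
      exact hne (Finsupp.single_eq_of_ne h)
    rw [h1, one_smul]
    rfl
  · rw [Pi.single_eq_of_ne hk] at hne
    exact absurd rfl hne

theorem single_any {M : Type u} [Zero M] {ι : Type} (d d' : DecidableEq ι) (i : ι) (c : M) :
    @Pi.single ι (fun _ => M) _ d i c = @Pi.single ι (fun _ => M) _ d' i c :=
  congrArg (fun e => @Pi.single ι (fun _ => M) _ e i c) (Subsingleton.elim d d')

theorem tr_of_basis' {Γ : Type u} [Group Γ] {X : Type v} [MulAction Γ X] {Y : Type w}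
    [MulAction Γ Y] {ι κ : Type} [DecidableEq ι] [Finite ι] {r : X → Y → Prop} {p : ι → X}
    {q : κ → Y} {f : F Γ ι →ₗ[ZG Γ] F Γ κ} (hr : ∀ (γ : Γ) a b, r a b → r (γ • a) (γ • b))
    (h : ∀ i, In q {b | r (p i) b} (f (Pi.single i 1))) : Tr r p q f := by
  refine tr_of_basis hr fun i => ?_
  have h1 := h i
  rw [single_any _ (fun a b => Classical.propDecidable (a = b))] at h1
  exact h1

end Pool.Agent.Lib.MP_551055_al.LS
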