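import Pool.Agent.Lib.MP_551055_al.LS.Stmts

/-!
# Module K1a: conjugation invariance and `1 + ab`, `1 + ba`
-/

set_option autoImplicit false

namespace Pool.Agent.Lib.MP_551055_al.LS

universe u

namespace K1a

section

variable {S : Type u} [Ring S] {ι κ ι' κ' : Type}

theorem blk_apply (f : (ι → S) →ₗ[S] (ι' → S)) (c : (ι → S) →ₗ[S] (κ' → S))
    (g : (κ → S) →ₗ[S] (κ' → S)) (y : ι ⊕ κ → S) :
    blk f c g y = Sum.elim (f (y ∘ Sum.inl)) (c (y ∘ Sum.inl) + g (y ∘ Sum.inr)) := rfl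

/-- The upper triangular map `(x, y) ↦ (f x + b y, g y)`. -/
noncomputable def upm (f : (ι → S) →ₗ[S] (ι' → S)) (b : (κ → S) →ₗ[S] (ι' → S))
    (g : (κ → S) →ₗ[S] (κ' → S)) : (ι ⊕ κ → S) →ₗ[S] (ι' ⊕ κ' → S) :=
  LinearMap.funLeft S S (Equiv.sumComm κ' ι').symm ∘ₗ blk g b f ∘ₗ
    LinearMap.funLeft S S (Equiv.sumComm ι κ).symm

theorem upm_apply (f : (ι → S) →ₗ[S] (ι' → S)) (b : (κ → S) →ₗ[S] (ι' → S))
    (g : (κ → S) →ₗ[S] (κ' → S)) (y : ι ⊕ κ → S) :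
    upm f b g y = Sum.elim (b (y ∘ Sum.inr) + f (y ∘ Sum.inl)) (g (y ∘ Sum.inr)) := by
  funext j
  rcases j with j | j
  · rfl
  · rfl

variable (K : K1C S)

theorem one_mem [Finite ι] : K.G (LinearMap.id : (ι → S) →ₗ[S] (ι → S)) :=
  K.perm (Equiv.refl ι)

theorem upm_mem [Finite ι] [Finite κ] [Finite ι'] [Finite κ']
    (f : (ι → S) →ₗ[S] (ι' → S)) (b : (κ → S) →ₗ[S] (ι' → S)) (g : (κ → S) →ₗ[S] (κ' → S))
    (hf : K.G f) (hg : K.G g) : K.G (upm f b g) :=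
  K.comp _ _ (K.comp _ _ (K.perm (Equiv.sumComm ι κ)) (K.tri g b f hg hf))
    (K.perm (Equiv.sumComm κ' ι'))

/-- Stabilisation on the left. -/
theorem unst' [Finite ι] [Finite κ] [Finite ι'] (f : (ι → S) →ₗ[S] (ι' → S))
    (h : K.G (blk (LinearMap.id : (κ → S) →ₗ[S] (κ → S)) 0 f)) : K.G f := by
  have h1 : K.G (LinearMap.funLeft S S (Equiv.sumComm κ ι').symm ∘ₗ
      blk (LinearMap.id : (κ → S) →ₗ[S] (κ → S)) 0 f ∘ₗ
      LinearMap.funLeft S S (Equiv.sumComm ι κ).symm) :=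
    K.comp _ _ (K.comp _ _ (K.perm (Equiv.sumComm ι κ)) h) (K.perm (Equiv.sumComm κ ι'))
  have h2 : LinearMap.funLeft S S (Equiv.sumComm κ ι').symm ∘ₗ
      blk (LinearMap.id : (κ → S) →ₗ[S] (κ → S)) 0 f ∘ₗ
      LinearMap.funLeft S S (Equiv.sumComm ι κ).symm
      = blk f 0 (LinearMap.id : (κ → S) →ₗ[S] (κ → S)) := by
    refine LinearMap.ext fun y => ?_
    rw [blk_apply]
    change _ = Sum.elim (f (y ∘ Sum.inl)) (0 + y ∘ Sum.inr)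
    rw [zero_add]
    funext j
    rcases j with j | j
    · change (0 + f (y ∘ Sum.inl)) j = f (y ∘ Sum.inl) j
      rw [zero_add]
    · rfl
  rw [h2] at h1
  exact K.unst f h1

end

end K1a

theorem stConj : StConj.{u} := by
  intro S _ K ι κ _ _ f h hf
  let L : (ι ⊕ κ → S) →ₗ[S] (ι ⊕ κ → S) := blk LinearMap.id h.toLinearMap LinearMap.id
  let U : (ι ⊕ κ → S) →ₗ[S] (ι ⊕ κ → S) :=
    K1a.upm LinearMap.id (-h.symm.toLinearMap) LinearMap.id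
  have hL : K.G L := K.tri _ _ _ (K1a.one_mem K) (K1a.one_mem K)
  have hU : K.G U := K1a.upm_mem K _ _ _ (K1a.one_mem K) (K1a.one_mem K)
  have hW : K.G (L ∘ₗ U ∘ₗ L) := K.comp _ _ (K.comp _ _ hL hU) hL
  have hWa : ∀ y : ι ⊕ κ → S, (L ∘ₗ U ∘ₗ L) y
      = Sum.elim (-(h.symm (y ∘ Sum.inr))) (h (y ∘ Sum.inl)) := by
    intro y
    have e1 : L y = Sum.elim (y ∘ Sum.inl) (h (y ∘ Sum.inl) + y ∘ Sum.inr) := rfl
    have e2 : U (L y) = Sum.elim (-(h.symm (y ∘ Sum.inr))) (h (y ∘ Sum.inl) + y ∘ Sum.inr) := by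
      rw [e1]
      change K1a.upm _ _ _ _ = _
      rw [K1a.upm_apply]
      rw [Sum.elim_comp_inr, Sum.elim_comp_inl]
      change Sum.elim (-(h.symm (h (y ∘ Sum.inl) + y ∘ Sum.inr)) + y ∘ Sum.inl)
        (h (y ∘ Sum.inl) + y ∘ Sum.inr) = _
      congr 1
      rw [map_add, LinearEquiv.symm_apply_apply]
      abel
    change L (U (L y)) = _
    rw [e2]
    change blk _ _ _ _ = _
    rw [K1a.blk_apply, Sum.elim_comp_inr, Sum.elim_comp_inl]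
    change Sum.elim (-(h.symm (y ∘ Sum.inr)))
        (h (-(h.symm (y ∘ Sum.inr))) + (h (y ∘ Sum.inl) + y ∘ Sum.inr)) = _
    congr 1
    rw [map_neg, LinearEquiv.apply_symm_apply]
    abel
  let D1 : (ι ⊕ κ → S) →ₗ[S] (ι ⊕ κ → S) := blk f 0 LinearMap.id
  let D2 : (ι ⊕ κ → S) →ₗ[S] (ι ⊕ κ → S) :=
    blk LinearMap.id 0 (h.toLinearMap ∘ₗ f ∘ₗ h.symm.toLinearMap)
  have hD1 : K.G D1 := K.tri _ _ _ hf (K1a.one_mem K)
  have hc : D2 ∘ₗ (L ∘ₗ U ∘ₗ L) = (L ∘ₗ U ∘ₗ L) ∘ₗ D1 := by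
    refine LinearMap.ext fun y => ?_
    change D2 ((L ∘ₗ U ∘ₗ L) y) = (L ∘ₗ U ∘ₗ L) (D1 y)
    rw [hWa, hWa]
    change blk _ _ _ _ = _
    rw [K1a.blk_apply, Sum.elim_comp_inr, Sum.elim_comp_inl]
    have e3 : D1 y ∘ Sum.inl = f (y ∘ Sum.inl) := rfl
    have e4 : D1 y ∘ Sum.inr = 0 + y ∘ Sum.inr := rfl
    rw [e3, e4, zero_add]
    change Sum.elim (-(h.symm (y ∘ Sum.inr))) (0 + h (f (h.symm (h (y ∘ Sum.inl))))) = _
    rw [zero_add, LinearEquiv.symm_apply_apply]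
  have hD2 : K.G D2 := by
    refine K.left (L ∘ₗ U ∘ₗ L) D2 ?_ hW
    rw [hc]
    exact K.comp _ _ hD1 hW
  exact K1a.unst' K _ hD2

theorem stSwap : StSwap.{u} := by
  intro S _ K ι κ _ _ a b hab
  -- `id + a b` is an endomorphism of `S^κ`
  let T2 : (ι ⊕ κ → S) →ₗ[S] (ι ⊕ κ → S) := K1a.upm LinearMap.id b (LinearMap.id + a ∘ₗ b)
  let L' : (ι ⊕ κ → S) →ₗ[S] (ι ⊕ κ → S) := blk LinearMap.id (-a) LinearMap.id
  let U : (ι ⊕ κ → S) →ₗ[S] (ι ⊕ κ → S) := K1a.upm LinearMap.id b LinearMap.id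
  let T1 : (ι ⊕ κ → S) →ₗ[S] (ι ⊕ κ → S) := blk (LinearMap.id + b ∘ₗ a) (-a) LinearMap.id
  have hT2 : K.G T2 := K1a.upm_mem K _ _ _ (K1a.one_mem K) hab
  have hL' : K.G L' := K.tri _ _ _ (K1a.one_mem K) (K1a.one_mem K)
  have hU : K.G U := K1a.upm_mem K _ _ _ (K1a.one_mem K) (K1a.one_mem K)
  have hM : L' ∘ₗ T2 = U ∘ₗ T1 := by
    refine LinearMap.ext fun y => ?_
    have e1 : T2 y = Sum.elim (b (y ∘ Sum.inr) + y ∘ Sum.inl)
        (y ∘ Sum.inr + a (b (y ∘ Sum.inr))) := by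
      change K1a.upm _ _ _ _ = _
      rw [K1a.upm_apply]
      rfl
    have e2 : T1 y = Sum.elim (y ∘ Sum.inl + b (a (y ∘ Sum.inl)))
        (-(a (y ∘ Sum.inl)) + y ∘ Sum.inr) := rfl
    rw [LinearMap.comp_apply, LinearMap.comp_apply, e1, e2]
    change blk _ _ _ _ = K1a.upm _ _ _ _
    rw [K1a.blk_apply, K1a.upm_apply, Sum.elim_comp_inr, Sum.elim_comp_inl,
      Sum.elim_comp_inr, Sum.elim_comp_inl]
    change Sum.elim (b (y ∘ Sum.inr) + y ∘ Sum.inl)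
        (-(a (b (y ∘ Sum.inr) + y ∘ Sum.inl)) + (y ∘ Sum.inr + a (b (y ∘ Sum.inr))))
      = Sum.elim (b (-(a (y ∘ Sum.inl)) + y ∘ Sum.inr) + (y ∘ Sum.inl + b (a (y ∘ Sum.inl))))
        (-(a (y ∘ Sum.inl)) + y ∘ Sum.inr)
    congr 1
    · simp only [map_add, map_neg]
      abel
    · simp only [map_add]
      abel
  have hT1 : K.G T1 := by
    refine K.right T1 U ?_ hU
    rw [← hM]
    exact K.comp _ _ hT2 hL'
  have hT1' : T1 = blk (LinearMap.id + b ∘ₗ a) 0 LinearMap.id ∘ₗ L' := by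
    refine LinearMap.ext fun y => ?_
    change blk _ _ _ _ = blk _ _ _ (blk _ _ _ _)
    rw [K1a.blk_apply, K1a.blk_apply, K1a.blk_apply, Sum.elim_comp_inr, Sum.elim_comp_inl]
    congr 1
    change _ = 0 + (-(a (y ∘ Sum.inl)) + y ∘ Sum.inr)
    rw [zero_add]
    rfl
  have h5 : K.G (blk (LinearMap.id + b ∘ₗ a) 0 (LinearMap.id : (κ → S) →ₗ[S] (κ → S))) := by
    refine K.left L' _ ?_ hL'
    rw [← hT1']
    exact hT1
  exact K.unst _ h5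

end Pool.Agent.Lib.MP_551055_al.LS
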