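import Pool.Agent.Lib.MP_551055_al.Red.Orb

/-!
# Positions

Free modules `F Γ ι = ι → ℤ[Γ]` carry positions: the basis vector `e_i` is placed at `p i` in a
`Γ`-set `X`, hence `γ e_i` at `γ • p i`.
-/

set_option autoImplicit false

namespace Pool.Agent.Lib.MP_551055_al.LS

open Pool.Agent.Lib.MP_551055_al
open Pool.Agent.Lib.MP_551055_al.Red (res res_coeff res_single_mul Vec)
open MonoidAlgebra

universe u v w z

/-- The integral group ring. -/
abbrev ZG (Γ : Type u) [Group Γ] : Type u := MonoidAlgebra ℤ Γ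

/-- The free module on `ι`. -/
abbrev F (Γ : Type u) [Group Γ] (ι : Type) : Type u := ι → MonoidAlgebra ℤ Γ

variable {Γ : Type u} [Group Γ] {X : Type v} {Y : Type w} [MulAction Γ X] [MulAction Γ Y]
variable {ι κ μ : Type}

/-- The part of `y` at the positions in `P`. -/
noncomputable def pr (p : ι → X) (P : Set X) : F Γ ι →+ F Γ ι where
  toFun y := fun i => res {γ : Γ | γ • p i ∈ P} (y i)
  map_zero' := by
    funext i
    exact map_zero _
  map_add' y z := by
    funext i
    exact map_add _ _ _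

/-- All positions of `y` are in `P`. -/
def In (p : ι → X) (P : Set X) (y : F Γ ι) : Prop := pr p P y = y

/-- `f` moves a position `a` to positions `b` with `r a b`. -/
def Tr (r : X → Y → Prop) (p : ι → X) (q : κ → Y) (f : F Γ ι →ₗ[ZG Γ] F Γ κ) : Prop :=
  ∀ (P : Set X) (y : F Γ ι), In p P y → In q {b | ∃ a ∈ P, r a b} (f y)

/-- `f` preserves positions. -/
def Gr (p : ι → X) (q : κ → X) (f : F Γ ι →ₗ[ZG Γ] F Γ κ) : Prop :=
  ∀ (P : Set X) (y : F Γ ι), f (pr p P y) = pr q P (f y)

open Classical in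
theorem pr_coeff (p : ι → X) (P : Set X) (y : F Γ ι) (i : ι) (γ : Γ) :
    (pr p P y i).coeff γ = if γ • p i ∈ P then (y i).coeff γ else 0 := by
  change (res {γ : Γ | γ • p i ∈ P} (y i)).coeff γ = _
  rw [res_coeff]
  rfl

theorem F_ext {y z : F Γ ι} (h : ∀ i γ, (y i).coeff γ = (z i).coeff γ) : y = z := by
  funext i
  ext γ
  exact h i γ

theorem in_iff {p : ι → X} {P : Set X} {y : F Γ ι} :
    In p P y ↔ ∀ i γ, (y i).coeff γ ≠ 0 → γ • p i ∈ P := by
  classical
  constructor
  · intro h i γ hne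
    by_contra hn
    apply hne
    rw [← h, pr_coeff, if_neg hn]
  · intro h
    refine F_ext fun i γ => ?_
    rw [pr_coeff]
    split_ifs with h1
    · rfl
    · by_contra hne
      exact h1 (h i γ (Ne.symm hne))

theorem pr_pr (p : ι → X) (P Q : Set X) (y : F Γ ι) : pr p P (pr p Q y) = pr p (P ∩ Q) y := by
  classical
  refine F_ext fun i γ => ?_
  rw [pr_coeff, pr_coeff, pr_coeff]
  by_cases h1 : γ • p i ∈ P
  · by_cases h2 : γ • p i ∈ Q
    · rw [if_pos h1, if_pos h2, if_pos (Set.mem_inter h1 h2)]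
    · rw [if_pos h1, if_neg h2, if_neg fun h => h2 h.2]
  · rw [if_neg h1, if_neg fun h => h1 h.1]

theorem pr_univ (p : ι → X) (y : F Γ ι) : pr p Set.univ y = y := in_iff.2 fun _ _ _ => trivial

theorem pr_empty (p : ι → X) (y : F Γ ι) : pr p ∅ y = 0 := by
  classical
  refine F_ext fun i γ => ?_
  rw [pr_coeff, if_neg (Set.notMem_empty _)]
  rfl

theorem pr_union (p : ι → X) {P Q : Set X} (h : Disjoint P Q) (y : F Γ ι) :
    pr p (P ∪ Q) y = pr p P y + pr p Q y := by
  classical
  refine F_ext fun i γ => ?_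
  rw [Pi.add_apply, coeff_add, Finsupp.add_apply, pr_coeff, pr_coeff, pr_coeff]
  by_cases h1 : γ • p i ∈ P
  · have h2 : γ • p i ∉ Q := fun h2 => (Set.disjoint_left.1 h) h1 h2
    rw [if_pos (Set.mem_union_left Q h1), if_pos h1, if_neg h2, add_zero]
  · by_cases h2 : γ • p i ∈ Q
    · rw [if_pos (Set.mem_union_right P h2), if_neg h1, if_pos h2, zero_add]
    · rw [if_neg (fun h3 => h3.elim h1 h2), if_neg h1, if_neg h2, add_zero]

theorem pr_add_compl (p : ι → X) (P : Set X) (y : F Γ ι) : pr p P y + pr p Pᶜ y = y := by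
  rw [← pr_union p disjoint_compl_right, Set.union_compl_self, pr_univ]

theorem In.eq {p : ι → X} {P : Set X} {y : F Γ ι} (h : In p P y) : pr p P y = y := h

theorem in_pr (p : ι → X) (P : Set X) (y : F Γ ι) : In p P (pr p P y) := by
  unfold In
  rw [pr_pr, Set.inter_self]

theorem In.mono {p : ι → X} {P Q : Set X} {y : F Γ ι} (h : In p P y) (hPQ : P ⊆ Q) : In p Q y :=
  in_iff.2 fun i γ hne => hPQ (in_iff.1 h i γ hne)

theorem In.zero (p : ι → X) (P : Set X) : In p P (0 : F Γ ι) := map_zero _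

theorem In.add {p : ι → X} {P : Set X} {y z : F Γ ι} (h : In p P y) (h' : In p P z) :
    In p P (y + z) := by
  unfold In
  rw [map_add, h.eq, h'.eq]

theorem In.neg {p : ι → X} {P : Set X} {y : F Γ ι} (h : In p P y) : In p P (-y) := by
  unfold In
  rw [map_neg, h.eq]

theorem In.sub {p : ι → X} {P : Set X} {y z : F Γ ι} (h : In p P y) (h' : In p P z) :
    In p P (y - z) := by
  unfold In
  rw [map_sub, h.eq, h'.eq]

theorem In.sum {p : ι → X} {P : Set X} {α : Type z} {s : Finset α} {f : α → F Γ ι}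
    (h : ∀ a ∈ s, In p P (f a)) : In p P (∑ a ∈ s, f a) := by
  unfold In
  rw [map_sum]
  exact Finset.sum_congr rfl fun a ha => (h a ha).eq

theorem In.pr_inter {p : ι → X} {P Q : Set X} {y : F Γ ι} (h : In p Q y) :
    In p (P ∩ Q) (pr p P y) := by
  classical
  refine in_iff.2 fun i γ hne => ?_
  rw [pr_coeff] at hne
  by_cases h1 : γ • p i ∈ P
  · rw [if_pos h1] at hne
    exact ⟨h1, in_iff.1 h i γ hne⟩
  · rw [if_neg h1] at hne
    exact absurd rfl hne

/-- The parts of `y` at `P` and at `P ∩ Q` agree if all positions of `y` are in `Q`. -/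
theorem In.pr_congr {p : ι → X} {P P' Q : Set X} {y : F Γ ι} (h : In p Q y)
    (hP : ∀ x ∈ Q, x ∈ P ↔ x ∈ P') : pr p P y = pr p P' y := by
  have h1 : P ∩ Q = P' ∩ Q := by
    ext x
    exact ⟨fun h1 => ⟨(hP x h1.2).1 h1.1, h1.2⟩, fun h1 => ⟨(hP x h1.2).2 h1.1, h1.2⟩⟩
  rw [← h.eq, pr_pr, pr_pr, h1]

theorem In.pr_eq_zero {p : ι → X} {P Q : Set X} {y : F Γ ι} (h : In p Q y) (hd : Disjoint P Q) :
    pr p P y = 0 := by
  rw [← h.eq, pr_pr, hd.inter_eq, pr_empty]

theorem In.eq_zero {p : ι → X} {P Q : Set X} {y : F Γ ι} (h : In p P y) (h' : In p Q y)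
    (hd : Disjoint P Q) : y = 0 := by
  rw [← h.eq]
  exact h'.pr_eq_zero hd

open Classical in
/-- The finitely many positions of `y`. -/
theorem exists_finset [Finite ι] (p : ι → X) (y : F Γ ι) : ∃ s : Finset X, In p (s : Set X) y := by
  have := Fintype.ofFinite ι
  refine ⟨Finset.univ.biUnion fun i => (y i).coeff.support.image fun γ => γ • p i, ?_⟩
  refine in_iff.2 fun i γ hne => ?_
  rw [Finset.mem_coe, Finset.mem_biUnion]
  exact ⟨i, Finset.mem_univ i, Finset.mem_image.2 ⟨γ, Finsupp.mem_support_iff.2 hne, rfl⟩⟩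

theorem sum_pr (p : ι → X) (s : Finset X) (y : F Γ ι) :
    ∑ x ∈ s, pr p {x} y = pr p (s : Set X) y := by
  classical
  induction s using Finset.induction_on with
  | empty => rw [Finset.sum_empty, Finset.coe_empty, pr_empty]
  | insert a s ha ih =>
    rw [Finset.sum_insert ha, ih, Finset.coe_insert, Set.insert_eq, pr_union]
    exact Set.disjoint_singleton_left.2 fun h => ha (Finset.mem_coe.1 h)

/-- Every vector is a finite sum of vectors with one position. -/
theorem exists_sum_pr [Finite ι] (p : ι → X) (y : F Γ ι) :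
    ∃ s : Finset X, In p (s : Set X) y ∧ y = ∑ x ∈ s, pr p {x} y := by
  obtain ⟨s, hs⟩ := exists_finset p y
  exact ⟨s, hs, by rw [sum_pr, hs.eq]⟩

theorem pr_eq_zero_of_forall {p : ι → X} {P : Set X} {y : F Γ ι} (h : ∀ x ∈ P, pr p {x} y = 0) :
    pr p P y = 0 := by
  classical
  refine F_ext fun i γ => ?_
  rw [pr_coeff]
  split_ifs with h1
  · have h2 : (pr p {γ • p i} y i).coeff γ = 0 := by rw [h _ h1]; rfl
    rwa [pr_coeff, if_pos (Set.mem_singleton _)] at h2
  · rfl

theorem eq_zero_of_pr {p : ι → X} {y : F Γ ι} (h : ∀ x, pr p {x} y = 0) : y = 0 := by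
  rw [← pr_univ p y]
  exact pr_eq_zero_of_forall fun x _ => h x

theorem pr_ext {p : ι → X} {y z : F Γ ι} (h : ∀ x, pr p {x} y = pr p {x} z) : y = z := by
  rw [← sub_eq_zero]
  apply eq_zero_of_pr (p := p)
  intro x
  rw [map_sub, h x, sub_self]

theorem in_of_forall {p : ι → X} {P : Set X} {y : F Γ ι} (h : ∀ x, x ∉ P → pr p {x} y = 0) :
    In p P y := by
  have h1 : pr p Pᶜ y = 0 := pr_eq_zero_of_forall fun x hx => h x hx
  have h2 := pr_add_compl p P y
  rwa [h1, add_zero] at h2

theorem single_smul_coeff (γ g : Γ) (c : ℤ) (y : F Γ ι) (i : ι) :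
    (((single γ c : ZG Γ) • y) i).coeff g = c * (y i).coeff (γ⁻¹ * g) := by
  change (single γ c * y i).coeff g = _
  rw [coeff_single_mul_apply]

theorem pr_smul (p : ι → X) (P : Set X) (γ : Γ) (c : ℤ) (y : F Γ ι) :
    pr p P ((single γ c : ZG Γ) • y) = (single γ c : ZG Γ) • pr p {x | γ • x ∈ P} y := by
  classical
  refine F_ext fun i g => ?_
  rw [pr_coeff, single_smul_coeff, single_smul_coeff, pr_coeff]
  have h : γ • (γ⁻¹ * g) • p i = g • p i := by rw [smul_smul, mul_inv_cancel_left]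
  by_cases h1 : g • p i ∈ P
  · rw [if_pos h1, if_pos]
    change γ • (γ⁻¹ * g) • p i ∈ P
    rwa [h]
  · rw [if_neg h1, if_neg, mul_zero]
    change ¬ (γ • (γ⁻¹ * g) • p i ∈ P)
    rwa [h]

theorem pr_smul_singleton (p : ι → X) (x : X) (γ : Γ) (c : ℤ) (y : F Γ ι) :
    pr p {γ • x} ((single γ c : ZG Γ) • y) = (single γ c : ZG Γ) • pr p {x} y := by
  rw [pr_smul]
  congr 3
  ext a
  exact smul_left_cancel_iff γ

theorem In.smul {p : ι → X} {P Q : Set X} {y : F Γ ι} (h : In p P y) (γ : Γ) (c : ℤ)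
    (hPQ : ∀ x ∈ P, γ • x ∈ Q) : In p Q ((single γ c : ZG Γ) • y) := by
  unfold In
  rw [pr_smul]
  congr 1
  exact (h.mono fun x hx => hPQ x hx).eq

theorem In.smul_singleton {p : ι → X} {x : X} {y : F Γ ι} (h : In p {x} y) (γ : Γ) (c : ℤ) :
    In p {γ • x} ((single γ c : ZG Γ) • y) :=
  h.smul γ c fun a ha => by rw [Set.mem_singleton_iff.1 ha]; exact Set.mem_singleton _

/-- Group ring elements act within additive subgroups which are invariant under `c γ`. -/
theorem smul_induction {M : Type z} [AddCommGroup M] [Module (ZG Γ) M] {Q : M → Prop} {y : M}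
    (h0 : Q 0) (ha : ∀ a b, Q a → Q b → Q (a + b)) (hs : ∀ (γ : Γ) (c : ℤ), Q ((single γ c : ZG Γ) • y))
    (s : ZG Γ) : Q (s • y) := by
  induction s using MonoidAlgebra.induction_linear with
  | zero => rwa [zero_smul]
  | add a b h1 h2 => rw [add_smul]; exact ha _ _ h1 h2
  | single γ c => exact hs γ c

theorem in_smul_of_inv {p : ι → X} {P : Set X} (hP : ∀ (γ : Γ) (x : X), x ∈ P → γ • x ∈ P)
    (s : ZG Γ) {y : F Γ ι} (h : In p P y) : In p P (s • y) :=
  smul_induction (Q := In p P) (In.zero p P) (fun _ _ => In.add) (fun γ c => h.smul γ c (hP γ)) s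

open Classical in
theorem in_basis (p : ι → X) (i : ι) (γ : Γ) (c : ℤ) :
    In p {γ • p i} (Pi.single i (single γ c) : F Γ ι) := by
  refine in_iff.2 fun j g hne => ?_
  by_cases hj : j = i
  · subst hj
    rw [Pi.single_eq_same, coeff_single, Finsupp.single_apply] at hne
    by_cases hg : γ = g
    · subst hg; exact Set.mem_singleton _
    · rw [if_neg hg] at hne
      exact absurd rfl hne
  · rw [Pi.single_eq_of_ne hj] at hne
    exact absurd rfl hne

open Classical in
theorem in_basis_one (p : ι → X) (i : ι) : In p {p i} (Pi.single i 1 : F Γ ι) := by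
  have := in_basis p i (1 : Γ) 1
  rwa [one_smul] at this

open Classical in
/-- A property of vectors holds if it holds for all `c γ e_i` and is additive. -/
theorem F_induction [Finite ι] {Q : F Γ ι → Prop} (h0 : Q 0) (ha : ∀ a b, Q a → Q b → Q (a + b))
    (hs : ∀ (i : ι) (γ : Γ) (c : ℤ), Q (Pi.single i (single γ c))) (y : F Γ ι) : Q y := by
  have := Fintype.ofFinite ι
  have h1 : y = ∑ i, Pi.single i (y i) := (Finset.univ_sum_single y).symm
  rw [h1]
  have h2 : ∀ s : Finset ι, Q (∑ i ∈ s, Pi.single i (y i)) := by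
    intro s
    induction s using Finset.induction_on with
    | empty => rwa [Finset.sum_empty]
    | insert a s has ih =>
      rw [Finset.sum_insert has]
      refine ha _ _ ?_ ih
      induction (y a) using MonoidAlgebra.induction_linear with
      | zero => rwa [Pi.single_zero]
      | add a' b h1 h2 => rw [Pi.single_add]; exact ha _ _ h1 h2
      | single γ c => exact hs a γ c
  exact h2 _

/-- Two additive maps which agree on vectors with one position are equal. -/
theorem addHom_ext [Finite ι] {M : Type z} [AddCommGroup M] (p : ι → X) {f g : F Γ ι →+ M}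
    (h : ∀ x y, In p {x} y → f y = g y) : f = g := by
  ext1 y
  obtain ⟨s, _, hs⟩ := exists_sum_pr p y
  rw [hs, map_sum, map_sum]
  exact Finset.sum_congr rfl fun x _ => h x _ (in_pr p {x} y)

theorem linearMap_ext [Finite ι] {M : Type z} [AddCommGroup M] [Module (ZG Γ) M] (p : ι → X)
    {f g : F Γ ι →ₗ[ZG Γ] M} (h : ∀ x y, In p {x} y → f y = g y) : f = g := by
  apply LinearMap.toAddMonoidHom_injective
  exact addHom_ext p h

open Classical in
/-- A family of additive maps, one for every position, defines a linear map if it is compatible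
with the action of `Γ`. -/
theorem exists_lin [Finite ι] {M : Type z} [AddCommGroup M] [Module (ZG Γ) M] (p : ι → X)
    (φ : X → (F Γ ι →+ M))
    (hφ : ∀ (γ : Γ) (x : X) (y : F Γ ι), In p {x} y →
      φ (γ • x) ((single γ 1 : ZG Γ) • y) = (single γ 1 : ZG Γ) • φ x y) :
    ∃ f : F Γ ι →ₗ[ZG Γ] M, ∀ x y, In p {x} y → f y = φ x y := by
  have := Fintype.ofFinite ι
  let f : F Γ ι →ₗ[ZG Γ] M :=
    Fintype.linearCombination (ZG Γ) fun i => φ (p i) (Pi.single i 1)
  refine ⟨f, ?_⟩
  have hc : ∀ (x : X) (c : ℤ) (y : F Γ ι), φ x (c • y) = c • φ x y := fun x c y => map_zsmul _ _ _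
  have key : ∀ (i : ι) (γ : Γ) (c : ℤ) (x : X),
      f (pr p {x} (Pi.single i (single γ c))) = φ x (pr p {x} (Pi.single i (single γ c))) := by
    intro i γ c x
    by_cases hx : γ • p i = x
    · subst hx
      rw [(in_basis p i γ c).eq]
      have h1 : (Pi.single i (single γ c) : F Γ ι) = c • ((single γ 1 : ZG Γ) • Pi.single i 1) := by
        refine F_ext fun j g => ?_
        by_cases hj : j = i
        · subst hj
          rw [Pi.single_eq_same, Pi.smul_apply, Pi.smul_apply, Pi.single_eq_same, smul_eq_mul,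
            mul_one, coeff_smul, Finsupp.smul_apply, coeff_single, coeff_single,
            Finsupp.single_apply, Finsupp.single_apply, smul_eq_mul]
          split_ifs <;> simp
        · rw [Pi.single_eq_of_ne hj, Pi.smul_apply, Pi.smul_apply, Pi.single_eq_of_ne hj,
            smul_zero, smul_zero]
      rw [h1, map_zsmul, hc, map_smul, hφ _ _ _ (in_basis_one p i)]
      congr 2
      change Fintype.linearCombination (ZG Γ) (fun i => φ (p i) (Pi.single i 1)) (Pi.single i 1) = _
      rw [Fintype.linearCombination_apply_single, one_smul]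
    · rw [(in_basis p i γ c).pr_eq_zero (Set.disjoint_singleton.2 (Ne.symm hx)), map_zero, map_zero]
  intro x y hy
  have : ∀ z : F Γ ι, f (pr p {x} z) = φ x (pr p {x} z) := by
    intro z
    induction z using F_induction with
    | h0 => rw [map_zero, map_zero, map_zero]
    | ha a b h1 h2 => rw [map_add, map_add, map_add, h1, h2]
    | hs i γ c => exact key i γ c x
  have h2 := this y
  rwa [hy.eq] at h2

/-- The part at the position `x` within a graded submodule. -/
noncomputable def prB (p : ι → X) (B : Submodule (ZG Γ) (F Γ ι))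
    (hB : ∀ P, ∀ y ∈ B, pr p P y ∈ B) (x : X) : B →+ B where
  toFun y := ⟨pr p {x} (y : F Γ ι), hB _ _ y.2⟩
  map_zero' := Subtype.ext (map_zero _)
  map_add' _ _ := Subtype.ext (map_add _ _ _)

/-- The version of `exists_lin` for graded submodules. -/
theorem exists_lin_sub [Finite ι] {M : Type z} [AddCommGroup M] [Module (ZG Γ) M] (p : ι → X)
    (B : Submodule (ZG Γ) (F Γ ι)) (hB : ∀ P, ∀ y ∈ B, pr p P y ∈ B) (φ : X → (B →+ M))
    (hφ : ∀ (γ : Γ) (x : X) (y : B), In p {x} (y : F Γ ι) →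
      φ (γ • x) ((single γ 1 : ZG Γ) • y) = (single γ 1 : ZG Γ) • φ x y) :
    ∃ f : B →ₗ[ZG Γ] M, ∀ x (y : B), In p {x} (y : F Γ ι) → f y = φ x y := by
  classical
  have hfin : ∀ y : B, (Function.support fun x => φ x (prB p B hB x y)).Finite := by
    intro y
    obtain ⟨s, hs⟩ := exists_finset p (y : F Γ ι)
    refine s.finite_toSet.subset fun x hx => ?_
    by_contra hn
    apply hx
    have h1 : prB p B hB x y = 0 :=
      Subtype.ext (hs.pr_eq_zero (Set.disjoint_singleton_left.2 hn))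
    simp only [h1, map_zero]
  have hc : ∀ (x : X) (c : ℤ) (y : B), φ x (c • y) = c • φ x y := fun x c y => map_zsmul _ _ _
  let f : B →+ M :=
    { toFun := fun y => ∑ᶠ x, φ x (prB p B hB x y)
      map_zero' := by
        simp only [map_zero, finsum_zero]
      map_add' := fun y z => by
        simp only [map_add]
        exact finsum_add_distrib (hfin y) (hfin z) }
  have hsingle : ∀ (γ : Γ) (y : B), f ((single γ 1 : ZG Γ) • y) = (single γ 1 : ZG Γ) • f y := by
    intro γ y
    change ∑ᶠ x, φ x (prB p B hB x ((single γ 1 : ZG Γ) • y)) =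
      (single γ 1 : ZG Γ) • ∑ᶠ x, φ x (prB p B hB x y)
    rw [smul_finsum' (single γ 1 : ZG Γ) (hfin y),
      ← finsum_comp_equiv (MulAction.toPerm γ : Equiv.Perm X)]
    refine finsum_congr fun x => ?_
    have h1 : prB p B hB (γ • x) ((single γ 1 : ZG Γ) • y) =
        (single γ 1 : ZG Γ) • prB p B hB x y :=
      Subtype.ext (pr_smul_singleton p x γ 1 (y : F Γ ι))
    change φ (γ • x) (prB p B hB (γ • x) ((single γ 1 : ZG Γ) • y)) = _
    rw [h1, hφ γ x _ (in_pr p {x} _)]
  have hlin : ∀ (s : ZG Γ) (y : B), f (s • y) = s • f y := by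
    intro s y
    induction s using MonoidAlgebra.induction_linear with
    | zero => rw [zero_smul, zero_smul, map_zero]
    | add a b h1 h2 => rw [add_smul, add_smul, map_add, h1, h2]
    | single γ c =>
      have h1 : (single γ c : ZG Γ) = c • (single γ 1 : ZG Γ) := by
        ext g
        rw [coeff_smul, Finsupp.smul_apply, coeff_single, coeff_single, Finsupp.single_apply,
          Finsupp.single_apply, smul_eq_mul]
        split_ifs <;> simp
      rw [h1, smul_assoc, smul_assoc, map_zsmul, hsingle]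
  refine ⟨{ toFun := f, map_add' := f.map_add, map_smul' := hlin }, fun x y hy => ?_⟩
  change ∑ᶠ x, φ x (prB p B hB x y) = φ x y
  rw [finsum_eq_single _ x]
  · have h1 : prB p B hB x y = y := Subtype.ext hy
    rw [h1]
  · intro x' hx'
    have h1 : prB p B hB x' y = 0 :=
      Subtype.ext (hy.pr_eq_zero (Set.disjoint_singleton.2 hx'))
    rw [h1, map_zero]

/-! ## Transport -/

theorem Tr.mono {r r' : X → Y → Prop} {p : ι → X} {q : κ → Y} {f : F Γ ι →ₗ[ZG Γ] F Γ κ}
    (h : Tr r p q f) (hr : ∀ a b, r a b → r' a b) : Tr r' p q f := fun P y hy =>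
  (h P y hy).mono fun _ hb => let ⟨a, ha, hab⟩ := hb; ⟨a, ha, hr _ _ hab⟩

theorem tr_of_hom [Finite ι] {r : X → Y → Prop} {p : ι → X} {q : κ → Y}
    {f : F Γ ι →ₗ[ZG Γ] F Γ κ} (h : ∀ x y, In p {x} y → In q {b | r x b} (f y)) : Tr r p q f := by
  intro P y hy
  obtain ⟨s, _, hs⟩ := exists_sum_pr p y
  rw [hs, map_sum]
  refine In.sum fun x _ => ?_
  by_cases hx : x ∈ P
  · exact (h x _ (in_pr p {x} y)).mono fun b hb => ⟨x, hx, hb⟩
  · have h0 : pr p {x} y = 0 := hy.pr_eq_zero (Set.disjoint_singleton_left.2 hx)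
    rw [h0, map_zero]
    exact In.zero _ _

theorem Tr.hom {r : X → Y → Prop} {p : ι → X} {q : κ → Y} {f : F Γ ι →ₗ[ZG Γ] F Γ κ}
    (h : Tr r p q f) {x : X} {y : F Γ ι} (hy : In p {x} y) : In q {b | r x b} (f y) :=
  (h {x} y hy).mono fun _ hb => by
    obtain ⟨a, ha, hab⟩ := hb
    rwa [Set.mem_singleton_iff.1 ha] at hab

open Classical in
theorem tr_of_basis [Finite ι] {r : X → Y → Prop} {p : ι → X} {q : κ → Y}
    {f : F Γ ι →ₗ[ZG Γ] F Γ κ} (hr : ∀ (γ : Γ) a b, r a b → r (γ • a) (γ • b))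
    (h : ∀ i, In q {b | r (p i) b} (f (Pi.single i 1))) : Tr r p q f := by
  have key : ∀ (P : Set X) (y : F Γ ι), In q {b | ∃ a ∈ P, r a b} (f (pr p P y)) := by
    intro P y
    induction y using F_induction with
    | h0 =>
      rw [map_zero, map_zero]
      exact In.zero _ _
    | ha a b h1 h2 =>
      rw [map_add, map_add]
      exact h1.add h2
    | hs i γ c =>
      by_cases hi : γ • p i ∈ P
      · rw [((in_basis p i γ c).mono (Set.singleton_subset_iff.2 hi)).eq]
        have h1 : (Pi.single i (single γ c) : F Γ ι) = (single γ c : ZG Γ) • Pi.single i 1 := by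
          rw [← Pi.single_smul, smul_eq_mul, mul_one]
        rw [h1, map_smul]
        exact (h i).smul γ c fun b hb => ⟨γ • p i, hi, hr γ _ _ hb⟩
      · rw [(in_basis p i γ c).pr_eq_zero (Set.disjoint_singleton_right.2 hi), map_zero]
        exact In.zero _ _
  intro P y hy
  have := key P y
  rwa [hy.eq] at this

theorem Tr.comp {Z : Type z} [MulAction Γ Z] {r : X → Y → Prop} {r' : Y → Z → Prop} {p : ι → X}
    {q : κ → Y} {s : μ → Z} {f : F Γ ι →ₗ[ZG Γ] F Γ κ} {g : F Γ κ →ₗ[ZG Γ] F Γ μ}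
    (h : Tr r p q f) (h' : Tr r' q s g) : Tr (fun a c => ∃ b, r a b ∧ r' b c) p s (g ∘ₗ f) :=
  fun P y hy => (h' _ _ (h P y hy)).mono fun c hc => by
    obtain ⟨b, ⟨a, ha, hab⟩, hbc⟩ := hc
    exact ⟨a, ha, b, hab, hbc⟩

theorem Tr.add {r : X → Y → Prop} {p : ι → X} {q : κ → Y} {f g : F Γ ι →ₗ[ZG Γ] F Γ κ}
    (h : Tr r p q f) (h' : Tr r p q g) : Tr r p q (f + g) := fun P y hy =>
  (h P y hy).add (h' P y hy)

theorem Gr.in {p : ι → X} {q : κ → X} {f : F Γ ι →ₗ[ZG Γ] F Γ κ} (h : Gr p q f) {P : Set X}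
    {y : F Γ ι} (hy : In p P y) : In q P (f y) := by
  unfold In
  rw [← h, hy.eq]

theorem gr_of_hom [Finite ι] {p : ι → X} {q : κ → X} {f : F Γ ι →ₗ[ZG Γ] F Γ κ}
    (h : ∀ x y, In p {x} y → In q {x} (f y)) : Gr p q f := by
  intro P y
  obtain ⟨s, _, hs⟩ := exists_sum_pr p y
  rw [hs, map_sum, map_sum, map_sum, map_sum]
  refine Finset.sum_congr rfl fun x _ => ?_
  have h1 := h x _ (in_pr p {x} y)
  by_cases hx : x ∈ P
  · have hP : ({x} : Set X) ⊆ P := Set.singleton_subset_iff.2 hx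
    rw [((in_pr p {x} y).mono hP).eq, (h1.mono hP).eq]
  · have hd : Disjoint P {x} := Set.disjoint_singleton_right.2 hx
    rw [(in_pr p {x} y).pr_eq_zero hd, h1.pr_eq_zero hd, map_zero]

theorem gr_iff_tr [Finite ι] {p : ι → X} {q : κ → X} {f : F Γ ι →ₗ[ZG Γ] F Γ κ} :
    Gr p q f ↔ Tr (fun a b => a = b) p q f := by
  constructor
  · intro h P y hy
    exact (h.in hy).mono fun x hx => ⟨x, hx, rfl⟩
  · intro h
    refine gr_of_hom fun x y hy => (h.hom hy).mono fun b hb => ?_
    exact Set.mem_singleton_iff.2 (Eq.symm hb)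

theorem Gr.comp {p : ι → X} {q : κ → X} {s : μ → X} {f : F Γ ι →ₗ[ZG Γ] F Γ κ}
    {g : F Γ κ →ₗ[ZG Γ] F Γ μ} (h : Gr p q f) (h' : Gr q s g) : Gr p s (g ∘ₗ f) := by
  intro P y
  rw [LinearMap.comp_apply, h, h', LinearMap.comp_apply]

theorem Gr.symm {p : ι → X} {q : κ → X} {f : F Γ ι ≃ₗ[ZG Γ] F Γ κ} (h : Gr p q f.toLinearMap) :
    Gr q p f.symm.toLinearMap := by
  intro P y
  have h1 := h P (f.symm y)
  simp only [LinearEquiv.coe_coe, LinearEquiv.apply_symm_apply] at h1 ⊢
  rw [← h1, LinearEquiv.symm_apply_apply]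

end Pool.Agent.Lib.MP_551055_al.LS
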